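import Pool.Agent.SpF.Targets

set_option autoImplicit false

/-! The absorber. -/

namespace SpF
open Spider Finset

namespace ABS_

variable {V : Type} [Fintype V] [DecidableEq V]

lemma mem_vs {G : Finset (V × V)} {x : V} : x ∈ vs G ↔ (x, x) ∈ G := by
  unfold vs
  simp

omit [Fintype V] in
lemma mem_dg {U : Finset V} {p : V × V} : p ∈ dg U ↔ ∃ x ∈ U, (x, x) = p := by
  unfold dg
  rw [Finset.mem_image]

omit [Fintype V] in
lemma diag_mem_dg {U : Finset V} {x : V} : (x, x) ∈ dg U ↔ x ∈ U := by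
  rw [mem_dg]
  constructor
  · rintro ⟨y, hy, h⟩
    have h' : y = x := (Prod.ext_iff.1 h).1
    rw [← h']
    exact hy
  · intro h
    exact ⟨x, h, rfl⟩

lemma card_vs_le (G : Finset (V × V)) : (vs G).card ≤ G.card := by
  refine Finset.card_le_card_of_injOn (fun x => (x, x)) (fun x hx => ?_) ?_
  · exact mem_vs.1 hx
  · intro x _ y _ h
    exact (Prod.ext_iff.1 h).1

omit [Fintype V] in
lemma card_dg_le (U : Finset V) : (dg U).card ≤ U.card := Finset.card_image_le

end ABS_

open ABS_ in
theorem p_ABS (h1 : T_TEMPL) (h2 : T_GREEDY) (h3 : T_UNION) : T_ABS := by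
  obtain ⟨D₀, hT⟩ := h1
  refine ⟨D₀ + 8, by omega, ?_⟩
  intro V _ _ sc Good R Y K m 𝒢 hRG hRne hmR h𝒢 hcard
  set r := R.card with hr
  have hr1 : 1 ≤ r := Finset.card_pos.2 hRne
  obtain ⟨E, hE, hEf⟩ := hT r m hr1 hmR
  -- new vertices
  set W := Good \ (R ∪ vs Y) with hW
  have hDr : 8 * r ≤ (D₀ + 8) * (K + 1) * r := by
    have : 8 ≤ (D₀ + 8) * (K + 1) := by nlinarith [Nat.zero_le (D₀ * K), Nat.zero_le K]
    exact Nat.mul_le_mul_right r this
  have hWc : 7 * r ≤ W.card := by
    have a1 : Good.card - (R ∪ vs Y).card ≤ W.card := Finset.le_card_sdiff _ _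
    have a2 : (R ∪ vs Y).card ≤ r + Y.card :=
      (Finset.card_union_le _ _).trans (Nat.add_le_add_left (card_vs_le Y) _)
    omega
  obtain ⟨e⟩ : Nonempty ((Fin (3 * r + m) ⊕ Fin (3 * r)) ↪ W) := by
    refine Function.Embedding.nonempty_of_card_le ?_
    rw [Fintype.card_sum, Fintype.card_fin, Fintype.card_fin, Fintype.card_coe]
    omega
  set eR : Fin r ≃ R := R.equivFin.symm with heR
  set ex : Fin (3 * r + m) → V := fun i => (e (Sum.inl i)).1 with hex
  set ey0 : Fin (3 * r) → V := fun i => (e (Sum.inr i)).1 with hey0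
  set ey : Fin (3 * r) ⊕ Fin r → V := Sum.elim ey0 (fun z => (eR z).1) with hey
  have hWprop : ∀ s, (e s).1 ∈ Good ∧ (e s).1 ∉ R ∧ (e s).1 ∉ vs Y := by
    intro s
    have h4 : (e s).1 ∈ Good \ (R ∪ vs Y) := (e s).2
    rw [Finset.mem_sdiff, Finset.mem_union] at h4
    push Not at h4
    exact h4
  have hexinj : Function.Injective ex := by
    intro i j hij
    have : e (Sum.inl i) = e (Sum.inl j) := Subtype.ext hij
    exact Sum.inl_injective (e.injective this)
  have hexy0 : ∀ i j, ex i ≠ ey0 j := by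
    intro i j hij
    have : e (Sum.inl i) = e (Sum.inr j) := Subtype.ext hij
    exact Sum.inl_ne_inr (e.injective this)
  have heyinj : Function.Injective ey := by
    rintro (i | i) (j | j) hij
    · have : e (Sum.inr i) = e (Sum.inr j) := Subtype.ext hij
      rw [Sum.inr_injective (e.injective this)]
    · exfalso
      have h' : ey0 i = (eR j).1 := hij
      exact (hWprop (Sum.inr i)).2.1 (by
        have : (e (Sum.inr i)).1 = (eR j).1 := h'
        rw [this]; exact (eR j).2)
    · exfalso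
      have h' : (eR i).1 = ey0 j := hij
      exact (hWprop (Sum.inr j)).2.1 (by
        have : (e (Sum.inr j)).1 = (eR i).1 := h'.symm
        rw [this]; exact (eR i).2)
    · have h' : (eR i).1 = (eR j).1 := hij
      rw [eR.injective (Subtype.ext h')]
  have hexy : ∀ i s, ex i ≠ ey s := by
    rintro i (j | j)
    · exact hexy0 i j
    · intro hij
      have h' : (e (Sum.inl i)).1 = (eR j).1 := hij
      exact (hWprop (Sum.inl i)).2.1 (by rw [h']; exact (eR j).2)
  have hexG : ∀ i, ex i ∈ Good := fun i => (hWprop _).1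
  have heyG : ∀ s, ey s ∈ Good := by
    rintro (i | i)
    · exact (hWprop _).1
    · exact hRG (eR i).2
  set X0 : Finset V := univ.image ex with hX0
  set Y0 : Finset V := univ.image ey0 with hY0
  have hX0c : X0.card ≤ 3 * r + m := by
    refine Finset.card_image_le.trans ?_
    rw [Finset.card_univ, Fintype.card_fin]
  have hY0c : Y0.card ≤ 3 * r := by
    refine Finset.card_image_le.trans ?_
    rw [Finset.card_univ, Fintype.card_fin]
  set YY : Finset (V × V) := Y ∪ dg R ∪ (dg X0 ∪ dg Y0) with hYY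
  have hYYc : YY.card ≤ Y.card + 8 * r := by
    have a1 := Finset.card_union_le (Y ∪ dg R) (dg X0 ∪ dg Y0)
    have a2 := Finset.card_union_le Y (dg R)
    have a3 := Finset.card_union_le (dg X0) (dg Y0)
    have a4 := card_dg_le R
    have a5 := card_dg_le X0
    have a6 := card_dg_le Y0
    rw [← hYY] at a1
    omega
  have hKE : K * E.card ≤ K * (D₀ * r) := Nat.mul_le_mul_left K hE
  have hbig : 8 * r + K * (D₀ * r) ≤ (D₀ + 8) * (K + 1) * r := by
    have : (D₀ + 8) * (K + 1) * r = 8 * r + K * (D₀ * r) + (D₀ * r + 8 * K * r) := by ring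
    omega
  obtain ⟨g, hg1, hg2⟩ := h2 (V × V) (Fin (3 * r + m) × (Fin (3 * r) ⊕ Fin r)) E
    (fun j => 𝒢 (ex j.1) (ey j.2)) YY K
    (fun j _ => (h𝒢 _ (hexG j.1) _ (heyG j.2) (hexy _ _)).1)
    (fun j _ G hG => ((h𝒢 _ (hexG j.1) _ (heyG j.2) (hexy _ _)).2.1 G hG).1)
    (fun j _ => by
      have := (h𝒢 _ (hexG j.1) _ (heyG j.2) (hexy _ _)).2.2
      show YY.card + K * E.card < (𝒢 (ex j.1) (ey j.2)).card
      omega)
  have hgp : ∀ j ∈ E, (g j).card ≤ K ∧ PA sc (ex j.1) (ey j.2) (g j) ∧ vs (g j) ⊆ Good :=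
    fun j hj => (h𝒢 _ (hexG j.1) _ (heyG j.2) (hexy _ _)).2.1 _ (hg1 j hj).1
  have hgY : ∀ j ∈ E, ∀ p ∈ g j, p ∉ YY := fun j hj p hp hq =>
    Finset.disjoint_left.1 (hg1 j hj).2 hp hq
  have hgX : ∀ j ∈ E, ∀ i, (ex i, ex i) ∉ g j := fun j hj i hp => hgY j hj _ hp (by
    rw [hYY, Finset.mem_union, Finset.mem_union, Finset.mem_union]
    right; left
    rw [diag_mem_dg, hX0]
    exact Finset.mem_image_of_mem _ (Finset.mem_univ _))
  have hgE : ∀ j ∈ E, ∀ s, (ey s, ey s) ∉ g j := by
    rintro j hj (i | i) hp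
    · refine hgY j hj _ hp ?_
      rw [hYY, Finset.mem_union, Finset.mem_union, Finset.mem_union]
      right; right
      rw [diag_mem_dg, hY0]
      exact Finset.mem_image_of_mem ey0 (Finset.mem_univ i)
    · refine hgY j hj _ hp ?_
      rw [hYY, Finset.mem_union, Finset.mem_union, Finset.mem_union]
      left; right
      rw [diag_mem_dg]
      exact (eR i).2
  refine ⟨dg X0 ∪ dg Y0 ∪ E.biUnion g, ?_, ?_, ?_, ?_, ?_⟩
  · -- disjointness
    rw [Finset.disjoint_left]
    intro p hp hq
    rw [Finset.mem_union, Finset.mem_union] at hp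
    have key : ∀ s, p = ((e s).1, (e s).1) → False := by
      intro s hs
      rw [hs, Finset.mem_union, diag_mem_dg, ← mem_vs] at hq
      rcases hq with hq | hq
      · exact (hWprop s).2.2 hq
      · exact (hWprop s).2.1 hq
    rcases hp with (hp | hp) | hp
    · obtain ⟨x, hx, rfl⟩ := mem_dg.1 hp
      obtain ⟨i, -, rfl⟩ := Finset.mem_image.1 hx
      exact key (Sum.inl i) rfl
    · obtain ⟨x, hx, rfl⟩ := mem_dg.1 hp
      obtain ⟨i, -, rfl⟩ := Finset.mem_image.1 hx
      exact key (Sum.inr i) rfl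
    · obtain ⟨j, hj, hpj⟩ := Finset.mem_biUnion.1 hp
      exact hgY j hj p hpj (Finset.mem_union_left _ hq)
  · -- cardinality
    have a1 := Finset.card_union_le (dg X0 ∪ dg Y0) (E.biUnion g)
    have a3 := Finset.card_union_le (dg X0) (dg Y0)
    have a5 := card_dg_le X0
    have a6 := card_dg_le Y0
    have a7 : (E.biUnion g).card ≤ E.card * K :=
      Finset.card_biUnion_le_card_mul _ _ _ fun j hj => (hgp j hj).1
    have a8 : E.card * K = K * E.card := Nat.mul_comm _ _
    omega
  · -- vertices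
    intro x hx
    rw [mem_vs, Finset.mem_union, Finset.mem_union, diag_mem_dg, diag_mem_dg] at hx
    rcases hx with (hx | hx) | hx
    · obtain ⟨i, -, rfl⟩ := Finset.mem_image.1 hx
      exact hexG i
    · obtain ⟨i, -, rfl⟩ := Finset.mem_image.1 hx
      exact heyG (Sum.inl i)
    · obtain ⟨j, hj, hpj⟩ := Finset.mem_biUnion.1 hx
      exact (hgp j hj).2.2 (mem_vs.2 hpj)
  · -- free colours
    intro p hp hpne
    rw [Finset.mem_union, Finset.mem_union] at hp
    rcases hp with (hp | hp) | hp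
    · obtain ⟨x, -, rfl⟩ := mem_dg.1 hp
      exact absurd rfl hpne
    · obtain ⟨x, -, rfl⟩ := mem_dg.1 hp
      exact absurd rfl hpne
    · obtain ⟨j, hj, hpj⟩ := Finset.mem_biUnion.1 hp
      exact ⟨ex j.1, hexG j.1, ey j.2, heyG j.2, hexy _ _, g j, (hg1 j hj).1, hpj⟩
  · -- tilings
    intro R' hR' hR'c
    set Z : Finset (Fin r) := univ.filter fun z => (eR z).1 ∈ R' with hZ
    have hZc : Z.card = m := by
      rw [← hR'c]
      refine Finset.card_bij (fun z _ => (eR z).1) (fun z hz => (Finset.mem_filter.1 hz).2)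
        (fun z _ w _ h => eR.injective (Subtype.ext h)) (fun x hx => ?_)
      refine ⟨eR.symm ⟨x, hR' hx⟩, ?_, ?_⟩
      · rw [hZ, Finset.mem_filter]
        refine ⟨Finset.mem_univ _, ?_⟩
        rw [Equiv.apply_symm_apply]
        exact hx
      · rw [Equiv.apply_symm_apply]
    obtain ⟨f, hfinj, hfE, hfZ⟩ := hEf Z hZc
    -- the image of f
    set Tg : Finset (Fin (3 * r) ⊕ Fin r) := univ.disjSum Z with hTg
    have himg : univ.image f = Tg := by
      refine Finset.eq_of_subset_of_card_le ?_ ?_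
      · intro s hs
        obtain ⟨i, -, rfl⟩ := Finset.mem_image.1 hs
        rw [hTg]
        rcases hfi : f i with y | z
        · rw [Finset.inl_mem_disjSum]; exact Finset.mem_univ _
        · rw [Finset.inr_mem_disjSum]; exact hfZ i z hfi
      · rw [hTg, Finset.card_disjSum, Finset.card_univ, Fintype.card_fin, hZc,
          Finset.card_image_of_injective _ hfinj, Finset.card_univ, Fintype.card_fin]
    set G' : Fin (3 * r + m) × (Fin (3 * r) ⊕ Fin r) → Finset (V × V) := fun j =>
      if j.2 = f j.1 then insert (ex j.1, ex j.1) (insert (ey j.2, ey j.2) (g j)) else g j with hG'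
    have hG'mem : ∀ j p, p ∈ G' j ↔ p ∈ g j ∨ (j.2 = f j.1 ∧
        (p = (ex j.1, ex j.1) ∨ p = (ey j.2, ey j.2))) := by
      intro j p
      rw [hG']
      dsimp only
      split_ifs with h
      · rw [Finset.mem_insert, Finset.mem_insert]
        tauto
      · tauto
    have hunion : dg X0 ∪ dg Y0 ∪ E.biUnion g ∪ dg R' = E.biUnion G' := by
      ext p
      rw [Finset.mem_union, Finset.mem_union, Finset.mem_union, Finset.mem_biUnion,
        Finset.mem_biUnion]
      constructor
      · rintro (((hp | hp) | ⟨j, hj, hp⟩) | hp)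
        · obtain ⟨x, hx, rfl⟩ := mem_dg.1 hp
          obtain ⟨i, -, rfl⟩ := Finset.mem_image.1 hx
          exact ⟨(i, f i), hfE i, (hG'mem _ _).2 (Or.inr ⟨rfl, Or.inl rfl⟩)⟩
        · obtain ⟨x, hx, rfl⟩ := mem_dg.1 hp
          obtain ⟨y, -, rfl⟩ := Finset.mem_image.1 hx
          have : Sum.inl y ∈ univ.image f := by
            rw [himg, hTg, Finset.inl_mem_disjSum]; exact Finset.mem_univ _
          obtain ⟨i, -, hi⟩ := Finset.mem_image.1 this
          refine ⟨(i, f i), hfE i, (hG'mem _ _).2 (Or.inr ⟨rfl, Or.inr ?_⟩)⟩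
          show (ey0 y, ey0 y) = (ey (f i), ey (f i))
          rw [hi]
          rfl
        · exact ⟨j, hj, (hG'mem _ _).2 (Or.inl hp)⟩
        · obtain ⟨x, hx, rfl⟩ := mem_dg.1 hp
          have : Sum.inr (eR.symm ⟨x, hR' hx⟩) ∈ univ.image f := by
            rw [himg, hTg, Finset.inr_mem_disjSum, hZ, Finset.mem_filter,
              Equiv.apply_symm_apply]
            exact ⟨Finset.mem_univ _, hx⟩
          obtain ⟨i, -, hi⟩ := Finset.mem_image.1 this
          refine ⟨(i, f i), hfE i, (hG'mem _ _).2 (Or.inr ⟨rfl, Or.inr ?_⟩)⟩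
          show (x, x) = (ey (f i), ey (f i))
          rw [hi]
          show (x, x) = ((eR (eR.symm ⟨x, hR' hx⟩)).1, (eR (eR.symm ⟨x, hR' hx⟩)).1)
          rw [Equiv.apply_symm_apply]
      · rintro ⟨j, hj, hp⟩
        rcases (hG'mem _ _).1 hp with hp | ⟨hjf, rfl | rfl⟩
        · exact Or.inl (Or.inr ⟨j, hj, hp⟩)
        · left; left; left
          rw [diag_mem_dg]
          exact Finset.mem_image_of_mem _ (Finset.mem_univ _)
        · have h4 : j.2 ∈ univ.image f := by
            rw [hjf]
            exact Finset.mem_image_of_mem _ (Finset.mem_univ _)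
          rw [himg, hTg] at h4
          rcases hj2 : j.2 with y | z
          · left; left; right
            rw [diag_mem_dg]
            exact Finset.mem_image_of_mem ey0 (Finset.mem_univ y)
          · right
            rw [diag_mem_dg]
            rw [hj2, Finset.inr_mem_disjSum, hZ, Finset.mem_filter] at h4
            exact h4.2
    rw [hunion]
    refine h3 V sc _ E G' (fun j hj => ?_) (fun i hi j hj hij => ?_)
    · obtain ⟨-, hPA, -⟩ := hgp j hj
      rw [hG']
      dsimp only
      split_ifs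
      · exact hPA.2.2.2
      · exact hPA.2.2.1
    · rw [Finset.disjoint_left]
      intro p hp hq
      rcases (hG'mem _ _).1 hp with hp | ⟨hif, hp⟩ <;> rcases (hG'mem _ _).1 hq with hq | ⟨hjf, hq⟩
      · exact Finset.disjoint_left.1 (hg2 i hi j hj hij) hp hq
      · rcases hq with rfl | rfl
        · exact hgX i hi _ hp
        · exact hgE i hi _ hp
      · rcases hp with rfl | rfl
        · exact hgX j hj _ hq
        · exact hgE j hj _ hq
      · rcases hp with rfl | rfl <;> rcases hq with hq | hq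
        · have h5 : i.1 = j.1 := hexinj (Prod.ext_iff.1 hq).1
          exact hij (Prod.ext h5 (by rw [hif, hjf, h5]))
        · exact hexy _ _ (Prod.ext_iff.1 hq).1
        · exact hexy _ _ (Prod.ext_iff.1 hq).1.symm
        · have h5 : i.2 = j.2 := heyinj (Prod.ext_iff.1 hq).1
          have h6 : i.1 = j.1 := hfinj (by rw [← hif, ← hjf, h5])
          exact hij (Prod.ext h6 h5)

end SpF
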