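import Pool.Agent.SpF.CORE

namespace SpF
open Spider Finset

namespace ASM_

lemma fam_mono {V : Type} [Fintype V] [DecidableEq V] {K : ℕ} {c c' : ℝ}
    {P : Finset (V × V) → Prop} (h : Fam K c P) (hc : c' ≤ c) : Fam K c' P := by
  obtain ⟨𝒢, h1, h2, h3⟩ := h
  refine ⟨𝒢, h1, h2, le_trans ?_ h3⟩
  exact mul_le_mul_of_nonneg_right hc (Nat.cast_nonneg _)

lemma h1_mono {V : Type} [Fintype V] [DecidableEq V] {sc : SC V} {Good : Finset V} {K : ℕ}
    {c c' : ℝ} (h : H1 sc Good K c) (hc : c' ≤ c) : H1 sc Good K c' :=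
  ⟨fun x hx y hy hxy => fam_mono (h.pa x hx y hy hxy) hc,
    fun x hx y hy hxy => fam_mono (h.cl x hx y hy hxy) hc,
    fun w hw => fam_mono (h.co w hw) hc, fam_mono h.t6 hc, fam_mono h.t8 hc⟩

end ASM_

open ASM_ in
theorem p_ASM (hcore : T_CORE) (hom : T_OMEGA) : T_ASM := by
  obtain ⟨D, hD0, hcore⟩ := hcore
  intro K c cx κ η hc hcx hcx1 hcxc hκ hη hη1 hκx hκη
  set m1 : ℝ := min cx η with hm1
  have hm1pos : 0 < m1 := lt_min hcx hη
  have hm1x : m1 ≤ cx := min_le_left _ _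
  have hm1η : m1 ≤ η := min_le_right _ _
  have hD1 : (1 : ℝ) ≤ D := by exact_mod_cast hD0
  have hK0 : (0 : ℝ) ≤ K := Nat.cast_nonneg _
  have hDK : (0 : ℝ) < D * (K + 1) := by positivity
  set ρ : ℝ := m1 / (64 * (D * (K + 1))) with hρ
  have hρpos : 0 < ρ := by positivity
  have hρm : ρ * (64 * (D * (K + 1))) = m1 := by rw [hρ]; field_simp
  have hDKK : (K : ℝ) + 1 ≤ D * (K + 1) := le_mul_of_one_le_left (by positivity) hD1
  have hρK : ρ * (2 * (K + 1)) ≤ 1 := by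
    have : ρ * (2 * (K + 1)) ≤ ρ * (64 * (D * (K + 1))) :=
      mul_le_mul_of_nonneg_left (by linarith) hρpos.le
    linarith [hm1x, hcx1]
  have hρ1 : ρ * 64 ≤ m1 := by
    have : ρ * 64 ≤ ρ * (64 * (D * (K + 1))) :=
      mul_le_mul_of_nonneg_left (by linarith) hρpos.le
    linarith
  obtain ⟨c', N₁, hc', hom⟩ := hom K (min c 1) cx ρ (lt_min hc one_pos) (min_le_right _ _) hcx hcx1
    hρpos hρK
  set m0 : ℝ := min (ρ / 4) (c' / (4 * (K + 1))) with hm0
  have hm0pos : 0 < m0 := lt_min (by positivity) (by positivity)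
  have hm0ρ : m0 ≤ ρ / 4 := min_le_left _ _
  have hm0c : m0 * (4 * (K + 1)) ≤ c' := by
    have h1 : m0 ≤ c' / (4 * (K + 1)) := min_le_right _ _
    rwa [le_div_iff₀ (by positivity)] at h1
  refine ⟨m1 / 100, m0 / (2 * (K + 1)), max N₁ (⌈50 / m0⌉₊ + 1), by positivity, by positivity, ?_⟩
  intro V _ _ sc Good hN hB h1 h2 h3 t ht1 ht2
  set N := Fintype.card V with hNdef
  have hN1 : N₁ ≤ N := le_trans (le_max_left _ _) hN
  have hN2 : 50 / m0 < N := by
    have h4 : ⌈50 / m0⌉₊ + 1 ≤ N := le_trans (le_max_right _ _) hN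
    have h5 : 50 / m0 ≤ (⌈50 / m0⌉₊ : ℝ) := Nat.le_ceil _
    have h6 : ((⌈50 / m0⌉₊ + 1 : ℕ) : ℝ) ≤ N := by exact_mod_cast h4
    push_cast at h6
    linarith
  have hNpos : (0 : ℝ) < N := lt_of_le_of_lt (by positivity) hN2
  have hmN : 50 < m0 * N := by
    rw [div_lt_iff₀ hm0pos] at hN2
    linarith
  have hnb : ((univ \ Good).card : ℝ) ≤ κ * N := hB
  have hGc : (Good.card : ℝ) + (univ \ Good).card = N := by
    have h4 := Finset.card_sdiff_add_card_eq_card (Finset.subset_univ Good)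
    rw [Finset.card_univ] at h4
    rw [hNdef, ← h4]
    push_cast
    ring
  have hκN : 100 * ((K + 1) * (κ * N)) ≤ m1 * N := by
    have h4 : 100 * (K + 1) * κ ≤ m1 := le_min hκx hκη
    have h5 := mul_le_mul_of_nonneg_right h4 hNpos.le
    linarith
  have hKnb : 100 * (((K : ℝ) + 1) * (univ \ Good).card) ≤ m1 * N := by
    have h4 : ((K : ℝ) + 1) * (univ \ Good).card ≤ (K + 1) * (κ * N) :=
      mul_le_mul_of_nonneg_left hnb (by positivity)
    linarith
  have hnbK : ((univ \ Good).card : ℝ) ≤ (K + 1) * (univ \ Good).card := by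
    have : (0 : ℝ) ≤ K * (univ \ Good).card := by positivity
    linarith
  have hm11 : m1 * N ≤ N := by
    have : m1 ≤ 1 := le_trans hm1x hcx1
    have h5 := mul_le_mul_of_nonneg_right this hNpos.le
    linarith
  obtain ⟨Ω, p, px, q, r, hOM, hp, hpx, hq, hr, hRu, hRl⟩ := hom V sc Good hN1 (by
    rw [← hNdef]
    linarith) (h1_mono h1 (min_le_left _ _)) h2
  rw [← hNdef] at hp hpx hq hr hRu hRl
  have hcx4 : cx ≤ min c 1 := le_min hcxc hcx1
  have hpN : cx / 4 * N ≤ p :=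
    le_trans (mul_le_mul_of_nonneg_right (by linarith) hNpos.le) hp
  have hLc : ((N - 2 * t : ℕ) : ℝ) ≤ m1 / 50 * N := by
    rw [Nat.cast_sub ht2]
    push_cast
    linarith
  have hxm : m1 * N ≤ cx * N := mul_le_mul_of_nonneg_right hm1x hNpos.le
  have hηm : m1 * N ≤ η * N := mul_le_mul_of_nonneg_right hm1η hNpos.le
  have hm1N : 0 < m1 * N := by positivity
  have hDR : 32 * ((D : ℝ) * (K + 1) * (vs Ω ∩ Good).card) ≤ m1 * N := by
    have h4 : (D : ℝ) * (K + 1) * (vs Ω ∩ Good).card ≤ D * (K + 1) * (2 * ρ * N) :=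
      mul_le_mul_of_nonneg_left hRu hDK.le
    have h5 : 32 * ((D : ℝ) * (K + 1) * (2 * ρ * N)) = ρ * (64 * (D * (K + 1))) * N := by ring
    rw [hρm] at h5
    linarith
  have hρN : ρ * 64 * N ≤ m1 * N := mul_le_mul_of_nonneg_right hρ1 hNpos.le
  have hR32 : 32 * ((vs Ω ∩ Good).card : ℝ) ≤ m1 * N := by linarith
  have hr32 : 32 * (r : ℝ) ≤ m1 * N := by linarith
  set μ : ℕ := ⌊m0 * N⌋₊ with hμ
  have hμu : (μ : ℝ) ≤ m0 * N := Nat.floor_le (by positivity)
  have hμl : m0 * N < μ + 1 := Nat.lt_floor_add_one _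
  set k : ℕ := ⌊m0 / (2 * (K + 1)) * N⌋₊ with hk
  have hku : (k : ℝ) ≤ m0 / (2 * (K + 1)) * N := Nat.floor_le (by positivity)
  have hkK : (K + 1) * (k : ℝ) ≤ m0 * N / 2 := by
    have h4 : (K + 1) * (k : ℝ) ≤ (K + 1) * (m0 / (2 * (K + 1)) * N) :=
      mul_le_mul_of_nonneg_left hku (by positivity)
    have h5 : (K + 1) * (m0 / (2 * (K + 1)) * N) = m0 * N / 2 := by
      field_simp
    linarith
  have hk0 : (0 : ℝ) ≤ k := Nat.cast_nonneg _
  have hKk : (K : ℝ) * k ≤ m0 * N / 2 := by linarith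
  refine hcore V sc Good K Ω p px q r k μ t η (m0 / (2 * (K + 1))) hOM h3 rfl ht2 ?_ ?_ ?_ ?_ ?_ ?_
    ?_ ?_ ?_ ?_
  · rw [← Finset.card_pos]
    have : (0 : ℝ) < (vs Ω ∩ Good).card := lt_of_lt_of_le (by positivity) hRl
    exact_mod_cast this
  · have : (((vs Ω ∩ Good).card + (N - 2 * t) : ℕ) : ℝ) ≤ Good.card := by
      push_cast [ht2] at hLc ⊢
      linarith
    exact_mod_cast this
  · have : (((N - 2 * t) + (K + 1) * (univ \ Good).card : ℕ) : ℝ) < px := by
      push_cast [ht2] at hLc ⊢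
      linarith
    exact_mod_cast this
  · have : (((N - 2 * t) + (K + 1) * (univ \ Good).card + D * (K + 1) * (vs Ω ∩ Good).card : ℕ) : ℝ)
        < p := by
      push_cast [ht2] at hLc ⊢
      linarith
    exact_mod_cast this
  · have : (((N - 2 * t) + (K + 1) * (univ \ Good).card + D * (K + 1) * (vs Ω ∩ Good).card : ℕ) : ℝ)
        ≤ Good.card := by
      push_cast [ht2] at hLc ⊢
      linarith
    exact_mod_cast this
  · rw [← hNdef]
    push_cast [ht2] at hLc ⊢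
    clear hcore hom hOM h3 h1 h2
    linarith
  · rw [← hNdef]
    push_cast
    linarith
  · have : ((K * k + 24 : ℕ) : ℝ) ≤ μ := by
      push_cast
      linarith
    exact_mod_cast this
  · have : (μ : ℝ) ≤ (vs Ω ∩ Good).card := by
      have : m0 * N ≤ ρ / 4 * N := mul_le_mul_of_nonneg_right hm0ρ hNpos.le
      linarith
    exact_mod_cast this
  · have : ((K * (k + μ) : ℕ) : ℝ) < q := by
      push_cast
      have h4 : (K : ℝ) * μ ≤ K * (m0 * N) := mul_le_mul_of_nonneg_left hμu hK0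
      have h5 : m0 * (4 * (K + 1)) * N ≤ c' * N := mul_le_mul_of_nonneg_right hm0c hNpos.le
      have h6 : 0 < m0 * N := by positivity
      have h7 : 0 ≤ K * (m0 * N) := by positivity
      linarith
    exact_mod_cast this

end SpF
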