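import Pool.Agent.SpF.Targets

/-!
# Closing the uncovered ends (`T_CLOSE`)
-/

namespace SpF
open Spider Finset

namespace CLOSE_

variable {V : Type} [Fintype V] [DecidableEq V]

omit [Fintype V] in
lemma mem_dg {U : Finset V} {x : V} : (x, x) ∈ dg U ↔ x ∈ U := by
  unfold dg
  rw [mem_image]
  constructor
  · rintro ⟨a, ha, he⟩
    have h : a = x := (Prod.ext_iff.1 he).1
    exact h ▸ ha
  · exact fun h => ⟨x, h, rfl⟩

lemma mem_vs {G : Finset (V × V)} {x : V} : x ∈ vs G ↔ (x, x) ∈ G := by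
  unfold vs
  rw [mem_filter]
  exact ⟨fun h => h.2, fun h => ⟨mem_univ _, h⟩⟩

end CLOSE_

open CLOSE_

theorem p_CLOSE : T_CLOSE := by
  intro V _ _ sc S M O s G hPS hO hlab hs hsi hCL hdis hdisS
  have hCL2 : ∀ e ∈ O, ∃ (S' : Finset V) (M' : Finset (V × V)),
    e ∈ S' ∧ S' ∪ M'.image Prod.snd = insert e (vs (G e)) ∧ unc S' M' = ∅ ∧
    (∀ p ∈ M', p.1 ∈ S') ∧ (∀ p ∈ M', p.2 ∉ S') ∧
    (∀ p ∈ M', ∀ p' ∈ M', p.1 = p'.1 → p = p') ∧
    (∀ p ∈ M', ∀ p' ∈ M', p.2 = p'.2 → p = p') ∧
    (∀ p ∈ M', ∀ p' ∈ M', sc.col p.1 p.2 = sc.col p'.1 p'.2 → p = p') ∧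
    (∀ p ∈ M', sc.col p.1 p.2 ∈ G e ∨ sc.col p.1 p.2 = (s e, s e)) ∧
    (∀ p ∈ M', ∀ z, sc.col p.1 p.2 = (z, z) → z = s e ∨ (z ∈ S' ∧ z ≠ e)) :=
    fun e he => (hCL e he).2.2
  choose! Sf Mf h1 h2 h3 h4 h5 h6 h7 h8 h9 h10 using hCL2
  -- basic separations
  have hOS : ∀ e ∈ O, e ∈ S ∧ ∀ p ∈ M, p.1 ≠ e := fun e he => mem_unc.1 (hO he)
  have hfst : ∀ x, x ∈ S → x ∉ unc S M → x ∈ M.image Prod.fst := by
    intro x hx hxu
    by_contra hcon
    exact hxu (mem_sdiff.2 ⟨hx, hcon⟩)
  have hfS : ∀ x, x ∈ M.image Prod.fst → x ∈ S := by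
    intro x hx
    obtain ⟨p, hp, rfl⟩ := mem_image.1 hx
    exact hPS.row p hp
  have hvS : ∀ e ∈ O, ∀ x ∈ vs (G e), x ∉ S := by
    intro e he x hx hxS
    refine disjoint_left.1 (hdisS e he) (mem_vs.1 hx) ?_
    exact mem_union_left _ (mem_union_left _ (mem_dg.2 hxS))
  have hvM : ∀ e ∈ O, ∀ x ∈ vs (G e), ∀ p ∈ M, p.2 ≠ x := by
    intro e he x hx p hp hpx
    refine disjoint_left.1 (hdisS e he) (mem_vs.1 hx) ?_
    refine mem_union_left _ (mem_union_right _ (mem_dg.2 ?_))
    exact mem_image.2 ⟨p, hp, hpx⟩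
  have hGM : ∀ e ∈ O, ∀ p ∈ M, sc.col p.1 p.2 ∉ G e := by
    intro e he p hp hmem
    refine disjoint_left.1 (hdisS e he) hmem ?_
    exact mem_union_right _ (mem_image.2 ⟨p, hp, rfl⟩)
  have hGS : ∀ e ∈ O, ∀ x ∈ S, (x, x) ∉ G e := by
    intro e he x hx hmem
    refine disjoint_left.1 (hdisS e he) hmem ?_
    exact mem_union_left _ (mem_union_left _ (mem_dg.2 hx))
  have hin1 : ∀ e ∈ O, ∀ x ∈ Sf e, x = e ∨ x ∈ vs (G e) := by
    intro e he x hx
    have : x ∈ insert e (vs (G e)) := by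
      rw [← h2 e he]
      exact mem_union_left _ hx
    exact mem_insert.1 this
  have hin2 : ∀ e ∈ O, ∀ p ∈ Mf e, p.2 ∈ vs (G e) := by
    intro e he p hp
    have h : p.2 ∈ insert e (vs (G e)) := by
      rw [← h2 e he]
      exact mem_union_right _ (mem_image.2 ⟨p, hp, rfl⟩)
    rcases mem_insert.1 h with h' | h'
    · exact absurd (h' ▸ h1 e he) (h5 e he p hp)
    · exact h'
  have hBd : ∀ e ∈ O, ∀ e' ∈ O, ∀ x, (x = e ∨ x ∈ vs (G e)) → (x = e' ∨ x ∈ vs (G e')) →
      e = e' := by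
    intro e he e' he' x hx hx'
    rcases hx with rfl | hx
    · rcases hx' with hx' | hx'
      · exact hx'
      · exact absurd (hOS x he).1 (hvS e' he' x hx')
    · rcases hx' with rfl | hx'
      · exact absurd (hOS x he').1 (hvS e he x hx)
      · by_contra hne
        exact disjoint_left.1 (hdis e he e' he' hne) (mem_vs.1 hx) (mem_vs.1 hx')
  have hsf : ∀ e ∈ O, s e ∈ M.image Prod.fst := fun e he => hfst _ (hs e he).1 (hs e he).2.1
  set St := M.image Prod.fst ∪ O.biUnion Sf with hSt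
  set Mt := M ∪ O.biUnion Mf with hMt
  have memS : ∀ x, x ∈ St ↔ x ∈ M.image Prod.fst ∨ ∃ e ∈ O, x ∈ Sf e := by
    intro x
    rw [hSt, mem_union, mem_biUnion]
  have memM : ∀ p, p ∈ Mt ↔ p ∈ M ∨ ∃ e ∈ O, p ∈ Mf e := by
    intro p
    rw [hMt, mem_union, mem_biUnion]
  -- an element of the first kind is not of the second kind
  have hsep1 : ∀ e ∈ O, ∀ p ∈ M, ¬ (p.1 = e ∨ p.1 ∈ vs (G e)) := by
    intro e he p hp h
    rcases h with h | h
    · exact (hOS e he).2 p hp h
    · exact hvS e he _ h (hPS.row p hp)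
  refine ⟨St, Mt, ⟨?_, ?_, ?_, ?_, ?_, ?_⟩, ?_, ?_, ?_⟩
  · -- row
    intro p hp
    rcases (memM p).1 hp with hp | ⟨e, he, hp⟩
    · exact (memS _).2 (Or.inl (mem_image.2 ⟨p, hp, rfl⟩))
    · exact (memS _).2 (Or.inr ⟨e, he, h4 e he p hp⟩)
  · -- lab
    intro p hp hcon
    rcases (memM p).1 hp with hp | ⟨e, he, hp⟩
    · rcases (memS _).1 hcon with hc | ⟨e, he, hc⟩
      · exact hPS.lab p hp (hfS _ hc)
      · rcases hin1 e he _ hc with h | h
        · exact hPS.lab p hp (h ▸ (hOS e he).1)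
        · exact hvM e he _ h p hp rfl
    · have hv := hin2 e he p hp
      rcases (memS _).1 hcon with hc | ⟨e', he', hc⟩
      · exact hvS e he _ hv (hfS _ hc)
      · have hee := hBd e he e' he' p.2 (Or.inr hv) (hin1 e' he' _ hc)
        subst hee
        exact h5 e he p hp hc
  · -- i1
    intro p hp p' hp' heq
    rcases (memM p).1 hp with hp | ⟨e, he, hp⟩
    · rcases (memM p').1 hp' with hp' | ⟨e', he', hp'⟩
      · exact hPS.i1 p hp p' hp' heq
      · exact absurd (heq ▸ hin1 e' he' _ (h4 e' he' p' hp')) (hsep1 e' he' p hp)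
    · rcases (memM p').1 hp' with hp' | ⟨e', he', hp'⟩
      · exact absurd (heq ▸ hin1 e he _ (h4 e he p hp)) (hsep1 e he p' hp')
      · have hee := hBd e he e' he' p.1 (hin1 e he _ (h4 e he p hp))
          (heq ▸ hin1 e' he' _ (h4 e' he' p' hp'))
        subst hee
        exact h6 e he p hp p' hp' heq
  · -- i2
    intro p hp p' hp' heq
    rcases (memM p).1 hp with hp | ⟨e, he, hp⟩
    · rcases (memM p').1 hp' with hp' | ⟨e', he', hp'⟩
      · exact hPS.i2 p hp p' hp' heq
      · exact absurd heq (hvM e' he' _ (hin2 e' he' p' hp') p hp)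
    · rcases (memM p').1 hp' with hp' | ⟨e', he', hp'⟩
      · exact absurd heq.symm (hvM e he _ (hin2 e he p hp) p' hp')
      · have hee := hBd e he e' he' p.2 (Or.inr (hin2 e he p hp))
          (heq ▸ Or.inr (hin2 e' he' p' hp'))
        subst hee
        exact h7 e he p hp p' hp' heq
  · -- i3
    intro p hp p' hp' heq
    rcases (memM p).1 hp with hp | ⟨e, he, hp⟩
    · rcases (memM p').1 hp' with hp' | ⟨e', he', hp'⟩
      · exact hPS.i3 p hp p' hp' heq
      · rcases h9 e' he' p' hp' with h | h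
        · exact absurd (heq ▸ h) (hGM e' he' p hp)
        · exact absurd (heq.trans h) ((hs e' he').2.2 p hp)
    · rcases (memM p').1 hp' with hp' | ⟨e', he', hp'⟩
      · rcases h9 e he p hp with h | h
        · exact absurd (heq ▸ h) (hGM e he p' hp')
        · exact absurd (heq.symm.trans h) ((hs e he).2.2 p' hp')
      · have hee : e = e' := by
          by_contra hne
          rcases h9 e he p hp with h | h
          · rcases h9 e' he' p' hp' with h' | h'
            · exact disjoint_left.1 (hdis e he e' he' hne) h (heq ▸ h')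
            · rw [heq, h'] at h
              exact hGS e he _ (hs e' he').1 h
          · rcases h9 e' he' p' hp' with h' | h'
            · rw [← heq, h] at h'
              exact hGS e' he' _ (hs e he).1 h'
            · rw [heq, h'] at h
              exact hne (hsi e he e' he' (Prod.ext_iff.1 h).1.symm)
        subst hee
        exact h8 e he p hp p' hp' heq
  · -- star
    intro p hp z hz
    rcases (memM p).1 hp with hp | ⟨e, he, hp⟩
    · rcases hlab p hp z hz with h | h
      · exact (memS _).2 (Or.inr ⟨z, h, h1 z h⟩)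
      · exact (memS _).2 (Or.inl (hfst z (hPS.star p hp z hz) h))
    · rcases h10 e he p hp z hz with h | h
      · exact (memS _).2 (Or.inl (h ▸ hsf e he))
      · exact (memS _).2 (Or.inr ⟨e, he, h.1⟩)
  · -- unc
    rw [eq_empty_iff_forall_notMem]
    intro x hx
    obtain ⟨hxS, hxn⟩ := mem_unc.1 hx
    rcases (memS x).1 hxS with hc | ⟨e, he, hc⟩
    · obtain ⟨p, hp, hpx⟩ := mem_image.1 hc
      exact hxn p ((memM p).2 (Or.inl hp)) hpx
    · have : x ∈ unc (Sf e) (Mf e) :=
        mem_unc.2 ⟨hc, fun p hp => hxn p ((memM p).2 (Or.inr ⟨e, he, hp⟩))⟩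
      rw [h3 e he] at this
      exact notMem_empty x this
  · -- vertices
    ext x
    rw [mem_vs]
    constructor
    · intro hx
      rcases mem_union.1 hx with hx | hx
      · rcases (memS x).1 hx with hc | ⟨e, he, hc⟩
        · refine mem_union_left _ (mem_union_left _ (mem_union_left _ (mem_union_left _ ?_)))
          exact mem_dg.2 hc
        · rcases hin1 e he x hc with h | h
          · refine mem_union_left _ (mem_union_left _ (mem_union_right _ (mem_dg.2 ?_)))
            exact h ▸ he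
          · exact mem_union_right _ (mem_biUnion.2 ⟨e, he, mem_vs.1 h⟩)
      · obtain ⟨p, hp, rfl⟩ := mem_image.1 hx
        rcases (memM p).1 hp with hp | ⟨e, he, hp⟩
        · refine mem_union_left _ (mem_union_left _ (mem_union_left _ (mem_union_right _ ?_)))
          exact mem_dg.2 (mem_image.2 ⟨p, hp, rfl⟩)
        · exact mem_union_right _ (mem_biUnion.2 ⟨e, he, mem_vs.1 (hin2 e he p hp)⟩)
    · intro hx
      rcases mem_union.1 hx with hx | hx
      · rcases mem_union.1 hx with hx | hx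
        · rcases mem_union.1 hx with hx | hx
          · rcases mem_union.1 hx with hx | hx
            · exact mem_union_left _ ((memS x).2 (Or.inl (mem_dg.1 hx)))
            · obtain ⟨p, hp, rfl⟩ := mem_image.1 (mem_dg.1 hx)
              exact mem_union_right _ (mem_image.2 ⟨p, (memM p).2 (Or.inl hp), rfl⟩)
          · have hxO := mem_dg.1 hx
            exact mem_union_left _ ((memS x).2 (Or.inr ⟨x, hxO, h1 x hxO⟩))
        · obtain ⟨p, hp, hpx⟩ := mem_image.1 hx
          rcases hlab p hp x hpx with h | h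
          · exact mem_union_left _ ((memS x).2 (Or.inr ⟨x, h, h1 x h⟩))
          · exact mem_union_left _ ((memS x).2 (Or.inl (hfst x (hPS.star p hp x hpx) h)))
      · obtain ⟨e, he, hxe⟩ := mem_biUnion.1 hx
        have hxe' : x ∈ Sf e ∪ (Mf e).image Prod.snd := by
          rw [h2 e he]
          exact mem_insert_of_mem (mem_vs.2 hxe)
        rcases mem_union.1 hxe' with h | h
        · exact mem_union_left _ ((memS x).2 (Or.inr ⟨e, he, h⟩))
        · obtain ⟨p, hp, rfl⟩ := mem_image.1 h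
          exact mem_union_right _ (mem_image.2 ⟨p, (memM p).2 (Or.inr ⟨e, he, hp⟩), rfl⟩)
  · -- colours
    intro p hp
    rcases (memM p).1 hp with hp | ⟨e, he, hp⟩
    · exact mem_union_left _ (mem_union_right _ (mem_image.2 ⟨p, hp, rfl⟩))
    · rcases h9 e he p hp with h | h
      · exact mem_union_right _ (mem_biUnion.2 ⟨e, he, h⟩)
      · rw [h]
        refine mem_union_left _ (mem_union_left _ (mem_union_left _ (mem_union_left _ ?_)))
        exact mem_dg.2 (hsf e he)

end SpF
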