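import Pool.Agent.SpF.Targets

set_option autoImplicit false

/-! Small antisymmetric flow with given divergence. -/

namespace SpF
open Spider Finset

namespace FLOW_

theorem core (V : Type) [Fintype V] [DecidableEq V] (U : Finset V)
    (adj : V → V → Prop) [∀ a b, Decidable (adj a b)] (η κ : ℝ) (g : V → ℝ)
    (hsym : ∀ a b, adj a b → adj b a) (hirr : ∀ a, ¬ adj a a) (hη1 : η ≤ 1 / 100)
    (hU : 10 ≤ η * U.card)
    (hdeg : ∀ a ∈ U, ((U.filter fun b => ¬ adj a b).card : ℝ) ≤ η * U.card)
    (hg0 : ∑ a ∈ U, g a = 0) (hg : ∀ a ∈ U, |g a| ≤ κ) :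
    ∃ θ : V → ℝ, (∀ a ∈ U, ((U.filter fun b => adj a b).card : ℝ) * θ a -
        ∑ b ∈ U.filter (fun b => adj a b), θ b = U.card * g a) ∧
      ∀ a ∈ U, |θ a| ≤ 3 / 2 * κ := by
  classical
  set n : ℝ := (U.card : ℝ) with hn
  have hn0 : 0 ≤ n := by positivity
  have hn10 : 1000 ≤ n := by nlinarith
  set deg : V → ℝ := fun a => ((U.filter fun b => adj a b).card : ℝ) with hdegdef
  have hsum : ∀ a, deg a + ((U.filter fun b => ¬ adj a b).card : ℝ) = n := by
    intro a
    have := Finset.card_filter_add_card_filter_not (s := U) (fun b => adj a b)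
    show ((U.filter fun b => adj a b).card : ℝ) + ((U.filter fun b => ¬ adj a b).card : ℝ) =
      (U.card : ℝ)
    exact_mod_cast this
  have hdeg' : ∀ a ∈ U, n - η * n ≤ deg a := by
    intro a ha
    have h1 := hsum a
    have h2 := hdeg a ha
    linarith
  -- the matrix
  set A : Matrix V V ℝ := Matrix.of fun a b =>
    if a ∈ U then (if b ∈ U then (if a = b then deg a else 0) + (if adj a b then 0 else 1) else 0)
    else (if a = b then 1 else 0) with hA
  have hAU : ∀ a ∈ U, ∀ x : V → ℝ, ∑ b, A a b * x b =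
      deg a * x a + ∑ b ∈ U.filter (fun b => ¬ adj a b), x b := by
    intro a ha x
    have e1 : ∀ b, A a b * x b = if b ∈ U then
        ((if a = b then deg a * x b else 0) + (if ¬ adj a b then x b else 0)) else 0 := by
      intro b
      rw [hA, Matrix.of_apply, if_pos ha]
      by_cases hb : b ∈ U
      · rw [if_pos hb, if_pos hb]
        simp only [add_mul, ite_mul, zero_mul, one_mul, ite_not]
      · rw [if_neg hb, if_neg hb, zero_mul]
    simp_rw [e1]
    rw [← Finset.sum_filter, Finset.filter_mem_eq_inter, Finset.univ_inter, Finset.sum_add_distrib,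
      Finset.sum_ite_eq, if_pos ha, ← Finset.sum_filter]
  have hoff : ∀ a ∈ U, ∑ b ∈ univ.erase a, ‖A a b‖ ≤ η * n - 1 := by
    intro a ha
    have e1 : ∀ b ∈ univ.erase a, ‖A a b‖ =
        if b ∈ (U.filter fun b => ¬ adj a b).erase a then (1 : ℝ) else 0 := by
      intro b hb
      have hne : a ≠ b := (Finset.ne_of_mem_erase hb).symm
      rw [hA, Matrix.of_apply, if_pos ha]
      by_cases hbU : b ∈ U
      · by_cases hadj : adj a b
        · simp [hbU, hadj, hne]
        · simp [hbU, hadj, hne, hne.symm]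
      · simp [hbU]
    rw [Finset.sum_congr rfl e1, ← Finset.sum_filter, Finset.sum_const, nsmul_eq_mul, mul_one]
    have e2 : (univ.erase a).filter (fun b => b ∈ (U.filter fun b => ¬ adj a b).erase a) =
        (U.filter fun b => ¬ adj a b).erase a := by
      ext b
      simp only [Finset.mem_filter, Finset.mem_erase, Finset.mem_univ]
      tauto
    have hmem : a ∈ U.filter fun b => ¬ adj a b := Finset.mem_filter.2 ⟨ha, hirr a⟩
    rw [e2, Finset.card_erase_of_mem hmem, Nat.cast_sub (Finset.card_pos.2 ⟨a, hmem⟩)]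
    push_cast
    have := hdeg a ha
    linarith
  have hdiag : ∀ a ∈ U, A a a = deg a + 1 := by
    intro a ha
    rw [hA, Matrix.of_apply, if_pos ha, if_pos ha, if_pos rfl, if_neg (hirr a)]
  have hdet : A.det ≠ 0 := by
    refine det_ne_zero_of_sum_row_lt_diag fun a => ?_
    by_cases ha : a ∈ U
    · rw [hdiag a ha]
      have h1 := hoff a ha
      have h2 := hdeg' a ha
      have h3 : 0 ≤ deg a := by rw [hdegdef]; positivity
      rw [Real.norm_eq_abs, abs_of_nonneg (by linarith)]
      nlinarith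
    · have e1 : ∑ b ∈ univ.erase a, ‖A a b‖ = 0 := by
        refine Finset.sum_eq_zero fun b hb => ?_
        rw [hA, Matrix.of_apply, if_neg ha, if_neg (Finset.ne_of_mem_erase hb).symm, norm_zero]
      rw [e1, hA, Matrix.of_apply, if_neg ha, if_pos rfl]
      simp
  set rhs : V → ℝ := fun a => if a ∈ U then n * g a else 0 with hrhs
  set θ : V → ℝ := A⁻¹.mulVec rhs with hθ
  have hsol : A.mulVec θ = rhs := by
    rw [hθ, Matrix.mulVec_mulVec, Matrix.mul_nonsing_inv A (isUnit_iff_ne_zero.2 hdet),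
      Matrix.one_mulVec]
  have heq : ∀ a ∈ U, deg a * θ a + ∑ b ∈ U.filter (fun b => ¬ adj a b), θ b = n * g a := by
    intro a ha
    have h1 := congrFun hsol a
    rw [Matrix.mulVec, dotProduct, hAU a ha θ] at h1
    rw [h1, hrhs]
    simp only [ha, if_true]
  -- the sum of θ vanishes
  have hsplit : ∀ a, ∑ b ∈ U.filter (fun b => adj a b), θ b +
      ∑ b ∈ U.filter (fun b => ¬ adj a b), θ b = ∑ b ∈ U, θ b := fun a =>
    Finset.sum_filter_add_sum_filter_not U (fun b => adj a b) θ
  have hzero : ∑ b ∈ U, θ b = 0 := by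
    have h1 : ∑ a ∈ U, (deg a * θ a + ∑ b ∈ U.filter (fun b => ¬ adj a b), θ b) = 0 := by
      rw [Finset.sum_congr rfl heq, ← Finset.mul_sum, hg0, mul_zero]
    have h2 : ∑ a ∈ U, ∑ b ∈ U.filter (fun b => adj a b), θ b = ∑ a ∈ U, deg a * θ a := by
      have e1 : ∀ a, ∑ b ∈ U.filter (fun b => adj a b), θ b =
          ∑ b ∈ U, if adj a b then θ b else 0 := fun a => Finset.sum_filter _ _
      simp_rw [e1]
      rw [Finset.sum_comm]
      refine Finset.sum_congr rfl fun b _ => ?_
      rw [hdegdef]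
      have e2 : (U.filter fun a => adj a b) = U.filter fun a => adj b a := by
        ext a
        simp only [Finset.mem_filter]
        constructor
        · rintro ⟨h, h'⟩; exact ⟨h, hsym _ _ h'⟩
        · rintro ⟨h, h'⟩; exact ⟨h, hsym _ _ h'⟩
      rw [← Finset.sum_filter, e2, Finset.sum_const, nsmul_eq_mul]
    have h3 : ∀ a, deg a * θ a + ∑ b ∈ U.filter (fun b => ¬ adj a b), θ b =
        deg a * θ a - ∑ b ∈ U.filter (fun b => adj a b), θ b + ∑ b ∈ U, θ b := by
      intro a
      rw [← hsplit a]; ring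
    simp_rw [h3] at h1
    rw [Finset.sum_add_distrib, Finset.sum_sub_distrib, h2, sub_self, zero_add, Finset.sum_const,
      nsmul_eq_mul] at h1
    rcases mul_eq_zero.1 h1 with h | h
    · exfalso
      rw [← hn] at h
      linarith
    · exact h
  refine ⟨θ, fun a ha => ?_, ?_⟩
  · have h1 := heq a ha
    have h2 := hsplit a
    rw [hzero] at h2
    show deg a * θ a - _ = n * g a
    linarith
  -- the bound
  · have hne : U.Nonempty := by
      rw [Finset.nonempty_iff_ne_empty]
      rintro rfl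
      simp at hn
      linarith
    obtain ⟨a, ha, hmax⟩ := U.exists_max_image (fun a => |θ a|) hne
    have h1 := heq a ha
    have hmem : a ∈ U.filter fun b => ¬ adj a b := Finset.mem_filter.2 ⟨ha, hirr a⟩
    have h2 : |∑ b ∈ U.filter (fun b => ¬ adj a b), θ b| ≤ η * n * |θ a| := by
      refine (Finset.abs_sum_le_sum_abs _ _).trans ?_
      have h3 : ∑ b ∈ U.filter (fun b => ¬ adj a b), |θ b| ≤
          ∑ b ∈ U.filter (fun b => ¬ adj a b), |θ a| :=
        Finset.sum_le_sum fun b hb => hmax b (Finset.mem_filter.1 hb).1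
      refine h3.trans ?_
      rw [Finset.sum_const, nsmul_eq_mul]
      exact mul_le_mul_of_nonneg_right (hdeg a ha) (abs_nonneg _)
    have h4 : deg a * |θ a| ≤ n * κ + η * n * |θ a| := by
      have e1 : deg a * |θ a| = |n * g a - ∑ b ∈ U.filter (fun b => ¬ adj a b), θ b| := by
        rw [← h1, add_sub_cancel_right, abs_mul,
          abs_of_nonneg (show (0 : ℝ) ≤ deg a by rw [hdegdef]; positivity)]
      rw [e1]
      refine (abs_sub _ _).trans ?_
      have e2 : |n * g a| ≤ n * κ := by
        rw [abs_mul, abs_of_nonneg hn0]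
        exact mul_le_mul_of_nonneg_left (hg a ha) hn0
      linarith
    have h5 := mul_le_mul_of_nonneg_right (hdeg' a ha) (abs_nonneg (θ a))
    have h6 : (1 - 2 * η) * |θ a| ≤ κ := by
      have h7 : n * ((1 - 2 * η) * |θ a|) ≤ n * κ := by nlinarith
      exact le_of_mul_le_mul_left h7 (by linarith)
    have h8 : |θ a| ≤ 3 / 2 * κ := by
      have := abs_nonneg (θ a)
      nlinarith
    exact fun b hb => (hmax b hb).trans h8

end FLOW_

open FLOW_ in
theorem p_FLOW : T_FLOW := by
  intro V _ _ U adj _ η κ g hsym hirr hη hη1 hU hdeg hg0 hg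
  obtain ⟨θ, h1, h2⟩ := core V U adj η κ g hsym hirr hη1 hU hdeg hg0 hg
  have hn : (0 : ℝ) < U.card := by
    by_contra hcon
    push Not at hcon
    nlinarith
  have hne : U.Nonempty := Finset.card_pos.1 (by exact_mod_cast hn)
  obtain ⟨a0, ha0⟩ := hne
  have hκ : 0 ≤ κ := (abs_nonneg _).trans (hg a0 ha0)
  refine ⟨fun a b => if a ∈ U ∧ b ∈ U ∧ adj a b then (θ a - θ b) / U.card else 0, ?_, ?_, ?_, ?_⟩
  · intro a b
    by_cases h : a ∈ U ∧ b ∈ U ∧ adj a b
    · have h' : b ∈ U ∧ a ∈ U ∧ adj b a := ⟨h.2.1, h.1, hsym _ _ h.2.2⟩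
      simp only [h, h', and_self, if_true]
      ring
    · have h' : ¬ (b ∈ U ∧ a ∈ U ∧ adj b a) := fun h' => h ⟨h'.2.1, h'.1, hsym _ _ h'.2.2⟩
      simp only [if_neg h, if_neg h']
      ring
  · intro a b h
    exact if_neg h
  · intro a ha
    have e1 : ∀ b ∈ U, (if a ∈ U ∧ b ∈ U ∧ adj a b then (θ a - θ b) / (U.card : ℝ) else 0) =
        if adj a b then (θ a - θ b) / (U.card : ℝ) else 0 := by
      intro b hb
      simp only [ha, hb, true_and]
    rw [Finset.sum_congr rfl e1, ← Finset.sum_filter, ← Finset.sum_div, Finset.sum_sub_distrib,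
      Finset.sum_const, nsmul_eq_mul, h1 a ha]
    field_simp
  · intro a b
    dsimp only
    split_ifs with h
    · rw [abs_div, abs_of_pos hn]
      gcongr
      refine (abs_sub _ _).trans ?_
      linarith [h2 a h.1, h2 b h.2.1]
    · rw [abs_zero]
      positivity

end SpF
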