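import Pool.Agent.SpF.Targets

set_option autoImplicit false

/-!
# Near-uniform fractional perfect matching of a nearly complete graph
-/

namespace SpF
open Spider Finset

namespace FPM_

variable {V : Type} [Fintype V] [DecidableEq V]

theorem key (U : Finset V) (adj : V → V → Prop) [∀ a b, Decidable (adj a b)] (η : ℝ)
    (hsymm : ∀ a b, adj a b → adj b a) (hη : 0 < η) (hη1 : η ≤ 1 / 100)
    (hn : 10 ≤ η * U.card)
    (hU : ∀ a ∈ U, ((U.filter fun b => ¬ adj a b).card : ℝ) ≤ η * U.card)
    (s : V → ℝ) (ρ : ℝ)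
    (hs : ∀ a ∈ U, |((U.filter fun b => adj a b).card : ℝ) * s a +
      ∑ b ∈ U.filter (fun b => adj a b), s b| ≤ ρ) :
    ∀ a ∈ U, (U.card : ℝ) * (1 - 3 * η) * |s a| ≤ 3 / 2 * ρ := by
  set n : ℝ := (U.card : ℝ) with hndef
  have hnpos : 0 < n := by
    by_contra h
    push Not at h
    nlinarith
  set dg : V → ℝ := fun a => ((U.filter fun b => adj a b).card : ℝ) with hdg
  set nd : V → ℝ := fun a => ((U.filter fun b => ¬ adj a b).card : ℝ) with hnd
  have hsum : ∀ a, dg a + nd a = n := by
    intro a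
    have h := Finset.card_filter_add_card_filter_not (s := U) (fun b => adj a b)
    have h' : ((U.filter fun b => adj a b).card : ℝ) + ((U.filter fun b => ¬ adj a b).card : ℝ) =
        U.card := by exact_mod_cast h
    exact h'
  have hnd0 : ∀ a, 0 ≤ nd a := fun a => Nat.cast_nonneg _
  rcases U.eq_empty_or_nonempty with hE | hne
  · intro a ha; rw [hE] at ha; simp at ha
  obtain ⟨a0, ha0, hmax⟩ := Finset.exists_max_image U (fun a => |s a|) hne
  set m : ℝ := |s a0| with hm
  have hm0 : 0 ≤ m := abs_nonneg _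
  set S : ℝ := ∑ b ∈ U, s b with hS
  set q : V → ℝ := fun a => ∑ b ∈ U.filter (fun b => ¬ adj a b), s b with hq
  have hqb : ∀ a ∈ U, |q a| ≤ η * n * m := by
    intro a ha
    calc |q a| ≤ ∑ b ∈ U.filter (fun b => ¬ adj a b), |s b| := Finset.abs_sum_le_sum_abs _ _
      _ ≤ ∑ b ∈ U.filter (fun b => ¬ adj a b), m :=
          Finset.sum_le_sum fun b hb => hmax b (Finset.mem_filter.mp hb).1
      _ = nd a * m := by rw [Finset.sum_const, nsmul_eq_mul]
      _ ≤ η * n * m := mul_le_mul_of_nonneg_right (hU a ha) hm0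
  have hadj : ∀ a, ∑ b ∈ U.filter (fun b => adj a b), s b = S - q a := by
    intro a
    have := Finset.sum_filter_add_sum_filter_not U (fun b => adj a b) s
    rw [hS, hq]
    linarith
  have hdouble : ∑ a ∈ U, ∑ b ∈ U.filter (fun b => adj a b), s b = ∑ a ∈ U, dg a * s a := by
    have h1 : ∑ a ∈ U, ∑ b ∈ U.filter (fun b => adj a b), s b =
        ∑ a ∈ U, ∑ b ∈ U, if adj a b then s b else 0 :=
      Finset.sum_congr rfl fun a _ => Finset.sum_filter _ _
    rw [h1, Finset.sum_comm]
    refine Finset.sum_congr rfl fun b _ => ?_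
    rw [← Finset.sum_filter, Finset.sum_const, nsmul_eq_mul]
    have h2 : (U.filter fun a => adj a b) = U.filter fun a => adj b a := by
      ext a
      simp only [Finset.mem_filter]
      exact ⟨fun h => ⟨h.1, hsymm _ _ h.2⟩, fun h => ⟨h.1, hsymm _ _ h.2⟩⟩
    rw [h2]
  have hS1 : |S| ≤ ρ / 2 + η * n * m := by
    have h1 : |∑ a ∈ U, (dg a * s a + ∑ b ∈ U.filter (fun b => adj a b), s b)| ≤ n * ρ := by
      calc |∑ a ∈ U, (dg a * s a + ∑ b ∈ U.filter (fun b => adj a b), s b)|
          ≤ ∑ a ∈ U, |dg a * s a + ∑ b ∈ U.filter (fun b => adj a b), s b| :=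
            Finset.abs_sum_le_sum_abs _ _
        _ ≤ ∑ a ∈ U, ρ := Finset.sum_le_sum fun a ha => hs a ha
        _ = n * ρ := by rw [Finset.sum_const, nsmul_eq_mul]
    rw [Finset.sum_add_distrib, hdouble] at h1
    have h2 : ∑ a ∈ U, dg a * s a = n * S - ∑ a ∈ U, nd a * s a := by
      rw [hS, Finset.mul_sum, ← Finset.sum_sub_distrib]
      refine Finset.sum_congr rfl fun a _ => ?_
      rw [← hsum a]; ring
    have h3 : |∑ a ∈ U, nd a * s a| ≤ n * (η * n * m) := by
      calc |∑ a ∈ U, nd a * s a| ≤ ∑ a ∈ U, |nd a * s a| := Finset.abs_sum_le_sum_abs _ _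
        _ ≤ ∑ a ∈ U, η * n * m := by
            refine Finset.sum_le_sum fun a ha => ?_
            rw [abs_mul, abs_of_nonneg (hnd0 a)]
            exact mul_le_mul (hU a ha) (hmax a ha) (abs_nonneg _) (by positivity)
        _ = n * (η * n * m) := by rw [Finset.sum_const, nsmul_eq_mul]
    rw [h2] at h1
    have h4 : |2 * (n * S)| ≤ n * ρ + 2 * (n * (η * n * m)) := by
      have h5 : 2 * (n * S) = (n * S - ∑ a ∈ U, nd a * s a + (n * S - ∑ a ∈ U, nd a * s a)) +
          2 * ∑ a ∈ U, nd a * s a := by ring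
      rw [h5]
      refine (abs_add_le _ _).trans (add_le_add h1 ?_)
      rw [abs_mul, abs_two]
      exact mul_le_mul_of_nonneg_left h3 (by norm_num)
    rw [abs_mul, abs_two, abs_mul, abs_of_pos hnpos] at h4
    have h6 : n * |S| ≤ n * (ρ / 2 + η * n * m) := by nlinarith
    exact le_of_mul_le_mul_left h6 hnpos
  have hfin : n * (1 - 3 * η) * m ≤ 3 / 2 * ρ := by
    have h1 := hs a0 ha0
    rw [hadj a0] at h1
    have h2 : |dg a0 * s a0| ≤ ρ + |S| + |q a0| := by
      have h3 : dg a0 * s a0 = (dg a0 * s a0 + (S - q a0)) - S + q a0 := by ring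
      calc |dg a0 * s a0| = |(dg a0 * s a0 + (S - q a0)) - S + q a0| := by rw [← h3]
        _ ≤ |(dg a0 * s a0 + (S - q a0)) - S| + |q a0| := abs_add_le _ _
        _ ≤ |dg a0 * s a0 + (S - q a0)| + |S| + |q a0| := by
            gcongr; exact abs_sub _ _
        _ ≤ ρ + |S| + |q a0| := by gcongr
    have h4 : n * (1 - η) ≤ dg a0 := by
      have := hsum a0
      have h5 := hU a0 ha0
      have : nd a0 ≤ η * n := h5
      nlinarith
    have h6 : dg a0 * m = |dg a0 * s a0| := by
      rw [abs_mul, abs_of_nonneg (Nat.cast_nonneg _ : (0 : ℝ) ≤ dg a0)]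
    have h7 : n * (1 - η) * m ≤ dg a0 * m := mul_le_mul_of_nonneg_right h4 hm0
    have h8 := hqb a0 ha0
    nlinarith
  intro a ha
  refine le_trans ?_ hfin
  refine mul_le_mul_of_nonneg_left (hmax a ha) ?_
  have : 0 ≤ 1 - 3 * η := by linarith
  positivity

/-- the linear map -/
noncomputable def Lm (U : Finset V) (adj : V → V → Prop) [∀ a b, Decidable (adj a b)] :
    (V → ℝ) →ₗ[ℝ] (V → ℝ) where
  toFun s a := if a ∈ U then ((U.filter fun b => adj a b).card : ℝ) * s a +
      ∑ b ∈ U.filter (fun b => adj a b), s b else s a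
  map_add' s t := by
    funext a
    by_cases h : a ∈ U
    · simp only [Pi.add_apply, h, if_true, Finset.sum_add_distrib]; ring
    · simp only [Pi.add_apply, h, if_false]
  map_smul' c s := by
    funext a
    by_cases h : a ∈ U
    · simp only [Pi.smul_apply, smul_eq_mul, h, if_true, RingHom.id_apply, ← Finset.mul_sum]; ring
    · simp only [Pi.smul_apply, smul_eq_mul, h, if_false, RingHom.id_apply]

theorem Lm_mem (U : Finset V) (adj : V → V → Prop) [∀ a b, Decidable (adj a b)] (s : V → ℝ)
    (a : V) (ha : a ∈ U) : Lm U adj s a = ((U.filter fun b => adj a b).card : ℝ) * s a +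
      ∑ b ∈ U.filter (fun b => adj a b), s b := by
  change (if a ∈ U then _ else _) = _
  rw [if_pos ha]

theorem Lm_notMem (U : Finset V) (adj : V → V → Prop) [∀ a b, Decidable (adj a b)] (s : V → ℝ)
    (a : V) (ha : a ∉ U) : Lm U adj s a = s a := by
  change (if a ∈ U then _ else _) = _
  rw [if_neg ha]

end FPM_

open FPM_ in
theorem p_FPM : T_FPM := by
  intro V _ _ U adj _ η hsymm hirr hη hη1 hn hU
  have hnpos : (0 : ℝ) < U.card := by
    by_contra h
    push Not at h
    nlinarith
  have h13 : (0 : ℝ) < U.card * (1 - 3 * η) := by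
    have : 0 < 1 - 3 * η := by linarith
    positivity
  have hinj : Function.Injective (Lm U adj) := by
    rw [injective_iff_map_eq_zero]
    intro s hs
    funext a
    by_cases ha : a ∈ U
    · have h1 := key U adj η hsymm hη hη1 hn hU s 0 (fun b hb => by
        rw [← Lm_mem U adj s b hb, hs]; simp) a ha
      have h2 : |s a| ≤ 0 := by
        by_contra h3
        push Not at h3
        have := mul_pos h13 h3
        linarith
      exact abs_eq_zero.mp (le_antisymm h2 (abs_nonneg _))
    · have := Lm_notMem U adj s a ha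
      rw [hs] at this
      exact this.symm
  obtain ⟨s, hs⟩ := (LinearMap.injective_iff_surjective.mp hinj)
    (fun a => ((U.filter fun b => ¬ adj a b).card : ℝ))
  have hs1 : ∀ a ∈ U, ((U.filter fun b => adj a b).card : ℝ) * s a +
      ∑ b ∈ U.filter (fun b => adj a b), s b = ((U.filter fun b => ¬ adj a b).card : ℝ) := by
    intro a ha
    rw [← Lm_mem U adj s a ha, hs]
  have hbd : ∀ a ∈ U, |s a| ≤ 2 * η := by
    intro a ha
    have h1 := key U adj η hsymm hη hη1 hn hU s (η * U.card) (fun b hb => by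
      rw [hs1 b hb, abs_of_nonneg (Nat.cast_nonneg _)]; exact hU b hb) a ha
    have h2 : (U.card : ℝ) * ((1 - 3 * η) * |s a|) ≤ U.card * (3 / 2 * η) := by linarith
    have h3 := le_of_mul_le_mul_left h2 hnpos
    have h4 : 0 ≤ |s a| := abs_nonneg _
    nlinarith
  refine ⟨fun a b => if a ∈ U ∧ b ∈ U ∧ adj a b then (1 + s a + s b) / U.card else 0,
    ?_, ?_, ?_, ?_⟩
  · intro a b
    by_cases h : a ∈ U ∧ b ∈ U ∧ adj a b
    · have h' : b ∈ U ∧ a ∈ U ∧ adj b a := ⟨h.2.1, h.1, hsymm _ _ h.2.2⟩
      simp only [h, h', and_self, if_true]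
      ring
    · have h' : ¬ (b ∈ U ∧ a ∈ U ∧ adj b a) := fun h' => h ⟨h'.2.1, h'.1, hsymm _ _ h'.2.2⟩
      simp only [h, h', if_false]
  · intro a b h
    simp only [h, if_false]
  · intro a ha
    have h1 : ∑ b ∈ U, (if a ∈ U ∧ b ∈ U ∧ adj a b then (1 + s a + s b) / (U.card : ℝ) else 0) =
        ∑ b ∈ U.filter (fun b => adj a b), (1 + s a + s b) / (U.card : ℝ) := by
      rw [Finset.sum_filter]
      refine Finset.sum_congr rfl fun b hb => ?_
      by_cases h : adj a b
      · simp [ha, hb, h]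
      · simp [h]
    rw [h1, ← Finset.sum_div, Finset.sum_add_distrib, Finset.sum_const, nsmul_eq_mul,
      div_eq_one_iff_eq hnpos.ne']
    have h2 := hs1 a ha
    have h3 : ((U.filter fun b => adj a b).card : ℝ) + ((U.filter fun b => ¬ adj a b).card : ℝ) =
        U.card := by
      have := Finset.card_filter_add_card_filter_not (s := U) (fun b => adj a b)
      exact_mod_cast this
    linarith
  · intro a ha b hb hab
    have h1 : (if a ∈ U ∧ b ∈ U ∧ adj a b then (1 + s a + s b) / (U.card : ℝ) else 0) =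
        (1 + s a + s b) / (U.card : ℝ) := by rw [if_pos ⟨ha, hb, hab⟩]
    simp only [h1]
    have h2 := abs_le.mp (hbd a ha)
    have h3 := abs_le.mp (hbd b hb)
    constructor
    · apply div_le_div_of_nonneg_right _ hnpos.le
      linarith
    · apply div_le_div_of_nonneg_right _ hnpos.le
      linarith

end SpF
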