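import Pool.Agent.SpF.Targets

set_option autoImplicit false

/-! The full range from the high and the low regime. -/

namespace SpF
open Spider Finset

theorem p_FULL (h1 : T_HIGH) (h2 : T_LOW) : T_FULL := by
  obtain ⟨δ, εL, NL, hδ, hεL, hL⟩ := h2
  obtain ⟨εH, NH, hεH, hH⟩ := h1 δ hδ
  set ε : ℝ := min εL εH with hε
  have hε0 : 0 < ε := lt_min hεL hεH
  obtain ⟨n₁, hmid⟩ := good_mid (ε / 2) (by positivity)
  refine ⟨n₁ + NL + NH + 3, fun n t hn ht3 ht => ?_⟩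
  rcases le_or_gt (t : ℝ) ((1 / 2 - ε / 2) * n) with hcase | hcase
  · exact hmid n t (by omega) ht3 hcase
  intro C c hc
  set v : Fin n := ⟨0, by omega⟩ with hv
  have hx0 : (⟨1, by omega⟩ : Fin n) ≠ v := by
    rw [hv]; intro h; simp at h
  have hcard : Fintype.card {x : Fin n // x ≠ v} = n - 1 := by
    rw [Fintype.card_subtype_compl, Fintype.card_fin]; simp
  have hn2 : (2 : ℝ) ≤ n := by exact_mod_cast (by omega : 2 ≤ n)
  have hcast : ((Fintype.card {x : Fin n // x ≠ v} : ℕ) : ℝ) = (n : ℝ) - 1 := by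
    rw [hcard, Nat.cast_sub (by omega)]
    push_cast
    ring
  have hlow : ∀ ε' : ℝ, ε ≤ ε' →
      (1 / 2 - ε') * ((Fintype.card {x : Fin n // x ≠ v} : ℕ) : ℝ) ≤ t := by
    intro ε' hε'
    rw [hcast]
    have h3 : (1 / 2 - ε') * ((n : ℝ) - 1) ≤ (1 / 2 - ε) * ((n : ℝ) - 1) := by
      apply mul_le_mul_of_nonneg_right _ (by linarith)
      linarith
    nlinarith
  have h2t : 2 * t ≤ Fintype.card {x : Fin n // x ≠ v} := by
    rw [hcard]; omega
  have hdone : Done (toSC c v hc ⟨_, hx0⟩) t := by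
    rcases le_total (((univ.filter fun p : {x : Fin n // x ≠ v} × {x : Fin n // x ≠ v} =>
        p.1 ≠ p.2 ∧ ((toSC c v hc ⟨_, hx0⟩).col p.1 p.2).1 ≠
          ((toSC c v hc ⟨_, hx0⟩).col p.1 p.2).2).card : ℝ))
      (δ * ((Fintype.card {x : Fin n // x ≠ v} : ℕ) : ℝ) ^ 2) with h | h
    · exact hL _ _ (by rw [hcard]; omega) h t (hlow _ (min_le_left _ _)) h2t
    · exact hH _ _ (by rw [hcard]; omega) h t (hlow _ (min_le_right _ _)) h2t
  obtain ⟨a, b, h⟩ := good_of_done c v hc ⟨_, hx0⟩ hdone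
  exact ⟨v, a, b, h⟩

end SpF
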