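import Pool.Agent.SpF.Targets

/-!
# T_GREEDY: greedy choice of disjoint sets
-/

namespace SpF
open Spider Finset

namespace GREEDY_

/-- a pairwise disjoint family with more members than `X` has elements contains a set disjoint
from `X` -/
theorem exists_disjoint {I : Type} [DecidableEq I] (𝒢 : Finset (Finset I)) (X : Finset I)
    (hd : (𝒢 : Set (Finset I)).PairwiseDisjoint id) (hc : X.card < 𝒢.card) :
    ∃ G ∈ 𝒢, Disjoint G X := by
  by_contra hcon
  have h1 : ∀ G ∈ 𝒢, ∃ x, x ∈ G ∧ x ∈ X := by
    intro G hG
    by_contra h
    refine hcon ⟨G, hG, ?_⟩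
    rw [Finset.disjoint_left]
    intro x hx hx'
    exact h ⟨x, hx, hx'⟩
  haveI : Nonempty I := by
    obtain ⟨G, hG⟩ := Finset.card_pos.mp (by omega : 0 < 𝒢.card)
    obtain ⟨x, _⟩ := h1 G hG
    exact ⟨x⟩
  choose! f hf using h1
  have h2 : 𝒢.card ≤ X.card := by
    refine Finset.card_le_card_of_injOn f (fun G hG => (hf G hG).2) ?_
    intro G hG G' hG' hGG
    by_contra hne
    have h3 := hd hG hG' hne
    have h4 := (hf G hG).1
    have h5 := (hf G' hG').1
    rw [← hGG] at h5
    exact (Finset.disjoint_left.mp h3) h4 h5
  omega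

end GREEDY_

open GREEDY_ in
theorem p_GREEDY : T_GREEDY := by
  classical
  intro I J _ A 𝒢 Y K hd hK hc
  induction A using Finset.induction_on with
  | empty => exact ⟨fun _ => ∅, by simp, by simp⟩
  | @insert a A ha ih =>
    have hcard : (insert a A).card = A.card + 1 := Finset.card_insert_of_notMem ha
    obtain ⟨g, hg, hgd⟩ := ih (fun j hj => hd j (Finset.mem_insert_of_mem hj))
      (fun j hj => hK j (Finset.mem_insert_of_mem hj)) (fun j hj => by
        have h1 := hc j (Finset.mem_insert_of_mem hj)
        rw [hcard, Nat.mul_add] at h1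
        omega)
    have hX : (Y ∪ A.biUnion g).card ≤ Y.card + K * A.card := by
      refine (Finset.card_union_le _ _).trans (Nat.add_le_add_left ?_ _)
      refine Finset.card_biUnion_le.trans ?_
      rw [mul_comm]
      exact Finset.sum_le_card_nsmul A _ K
        (fun j hj => hK j (Finset.mem_insert_of_mem hj) _ (hg j hj).1)
    obtain ⟨G, hG, hGX⟩ := exists_disjoint (𝒢 a) (Y ∪ A.biUnion g)
      (hd a (Finset.mem_insert_self a A)) (by
        have h1 := hc a (Finset.mem_insert_self a A)
        rw [hcard, Nat.mul_add] at h1
        omega)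
    rw [Finset.disjoint_union_right] at hGX
    have hGg : ∀ j ∈ A, Disjoint G (g j) := fun j hj =>
      (Finset.disjoint_biUnion_right G A g).mp hGX.2 j hj
    have hne : ∀ j ∈ A, j ≠ a := fun j hj h => ha (h ▸ hj)
    refine ⟨Function.update g a G, ?_, ?_⟩
    · intro j hj
      rcases Finset.mem_insert.mp hj with h | h
      · rw [h, Function.update_self]
        exact ⟨hG, hGX.1⟩
      · rw [Function.update_of_ne (hne j h)]
        exact hg j h
    · intro i hi j hj hij
      rcases Finset.mem_insert.mp hi with hi' | hi'
      · rcases Finset.mem_insert.mp hj with hj' | hj'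
        · exact absurd (hi'.trans hj'.symm) hij
        · rw [hi', Function.update_self, Function.update_of_ne (hne j hj')]
          exact hGg j hj'
      · rcases Finset.mem_insert.mp hj with hj' | hj'
        · rw [hj', Function.update_self, Function.update_of_ne (hne i hi')]
          exact (hGg i hi').symm
        · rw [Function.update_of_ne (hne i hi'), Function.update_of_ne (hne j hj')]
          exact hgd i hi' j hj' hij

end SpF
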