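import Pool.Agent.SpF.Targets

/-!
# HCO, HTL: covers, closings, small tiles in the high regime
-/

namespace SpF
open Spider Finset

namespace HCO_

variable {V : Type} [Fintype V] [DecidableEq V]

lemma mem_vs {G : Finset (V × V)} {x : V} : x ∈ vs G ↔ (x, x) ∈ G := by
  unfold vs
  simp

lemma ne_iff {c : V × V} : c.1 ≠ c.2 ↔ ∀ z, c ≠ (z, z) := by
  constructor
  · intro h z hz
    apply h
    rw [hz]
  · intro h he
    exact h c.1 (Prod.ext rfl he.symm)

lemma filter_eq (sc : SC V) (x : V) :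
    (univ.filter fun y => y ≠ x ∧ (sc.col x y).1 ≠ (sc.col x y).2) = Fr sc x := by
  ext a
  rw [mem_Fr, mem_filter, ne_iff]
  simp

lemma mem_Rich {sc : SC V} {m : ℝ} {x : V} : x ∈ Rich sc m ↔ m ≤ ((Fr sc x).card : ℝ) := by
  unfold Rich
  rw [mem_filter, filter_eq]
  simp

/-- the numerical data -/
lemma fam1 {δ : ℝ} (hδ : 0 < δ) (hδ1 : δ ≤ 1) (sc : SC V)
    (hN : 8 / δ ≤ Fintype.card V)
    (hR : δ / 2 * Fintype.card V ≤ ((Rich sc (δ / 2 * Fintype.card V)).card : ℝ)) (e : V) :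
    ∃ 𝒢 : Finset (Finset (V × V)), (𝒢 : Set (Finset (V × V))).PairwiseDisjoint id ∧
      (∀ G ∈ 𝒢, IsG1 sc e G) ∧ (∀ G ∈ 𝒢, G.card ≤ 5) ∧
      δ ^ 2 / 256 * Fintype.card V ≤ 𝒢.card := by
  classical
  set N : ℝ := (Fintype.card V : ℝ) with hNn
  have hNpos : 0 < N := lt_of_lt_of_le (by positivity) hN
  have hN8 : 8 ≤ δ * N := by
    rw [div_le_iff₀ hδ] at hN
    linarith
  by_cases he : δ / 8 * N ≤ ((Fr sc e).card : ℝ)
  · obtain ⟨𝒢, g1, g2, g3, g4⟩ := fam_F1 sc e
    refine ⟨𝒢, g1, g2, g3, ?_⟩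
    have h2 : ((Fr sc e).card : ℝ) ≤ 4 * 𝒢.card := by exact_mod_cast g4
    have h3 : δ ^ 2 / 256 * N ≤ δ / 32 * N := by
      apply mul_le_mul_of_nonneg_right _ hNpos.le
      nlinarith
    linarith
  · push Not at he
    set Ri := Rich sc (δ / 2 * N) with hRi
    set m : ℕ := ⌈δ / 2 * N⌉₊ - 1 with hm
    have hc0 : 0 < ⌈δ / 2 * N⌉₊ := Nat.ceil_pos.2 (by positivity)
    obtain ⟨𝒢, g1, g2, g3, g4⟩ := fam_F2 sc e Ri m (by
      intro w hw
      have h1 := mem_Rich.1 hw
      have h2 := Nat.ceil_le.2 h1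
      omega)
    refine ⟨𝒢, g1, g2, g3, ?_⟩
    have h2 : δ / 4 * N ≤ ((Ri.card - ((Fr sc e).card + 1) : ℕ) : ℝ) := by
      have h0 : Ri.card ≤ (Ri.card - ((Fr sc e).card + 1)) + ((Fr sc e).card + 1) := by omega
      have h0' : (Ri.card : ℝ) ≤ ((Ri.card - ((Fr sc e).card + 1) : ℕ) : ℝ)
          + ((Fr sc e).card + 1) := by exact_mod_cast h0
      linarith
    have h3 : δ / 4 * N ≤ (m : ℝ) := by
      have h0 : ⌈δ / 2 * N⌉₊ ≤ m + 1 := by omega
      have h0' : ((⌈δ / 2 * N⌉₊ : ℕ) : ℝ) ≤ (m : ℝ) + 1 := by exact_mod_cast h0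
      have h1 : δ / 2 * N ≤ ((⌈δ / 2 * N⌉₊ : ℕ) : ℝ) := Nat.le_ceil _
      linarith
    have h4 : ((Ri.card - ((Fr sc e).card + 1) : ℕ) : ℝ) * (m : ℝ) ≤ 16 * N * 𝒢.card := by
      have h5 : (((Ri.card - ((Fr sc e).card + 1)) * m : ℕ) : ℝ) ≤
          ((16 * Fintype.card V * 𝒢.card : ℕ) : ℝ) := Nat.cast_le.2 g4
      push_cast at h5
      rw [← hNn] at h5
      exact h5
    have h5 : (δ / 4 * N) * (δ / 4 * N) ≤ 16 * N * 𝒢.card :=
      (mul_le_mul h2 h3 (by positivity) (by positivity)).trans h4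
    have h6 : 16 * N * (δ ^ 2 / 256 * N) ≤ 16 * N * 𝒢.card := by
      calc 16 * N * (δ ^ 2 / 256 * N) = (δ / 4 * N) * (δ / 4 * N) := by ring
        _ ≤ _ := h5
    exact le_of_mul_le_mul_left h6 (by positivity)

/-- removing two resources -/
lemma remove {𝒢 : Finset (Finset (V × V))} (h : (𝒢 : Set (Finset (V × V))).PairwiseDisjoint id)
    (a b : V × V) : 𝒢.card ≤ (𝒢.filter fun G => a ∉ G ∧ b ∉ G).card + 2 := by
  classical
  have h1 : ∀ c : V × V, (𝒢.filter fun G => c ∈ G).card ≤ 1 := by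
    intro c
    rw [card_le_one]
    intro G hG G' hG'
    rw [mem_filter] at hG hG'
    by_contra hne
    have := h hG.1 hG'.1 hne
    exact (disjoint_left.1 this) hG.2 hG'.2
  have h2 : 𝒢 ⊆ (𝒢.filter fun G => a ∉ G ∧ b ∉ G) ∪ (𝒢.filter fun G => a ∈ G) ∪
      (𝒢.filter fun G => b ∈ G) := by
    intro G hG
    rw [mem_union, mem_union, mem_filter, mem_filter, mem_filter]
    tauto
  have h3 := card_le_card h2
  have h4 := card_union_le ((𝒢.filter fun G => a ∉ G ∧ b ∉ G) ∪ (𝒢.filter fun G => a ∈ G))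
    (𝒢.filter fun G => b ∈ G)
  have h5 := card_union_le (𝒢.filter fun G => a ∉ G ∧ b ∉ G) (𝒢.filter fun G => a ∈ G)
  have h6 := h1 a
  have h7 := h1 b
  omega

/-- the structure given by a set of type `IsG1` -/
lemma str {sc : SC V} {e : V} {G : Finset (V × V)} (h : IsG1 sc e G) (he : (e, e) ∉ G) :
    ∃ (S : Finset V) (M : Finset (V × V)), e ∈ S ∧ PS sc S M ∧ unc S M = ∅ ∧
      S ∪ M.image Prod.snd = insert e (vs G) ∧ (∀ p ∈ M, sc.col p.1 p.2 ∈ G) ∧
      ∀ p ∈ M, ∀ z, sc.col p.1 p.2 = (z, z) → z ∈ S ∧ z ≠ e := by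
  rcases h with ⟨l, hl, rfl⟩ | ⟨w, l1, l2, n1, n2, n3, c1, c2, rfl⟩
  · have hle : l ≠ e := by
      rintro rfl
      exact he (by simp)
    refine ⟨{e}, {(e, l)}, by simp, ⟨?_, ?_, ?_, ?_, ?_, ?_⟩, ?_, ?_, ?_, ?_⟩
    · intro p hp
      rw [mem_singleton] at hp
      rw [hp]
      simp
    · intro p hp
      rw [mem_singleton] at hp
      rw [hp]
      simpa using hle
    · intro p hp p' hp' _
      rw [mem_singleton] at hp hp'
      rw [hp, hp']
    · intro p hp p' hp' _
      rw [mem_singleton] at hp hp'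
      rw [hp, hp']
    · intro p hp p' hp' _
      rw [mem_singleton] at hp hp'
      rw [hp, hp']
    · intro p hp z hz
      rw [mem_singleton] at hp
      rw [hp] at hz
      exact absurd hz (hl z)
    · unfold unc
      simp
    · ext x
      simp only [mem_union, mem_singleton, image_singleton, mem_insert, mem_vs, Prod.mk.injEq,
        and_self]
      have : (x, x) ≠ sc.col e l := fun h => hl x h.symm
      tauto
    · intro p hp
      rw [mem_singleton] at hp
      rw [hp]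
      simp
    · intro p hp z hz
      rw [mem_singleton] at hp
      rw [hp] at hz
      exact absurd hz (hl z)
  · have hwe : w ≠ e := by
      rintro rfl
      exact he (by simp)
    have h1e : l1 ≠ e := by
      rintro rfl
      exact he (by simp)
    have h2e : l2 ≠ e := by
      rintro rfl
      exact he (by simp)
    refine ⟨{e, w}, {(e, l1), (w, l2)}, by simp, ⟨?_, ?_, ?_, ?_, ?_, ?_⟩, ?_, ?_, ?_, ?_⟩
    · intro p hp
      rw [mem_insert, mem_singleton] at hp
      rcases hp with rfl | rfl <;> simp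
    · intro p hp
      rw [mem_insert, mem_singleton] at hp
      rcases hp with rfl | rfl
      · simp only [mem_insert, mem_singleton, not_or]
        exact ⟨h1e, n1.symm⟩
      · simp only [mem_insert, mem_singleton, not_or]
        exact ⟨h2e, n2.symm⟩
    · intro p hp p' hp' hh
      rw [mem_insert, mem_singleton] at hp hp'
      rcases hp with rfl | rfl <;> rcases hp' with rfl | rfl
      · rfl
      · exact absurd hh hwe.symm
      · exact absurd hh hwe
      · rfl
    · intro p hp p' hp' hh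
      rw [mem_insert, mem_singleton] at hp hp'
      rcases hp with rfl | rfl <;> rcases hp' with rfl | rfl
      · rfl
      · exact absurd hh n3
      · exact absurd hh n3.symm
      · rfl
    · intro p hp p' hp' hh
      rw [mem_insert, mem_singleton] at hp hp'
      rcases hp with rfl | rfl <;> rcases hp' with rfl | rfl
      · rfl
      · simp only at hh
        rw [c1] at hh
        exact absurd hh.symm (c2 w)
      · simp only at hh
        rw [c1] at hh
        exact absurd hh (c2 w)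
      · rfl
    · intro p hp z hz
      rw [mem_insert, mem_singleton] at hp
      rcases hp with rfl | rfl
      · simp only at hz
        rw [c1] at hz
        have : w = z := (Prod.ext_iff.1 hz).1
        rw [← this]
        simp
      · exact absurd hz (c2 z)
    · unfold unc
      rw [sdiff_eq_empty_iff_subset]
      intro x hx
      rw [mem_insert, mem_singleton] at hx
      rw [mem_image]
      rcases hx with rfl | rfl
      · exact ⟨(x, l1), by simp, rfl⟩
      · exact ⟨(x, l2), by simp, rfl⟩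
    · ext x
      simp only [mem_union, mem_singleton, image_singleton, image_insert, mem_insert, mem_vs,
        Prod.mk.injEq, and_self]
      have : (x, x) ≠ sc.col w l2 := fun h => c2 x h.symm
      tauto
    · intro p hp
      rw [mem_insert, mem_singleton] at hp
      rcases hp with rfl | rfl
      · simp only
        rw [c1]
        simp
      · simp
    · intro p hp z hz
      rw [mem_insert, mem_singleton] at hp
      rcases hp with rfl | rfl
      · simp only at hz
        rw [c1] at hz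
        have : w = z := (Prod.ext_iff.1 hz).1
        rw [← this]
        exact ⟨by simp, hwe⟩
      · exact absurd hz (c2 z)

lemma vs_insert (x : V) (G : Finset (V × V)) : vs (insert (x, x) G) = insert x (vs G) := by
  ext y
  rw [mem_insert, mem_vs, mem_vs, mem_insert]
  constructor
  · rintro (h | h)
    · left
      exact (Prod.ext_iff.1 h).1
    · right
      exact h
  · rintro (h | h)
    · left
      rw [h]
    · right
      exact h

lemma co_of {sc : SC V} {e : V} {G : Finset (V × V)} (h : IsG1 sc e G) (he : (e, e) ∉ G) :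
    CO sc e G := by
  obtain ⟨S, M, h1, h2, h3, h4, h5, h6⟩ := str h he
  refine ⟨fun h => he (mem_vs.1 h), S, M, h2, h3, ?_, fun p hp => mem_insert_of_mem (h5 p hp)⟩
  rw [h4, vs_insert]

lemma cl_of {sc : SC V} {e s : V} {G : Finset (V × V)} (h : IsG1 sc e G) (he : (e, e) ∉ G)
    (hs : (s, s) ∉ G) : CL sc e s G := by
  obtain ⟨S, M, h1, h2, h3, h4, h5, h6⟩ := str h he
  refine ⟨fun h => he (mem_vs.1 h), fun h => hs (mem_vs.1 h), S, M, h1, h4, h3, h2.row, h2.lab,
    h2.i1, h2.i2, h2.i3, fun p hp => Or.inl (h5 p hp), fun p hp z hz => Or.inr (h6 p hp z hz)⟩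

lemma g1_nonempty {sc : SC V} {e : V} {G : Finset (V × V)} (h : IsG1 sc e G) : G.Nonempty := by
  rcases h with ⟨l, hl, rfl⟩ | ⟨w, l1, l2, n1, n2, n3, c1, c2, rfl⟩
  · exact ⟨_, mem_insert_self _ _⟩
  · exact ⟨_, mem_insert_self _ _⟩

/-! ### unions -/

lemma tile_empty (sc : SC V) : Tileable sc ∅ := by
  refine ⟨∅, ∅, ⟨?_, ?_, ?_, ?_, ?_, ?_⟩, ?_, ?_, ?_⟩
  · intro p hp; exact absurd hp (notMem_empty _)
  · intro p hp; exact absurd hp (notMem_empty _)
  · intro p hp; exact absurd hp (notMem_empty _)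
  · intro p hp; exact absurd hp (notMem_empty _)
  · intro p hp; exact absurd hp (notMem_empty _)
  · intro p hp; exact absurd hp (notMem_empty _)
  · unfold unc; simp
  · ext x
    simp [mem_vs]
  · intro p hp; exact absurd hp (notMem_empty _)

lemma vs_union (G H : Finset (V × V)) : vs (G ∪ H) = vs G ∪ vs H := by
  ext x
  rw [mem_union, mem_vs, mem_vs, mem_vs, mem_union]

lemma vs_disj {G H : Finset (V × V)} (h : Disjoint G H) : Disjoint (vs G) (vs H) := by
  rw [disjoint_left]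
  intro x hx hx'
  exact disjoint_left.1 h (mem_vs.1 hx) (mem_vs.1 hx')

lemma tile_union {sc : SC V} {G H : Finset (V × V)} (hG : Tileable sc G) (hH : Tileable sc H)
    (hd : Disjoint G H) : Tileable sc (G ∪ H) := by
  obtain ⟨S, M, a1, a2, a3, a4⟩ := hG
  obtain ⟨S', M', b1, b2, b3, b4⟩ := hH
  have hv := disjoint_left.1 (vs_disj hd)
  have hc := disjoint_left.1 hd
  have mS : ∀ x ∈ S, x ∈ vs G := fun x hx => by rw [← a3]; exact mem_union_left _ hx
  have mS' : ∀ x ∈ S', x ∈ vs H := fun x hx => by rw [← b3]; exact mem_union_left _ hx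
  have mM : ∀ p ∈ M, p.2 ∈ vs G := fun p hp => by
    rw [← a3]; exact mem_union_right _ (mem_image_of_mem _ hp)
  have mM' : ∀ p ∈ M', p.2 ∈ vs H := fun p hp => by
    rw [← b3]; exact mem_union_right _ (mem_image_of_mem _ hp)
  refine ⟨S ∪ S', M ∪ M', ⟨?_, ?_, ?_, ?_, ?_, ?_⟩, ?_, ?_, ?_⟩
  · intro p hp
    rcases mem_union.1 hp with hp | hp
    · exact mem_union_left _ (a1.row p hp)
    · exact mem_union_right _ (b1.row p hp)
  · intro p hp hp'
    rcases mem_union.1 hp with hp | hp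
    · rcases mem_union.1 hp' with hp' | hp'
      · exact a1.lab p hp hp'
      · exact hv (mM p hp) (mS' _ hp')
    · rcases mem_union.1 hp' with hp' | hp'
      · exact hv (mS _ hp') (mM' p hp)
      · exact b1.lab p hp hp'
  · intro p hp p' hp' he
    rcases mem_union.1 hp with hp | hp <;> rcases mem_union.1 hp' with hp' | hp'
    · exact a1.i1 p hp p' hp' he
    · exact absurd (mS' _ (b1.row p' hp')) (hv (he ▸ mS _ (a1.row p hp)))
    · exact absurd (mS' _ (b1.row p hp)) (hv (he.symm ▸ mS _ (a1.row p' hp')))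
    · exact b1.i1 p hp p' hp' he
  · intro p hp p' hp' he
    rcases mem_union.1 hp with hp | hp <;> rcases mem_union.1 hp' with hp' | hp'
    · exact a1.i2 p hp p' hp' he
    · exact absurd (mM' p' hp') (hv (he ▸ mM p hp))
    · exact absurd (mM' p hp) (hv (he.symm ▸ mM p' hp'))
    · exact b1.i2 p hp p' hp' he
  · intro p hp p' hp' he
    rcases mem_union.1 hp with hp | hp <;> rcases mem_union.1 hp' with hp' | hp'
    · exact a1.i3 p hp p' hp' he
    · exact absurd (b4 p' hp') (hc (he ▸ a4 p hp))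
    · exact absurd (b4 p hp) (hc (he.symm ▸ a4 p' hp'))
    · exact b1.i3 p hp p' hp' he
  · intro p hp z hz
    rcases mem_union.1 hp with hp | hp
    · exact mem_union_left _ (a1.star p hp z hz)
    · exact mem_union_right _ (b1.star p hp z hz)
  · unfold unc at a2 b2 ⊢
    rw [sdiff_eq_empty_iff_subset] at a2 b2 ⊢
    rw [image_union]
    exact union_subset_union a2 b2
  · rw [image_union, vs_union, ← a3, ← b3]
    ext x
    simp only [mem_union]
    tauto
  · intro p hp
    rcases mem_union.1 hp with hp | hp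
    · exact mem_union_left _ (a4 p hp)
    · exact mem_union_right _ (b4 p hp)

lemma unit_tile {sc : SC V} {G : Finset (V × V)} (h : IsU sc G) :
    Tileable sc G ∧ (vs G).card = 2 ∧ G.Nonempty := by
  obtain ⟨w, l, hwl, hl, rfl⟩ := h
  have hv : vs ({(w, w), (l, l), sc.col w l} : Finset (V × V)) = {w, l} := by
    ext x
    simp only [mem_vs, mem_insert, mem_singleton, Prod.mk.injEq, and_self]
    have : (x, x) ≠ sc.col w l := fun h => hl x h.symm
    tauto
  refine ⟨⟨{w}, {(w, l)}, ⟨?_, ?_, ?_, ?_, ?_, ?_⟩, ?_, ?_, ?_⟩, ?_, ⟨_, mem_insert_self _ _⟩⟩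
  · intro p hp
    rw [mem_singleton] at hp
    rw [hp]
    simp
  · intro p hp
    rw [mem_singleton] at hp
    rw [hp]
    simpa using hwl.symm
  · intro p hp p' hp' _
    rw [mem_singleton] at hp hp'
    rw [hp, hp']
  · intro p hp p' hp' _
    rw [mem_singleton] at hp hp'
    rw [hp, hp']
  · intro p hp p' hp' _
    rw [mem_singleton] at hp hp'
    rw [hp, hp']
  · intro p hp z hz
    rw [mem_singleton] at hp
    rw [hp] at hz
    exact absurd hz (hl z)
  · unfold unc
    simp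
  · rw [hv, image_singleton]
    rfl
  · intro p hp
    rw [mem_singleton] at hp
    rw [hp]
    simp
  · rw [hv, card_pair hwl]

lemma group_tile {sc : SC V} (𝒮 : Finset (Finset (V × V)))
    (hd : (𝒮 : Set (Finset (V × V))).PairwiseDisjoint id)
    (h : ∀ G ∈ 𝒮, IsU sc G ∧ G.card ≤ 5) :
    Tileable sc (𝒮.biUnion id) ∧ (vs (𝒮.biUnion id)).card = 2 * 𝒮.card ∧
      (𝒮.biUnion id).card ≤ 5 * 𝒮.card := by
  classical
  induction 𝒮 using Finset.induction_on with
  | empty =>
    refine ⟨by simpa using tile_empty sc, ?_, by simp⟩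
    have : vs (∅ : Finset (V × V)) = ∅ := by
      ext x
      simp [mem_vs]
    simp [this]
  | insert G 𝒮 hG ih =>
    obtain ⟨i1, i2, i3⟩ := ih (hd.subset (by
      rw [coe_insert]
      exact Set.subset_insert _ _)) (fun H hH => h H (mem_insert_of_mem hH))
    obtain ⟨u1, u2, u3⟩ := unit_tile (h G (mem_insert_self _ _)).1
    have hdis : Disjoint G (𝒮.biUnion id) := by
      rw [disjoint_biUnion_right]
      intro H hH
      refine hd (by simp) (by simp [hH]) ?_
      rintro rfl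
      exact hG hH
    rw [biUnion_insert, id]
    refine ⟨tile_union u1 i1 hdis, ?_, ?_⟩
    · rw [vs_union, card_union_of_disjoint (vs_disj hdis), u2, i2, card_insert_of_notMem hG]
      ring
    · rw [card_insert_of_notMem hG]
      refine (card_union_le _ _).trans ?_
      have := (h G (mem_insert_self _ _)).2
      omega

/-- grouping -/
lemma group {X : Type} [DecidableEq X] (r : ℕ) (hr : 0 < r) : ∀ (q : ℕ)
    (𝒢 : Finset (Finset X)), (𝒢 : Set (Finset X)).PairwiseDisjoint id →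
    (∀ G ∈ 𝒢, G.Nonempty) → r * q ≤ 𝒢.card →
    ∃ ℋ : Finset (Finset X), (ℋ : Set (Finset X)).PairwiseDisjoint id ∧ ℋ.card = q ∧
      ∀ H ∈ ℋ, H.Nonempty ∧ ∃ 𝒮 ⊆ 𝒢, 𝒮.card = r ∧ H = 𝒮.biUnion id := by
  classical
  intro q
  induction q with
  | zero =>
    intro 𝒢 _ _ _
    exact ⟨∅, by simp, rfl, fun H hH => absurd hH (notMem_empty _)⟩
  | succ q ih =>
    intro 𝒢 hd hne hc
    obtain ⟨𝒮, hS, hSc⟩ := exists_subset_card_eq (s := 𝒢) (n := r) (by
      rw [mul_add, mul_one] at hc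
      omega)
    obtain ⟨ℋ, e1, e2, e3⟩ := ih (𝒢 \ 𝒮) (hd.subset (by
      rw [coe_sdiff]
      exact Set.diff_subset)) (fun G hG => hne G (mem_sdiff.1 hG).1) (by
      rw [card_sdiff_of_subset hS, hSc]
      rw [mul_add, mul_one] at hc
      omega)
    obtain ⟨G0, hG0⟩ := card_pos.1 (by rw [hSc]; exact hr : 0 < 𝒮.card)
    have hn : (𝒮.biUnion id).Nonempty := by
      obtain ⟨x, hx⟩ := hne G0 (hS hG0)
      exact ⟨x, mem_biUnion.2 ⟨G0, hG0, hx⟩⟩
    have hdis : ∀ H ∈ ℋ, Disjoint (𝒮.biUnion id) H := by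
      intro H hH
      obtain ⟨-, 𝒯, hT, -, rfl⟩ := e3 H hH
      rw [disjoint_biUnion_left]
      intro A hA
      rw [disjoint_biUnion_right]
      intro B hB
      have hB' := mem_sdiff.1 (hT hB)
      refine hd (hS hA) hB'.1 ?_
      rintro rfl
      exact hB'.2 hA
    have hnot : 𝒮.biUnion id ∉ ℋ := by
      intro hin
      have := hdis _ hin
      rw [disjoint_self] at this
      exact hn.ne_empty this
    refine ⟨insert (𝒮.biUnion id) ℋ, ?_, ?_, ?_⟩
    · rw [coe_insert]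
      refine e1.insert ?_
      intro H hH _
      exact hdis H hH
    · rw [card_insert_of_notMem hnot, e2]
    · intro H hH
      rcases mem_insert.1 hH with rfl | hH
      · exact ⟨hn, 𝒮, hS, hSc, rfl⟩
      · obtain ⟨a, 𝒯, hT, b, c⟩ := e3 H hH
        exact ⟨a, 𝒯, hT.trans sdiff_subset, b, c⟩

end HCO_

open HCO_

/-- HCO -/
theorem p_HCO : T_HCO := by
  intro δ hδ hδ1
  refine ⟨5, δ ^ 2 / 512, ⌈1024 / δ ^ 2⌉₊, by positivity, ?_⟩
  intro V _ _ sc hN hR
  have hN' : 1024 / δ ^ 2 ≤ (Fintype.card V : ℝ) := Nat.ceil_le.1 hN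
  have hN1 : 1024 ≤ δ ^ 2 * Fintype.card V := by
    rw [div_le_iff₀ (by positivity)] at hN'
    linarith
  have hN8 : 8 / δ ≤ (Fintype.card V : ℝ) := by
    refine le_trans ?_ hN'
    rw [div_le_div_iff₀ hδ (by positivity)]
    nlinarith
  have key : ∀ e s : V, ∃ 𝒢 : Finset (Finset (V × V)),
      (𝒢 : Set (Finset (V × V))).PairwiseDisjoint id ∧
      (∀ G ∈ 𝒢, IsG1 sc e G ∧ (e, e) ∉ G ∧ (s, s) ∉ G) ∧ (∀ G ∈ 𝒢, G.card ≤ 5) ∧
      δ ^ 2 / 512 * Fintype.card V ≤ 𝒢.card := by
    intro e s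
    obtain ⟨𝒢, g1, g2, g3, g4⟩ := fam1 hδ hδ1 sc hN8 hR e
    refine ⟨𝒢.filter fun G => (e, e) ∉ G ∧ (s, s) ∉ G, ?_, ?_, ?_, ?_⟩
    · exact g1.subset (by
        rw [coe_filter]
        exact fun G hG => hG.1)
    · intro G hG
      rw [mem_filter] at hG
      exact ⟨g2 G hG.1, hG.2⟩
    · intro G hG
      rw [mem_filter] at hG
      exact g3 G hG.1
    · have h1 := remove g1 (e, e) (s, s)
      have h2 : (𝒢.card : ℝ) ≤ ((𝒢.filter fun G => (e, e) ∉ G ∧ (s, s) ∉ G).card : ℝ) + 2 := by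
        exact_mod_cast h1
      linarith
  constructor
  · intro w
    obtain ⟨𝒢, g1, g2, g3, g4⟩ := key w w
    exact ⟨𝒢, g1, fun G hG => ⟨g1_nonempty (g2 G hG).1, g3 G hG, co_of (g2 G hG).1 (g2 G hG).2.1⟩,
      g4⟩
  · intro e s _
    obtain ⟨𝒢, g1, g2, g3, g4⟩ := key e s
    exact ⟨𝒢, g1, fun G hG => ⟨g1_nonempty (g2 G hG).1, g3 G hG,
      cl_of (g2 G hG).1 (g2 G hG).2.1 (g2 G hG).2.2⟩, g4⟩

/-- HTL -/
theorem p_HTL : T_HTL := by
  intro δ hδ hδ1
  refine ⟨20, δ ^ 2 / 288, ⌈288 / δ ^ 2⌉₊, by positivity, ?_⟩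
  intro V _ _ sc hN hR
  have hN' : 288 / δ ^ 2 ≤ (Fintype.card V : ℝ) := Nat.ceil_le.1 hN
  have hN1 : 288 ≤ δ ^ 2 * Fintype.card V := by
    rw [div_le_iff₀ (by positivity)] at hN'
    linarith
  set N : ℝ := (Fintype.card V : ℝ) with hNn
  have hNpos : 0 < N := lt_of_lt_of_le (by positivity) hN'
  obtain ⟨𝒢, g1, g2, g3, g4⟩ := fam_unit sc (Rich sc (δ / 2 * N)) ⌈δ / 2 * N⌉₊ (by
    intro w hw
    exact Nat.ceil_le.2 (mem_Rich.1 hw))
  have hcard : δ ^ 2 / 36 * N ≤ 𝒢.card := by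
    have h1 : ((Rich sc (δ / 2 * N)).card : ℝ) * (⌈δ / 2 * N⌉₊ : ℝ) ≤ 9 * N * 𝒢.card := by
      have h5 : (((Rich sc (δ / 2 * N)).card * ⌈δ / 2 * N⌉₊ : ℕ) : ℝ) ≤
          ((9 * Fintype.card V * 𝒢.card : ℕ) : ℝ) := Nat.cast_le.2 g4
      push_cast at h5
      rw [← hNn] at h5
      exact h5
    have h2 : (δ / 2 * N) * (δ / 2 * N) ≤ 9 * N * 𝒢.card :=
      (mul_le_mul hR (Nat.le_ceil _) (by positivity) (by positivity)).trans h1
    have h3 : 9 * N * (δ ^ 2 / 36 * N) ≤ 9 * N * 𝒢.card := by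
      calc 9 * N * (δ ^ 2 / 36 * N) = (δ / 2 * N) * (δ / 2 * N) := by ring
        _ ≤ _ := h2
    exact le_of_mul_le_mul_left h3 (by positivity)
  have key : ∀ r : ℕ, 0 < r → r ≤ 4 →
      Fam 20 (δ ^ 2 / 288) fun G => Tileable sc G ∧ (vs G).card = 2 * r := by
    intro r hr hr4
    obtain ⟨ℋ, e1, e2, e3⟩ := group r hr (𝒢.card / 4) 𝒢 g1
      (fun G hG => (unit_tile (g2 G hG)).2.2) (by
        have := Nat.mul_div_le 𝒢.card 4
        have h2 : r * (𝒢.card / 4) ≤ 4 * (𝒢.card / 4) := Nat.mul_le_mul_right _ hr4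
        omega)
    refine ⟨ℋ, e1, ?_, ?_⟩
    · intro H hH
      obtain ⟨a, 𝒮, hS, b, rfl⟩ := e3 H hH
      obtain ⟨t1, t2, t3⟩ := group_tile 𝒮 (g1.subset (by exact_mod_cast hS))
        (fun G hG => ⟨g2 G (hS hG), g3 G (hS hG)⟩)
      rw [b] at t2 t3
      exact ⟨a, by omega, t1, t2⟩
    · rw [e2]
      have h1 : 𝒢.card ≤ 4 * (𝒢.card / 4) + 3 := by omega
      have h2 : (𝒢.card : ℝ) ≤ 4 * ((𝒢.card / 4 : ℕ) : ℝ) + 3 := by exact_mod_cast h1
      linarith
  exact ⟨key 3 (by norm_num) (by norm_num), key 4 (by norm_num) (by norm_num)⟩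

end SpF
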