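import Pool.Agent.SpF.Targets

/-!
# Gadgets in the high regime, and the high regime
-/

namespace SpF
namespace HG_
open Spider Finset

variable {V : Type} [Fintype V] [DecidableEq V]

omit [DecidableEq V] in
lemma fam_mono {K K' : ℕ} {c c' : ℝ} {P P' : Finset (V × V) → Prop} (h : Fam K c P)
    (hK : K ≤ K') (hc : c' ≤ c) (hP : ∀ G, P G → P' G) : Fam K' c' P' := by
  obtain ⟨𝒢, h1, h2, h3⟩ := h
  refine ⟨𝒢, h1, fun G hG => ⟨(h2 G hG).1, (h2 G hG).2.1.trans hK, hP G (h2 G hG).2.2⟩, ?_⟩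
  refine le_trans ?_ h3
  exact mul_le_mul_of_nonneg_right hc (Nat.cast_nonneg _)

/-- number of free ordered pairs as a sum -/
lemma card_free_eq (sc : SC V) :
    (univ.filter fun p : V × V => p.1 ≠ p.2 ∧ (sc.col p.1 p.2).1 ≠ (sc.col p.1 p.2).2).card =
      ∑ x : V, (univ.filter fun y => y ≠ x ∧ (sc.col x y).1 ≠ (sc.col x y).2).card := by
  rw [Finset.card_eq_sum_card_fiberwise (f := Prod.fst) (t := univ) (fun _ _ => by simp)]
  refine Finset.sum_congr rfl fun x _ => ?_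
  refine Finset.card_bij' (fun p _ => p.2) (fun y _ => (x, y)) ?_ ?_ ?_ ?_
  · rintro ⟨a, b⟩ hp
    simp only [Finset.mem_filter, Finset.mem_univ, true_and] at hp ⊢
    obtain ⟨⟨h1, h2⟩, h3⟩ := hp
    subst h3
    exact ⟨fun h => h1 h.symm, h2⟩
  · intro y hy
    simp only [Finset.mem_filter, Finset.mem_univ, true_and] at hy ⊢
    exact ⟨⟨fun h => hy.1 h.symm, hy.2⟩, trivial⟩
  · rintro ⟨a, b⟩ hp
    simp only [Finset.mem_filter, Finset.mem_univ, true_and] at hp ⊢
    rw [hp.2]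
  · intro y hy; rfl

lemma rich_card (sc : SC V) {δ : ℝ} (hδ : 0 ≤ δ)
    (h : δ * (Fintype.card V : ℝ) ^ 2 ≤ ((univ.filter fun p : V × V => p.1 ≠ p.2 ∧
      (sc.col p.1 p.2).1 ≠ (sc.col p.1 p.2).2).card : ℝ)) :
    δ / 2 * Fintype.card V ≤ ((Rich sc (δ / 2 * Fintype.card V)).card : ℝ) := by
  classical
  set N : ℝ := (Fintype.card V : ℝ) with hN
  set R := Rich sc (δ / 2 * N) with hR
  rw [card_free_eq] at h
  push_cast at h
  have hN0 : 0 ≤ N := Nat.cast_nonneg _
  have hsum : ∑ x : V, ((univ.filter fun y => y ≠ x ∧ (sc.col x y).1 ≠ (sc.col x y).2).card : ℝ)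
      ≤ R.card * N + N * (δ / 2 * N) := by
    rw [← Finset.sum_filter_add_sum_filter_not univ (fun x => x ∈ R)]
    have e1 : ∑ x ∈ univ.filter (fun x => x ∈ R),
        ((univ.filter fun y => y ≠ x ∧ (sc.col x y).1 ≠ (sc.col x y).2).card : ℝ)
        ≤ R.card * N := by
      have : (univ.filter (fun x => x ∈ R)) = R := by ext; simp
      rw [this, ← nsmul_eq_mul]
      refine Finset.sum_le_card_nsmul _ _ _ fun x _ => ?_
      rw [hN]
      exact_mod_cast Finset.card_le_univ _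
    have e2 : ∑ x ∈ univ.filter (fun x => x ∉ R),
        ((univ.filter fun y => y ≠ x ∧ (sc.col x y).1 ≠ (sc.col x y).2).card : ℝ)
        ≤ N * (δ / 2 * N) := by
      have h1 : ∑ x ∈ univ.filter (fun x => x ∉ R),
        ((univ.filter fun y => y ≠ x ∧ (sc.col x y).1 ≠ (sc.col x y).2).card : ℝ)
        ≤ ((univ.filter (fun x => x ∉ R)).card : ℝ) * (δ / 2 * N) := by
        rw [← nsmul_eq_mul]
        refine Finset.sum_le_card_nsmul _ _ _ fun x hx => ?_
        have hx' : x ∉ R := (Finset.mem_filter.1 hx).2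
        by_contra hcon
        push Not at hcon
        exact hx' (by rw [hR, Rich, Finset.mem_filter]; exact ⟨Finset.mem_univ _, hcon.le⟩)
      refine h1.trans ?_
      refine mul_le_mul_of_nonneg_right ?_ (by positivity)
      rw [hN]
      exact_mod_cast Finset.card_le_univ _
    linarith
  by_contra hcon
  push Not at hcon
  have hNpos : 0 < N := by
    rcases hN0.eq_or_lt with h0 | h0
    · exfalso
      rw [← h0] at hcon
      simp at hcon
      exact absurd hcon (not_lt.2 (Nat.cast_nonneg _))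
    · exact h0
  nlinarith

end HG_

open Spider Finset HG_

theorem p_HG (h1 : T_HPA) (h2 : T_HCO) (h3 : T_HTL) : T_HG := by
  intro δ hδ
  have hd0 : 0 < min δ 1 := lt_min hδ one_pos
  have hd1 : min δ 1 ≤ 1 := min_le_right _ _
  obtain ⟨K1, c1, N1, hc1, H1'⟩ := h1 (min δ 1) hd0 hd1
  obtain ⟨K2, c2, N2, hc2, H2'⟩ := h2 (min δ 1) hd0 hd1
  obtain ⟨K3, c3, N3, hc3, H3'⟩ := h3 (min δ 1) hd0 hd1
  refine ⟨max K1 (max K2 K3), min c1 (min c2 c3), max N1 (max N2 N3), lt_min hc1 (lt_min hc2 hc3),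
    ?_⟩
  intro V _ _ sc hN hfree
  have hfree' : min δ 1 * (Fintype.card V : ℝ) ^ 2 ≤ ((univ.filter fun p : V × V => p.1 ≠ p.2 ∧
    (sc.col p.1 p.2).1 ≠ (sc.col p.1 p.2).2).card : ℝ) := by
    refine le_trans ?_ hfree
    exact mul_le_mul_of_nonneg_right (min_le_left _ _) (by positivity)
  have hrich := rich_card sc hd0.le hfree'
  have a1 : K1 ≤ max K1 (max K2 K3) := le_max_left _ _
  have a2 : K2 ≤ max K1 (max K2 K3) := le_trans (le_max_left _ _) (le_max_right _ _)
  have a3 : K3 ≤ max K1 (max K2 K3) := le_trans (le_max_right _ _) (le_max_right _ _)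
  have b1 : min c1 (min c2 c3) ≤ c1 := min_le_left _ _
  have b2 : min c1 (min c2 c3) ≤ c2 := le_trans (min_le_right _ _) (min_le_left _ _)
  have b3 : min c1 (min c2 c3) ≤ c3 := le_trans (min_le_right _ _) (min_le_right _ _)
  have n1 : N1 ≤ Fintype.card V := le_trans (le_max_left _ _) hN
  have n2 : N2 ≤ Fintype.card V := le_trans (le_trans (le_max_left _ _) (le_max_right _ _)) hN
  have n3 : N3 ≤ Fintype.card V := le_trans (le_trans (le_max_right _ _) (le_max_right _ _)) hN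
  have g1 := H1' V sc n1 hrich
  obtain ⟨g2, g2'⟩ := H2' V sc n2 hrich
  obtain ⟨g3, g3'⟩ := H3' V sc n3 hrich
  exact
    { pa := fun x _ y _ hxy => fam_mono (g1 x y hxy) a1 b1 fun G hG => ⟨hG, Finset.subset_univ _⟩
      cl := fun e _ s _ hes => fam_mono (g2' e s hes) a2 b2 fun G hG => ⟨hG, Finset.subset_univ _⟩
      co := fun w _ => fam_mono (g2 w) a2 b2 fun G hG => ⟨hG, Finset.subset_univ _⟩
      t6 := fam_mono g3 a3 b3 fun G hG => ⟨hG.1, hG.2, Finset.subset_univ _⟩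
      t8 := fam_mono g3' a3 b3 fun G hG => ⟨hG.1, hG.2, Finset.subset_univ _⟩ }

namespace HG_

variable {V : Type} [Fintype V] [DecidableEq V]

omit [Fintype V] [DecidableEq V] in
lemma nearP_mono {sc : SC V} {U : Finset V} {Γ : Finset (V × V)} {k k' : ℕ}
    (h : NearP sc U Γ k) (hk : k ≤ k') : NearP sc U Γ k' := by
  obtain ⟨S, M, h1, h2, h3, h4, h5⟩ := h
  exact ⟨S, M, h1, h2, h3, h4, by omega⟩

/-- number of edges at `a` with unusable colours -/
lemma card_bad (sc : SC V) (U : Finset V) (Γ : Finset (V × V)) (hΓ : ∀ z, (z, z) ∈ Γ ↔ z ∈ U)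
    (a : V) :
    (U.filter fun b => b = a ∨ sc.col a b ∉ Γ).card ≤ 1 + (univ \ U).card +
      (univ.filter fun y => y ≠ a ∧ (sc.col a y).1 ≠ (sc.col a y).2 ∧ sc.col a y ∉ Γ).card := by
  classical
  have h1 : (U.filter fun b => b = a ∨ sc.col a b ∉ Γ) ⊆
      ({a} ∪ (univ.filter fun b => b ≠ a ∧ ∃ z, z ∉ U ∧ sc.col a b = (z, z))) ∪
      (univ.filter fun y => y ≠ a ∧ (sc.col a y).1 ≠ (sc.col a y).2 ∧ sc.col a y ∉ Γ) := by
    intro b hb
    rw [Finset.mem_filter] at hb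
    obtain ⟨hbU, hb⟩ := hb
    simp only [Finset.mem_union, Finset.mem_singleton, Finset.mem_filter, Finset.mem_univ,
      true_and]
    by_cases hba : b = a
    · exact Or.inl (Or.inl hba)
    · have hb' : sc.col a b ∉ Γ := by tauto
      by_cases hd : (sc.col a b).1 = (sc.col a b).2
      · left; right
        refine ⟨hba, (sc.col a b).1, ?_, ?_⟩
        · intro hz
          apply hb'
          have := (hΓ (sc.col a b).1).2 hz
          have e : sc.col a b = ((sc.col a b).1, (sc.col a b).1) := Prod.ext rfl hd.symm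
          rw [e]; exact this
        · exact Prod.ext rfl hd.symm
      · right
        exact ⟨hba, hd, hb'⟩
  refine (Finset.card_le_card h1).trans ?_
  refine (Finset.card_union_le _ _).trans ?_
  refine Nat.add_le_add_right ?_ _
  refine (Finset.card_union_le _ _).trans ?_
  rw [Finset.card_singleton]
  refine Nat.add_le_add_left ?_ _
  refine Finset.card_le_card_of_injOn (fun b => (sc.col a b).1) ?_ ?_
  · intro b hb
    have hb' := (Finset.mem_filter.1 hb).2
    obtain ⟨_, z, hz, he⟩ := hb'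
    simp only [Finset.coe_sdiff, Finset.coe_univ]
    refine ⟨Set.mem_univ _, ?_⟩
    show (sc.col a b).1 ∉ U
    rw [he]; exact hz
  · intro b hb b' hb' hbb'
    have hb1 := (Finset.mem_filter.1 hb).2
    have hb2 := (Finset.mem_filter.1 hb').2
    obtain ⟨n1, z, hz, he⟩ := hb1
    obtain ⟨n2, z', hz', he'⟩ := hb2
    by_contra hne
    have hzz : z = z' := by
      have : (sc.col a b).1 = (sc.col a b').1 := hbb'
      rw [he, he'] at this
      exact this
    exact sc.proper a b b' n1.symm n2.symm hne (by rw [he, he', hzz])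

/-- number of free usable pairs -/
lemma card_good (sc : SC V) (U : Finset V) (Γ : Finset (V × V)) (B : ℕ)
    (hB : ∀ x ∈ U, (univ.filter fun y => y ≠ x ∧ (sc.col x y).1 ≠ (sc.col x y).2 ∧
      sc.col x y ∉ Γ).card ≤ B) :
    (univ.filter fun p : V × V => p.1 ≠ p.2 ∧
      (sc.col p.1 p.2).1 ≠ (sc.col p.1 p.2).2).card ≤
    ((U ×ˢ U).filter fun p => p.1 ≠ p.2 ∧
      (sc.col p.1 p.2).1 ≠ (sc.col p.1 p.2).2 ∧ sc.col p.1 p.2 ∈ Γ).card +
      2 * ((univ \ U).card * Fintype.card V) + U.card * B := by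
  classical
  have h1 : (univ.filter fun p : V × V => p.1 ≠ p.2 ∧
      (sc.col p.1 p.2).1 ≠ (sc.col p.1 p.2).2) ⊆
      (((U ×ˢ U).filter fun p => p.1 ≠ p.2 ∧
      (sc.col p.1 p.2).1 ≠ (sc.col p.1 p.2).2 ∧ sc.col p.1 p.2 ∈ Γ) ∪
      ((univ \ U) ×ˢ univ ∪ univ ×ˢ (univ \ U))) ∪
      (U.biUnion fun x => (univ.filter fun y => y ≠ x ∧ (sc.col x y).1 ≠ (sc.col x y).2 ∧
      sc.col x y ∉ Γ).image fun y => (x, y)) := by
    rintro ⟨x, y⟩ hp
    rw [Finset.mem_filter] at hp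
    obtain ⟨_, hxy, hf⟩ := hp
    simp only [Finset.mem_union, Finset.mem_filter, Finset.mem_product, Finset.mem_sdiff,
      Finset.mem_univ, true_and, and_true, Finset.mem_biUnion, Finset.mem_image, Prod.mk.injEq]
    by_cases hx : x ∈ U
    · by_cases hy : y ∈ U
      · by_cases hΓ : sc.col x y ∈ Γ
        · left; left
          exact ⟨⟨hx, hy⟩, hxy, hf, hΓ⟩
        · right
          exact ⟨x, hx, y, ⟨fun h => hxy h.symm, hf, hΓ⟩, rfl, rfl⟩
      · left; right; right; exact hy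
    · left; right; left; exact hx
  refine (Finset.card_le_card h1).trans ?_
  refine (Finset.card_union_le _ _).trans ?_
  refine Nat.add_le_add ?_ ?_
  · refine (Finset.card_union_le _ _).trans ?_
    refine Nat.add_le_add_left ?_ _
    refine (Finset.card_union_le _ _).trans ?_
    rw [Finset.card_product, Finset.card_product, Finset.card_univ]
    have := Nat.mul_comm (Fintype.card V) (univ \ U).card
    omega
  · refine Finset.card_biUnion_le.trans ?_
    rw [← smul_eq_mul]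
    refine Finset.sum_le_card_nsmul _ _ _ fun x hx => ?_
    exact Finset.card_image_le.trans (hB x hx)

end HG_

theorem p_HIGH (h1 : T_HG) (h2 : T_NP) (h3 : T_ASM) : T_HIGH := by
  intro δ hδ
  have hd0 : 0 < min δ 1 := lt_min hδ one_pos
  have hd1 : min δ 1 ≤ 1 := min_le_right _ _
  set d : ℝ := min δ 1 with hd
  obtain ⟨K, c, N1, hc, H1'⟩ := h1 d hd0
  have hη0 : 0 < d / 10 ^ 5 := by positivity
  set η : ℝ := d / 10 ^ 5 with hη
  have hη1 : η ≤ 1 / 10 ^ 5 := by rw [hη]; gcongr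
  obtain ⟨ε, ε', N2, hε, hε', H3'⟩ := h3 K c (min c 1) 0 η hc (lt_min hc one_pos)
    (min_le_right _ _) (min_le_left _ _) le_rfl hη0
    (hη1.trans (by norm_num)) (by simpa using hc.le) (by simpa using hη0.le)
  obtain ⟨N3, H2'⟩ := h2 ε' hε'
  refine ⟨ε, max (max N1 N2) (max (2 * N3) ⌈100 / η⌉₊), hε, ?_⟩
  intro V _ _ sc hN hfree
  have n1 : N1 ≤ Fintype.card V := le_trans (le_trans (le_max_left _ _) (le_max_left _ _)) hN
  have n2 : N2 ≤ Fintype.card V := le_trans (le_trans (le_max_right _ _) (le_max_left _ _)) hN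
  have n3 : 2 * N3 ≤ Fintype.card V :=
    le_trans (le_trans (le_max_left _ _) (le_max_right _ _)) hN
  have n4 : ⌈100 / η⌉₊ ≤ Fintype.card V :=
    le_trans (le_trans (le_max_right _ _) (le_max_right _ _)) hN
  have n5 : 100 / η ≤ (Fintype.card V : ℝ) :=
    (Nat.le_ceil _).trans (by exact_mod_cast n4)
  have n6 : 100 ≤ η * (Fintype.card V : ℝ) := by
    rw [div_le_iff₀ hη0] at n5; linarith
  have hfree' : d * (Fintype.card V : ℝ) ^ 2 ≤ ((univ.filter fun p : V × V => p.1 ≠ p.2 ∧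
    (sc.col p.1 p.2).1 ≠ (sc.col p.1 p.2).2).card : ℝ) := by
    refine le_trans ?_ hfree
    exact mul_le_mul_of_nonneg_right (min_le_left _ _) (by positivity)
  refine H3' V sc univ n2 (by simp) (H1' V sc n1 hfree') (fun w hw => absurd (Finset.mem_univ w) hw)
    ?_
  intro U Γ _ hU hΓ hΓ2
  set N : ℝ := (Fintype.card V : ℝ) with hNdef
  have hN0 : 0 ≤ N := Nat.cast_nonneg _
  have hUc : ((univ \ U).card : ℝ) + U.card = N := by
    have := Finset.card_sdiff_add_card_eq_card (Finset.subset_univ U)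
    rw [Finset.card_univ] at this
    rw [hNdef]
    exact_mod_cast this
  have hU1 : (99 / 100 : ℝ) * N ≤ U.card := by
    have : η * N ≤ 1 / 10 ^ 5 * N := mul_le_mul_of_nonneg_right hη1 hN0
    nlinarith
  have hU2 : (U.card : ℝ) ≤ N := by
    have : (0 : ℝ) ≤ ((univ \ U).card : ℝ) := Nat.cast_nonneg _
    linarith
  have hU3 : N3 ≤ U.card := by
    have h : (N3 : ℝ) ≤ U.card := by
      have : (2 * N3 : ℝ) ≤ N := by rw [hNdef]; exact_mod_cast n3
      linarith
    exact_mod_cast h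
  refine nearP_mono (H2' V sc U Γ (3 * η) hU3 (by positivity) ?_ ?_ (fun z hz => (hΓ z).1 hz) ?_ ?_)
    ?_
  · calc 3 * η ≤ 3 * (1 / 10 ^ 5) := by gcongr
      _ ≤ 1 / 1000 := by norm_num
  · nlinarith
  · intro a ha
    have e1 := card_bad sc U Γ hΓ a
    have e2 := hΓ2 a ha
    have e3 : ((U.filter fun b => b = a ∨ sc.col a b ∉ Γ).card : ℝ) ≤ 1 + ((univ \ U).card : ℝ) +
      ((univ.filter fun y => y ≠ a ∧ (sc.col a y).1 ≠ (sc.col a y).2 ∧
        sc.col a y ∉ Γ).card : ℝ) := by exact_mod_cast e1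
    nlinarith
  · right
    have e1 := card_good sc U Γ ⌊η * N⌋₊ (fun x hx => Nat.le_floor (hΓ2 x hx))
    have e2 : (⌊η * N⌋₊ : ℝ) ≤ η * N := Nat.floor_le (by positivity)
    have e3 : ((univ.filter fun p : V × V => p.1 ≠ p.2 ∧
      (sc.col p.1 p.2).1 ≠ (sc.col p.1 p.2).2).card : ℝ) ≤
      (((U ×ˢ U).filter fun p => p.1 ≠ p.2 ∧
      (sc.col p.1 p.2).1 ≠ (sc.col p.1 p.2).2 ∧ sc.col p.1 p.2 ∈ Γ).card : ℝ) +
      2 * (((univ \ U).card : ℝ) * N) + (U.card : ℝ) * (⌊η * N⌋₊ : ℝ) := by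
      rw [hNdef]; exact_mod_cast e1
    have e4 : ((univ \ U).card : ℝ) * N ≤ η * N * N := mul_le_mul_of_nonneg_right hU hN0
    have e5 : (U.card : ℝ) * (⌊η * N⌋₊ : ℝ) ≤ N * (η * N) :=
      mul_le_mul hU2 e2 (Nat.cast_nonneg _) hN0
    have e6 : (U.card : ℝ) ^ 2 ≤ N ^ 2 := by
      have : (0 : ℝ) ≤ U.card := Nat.cast_nonneg _
      gcongr
    have e7 : η * (U.card : ℝ) ^ 2 ≤ η * N ^ 2 := mul_le_mul_of_nonneg_left e6 hη0.le
    have e8 : d = 10 ^ 5 * η := by rw [hη]; field_simp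
    have e9 : 10 ^ 5 * η * N ^ 2 ≤ ((univ.filter fun p : V × V => p.1 ≠ p.2 ∧
      (sc.col p.1 p.2).1 ≠ (sc.col p.1 p.2).2).card : ℝ) := by rw [← e8]; exact hfree'
    have e10 : 0 ≤ η * N ^ 2 := by positivity
    nlinarith
  · exact Nat.floor_le_floor (mul_le_mul_of_nonneg_left hU2 hε'.le)

end SpF
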