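import Pool.Agent.SpF.Targets

set_option autoImplicit false
set_option linter.unusedSectionVars false

/-!
# HPA: pair absorbers for all pairs
-/

namespace SpF
open Spider Finset

namespace HPA_

variable {V : Type} [Fintype V] [DecidableEq V]

theorem mem_vs {G : Finset (V × V)} {x : V} : x ∈ vs G ↔ (x, x) ∈ G := by
  unfold vs; simp

theorem vs_union (G G' : Finset (V × V)) : vs (G ∪ G') = vs G ∪ vs G' := by
  ext x; simp only [mem_vs, Finset.mem_union]

/-- union of two tileable sets -/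
theorem tile_union {sc : SC V} {G G' : Finset (V × V)} (h : Tileable sc G)
    (h' : Tileable sc G') (hd : Disjoint G G') : Tileable sc (G ∪ G') := by
  obtain ⟨S, M, hps, hun, hvs, hcol⟩ := h
  obtain ⟨S', M', hps', hun', hvs', hcol'⟩ := h'
  have hdis : ∀ x, x ∈ vs G → x ∈ vs G' → False := fun x hx hx' =>
    Finset.disjoint_left.1 hd (mem_vs.1 hx) (mem_vs.1 hx')
  have hS : ∀ x ∈ S, x ∈ vs G := fun x hx => hvs ▸ Finset.mem_union_left _ hx
  have hS' : ∀ x ∈ S', x ∈ vs G' := fun x hx => hvs' ▸ Finset.mem_union_left _ hx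
  have hM : ∀ p ∈ M, p.2 ∈ vs G := fun p hp =>
    hvs ▸ Finset.mem_union_right _ (Finset.mem_image_of_mem _ hp)
  have hM' : ∀ p ∈ M', p.2 ∈ vs G' := fun p hp =>
    hvs' ▸ Finset.mem_union_right _ (Finset.mem_image_of_mem _ hp)
  refine ⟨S ∪ S', M ∪ M', ⟨?_, ?_, ?_, ?_, ?_, ?_⟩, ?_, ?_, ?_⟩
  · intro p hp
    rcases Finset.mem_union.1 hp with hp | hp
    · exact Finset.mem_union_left _ (hps.row p hp)
    · exact Finset.mem_union_right _ (hps'.row p hp)
  · intro p hp hc
    rcases Finset.mem_union.1 hp with hp | hp <;> rcases Finset.mem_union.1 hc with hc | hc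
    · exact hps.lab p hp hc
    · exact hdis _ (hM p hp) (hS' _ hc)
    · exact hdis _ (hS _ hc) (hM' p hp)
    · exact hps'.lab p hp hc
  · intro p hp p' hp' he
    rcases Finset.mem_union.1 hp with hp | hp <;> rcases Finset.mem_union.1 hp' with hp' | hp'
    · exact hps.i1 p hp p' hp' he
    · exact (hdis _ (hS _ (hps.row p hp)) (he ▸ hS' _ (hps'.row p' hp'))).elim
    · exact (hdis _ (hS _ (hps.row p' hp')) (he ▸ hS' _ (hps'.row p hp))).elim
    · exact hps'.i1 p hp p' hp' he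
  · intro p hp p' hp' he
    rcases Finset.mem_union.1 hp with hp | hp <;> rcases Finset.mem_union.1 hp' with hp' | hp'
    · exact hps.i2 p hp p' hp' he
    · exact (hdis _ (hM p hp) (he ▸ hM' p' hp')).elim
    · exact (hdis _ (hM p' hp') (he ▸ hM' p hp)).elim
    · exact hps'.i2 p hp p' hp' he
  · intro p hp p' hp' he
    rcases Finset.mem_union.1 hp with hp | hp <;> rcases Finset.mem_union.1 hp' with hp' | hp'
    · exact hps.i3 p hp p' hp' he
    · exact (Finset.disjoint_left.1 hd (hcol p hp) (he ▸ hcol' p' hp')).elim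
    · exact (Finset.disjoint_left.1 hd (hcol p' hp') (he ▸ hcol' p hp)).elim
    · exact hps'.i3 p hp p' hp' he
  · intro p hp z hz
    rcases Finset.mem_union.1 hp with hp | hp
    · exact Finset.mem_union_left _ (hps.star p hp z hz)
    · exact Finset.mem_union_right _ (hps'.star p hp z hz)
  · rw [Finset.eq_empty_iff_forall_notMem]
    intro x hx
    rw [mem_unc] at hx
    rcases Finset.mem_union.1 hx.1 with h1 | h1
    · have h2 : x ∈ unc S M := mem_unc.2 ⟨h1, fun p hp => hx.2 p (Finset.mem_union_left _ hp)⟩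
      rw [hun] at h2
      exact Finset.notMem_empty _ h2
    · have h2 : x ∈ unc S' M' := mem_unc.2 ⟨h1, fun p hp => hx.2 p (Finset.mem_union_right _ hp)⟩
      rw [hun'] at h2
      exact Finset.notMem_empty _ h2
  · rw [vs_union, ← hvs, ← hvs', Finset.image_union]
    ext x; simp only [Finset.mem_union]; tauto
  · intro p hp
    rcases Finset.mem_union.1 hp with hp | hp
    · exact Finset.mem_union_left _ (hcol p hp)
    · exact Finset.mem_union_right _ (hcol' p hp)

theorem PA_symm {sc : SC V} {x y : V} {G : Finset (V × V)} (h : PA sc x y G) :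
    PA sc y x G := by
  obtain ⟨h1, h2, h3, h4⟩ := h
  exact ⟨h2, h1, h3, by rw [Finset.insert_comm]; exact h4⟩

/-- picking a member of a family that avoids a small set -/
theorem pick {I : Type} [DecidableEq I] {𝒢 : Finset (Finset I)}
    (hd : (𝒢 : Set (Finset I)).PairwiseDisjoint id) (Y : Finset I) (hY : Y.card < 𝒢.card) :
    ∃ G ∈ 𝒢, Disjoint G Y := by
  by_contra hcon
  push Not at hcon
  have hI : Nonempty I := by
    obtain ⟨G, hG⟩ : 𝒢.Nonempty := Finset.card_pos.1 (by omega)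
    obtain ⟨i, _⟩ := Finset.not_disjoint_iff.1 (hcon G hG)
    exact ⟨i⟩
  have h1 : ∀ G ∈ 𝒢, ∃ i, i ∈ G ∧ i ∈ Y := by
    intro G hG
    have := hcon G hG
    rw [Finset.not_disjoint_iff] at this
    exact this
  choose! f hf using h1
  have h2 : 𝒢.card ≤ Y.card := by
    apply Finset.card_le_card_of_injOn f
    · intro G hG
      exact (hf G hG).2
    · intro G hG G' hG' he
      by_contra hne
      have := hd hG hG' hne
      exact Finset.disjoint_left.1 this (hf G hG).1 (he ▸ (hf G' hG').1)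
  omega

/-- absorbers avoiding small sets -/
def Q (sc : SC V) (b K : ℕ) (x y : V) : Prop :=
  ∀ Y : Finset (V × V), Y.card ≤ b →
    ∃ W : Finset (V × V), W.Nonempty ∧ W.card ≤ K ∧ PA sc x y W ∧ Disjoint W Y

theorem Q_symm {sc : SC V} {b K : ℕ} {x y : V} (h : Q sc b K x y) : Q sc b K y x := by
  intro Y hY
  obtain ⟨W, h1, h2, h3, h4⟩ := h Y hY
  exact ⟨W, h1, h2, PA_symm h3, h4⟩

theorem Q_mono {sc : SC V} {b b' K K' : ℕ} {x y : V} (h : Q sc b K x y) (hb : b' ≤ b)
    (hK : K ≤ K') : Q sc b' K' x y := by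
  intro Y hY
  obtain ⟨W, h1, h2, h3, h4⟩ := h Y (hY.trans hb)
  exact ⟨W, h1, h2.trans hK, h3, h4⟩

theorem Q_of_fam {sc : SC V} {b K : ℕ} {c : ℝ} {x y : V} (h : Fam K c (PA sc x y))
    (hb : (b : ℝ) < c * Fintype.card V) : Q sc b K x y := by
  obtain ⟨𝒢, hd, hG, hc⟩ := h
  intro Y hY
  have h1 : Y.card < 𝒢.card := by
    have h2 : (b : ℝ) < 𝒢.card := lt_of_lt_of_le hb hc
    have h3 : b < 𝒢.card := by exact_mod_cast h2
    omega
  obtain ⟨G, hGm, hGd⟩ := pick hd Y h1
  obtain ⟨h2, h3, h4⟩ := hG G hGm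
  exact ⟨G, h2, h3, h4, hGd⟩

/-- one switcher -/
theorem Q_step {sc : SC V} {Ri : Finset V} {b K K2 : ℕ} {c : ℝ} {x y : V} (hxy : x ≠ y)
    (h : Fam K2 c (SW sc Ri x)) (hb : ((b + 1 : ℕ) : ℝ) < c * Fintype.card V)
    (hQ : ∀ z ∈ Ri, z ≠ y → Q sc (b + 1 + K2) K z y) : Q sc b (K2 + K) x y := by
  obtain ⟨𝒢, hd, hG, hc⟩ := h
  intro Y hY
  have h1 : (insert (y, y) Y).card < 𝒢.card := by
    have h2 : ((b + 1 : ℕ) : ℝ) < 𝒢.card := lt_of_lt_of_le hb hc
    have h3 : b + 1 < 𝒢.card := by exact_mod_cast h2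
    have := Finset.card_insert_le (y, y) Y
    omega
  obtain ⟨G1, hGm, hGd⟩ := pick hd _ h1
  obtain ⟨-, hK2, hx1, z, T, hz, hG1, hzT, ht1, ht2⟩ := hG G1 hGm
  have hzG : (z, z) ∈ G1 := by rw [hG1]; exact Finset.mem_insert_self _ _
  have hyG : (y, y) ∉ G1 := fun h =>
    Finset.disjoint_left.1 hGd h (Finset.mem_insert_self _ _)
  have hxG : (x, x) ∉ G1 := fun h => hx1 (mem_vs.2 h)
  have hzy : z ≠ y := by rintro rfl; exact hyG hzG
  have hzx : z ≠ x := by rintro rfl; exact hxG hzG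
  have hTG : ∀ i ∈ T, i ∈ G1 := fun i hi => by rw [hG1]; exact Finset.mem_insert_of_mem hi
  obtain ⟨G3, hne, hK3, ⟨hz3, hy3, ht3, ht4⟩, hd3⟩ := hQ z hz hzy (insert (x, x) (Y ∪ G1)) (by
    have h2 := Finset.card_insert_le (x, x) (Y ∪ G1)
    have h3 := Finset.card_union_le Y G1
    omega)
  have hx3 : (x, x) ∉ G3 := fun h =>
    Finset.disjoint_left.1 hd3 h (Finset.mem_insert_self _ _)
  have hd13 : Disjoint G1 G3 := by
    rw [Finset.disjoint_left]
    intro i hi hi3
    exact Finset.disjoint_left.1 hd3 hi3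
      (Finset.mem_insert_of_mem (Finset.mem_union_right _ hi))
  have hdY3 : Disjoint G3 Y := by
    rw [Finset.disjoint_left]
    intro i hi hiY
    exact Finset.disjoint_left.1 hd3 hi
      (Finset.mem_insert_of_mem (Finset.mem_union_left _ hiY))
  have hdY1 : Disjoint G1 Y := by
    rw [Finset.disjoint_left]
    intro i hi hiY
    exact Finset.disjoint_left.1 hGd hi (Finset.mem_insert_of_mem hiY)
  rw [mem_vs] at hz3 hy3
  refine ⟨G1 ∪ G3, hne.mono Finset.subset_union_right, ?_, ⟨?_, ?_, ?_, ?_⟩, ?_⟩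
  · have := Finset.card_union_le G1 G3
    omega
  · rw [mem_vs, Finset.mem_union]
    rintro (h | h)
    · exact hxG h
    · exact hx3 h
  · rw [mem_vs, Finset.mem_union]
    rintro (h | h)
    · exact hyG h
    · exact hy3 h
  · exact tile_union (by rw [hG1]; exact ht2) ht3 hd13
  · have h5 : insert (x, x) (insert (y, y) (G1 ∪ G3)) =
        insert (x, x) T ∪ insert (z, z) (insert (y, y) G3) := by
      rw [hG1]
      ext i
      simp only [Finset.mem_insert, Finset.mem_union]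
      tauto
    rw [h5]
    refine tile_union ht1 ht4 ?_
    rw [Finset.disjoint_left]
    intro i hi hi'
    rcases Finset.mem_insert.1 hi with rfl | hi
    · rcases Finset.mem_insert.1 hi' with h | h
      · exact hzx (Prod.ext_iff.1 h).1.symm
      · rcases Finset.mem_insert.1 h with h | h
        · exact hxy (Prod.ext_iff.1 h).1
        · exact hx3 h
    · rcases Finset.mem_insert.1 hi' with rfl | h
      · exact hzT hi
      · rcases Finset.mem_insert.1 h with rfl | h
        · exact hyG (hTG _ hi)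
        · exact Finset.disjoint_left.1 hd13 (hTG _ hi) h
  · exact Finset.disjoint_union_left.2 ⟨hdY1, hdY3⟩

/-- a family from `Q` -/
theorem fam_of_Q {sc : SC V} {b K : ℕ} {x y : V} (h : Q sc b K x y) (j : ℕ)
    (hj : K * j ≤ b + K) : ∃ 𝒢 : Finset (Finset (V × V)),
      (𝒢 : Set (Finset (V × V))).PairwiseDisjoint id ∧
      (∀ G ∈ 𝒢, G.Nonempty ∧ G.card ≤ K ∧ PA sc x y G) ∧ 𝒢.card = j := by
  induction j with
  | zero => exact ⟨∅, by simp, by simp, rfl⟩
  | succ j ih =>
    obtain ⟨𝒢, h1, h2, h3⟩ := ih (by rw [Nat.mul_succ] at hj; omega)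
    have h4 : (𝒢.biUnion id).card ≤ b := by
      have h5 := Finset.card_biUnion_le_card_mul 𝒢 id K (fun G hG => (h2 G hG).2.1)
      rw [h3] at h5
      rw [Nat.mul_succ] at hj
      rw [mul_comm] at h5
      omega
    obtain ⟨W, hne, hK, hPA, hd⟩ := h _ h4
    have hdis : ∀ G ∈ 𝒢, Disjoint W G := by
      intro G hG
      rw [Finset.disjoint_left]
      intro i hi hiG
      exact Finset.disjoint_left.1 hd hi (Finset.mem_biUnion.2 ⟨G, hG, hiG⟩)
    have hW : W ∉ 𝒢 := by
      intro hW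
      obtain ⟨i, hi⟩ := hne
      exact Finset.disjoint_left.1 (hdis W hW) hi hi
    refine ⟨insert W 𝒢, ?_, ?_, ?_⟩
    · rw [Finset.coe_insert]
      refine h1.insert ?_
      intro G hG _
      exact hdis G hG
    · intro G hG
      rcases Finset.mem_insert.1 hG with rfl | hG
      · exact ⟨hne, hK, hPA⟩
      · exact h2 G hG
    · rw [Finset.card_insert_of_notMem hW, h3]

end HPA_

open HPA_ in
theorem p_HPA (h1 : T_HPR) (h2 : T_HSW) : T_HPA := by
  intro δ hδ hδ1
  obtain ⟨K1, c1, N1, hc1, H1⟩ := h1 δ hδ hδ1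
  obtain ⟨K2, c2, N2, hc2, H2⟩ := h2 δ hδ hδ1
  set m : ℝ := min c1 c2 with hm
  have hm0 : 0 < m := lt_min hc1 hc2
  set K : ℕ := K2 + (K2 + K1) + 1 with hK
  have hKpos : (0 : ℝ) < K := by rw [hK]; positivity
  set N3 : ℕ := ⌈((4 + 2 * K2 : ℕ) : ℝ) * 2 / m⌉₊ with hN3
  refine ⟨K, m / 2 / K, max (max N1 N2) (max N3 1), by positivity, ?_⟩
  intro V _ _ sc hN hR x y hxy
  have hNN1 : N1 ≤ Fintype.card V := (le_max_left _ _).trans ((le_max_left _ _).trans hN)
  have hNN2 : N2 ≤ Fintype.card V := (le_max_right _ _).trans ((le_max_left _ _).trans hN)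
  have hNN3 : N3 ≤ Fintype.card V := (le_max_left _ _).trans ((le_max_right _ _).trans hN)
  have hNN4 : 1 ≤ Fintype.card V := (le_max_right _ _).trans ((le_max_right _ _).trans hN)
  set N : ℝ := (Fintype.card V : ℝ) with hNdef
  have hN0 : 1 ≤ N := by rw [hNdef]; exact_mod_cast hNN4
  have hbig : ((4 + 2 * K2 : ℕ) : ℝ) ≤ m / 2 * N := by
    have h3 : ((4 + 2 * K2 : ℕ) : ℝ) * 2 / m ≤ N :=
      (Nat.le_ceil _).trans (Nat.cast_le.2 hNN3)
    rw [div_le_iff₀ hm0] at h3
    linarith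
  set b : ℕ := ⌈m / 2 * N⌉₊ with hb
  have hb1 : m / 2 * N ≤ b := Nat.le_ceil _
  have hb2 : (b : ℝ) < m / 2 * N + 1 := Nat.ceil_lt_add_one (by positivity)
  have hmc1 : m ≤ c1 := min_le_left _ _
  have hmc2 : m ≤ c2 := min_le_right _ _
  have hb3 : ((b + 2 * (1 + K2) : ℕ) : ℝ) < c1 * N := by
    push_cast at hbig ⊢
    have : m * N ≤ c1 * N := mul_le_mul_of_nonneg_right hmc1 (by linarith)
    nlinarith
  have hb4 : ((b + (1 + K2) + 1 : ℕ) : ℝ) < c2 * N := by
    push_cast at hbig ⊢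
    have : m * N ≤ c2 * N := mul_le_mul_of_nonneg_right hmc2 (by linarith)
    have h0 : (0 : ℝ) ≤ K2 := Nat.cast_nonneg _
    nlinarith
  have hb5 : ((b + 1 : ℕ) : ℝ) < c2 * N := by
    refine lt_of_le_of_lt ?_ hb4
    exact_mod_cast (by omega : b + 1 ≤ b + (1 + K2) + 1)
  set Ri : Finset V := Rich sc (δ ^ 2 / 100 * Fintype.card V) with hRi
  -- two rich vertices
  have hrr : ∀ z ∈ Ri, ∀ z' ∈ Ri, z ≠ z' → Q sc (b + 2 * (1 + K2)) K1 z z' := by
    intro z hz z' hz' hne
    exact Q_of_fam (H1 V sc hNN1 hR z hz z' hz' hne) hb3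
  -- one rich vertex
  have hr : ∀ z ∈ Ri, ∀ y, z ≠ y → Q sc (b + (1 + K2)) (K2 + K1) z y := by
    intro z hz y hne
    by_cases hy : y ∈ Ri
    · exact Q_mono (hrr z hz y hy hne) (by omega) (by omega)
    · apply Q_symm
      refine Q_step hne.symm (H2 V sc hNN2 hR y hy) hb4 ?_
      intro w hw hwz
      exact Q_mono (hrr w hw z hz hwz) (by omega) le_rfl
  have hall : Q sc b K x y := by
    by_cases hx : x ∈ Ri
    · exact Q_mono (hr x hx y hxy) (by omega) (by omega)
    · refine Q_mono (Q_step (b := b) (K := K2 + K1) hxy (H2 V sc hNN2 hR x hx) hb5 ?_)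
        le_rfl (by omega)
      intro w hw hwy
      exact Q_mono (hr w hw y hwy) (by omega) le_rfl
  obtain ⟨𝒢, hd, hG, hcard⟩ := fam_of_Q hall (b / K + 1) (by
    rw [Nat.mul_succ]
    have := Nat.mul_div_le b K
    omega)
  refine ⟨𝒢, hd, hG, ?_⟩
  rw [hcard]
  have h3 : (b : ℝ) ≤ K * ((b / K + 1 : ℕ) : ℝ) := by
    have h4 : b ≤ K * (b / K + 1) := by
      have h5 := Nat.lt_mul_div_succ b (show 0 < K by omega)
      omega
    exact_mod_cast h4
  have h6 : m / 2 / K * N = (m / 2 * N) / K := by ring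
  rw [← hNdef, h6, div_le_iff₀ hKpos]
  linarith

end SpF
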