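import Pool.Agent.SpF.Targets

/-!
# Switchers for poor vertices (job HSW, MP_4fbaa5_co)
-/

namespace SpF
open Spider Finset

namespace HSW_

variable {V : Type} [Fintype V] [DecidableEq V]

lemma free_iff (sc : SC V) (x y : V) :
    (sc.col x y).1 ≠ (sc.col x y).2 ↔ ∀ z, sc.col x y ≠ (z, z) := by
  constructor
  · intro h z hz
    rw [hz] at h
    exact h rfl
  · intro h he
    exact h (sc.col x y).1 (Prod.ext rfl he.symm)

lemma Fr_eq (sc : SC V) (x : V) :
    (univ.filter fun y => y ≠ x ∧ (sc.col x y).1 ≠ (sc.col x y).2) = Fr sc x := by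
  ext y
  rw [mem_Fr, mem_filter, free_iff]
  simp

lemma mem_Rich {sc : SC V} {m : ℝ} {x : V} : x ∈ Rich sc m ↔ m ≤ ((Fr sc x).card : ℝ) := by
  unfold Rich
  rw [mem_filter, Fr_eq]
  simp

lemma Fr_symm {sc : SC V} {x y : V} : y ∈ Fr sc x ↔ x ∈ Fr sc y := by
  rw [mem_Fr, mem_Fr, sc.symm x y]
  constructor
  · rintro ⟨h1, h2⟩; exact ⟨h1.symm, h2⟩
  · rintro ⟨h1, h2⟩; exact ⟨h1.symm, h2⟩

/-- two legs -/
lemma tile2 (sc : SC V) {a b c d : V} {G : Finset (V × V)} (hab : a ≠ b) (hac : a ≠ c)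
    (had : a ≠ d) (hbc : b ≠ c) (hbd : b ≠ d) (hcd : c ≠ d) (hvs : vs G = {a, b, c, d})
    (h1 : sc.col a b ∈ G) (h2 : sc.col c d ∈ G) (hne : sc.col a b ≠ sc.col c d)
    (hl1 : ∀ z, sc.col a b = (z, z) → z = a ∨ z = c)
    (hl2 : ∀ z, sc.col c d = (z, z) → z = a ∨ z = c) : Tileable sc G := by
  have p0 : PS sc {a, c} (∅ : Finset (V × V)) :=
    ⟨by simp, by simp, by simp, by simp, by simp, by simp⟩
  have p1 : PS sc {a, c} (insert (c, d) (∅ : Finset (V × V))) := by
    refine p0.cover (by simp) (by simp) ?_ (by simp) (by simp) ?_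
    · simp only [mem_insert, mem_singleton, not_or]
      exact ⟨had.symm, hcd.symm⟩
    · intro z hz
      simpa using hl2 z hz
  have p2 : PS sc {a, c} (insert (a, b) (insert (c, d) (∅ : Finset (V × V)))) := by
    refine p1.cover (by simp) ?_ ?_ ?_ ?_ ?_
    · intro p hp
      simp only [insert_empty_eq, mem_singleton] at hp
      rw [hp]; exact hac.symm
    · simp only [mem_insert, mem_singleton, not_or]
      exact ⟨hab.symm, hbc⟩
    · intro p hp
      simp only [insert_empty_eq, mem_singleton] at hp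
      rw [hp]; exact hbd.symm
    · intro p hp
      simp only [insert_empty_eq, mem_singleton] at hp
      rw [hp]; exact hne.symm
    · intro z hz
      simpa using hl1 z hz
  refine ⟨_, _, p2, ?_, ?_, ?_⟩
  · rw [unc_cover, unc_cover]
    ext y
    rw [mem_erase, mem_erase, mem_unc]
    simp only [mem_insert, mem_singleton, notMem_empty, iff_false]
    tauto
  · rw [hvs]
    ext y
    simp only [mem_union, mem_insert, mem_singleton, mem_image, insert_empty_eq]
    constructor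
    · rintro ((h | h) | ⟨p, hp | hp, h⟩)
      · exact Or.inl h
      · exact Or.inr (Or.inr (Or.inl h))
      · rw [hp] at h; exact Or.inr (Or.inl h.symm)
      · rw [hp] at h; exact Or.inr (Or.inr (Or.inr h.symm))
    · rintro (h | h | h | h)
      · exact Or.inl (Or.inl h)
      · exact Or.inr ⟨_, Or.inl rfl, h.symm⟩
      · exact Or.inl (Or.inr h)
      · exact Or.inr ⟨_, Or.inr rfl, h.symm⟩
  · intro p hp
    simp only [insert_empty_eq, mem_insert, mem_singleton] at hp
    rcases hp with hp | hp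
    · rw [hp]; exact h1
    · rw [hp]; exact h2

/-- three legs -/
lemma tile3 (sc : SC V) {a b c d e f : V} {G : Finset (V × V)} (hab : a ≠ b) (hac : a ≠ c)
    (had : a ≠ d) (hae : a ≠ e) (haf : a ≠ f) (hbc : b ≠ c) (hbd : b ≠ d) (hbe : b ≠ e)
    (hbf : b ≠ f) (hcd : c ≠ d) (hce : c ≠ e) (hcf : c ≠ f) (hde : d ≠ e) (hdf : d ≠ f)
    (hef : e ≠ f) (hvs : vs G = {a, b, c, d, e, f})
    (h1 : sc.col a b ∈ G) (h2 : sc.col c d ∈ G) (h3 : sc.col e f ∈ G)
    (hne1 : sc.col a b ≠ sc.col c d) (hne2 : sc.col a b ≠ sc.col e f)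
    (hne3 : sc.col c d ≠ sc.col e f)
    (hl1 : ∀ z, sc.col a b = (z, z) → z = a ∨ z = c ∨ z = e)
    (hl2 : ∀ z, sc.col c d = (z, z) → z = a ∨ z = c ∨ z = e)
    (hl3 : ∀ z, sc.col e f = (z, z) → z = a ∨ z = c ∨ z = e) : Tileable sc G := by
  have p0 : PS sc {a, c, e} (∅ : Finset (V × V)) :=
    ⟨by simp, by simp, by simp, by simp, by simp, by simp⟩
  have p1 : PS sc {a, c, e} (insert (e, f) (∅ : Finset (V × V))) := by
    refine p0.cover (by simp) (by simp) ?_ (by simp) (by simp) ?_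
    · simp only [mem_insert, mem_singleton, not_or]
      exact ⟨haf.symm, hcf.symm, hef.symm⟩
    · intro z hz
      simpa using hl3 z hz
  have p2 : PS sc {a, c, e} (insert (c, d) (insert (e, f) (∅ : Finset (V × V)))) := by
    refine p1.cover (by simp) ?_ ?_ ?_ ?_ ?_
    · intro p hp
      simp only [insert_empty_eq, mem_singleton] at hp
      rw [hp]; exact hce.symm
    · simp only [mem_insert, mem_singleton, not_or]
      exact ⟨had.symm, hcd.symm, hde⟩
    · intro p hp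
      simp only [insert_empty_eq, mem_singleton] at hp
      rw [hp]; exact hdf.symm
    · intro p hp
      simp only [insert_empty_eq, mem_singleton] at hp
      rw [hp]; exact hne3.symm
    · intro z hz
      simpa using hl2 z hz
  have p3 : PS sc {a, c, e}
      (insert (a, b) (insert (c, d) (insert (e, f) (∅ : Finset (V × V))))) := by
    refine p2.cover (by simp) ?_ ?_ ?_ ?_ ?_
    · intro p hp
      simp only [insert_empty_eq, mem_insert, mem_singleton] at hp
      rcases hp with hp | hp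
      · rw [hp]; exact hac.symm
      · rw [hp]; exact hae.symm
    · simp only [mem_insert, mem_singleton, not_or]
      exact ⟨hab.symm, hbc, hbe⟩
    · intro p hp
      simp only [insert_empty_eq, mem_insert, mem_singleton] at hp
      rcases hp with hp | hp
      · rw [hp]; exact hbd.symm
      · rw [hp]; exact hbf.symm
    · intro p hp
      simp only [insert_empty_eq, mem_insert, mem_singleton] at hp
      rcases hp with hp | hp
      · rw [hp]; exact hne1.symm
      · rw [hp]; exact hne2.symm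
    · intro z hz
      simpa using hl1 z hz
  refine ⟨_, _, p3, ?_, ?_, ?_⟩
  · rw [unc_cover, unc_cover, unc_cover]
    ext y
    rw [mem_erase, mem_erase, mem_erase, mem_unc]
    simp only [mem_insert, mem_singleton, notMem_empty, iff_false]
    tauto
  · rw [hvs]
    ext y
    simp only [mem_union, mem_insert, mem_singleton, mem_image, insert_empty_eq]
    constructor
    · rintro ((h | h | h) | ⟨p, hp | hp | hp, h⟩)
      · exact Or.inl h
      · exact Or.inr (Or.inr (Or.inl h))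
      · exact Or.inr (Or.inr (Or.inr (Or.inr (Or.inl h))))
      · rw [hp] at h; exact Or.inr (Or.inl h.symm)
      · rw [hp] at h; exact Or.inr (Or.inr (Or.inr (Or.inl h.symm)))
      · rw [hp] at h; exact Or.inr (Or.inr (Or.inr (Or.inr (Or.inr h.symm))))
    · rintro (h | h | h | h | h | h)
      · exact Or.inl (Or.inl h)
      · exact Or.inr ⟨_, Or.inl rfl, h.symm⟩
      · exact Or.inl (Or.inr (Or.inl h))
      · exact Or.inr ⟨_, Or.inr (Or.inl rfl), h.symm⟩
      · exact Or.inl (Or.inr (Or.inr h))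
      · exact Or.inr ⟨_, Or.inr (Or.inr rfl), h.symm⟩
  · intro p hp
    simp only [insert_empty_eq, mem_insert, mem_singleton] at hp
    rcases hp with hp | hp | hp
    · rw [hp]; exact h1
    · rw [hp]; exact h2
    · rw [hp]; exact h3

/-- number of triples -/
lemma cnt3 (U : Finset V) (W : V → Finset V) (Z : V → V → Finset V) {a b c : ℝ} (hb : 0 ≤ b)
    (hc : 0 ≤ c) (hU : a ≤ U.card) (hW : ∀ u ∈ U, b ≤ (W u).card)
    (hZ : ∀ u ∈ U, ∀ w ∈ W u, c ≤ (Z u w).card) :
    a * b * c ≤ ((univ.filter fun t : V × V × V => t.1 ∈ U ∧ t.2.1 ∈ W t.1 ∧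
      t.2.2 ∈ Z t.1 t.2.1).card : ℝ) := by
  have h1 : ((univ.filter fun t : V × V × V => t.1 ∈ U ∧ t.2.1 ∈ W t.1 ∧
      t.2.2 ∈ Z t.1 t.2.1).card) = ∑ u ∈ U, ∑ w ∈ W u, (Z u w).card := by
    have e : (U.sigma fun u => (W u).sigma fun w => Z u w).card =
        ∑ u ∈ U, ∑ w ∈ W u, (Z u w).card := by
      rw [card_sigma]
      exact sum_congr rfl fun u _ => card_sigma _ _
    rw [← e]
    refine card_nbij' (fun t => (⟨t.1, t.2.1, t.2.2⟩ : Σ _ : V, Σ _ : V, V))
      (fun s => (s.1, s.2.1, s.2.2)) ?_ ?_ ?_ ?_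
    · rintro ⟨u, w, z⟩ h
      simpa using h
    · rintro ⟨u, w, z⟩ h
      simpa using h
    · rintro ⟨u, w, z⟩ _; rfl
    · rintro ⟨u, w, z⟩ _; rfl
  rw [h1]
  push_cast
  calc a * b * c ≤ U.card * b * c := by gcongr
    _ = ∑ u ∈ U, b * c := by rw [sum_const, nsmul_eq_mul]; ring
    _ ≤ ∑ u ∈ U, ∑ w ∈ W u, ((Z u w).card : ℝ) := by
        refine sum_le_sum fun u hu => ?_
        calc b * c ≤ (W u).card * c := by gcongr; exact hW u hu
          _ = ∑ w ∈ W u, c := by rw [sum_const, nsmul_eq_mul]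
          _ ≤ _ := sum_le_sum fun w hw => hZ u hu w hw

/-- number of quadruples -/
lemma cnt4 (U : Finset V) (W : V → Finset V) (Z : V → V → Finset V)
    (Y : V → V → V → Finset V) {a b c d : ℝ} (hb : 0 ≤ b)
    (hc : 0 ≤ c) (hd : 0 ≤ d) (hU : a ≤ U.card) (hW : ∀ u ∈ U, b ≤ (W u).card)
    (hZ : ∀ u ∈ U, ∀ w ∈ W u, c ≤ (Z u w).card)
    (hY : ∀ u ∈ U, ∀ w ∈ W u, ∀ z ∈ Z u w, d ≤ (Y u w z).card) :
    a * b * c * d ≤ ((univ.filter fun t : V × V × V × V => t.1 ∈ U ∧ t.2.1 ∈ W t.1 ∧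
      t.2.2.1 ∈ Z t.1 t.2.1 ∧ t.2.2.2 ∈ Y t.1 t.2.1 t.2.2.1).card : ℝ) := by
  have h1 : ((univ.filter fun t : V × V × V × V => t.1 ∈ U ∧ t.2.1 ∈ W t.1 ∧
      t.2.2.1 ∈ Z t.1 t.2.1 ∧ t.2.2.2 ∈ Y t.1 t.2.1 t.2.2.1).card) =
      ∑ u ∈ U, ∑ w ∈ W u, ∑ z ∈ Z u w, (Y u w z).card := by
    have e : (U.sigma fun u => (W u).sigma fun w => (Z u w).sigma fun z => Y u w z).card =
        ∑ u ∈ U, ∑ w ∈ W u, ∑ z ∈ Z u w, (Y u w z).card := by
      rw [card_sigma]
      refine sum_congr rfl fun u _ => ?_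
      rw [card_sigma]
      exact sum_congr rfl fun w _ => card_sigma _ _
    rw [← e]
    refine card_nbij' (fun t => (⟨t.1, t.2.1, t.2.2.1, t.2.2.2⟩ : Σ _ : V, Σ _ : V, Σ _ : V, V))
      (fun s => (s.1, s.2.1, s.2.2.1, s.2.2.2)) ?_ ?_ ?_ ?_
    · rintro ⟨u, w, z, y⟩ h
      simpa using h
    · rintro ⟨u, w, z, y⟩ h
      simpa using h
    · rintro ⟨u, w, z, y⟩ _; rfl
    · rintro ⟨u, w, z, y⟩ _; rfl
  rw [h1]
  push_cast
  calc a * b * c * d ≤ U.card * b * c * d := by gcongr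
    _ = ∑ u ∈ U, b * c * d := by rw [sum_const, nsmul_eq_mul]; ring
    _ ≤ ∑ u ∈ U, ∑ w ∈ W u, ∑ z ∈ Z u w, ((Y u w z).card : ℝ) := by
        refine sum_le_sum fun u hu => ?_
        calc b * c * d ≤ (W u).card * c * d := by gcongr; exact hW u hu
          _ = ∑ w ∈ W u, c * d := by rw [sum_const, nsmul_eq_mul]; ring
          _ ≤ ∑ w ∈ W u, ∑ z ∈ Z u w, ((Y u w z).card : ℝ) := by
              refine sum_le_sum fun w hw => ?_
              calc c * d ≤ (Z u w).card * d := by gcongr; exact hZ u hu w hw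
                _ = ∑ z ∈ Z u w, d := by rw [sum_const, nsmul_eq_mul]
                _ ≤ _ := sum_le_sum fun z hz => hY u hu w hw z hz

/-- bounding a set by an injection into pairs -/
lemma le2 {τ : Type} (P : Finset τ) (f : τ → V × V) (hf : Set.InjOn f (P : Set τ)) :
    P.card ≤ Fintype.card V ^ 2 := by
  have := card_le_card_of_injOn f (fun _ _ => mem_coe.2 (mem_univ _)) hf (t := univ)
  rwa [card_univ, Fintype.card_prod, ← pow_two] at this

/-- bounding a set by an injection into triples -/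
lemma le3 {τ : Type} (P : Finset τ) (f : τ → V × V × V) (hf : Set.InjOn f (P : Set τ)) :
    P.card ≤ Fintype.card V ^ 3 := by
  have := card_le_card_of_injOn f (fun _ _ => mem_coe.2 (mem_univ _)) hf (t := univ)
  rw [card_univ, Fintype.card_prod, Fintype.card_prod] at this
  calc P.card ≤ _ := this
    _ = _ := by ring

/-- degrees: union over the members -/
lemma deg_le {τ I : Type} [DecidableEq τ] [DecidableEq I] (P : Finset τ) (i : I) (B : ℕ) :
    ∀ (L : List (τ → I)), (∀ g ∈ L, (P.filter fun t => i = g t).card ≤ B) →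
    (P.filter fun t => ∃ g ∈ L, i = g t).card ≤ L.length * B
  | [], _ => by simp
  | g0 :: L, h => by
      have h1 := deg_le P i B L fun g hg => h g (List.mem_cons_of_mem _ hg)
      have h2 := h g0 List.mem_cons_self
      have hsub : (P.filter fun t => ∃ g ∈ g0 :: L, i = g t) ⊆
          (P.filter fun t => i = g0 t) ∪ (P.filter fun t => ∃ g ∈ L, i = g t) := by
        intro t ht
        obtain ⟨htP, g, hg, he⟩ := mem_filter.1 ht
        rcases List.mem_cons.1 hg with h5 | hg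
        · rw [h5] at he
          exact mem_union_left _ (mem_filter.2 ⟨htP, he⟩)
        · exact mem_union_right _ (mem_filter.2 ⟨htP, g, hg, he⟩)
      have h3 := (card_le_card hsub).trans (card_union_le _ _)
      rw [List.length_cons, Nat.add_mul, Nat.one_mul]
      omega

/-- the label of the edge `x u` -/
def pl (sc : SC V) (x u : V) : V := (sc.col x u).1

omit [Fintype V] [DecidableEq V] in
lemma diag_ne {sc : SC V} {a b : V} (h : ∀ z, sc.col a b ≠ (z, z)) (y : V) :
    ((y, y) = sc.col a b) ↔ False := by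
  constructor
  · intro he
    exact h y he.symm
  · intro he; exact he.elim

lemma card_one (sc : SC V) (u : V) (κ : V × V) :
    ((Fr sc u).filter fun z => sc.col u z = κ).card ≤ 1 := by
  rw [card_le_one]
  intro z hz z' hz'
  rw [mem_filter, mem_Fr] at hz hz'
  exact inj_col sc hz.1.1 hz'.1.1 (hz.2.trans hz'.2.symm)

/-- switchers of the first kind -/
lemma famA (sc : SC V) (x : V) (Ri U : Finset V) {a b c : ℝ} (hb : 0 ≤ b) (hc : 0 ≤ c)
    (hU : a ≤ U.card) (h1 : ∀ u ∈ U, u ≠ x ∧ sc.col x u = (pl sc x u, pl sc x u))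
    (hW : ∀ u ∈ U, b + 2 ≤ ((Fr sc (pl sc x u)).card : ℝ))
    (hZ : ∀ u ∈ U, c + 4 ≤ ((Fr sc u ∩ Ri).card : ℝ)) :
    ∃ 𝒢 : Finset (Finset (V × V)), (𝒢 : Set (Finset (V × V))).PairwiseDisjoint id ∧
      (∀ G ∈ 𝒢, G.Nonempty ∧ G.card ≤ 8 ∧ SW sc Ri x G) ∧
      a * b * c ≤ 36 * (Fintype.card V : ℝ) ^ 2 * 𝒢.card := by
  classical
  set W : V → Finset V := fun u => Fr sc (pl sc x u) \ {x, u} with hWdef
  set Z : V → V → Finset V := fun u w => ((Fr sc u ∩ Ri) \ {x, pl sc x u, w}).filter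
    (fun z => sc.col u z ≠ sc.col (pl sc x u) w) with hZdef
  have hWc : ∀ u ∈ U, b ≤ ((W u).card : ℝ) := by
    intro u hu
    have e1 : (Fr sc (pl sc x u)).card - ({x, u} : Finset V).card ≤ (W u).card :=
      le_card_sdiff _ _
    have e2 : ({x, u} : Finset V).card ≤ 2 := card_le_two
    have e3 : (Fr sc (pl sc x u)).card ≤ (W u).card + 2 := by omega
    have e4 : ((Fr sc (pl sc x u)).card : ℝ) ≤ (W u).card + 2 := by exact_mod_cast e3
    linarith [hW u hu]
  have hZc : ∀ u ∈ U, ∀ w ∈ W u, c ≤ ((Z u w).card : ℝ) := by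
    intro u hu w _
    have hsub : Fr sc u ∩ Ri ⊆ (Z u w ∪ {x, pl sc x u, w}) ∪
        (Fr sc u).filter (fun z => sc.col u z = sc.col (pl sc x u) w) := by
      intro z hz
      by_cases h2 : z ∈ ({x, pl sc x u, w} : Finset V)
      · exact mem_union_left _ (mem_union_right _ h2)
      · by_cases h3 : sc.col u z = sc.col (pl sc x u) w
        · exact mem_union_right _ (mem_filter.2 ⟨(mem_inter.1 hz).1, h3⟩)
        · exact mem_union_left _ (mem_union_left _ (mem_filter.2 ⟨mem_sdiff.2 ⟨hz, h2⟩, h3⟩))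
    have e1 := (card_le_card hsub).trans ((card_union_le _ _).trans
      (Nat.add_le_add_right (card_union_le _ _) _))
    have e2 : ({x, pl sc x u, w} : Finset V).card ≤ 3 := card_le_three
    have e3 := card_one sc u (sc.col (pl sc x u) w)
    have e4 : (Fr sc u ∩ Ri).card ≤ (Z u w).card + 4 := by omega
    have e5 : ((Fr sc u ∩ Ri).card : ℝ) ≤ (Z u w).card + 4 := by exact_mod_cast e4
    linarith [hZ u hu]
  set P : Finset (V × V × V) := univ.filter fun t => t.1 ∈ U ∧ t.2.1 ∈ W t.1 ∧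
      t.2.2 ∈ Z t.1 t.2.1 with hP
  have hPc : a * b * c ≤ (P.card : ℝ) := cnt3 U W Z hb hc hU hWc hZc
  have hmem : ∀ t ∈ P, t.1 ∈ U ∧ (t.2.1 ∈ Fr sc (pl sc x t.1) ∧ t.2.1 ≠ x ∧ t.2.1 ≠ t.1) ∧
      (t.2.2 ∈ Fr sc t.1 ∧ t.2.2 ∈ Ri ∧ t.2.2 ≠ x ∧ t.2.2 ≠ pl sc x t.1 ∧ t.2.2 ≠ t.2.1 ∧
        sc.col t.1 t.2.2 ≠ sc.col (pl sc x t.1) t.2.1) := by
    intro t ht
    obtain ⟨_, h2, h3, h4⟩ := mem_filter.1 ht
    simp only [hWdef, mem_sdiff, mem_insert, mem_singleton, not_or] at h3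
    simp only [hZdef, mem_filter, mem_sdiff, mem_inter, mem_insert, mem_singleton, not_or] at h4
    exact ⟨h2, h3, h4.1.1.1, h4.1.1.2, h4.1.2.1, h4.1.2.2.1, h4.1.2.2.2, h4.2⟩
  set T : V × V × V → Finset (V × V) := fun t => {(t.1, t.1), (pl sc x t.1, pl sc x t.1),
    (t.2.1, t.2.1), sc.col t.1 t.2.2, sc.col (pl sc x t.1) t.2.1} with hT
  set G : V × V × V → Finset (V × V) := fun t => insert (t.2.2, t.2.2) (T t) with hG
  set L : List (V × V × V → V × V) := [fun t => (t.2.2, t.2.2), fun t => (t.1, t.1),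
    fun t => (pl sc x t.1, pl sc x t.1), fun t => (t.2.1, t.2.1), fun t => sc.col t.1 t.2.2,
    fun t => sc.col (pl sc x t.1) t.2.1] with hL
  have hpl : ∀ u ∈ U, ∀ u' ∈ U, pl sc x u = pl sc x u' → u = u' := by
    intro u hu u' hu' he
    obtain ⟨h2, h3⟩ := h1 u hu
    obtain ⟨h4, h5⟩ := h1 u' hu'
    exact inj_col sc h2 h4 (by rw [h3, h5, he])
  have hGc : ∀ t, (G t).card ≤ 6 := by
    intro t
    refine (card_insert_le _ _).trans ?_
    have : (T t).card ≤ 5 := card_le_five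
    omega
  obtain ⟨𝒢, g1, g2, g3⟩ := exists_disjoint_family P G 6 (6 * Fintype.card V ^ 2)
    (fun t _ => ⟨(t.2.2, t.2.2), mem_insert_self _ _⟩) (fun t _ => hGc t) (by
      intro i
      have hsub : (P.filter fun t => i ∈ G t) ⊆ P.filter fun t => ∃ g ∈ L, i = g t := by
        intro t ht
        obtain ⟨ht, hi⟩ := mem_filter.1 ht
        refine mem_filter.2 ⟨ht, ?_⟩
        simp only [hG, hT, mem_insert, mem_singleton] at hi
        simp only [hL, List.mem_cons, List.not_mem_nil, or_false, exists_eq_or_imp,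
          exists_eq_left]
        exact hi
      refine (card_le_card hsub).trans ?_
      have := deg_le P i (Fintype.card V ^ 2) L ?_
      · simpa [hL] using this
      · intro g hg
        simp only [hL, List.mem_cons, List.not_mem_nil, or_false] at hg
        rcases hg with rfl | rfl | rfl | rfl | rfl | rfl
        · refine le2 _ (fun t => (t.1, t.2.1)) ?_
          rintro ⟨u, w, z⟩ ht ⟨u', w', z'⟩ ht' he
          obtain ⟨ht, hi⟩ := mem_filter.1 (mem_coe.1 ht)
          obtain ⟨ht', hi'⟩ := mem_filter.1 (mem_coe.1 ht')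
          simp only [Prod.mk.injEq] at he hi hi' ⊢
          have := hi.symm.trans hi'
          simp only [Prod.mk.injEq] at this
          exact ⟨he.1, he.2, this.1⟩
        · refine le2 _ (fun t => (t.2.1, t.2.2)) ?_
          rintro ⟨u, w, z⟩ ht ⟨u', w', z'⟩ ht' he
          obtain ⟨ht, hi⟩ := mem_filter.1 (mem_coe.1 ht)
          obtain ⟨ht', hi'⟩ := mem_filter.1 (mem_coe.1 ht')
          simp only [Prod.mk.injEq] at he ⊢
          have := hi.symm.trans hi'
          simp only [Prod.mk.injEq] at this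
          exact ⟨this.1, he.1, he.2⟩
        · refine le2 _ (fun t => (t.2.1, t.2.2)) ?_
          rintro ⟨u, w, z⟩ ht ⟨u', w', z'⟩ ht' he
          obtain ⟨ht, hi⟩ := mem_filter.1 (mem_coe.1 ht)
          obtain ⟨ht', hi'⟩ := mem_filter.1 (mem_coe.1 ht')
          simp only [Prod.mk.injEq] at he ⊢
          have := hi.symm.trans hi'
          simp only [Prod.mk.injEq] at this
          exact ⟨hpl u (hmem _ ht).1 u' (hmem _ ht').1 this.1, he.1, he.2⟩
        · refine le2 _ (fun t => (t.1, t.2.2)) ?_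
          rintro ⟨u, w, z⟩ ht ⟨u', w', z'⟩ ht' he
          obtain ⟨ht, hi⟩ := mem_filter.1 (mem_coe.1 ht)
          obtain ⟨ht', hi'⟩ := mem_filter.1 (mem_coe.1 ht')
          simp only [Prod.mk.injEq] at he ⊢
          have := hi.symm.trans hi'
          simp only [Prod.mk.injEq] at this
          exact ⟨he.1, this.1, he.2⟩
        · refine le2 _ (fun t => (t.1, t.2.1)) ?_
          rintro ⟨u, w, z⟩ ht ⟨u', w', z'⟩ ht' he
          obtain ⟨ht, hi⟩ := mem_filter.1 (mem_coe.1 ht)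
          obtain ⟨ht', hi'⟩ := mem_filter.1 (mem_coe.1 ht')
          simp only [Prod.mk.injEq] at he ⊢
          obtain ⟨rfl, rfl⟩ := he
          have h5 := (hmem _ ht).2.2.1
          have h6 := (hmem _ ht').2.2.1
          rw [mem_Fr] at h5 h6
          exact ⟨rfl, rfl, inj_col sc h5.1 h6.1 (hi.symm.trans hi')⟩
        · refine le2 _ (fun t => (t.1, t.2.2)) ?_
          rintro ⟨u, w, z⟩ ht ⟨u', w', z'⟩ ht' he
          obtain ⟨ht, hi⟩ := mem_filter.1 (mem_coe.1 ht)
          obtain ⟨ht', hi'⟩ := mem_filter.1 (mem_coe.1 ht')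
          simp only [Prod.mk.injEq] at he ⊢
          obtain ⟨rfl, rfl⟩ := he
          have h5 := (hmem _ ht).2.1.1
          have h6 := (hmem _ ht').2.1.1
          rw [mem_Fr] at h5 h6
          exact ⟨rfl, inj_col sc h5.1 h6.1 (hi.symm.trans hi'), rfl⟩)
  refine ⟨𝒢, g1, ?_, ?_⟩
  · intro g hg
    obtain ⟨⟨u, w, z⟩, ht, rfl⟩ := g2 g hg
    refine ⟨⟨(z, z), mem_insert_self _ _⟩, (hGc _).trans (by norm_num), ?_⟩
    obtain ⟨huU, ⟨hw, hwx, hwu⟩, hz, hzR, hzx, hzp, hzw, hcol⟩ := hmem _ ht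
    simp only at huU hw hwx hwu hz hzR hzx hzp hzw hcol
    obtain ⟨hux, hxu⟩ := h1 u huU
    obtain ⟨hpx, hpu⟩ := ne_star sc hux hxu
    rw [mem_Fr] at hw hz
    set p := pl sc x u with hp
    have hG' : G (u, w, z) = {(z, z), (u, u), (p, p), (w, w), sc.col u z, sc.col p w} := rfl
    have hT' : T (u, w, z) = {(u, u), (p, p), (w, w), sc.col u z, sc.col p w} := rfl
    have f1 := diag_ne hz.2
    have f2 := diag_ne hw.2
    refine ⟨?_, z, T (u, w, z), hzR, rfl, ?_, ?_, ?_⟩
    · rw [hG']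
      unfold vs
      rw [mem_filter]
      simp only [mem_insert, mem_singleton, Prod.mk.injEq, and_self, f1, f2, or_false]
      rintro ⟨_, h | h | h | h⟩
      · exact hzx h.symm
      · exact hux h.symm
      · exact hpx h.symm
      · exact hwx h.symm
    · rw [hT']
      simp only [mem_insert, mem_singleton, Prod.mk.injEq, and_self, f1, f2, or_false]
      rintro (h | h | h)
      · exact hz.1 h
      · exact hzp h
      · exact hzw h
    · refine tile2 sc (a := x) (b := u) (c := p) (d := w) hux.symm hpx.symm hwx.symm hpu.symm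
        hwu.symm hw.1.symm ?_ ?_ ?_ ?_ ?_ ?_
      · rw [hT']
        ext y
        unfold vs
        rw [mem_filter]
        simp only [mem_insert, mem_singleton, Prod.mk.injEq, and_self, f1, f2, or_false,
          mem_univ, true_and]
      · rw [hxu, hT']; simp
      · rw [hT']; simp
      · rw [hxu]; exact fun h => hw.2 p h.symm
      · intro z' hz'
        rw [hxu] at hz'
        exact Or.inr (Prod.ext_iff.1 hz').1.symm
      · intro z' hz'
        exact absurd hz' (hw.2 z')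
    · refine tile2 sc (a := u) (b := z) (c := p) (d := w) hz.1.symm hpu.symm hwu.symm hzp
        hzw hw.1.symm ?_ ?_ ?_ ?_ ?_ ?_
      · rw [hT']
        ext y
        unfold vs
        rw [mem_filter]
        simp only [mem_insert, mem_singleton, Prod.mk.injEq, and_self, f1, f2, or_false,
          mem_univ, true_and]
        tauto
      · rw [hT']; simp
      · rw [hT']; simp
      · exact hcol
      · intro z' hz'
        exact absurd hz' (hz.2 z')
      · intro z' hz'
        exact absurd hz' (hw.2 z')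
  · have h3 : (P.card : ℝ) ≤ 6 * (6 * (Fintype.card V : ℝ) ^ 2) * 𝒢.card := by exact_mod_cast g3
    calc a * b * c ≤ P.card := hPc
      _ ≤ _ := h3
      _ = _ := by ring

/-- switchers of the second kind -/
lemma famB (sc : SC V) (x : V) (Ri Rp U : Finset V) {a b c d : ℝ} (hb : 0 ≤ b) (hc : 0 ≤ c)
    (hd : 0 ≤ d) (hU : a ≤ U.card) (h1 : ∀ u ∈ U, u ≠ x ∧ sc.col x u = (pl sc x u, pl sc x u))
    (hW : ∀ u ∈ U, b + 5 + ((Ms sc (pl sc x u)).card : ℝ) ≤ (Rp.card : ℝ))
    (hZ : ∀ z1 ∈ Rp, c + 4 ≤ ((Fr sc z1).card : ℝ))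
    (hY : ∀ u ∈ U, d + 6 ≤ ((Fr sc u ∩ Ri).card : ℝ)) :
    ∃ 𝒢 : Finset (Finset (V × V)), (𝒢 : Set (Finset (V × V))).PairwiseDisjoint id ∧
      (∀ G ∈ 𝒢, G.Nonempty ∧ G.card ≤ 8 ∧ SW sc Ri x G) ∧
      a * b * c * d ≤ 64 * (Fintype.card V : ℝ) ^ 3 * 𝒢.card := by
  classical
  set W : V → Finset V := fun u => Rp.filter fun z1 => z1 ≠ x ∧ z1 ≠ u ∧ z1 ≠ pl sc x u ∧
    z1 ∉ Ms sc (pl sc x u) ∧ oth sc (pl sc x u) z1 ≠ x ∧ oth sc (pl sc x u) z1 ≠ u with hWdef
  set Z : V → V → Finset V := fun u z1 => Fr sc z1 \ {x, u, pl sc x u, oth sc (pl sc x u) z1}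
    with hZdef
  set Y : V → V → V → Finset V := fun u z1 a1 => ((Fr sc u ∩ Ri) \
    {x, pl sc x u, oth sc (pl sc x u) z1, z1, a1}).filter
    (fun z => sc.col u z ≠ sc.col z1 a1) with hYdef
  have hWc : ∀ u ∈ U, b ≤ ((W u).card : ℝ) := by
    intro u hu
    set p := pl sc x u with hp
    have hsub : Rp ⊆ (W u ∪ {x, u, p, (sc.col p x).1, (sc.col p u).1}) ∪ Ms sc p := by
      intro z1 hz1
      by_cases h2 : z1 ∈ Ms sc p
      · exact mem_union_right _ h2
      refine mem_union_left _ ?_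
      by_cases h3 : z1 ∈ ({x, u, p, (sc.col p x).1, (sc.col p u).1} : Finset V)
      · exact mem_union_right _ h3
      refine mem_union_left _ ?_
      simp only [mem_insert, mem_singleton, not_or] at h3
      obtain ⟨k1, k2, k3, k4, k5⟩ := h3
      obtain ⟨o1, o2⟩ := oth_spec k3 h2
      refine mem_filter.2 ⟨hz1, k1, k2, k3, h2, ?_, ?_⟩
      · intro h
        rw [h] at o2
        exact k4 (by rw [o2])
      · intro h
        rw [h] at o2
        exact k5 (by rw [o2])
    have e1 := (card_le_card hsub).trans ((card_union_le _ _).trans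
      (Nat.add_le_add_right (card_union_le _ _) _))
    have e2 : ({x, u, p, (sc.col p x).1, (sc.col p u).1} : Finset V).card ≤ 5 := card_le_five
    have e3 : Rp.card ≤ (W u).card + 5 + (Ms sc p).card := by omega
    have e4 : (Rp.card : ℝ) ≤ (W u).card + 5 + (Ms sc p).card := by exact_mod_cast e3
    linarith [hW u hu]
  have hZc : ∀ u ∈ U, ∀ z1 ∈ W u, c ≤ ((Z u z1).card : ℝ) := by
    intro u hu z1 hz1
    have e1 : (Fr sc z1).card - ({x, u, pl sc x u, oth sc (pl sc x u) z1} : Finset V).card ≤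
        (Z u z1).card := le_card_sdiff _ _
    have e2 : ({x, u, pl sc x u, oth sc (pl sc x u) z1} : Finset V).card ≤ 4 := card_le_four
    have e3 : (Fr sc z1).card ≤ (Z u z1).card + 4 := by omega
    have e4 : ((Fr sc z1).card : ℝ) ≤ (Z u z1).card + 4 := by exact_mod_cast e3
    linarith [hZ z1 (mem_filter.1 hz1).1]
  have hYc : ∀ u ∈ U, ∀ z1 ∈ W u, ∀ a1 ∈ Z u z1, d ≤ ((Y u z1 a1).card : ℝ) := by
    intro u hu z1 _ a1 _
    have hsub : Fr sc u ∩ Ri ⊆ (Y u z1 a1 ∪ {x, pl sc x u, oth sc (pl sc x u) z1, z1, a1}) ∪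
        (Fr sc u).filter (fun z => sc.col u z = sc.col z1 a1) := by
      intro z hz
      by_cases h2 : z ∈ ({x, pl sc x u, oth sc (pl sc x u) z1, z1, a1} : Finset V)
      · exact mem_union_left _ (mem_union_right _ h2)
      · by_cases h3 : sc.col u z = sc.col z1 a1
        · exact mem_union_right _ (mem_filter.2 ⟨(mem_inter.1 hz).1, h3⟩)
        · exact mem_union_left _ (mem_union_left _ (mem_filter.2 ⟨mem_sdiff.2 ⟨hz, h2⟩, h3⟩))
    have e1 := (card_le_card hsub).trans ((card_union_le _ _).trans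
      (Nat.add_le_add_right (card_union_le _ _) _))
    have e2 : ({x, pl sc x u, oth sc (pl sc x u) z1, z1, a1} : Finset V).card ≤ 5 :=
      card_le_five
    have e3 := card_one sc u (sc.col z1 a1)
    have e4 : (Fr sc u ∩ Ri).card ≤ (Y u z1 a1).card + 6 := by omega
    have e5 : ((Fr sc u ∩ Ri).card : ℝ) ≤ (Y u z1 a1).card + 6 := by exact_mod_cast e4
    linarith [hY u hu]
  set P : Finset (V × V × V × V) := univ.filter fun t => t.1 ∈ U ∧ t.2.1 ∈ W t.1 ∧
      t.2.2.1 ∈ Z t.1 t.2.1 ∧ t.2.2.2 ∈ Y t.1 t.2.1 t.2.2.1 with hP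
  have hPc : a * b * c * d ≤ (P.card : ℝ) := cnt4 U W Z Y hb hc hd hU hWc hZc hYc
  have hmem : ∀ t ∈ P, t.1 ∈ U ∧
      (t.2.1 ≠ x ∧ t.2.1 ≠ t.1 ∧ t.2.1 ≠ pl sc x t.1 ∧ t.2.1 ∉ Ms sc (pl sc x t.1) ∧
        oth sc (pl sc x t.1) t.2.1 ≠ x ∧ oth sc (pl sc x t.1) t.2.1 ≠ t.1) ∧
      (t.2.2.1 ∈ Fr sc t.2.1 ∧ t.2.2.1 ≠ x ∧ t.2.2.1 ≠ t.1 ∧ t.2.2.1 ≠ pl sc x t.1 ∧
        t.2.2.1 ≠ oth sc (pl sc x t.1) t.2.1) ∧
      (t.2.2.2 ∈ Fr sc t.1 ∧ t.2.2.2 ∈ Ri ∧ t.2.2.2 ≠ x ∧ t.2.2.2 ≠ pl sc x t.1 ∧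
        t.2.2.2 ≠ oth sc (pl sc x t.1) t.2.1 ∧ t.2.2.2 ≠ t.2.1 ∧ t.2.2.2 ≠ t.2.2.1 ∧
        sc.col t.1 t.2.2.2 ≠ sc.col t.2.1 t.2.2.1) := by
    intro t ht
    obtain ⟨_, h2, h3, h4, h5⟩ := mem_filter.1 ht
    simp only [hWdef, mem_filter] at h3
    simp only [hZdef, mem_sdiff, mem_insert, mem_singleton, not_or] at h4
    simp only [hYdef, mem_filter, mem_sdiff, mem_inter, mem_insert, mem_singleton, not_or] at h5
    exact ⟨h2, h3.2, h4, h5.1.1.1, h5.1.1.2, h5.1.2.1, h5.1.2.2.1, h5.1.2.2.2.1,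
      h5.1.2.2.2.2.1, h5.1.2.2.2.2.2, h5.2⟩
  set T : V × V × V × V → Finset (V × V) := fun t => {(t.1, t.1), (pl sc x t.1, pl sc x t.1),
    (oth sc (pl sc x t.1) t.2.1, oth sc (pl sc x t.1) t.2.1), (t.2.1, t.2.1),
    (t.2.2.1, t.2.2.1), sc.col t.2.1 t.2.2.1, sc.col t.1 t.2.2.2} with hT
  set G : V × V × V × V → Finset (V × V) := fun t => insert (t.2.2.2, t.2.2.2) (T t) with hG
  set L : List (V × V × V × V → V × V) := [fun t => (t.2.2.2, t.2.2.2), fun t => (t.1, t.1),
    fun t => (pl sc x t.1, pl sc x t.1),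
    fun t => (oth sc (pl sc x t.1) t.2.1, oth sc (pl sc x t.1) t.2.1), fun t => (t.2.1, t.2.1),
    fun t => (t.2.2.1, t.2.2.1), fun t => sc.col t.2.1 t.2.2.1,
    fun t => sc.col t.1 t.2.2.2] with hL
  have hpl : ∀ u ∈ U, ∀ u' ∈ U, pl sc x u = pl sc x u' → u = u' := by
    intro u hu u' hu' he
    obtain ⟨h2, h3⟩ := h1 u hu
    obtain ⟨h4, h5⟩ := h1 u' hu'
    exact inj_col sc h2 h4 (by rw [h3, h5, he])
  have hGc : ∀ t, (G t).card ≤ 8 := by
    intro t
    refine (card_insert_le _ _).trans ?_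
    have h2 : (T t).card ≤ 7 := by
      refine (card_insert_le _ _).trans ?_
      have : ({(pl sc x t.1, pl sc x t.1),
        (oth sc (pl sc x t.1) t.2.1, oth sc (pl sc x t.1) t.2.1), (t.2.1, t.2.1),
        (t.2.2.1, t.2.2.1), sc.col t.2.1 t.2.2.1, sc.col t.1 t.2.2.2} :
          Finset (V × V)).card ≤ 6 := card_le_six
      omega
    omega
  obtain ⟨𝒢, g1, g2, g3⟩ := exists_disjoint_family P G 8 (8 * Fintype.card V ^ 3)
    (fun t _ => ⟨(t.2.2.2, t.2.2.2), mem_insert_self _ _⟩) (fun t _ => hGc t) (by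
      intro i
      have hsub : (P.filter fun t => i ∈ G t) ⊆ P.filter fun t => ∃ g ∈ L, i = g t := by
        intro t ht
        obtain ⟨ht, hi⟩ := mem_filter.1 ht
        refine mem_filter.2 ⟨ht, ?_⟩
        simp only [hG, hT, mem_insert, mem_singleton] at hi
        simp only [hL, List.mem_cons, List.not_mem_nil, or_false, exists_eq_or_imp,
          exists_eq_left]
        exact hi
      refine (card_le_card hsub).trans ?_
      have := deg_le P i (Fintype.card V ^ 3) L ?_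
      · simpa [hL] using this
      · intro g hg
        simp only [hL, List.mem_cons, List.not_mem_nil, or_false] at hg
        rcases hg with rfl | rfl | rfl | rfl | rfl | rfl | rfl | rfl
        · refine le3 _ (fun t => (t.1, t.2.1, t.2.2.1)) ?_
          rintro ⟨u, z1, a1, z⟩ ht ⟨u', z1', a1', z'⟩ ht' he
          obtain ⟨ht, hi⟩ := mem_filter.1 (mem_coe.1 ht)
          obtain ⟨ht', hi'⟩ := mem_filter.1 (mem_coe.1 ht')
          simp only [Prod.mk.injEq] at he ⊢
          have := hi.symm.trans hi'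
          simp only [Prod.mk.injEq] at this
          exact ⟨he.1, he.2.1, he.2.2, this.1⟩
        · refine le3 _ (fun t => (t.2.1, t.2.2.1, t.2.2.2)) ?_
          rintro ⟨u, z1, a1, z⟩ ht ⟨u', z1', a1', z'⟩ ht' he
          obtain ⟨ht, hi⟩ := mem_filter.1 (mem_coe.1 ht)
          obtain ⟨ht', hi'⟩ := mem_filter.1 (mem_coe.1 ht')
          simp only [Prod.mk.injEq] at he ⊢
          have := hi.symm.trans hi'
          simp only [Prod.mk.injEq] at this
          exact ⟨this.1, he.1, he.2.1, he.2.2⟩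
        · refine le3 _ (fun t => (t.2.1, t.2.2.1, t.2.2.2)) ?_
          rintro ⟨u, z1, a1, z⟩ ht ⟨u', z1', a1', z'⟩ ht' he
          obtain ⟨ht, hi⟩ := mem_filter.1 (mem_coe.1 ht)
          obtain ⟨ht', hi'⟩ := mem_filter.1 (mem_coe.1 ht')
          simp only [Prod.mk.injEq] at he ⊢
          have := hi.symm.trans hi'
          simp only [Prod.mk.injEq] at this
          exact ⟨hpl u (hmem _ ht).1 u' (hmem _ ht').1 this.1, he.1, he.2.1, he.2.2⟩
        · refine le3 _ (fun t => (t.1, t.2.2.1, t.2.2.2)) ?_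
          rintro ⟨u, z1, a1, z⟩ ht ⟨u', z1', a1', z'⟩ ht' he
          obtain ⟨ht, hi⟩ := mem_filter.1 (mem_coe.1 ht)
          obtain ⟨ht', hi'⟩ := mem_filter.1 (mem_coe.1 ht')
          simp only [Prod.mk.injEq] at he ⊢
          have h9 := hi.symm.trans hi'
          simp only [Prod.mk.injEq, and_self] at h9
          obtain ⟨rfl, rfl, rfl⟩ := he
          obtain ⟨_, _, k3, k4, _⟩ := (hmem _ ht).2.1
          obtain ⟨_, _, k3', k4', _⟩ := (hmem _ ht').2.1
          have o2 := (oth_spec k3 k4).2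
          have o2' := (oth_spec k3' k4').2
          simp only at o2 o2'
          rw [h9, o2', Prod.mk.injEq] at o2
          exact ⟨rfl, o2.1.symm, rfl, rfl⟩
        · refine le3 _ (fun t => (t.1, t.2.2.1, t.2.2.2)) ?_
          rintro ⟨u, z1, a1, z⟩ ht ⟨u', z1', a1', z'⟩ ht' he
          obtain ⟨ht, hi⟩ := mem_filter.1 (mem_coe.1 ht)
          obtain ⟨ht', hi'⟩ := mem_filter.1 (mem_coe.1 ht')
          simp only [Prod.mk.injEq] at he ⊢
          have := hi.symm.trans hi'
          simp only [Prod.mk.injEq] at this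
          exact ⟨he.1, this.1, he.2.1, he.2.2⟩
        · refine le3 _ (fun t => (t.1, t.2.1, t.2.2.2)) ?_
          rintro ⟨u, z1, a1, z⟩ ht ⟨u', z1', a1', z'⟩ ht' he
          obtain ⟨ht, hi⟩ := mem_filter.1 (mem_coe.1 ht)
          obtain ⟨ht', hi'⟩ := mem_filter.1 (mem_coe.1 ht')
          simp only [Prod.mk.injEq] at he ⊢
          have := hi.symm.trans hi'
          simp only [Prod.mk.injEq] at this
          exact ⟨he.1, he.2.1, this.1, he.2.2⟩
        · refine le3 _ (fun t => (t.1, t.2.1, t.2.2.2)) ?_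
          rintro ⟨u, z1, a1, z⟩ ht ⟨u', z1', a1', z'⟩ ht' he
          obtain ⟨ht, hi⟩ := mem_filter.1 (mem_coe.1 ht)
          obtain ⟨ht', hi'⟩ := mem_filter.1 (mem_coe.1 ht')
          simp only [Prod.mk.injEq] at he ⊢
          obtain ⟨rfl, rfl, rfl⟩ := he
          have h5 := (hmem _ ht).2.2.1.1
          have h6 := (hmem _ ht').2.2.1.1
          rw [mem_Fr] at h5 h6
          exact ⟨rfl, rfl, inj_col sc h5.1 h6.1 (hi.symm.trans hi'), rfl⟩
        · refine le3 _ (fun t => (t.1, t.2.1, t.2.2.1)) ?_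
          rintro ⟨u, z1, a1, z⟩ ht ⟨u', z1', a1', z'⟩ ht' he
          obtain ⟨ht, hi⟩ := mem_filter.1 (mem_coe.1 ht)
          obtain ⟨ht', hi'⟩ := mem_filter.1 (mem_coe.1 ht')
          simp only [Prod.mk.injEq] at he ⊢
          obtain ⟨rfl, rfl, rfl⟩ := he
          have h5 := (hmem _ ht).2.2.2.1
          have h6 := (hmem _ ht').2.2.2.1
          rw [mem_Fr] at h5 h6
          exact ⟨rfl, rfl, rfl, inj_col sc h5.1 h6.1 (hi.symm.trans hi')⟩)
  refine ⟨𝒢, g1, ?_, ?_⟩
  · intro g hg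
    obtain ⟨⟨u, z1, a1, z⟩, ht, rfl⟩ := g2 g hg
    refine ⟨⟨(z, z), mem_insert_self _ _⟩, hGc _, ?_⟩
    obtain ⟨huU, ⟨hz1x, hz1u, hz1p, hz1M, hax, hau⟩, ⟨ha1, ha1x, ha1u, ha1p, ha1a⟩, hz, hzR,
      hzx, hzp, hza, hzz1, hza1, hcol⟩ := hmem _ ht
    simp only at huU hz1x hz1u hz1p hz1M hax hau ha1 ha1x ha1u ha1p ha1a hz hzR hzx hzp hza
    simp only at hzz1 hza1 hcol
    obtain ⟨hux, hxu⟩ := h1 u huU
    obtain ⟨hpx, hpu⟩ := ne_star sc hux hxu
    obtain ⟨hap, hpa⟩ := oth_spec hz1p hz1M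
    obtain ⟨_, hz1a⟩ := ne_star sc hap hpa
    rw [mem_Fr] at ha1 hz
    set p := pl sc x u with hp
    set a := oth sc p z1 with ha
    have hG' : G (u, z1, a1, z) = {(z, z), (u, u), (p, p), (a, a), (z1, z1), (a1, a1),
      sc.col z1 a1, sc.col u z} := rfl
    have hT' : T (u, z1, a1, z) = {(u, u), (p, p), (a, a), (z1, z1), (a1, a1),
      sc.col z1 a1, sc.col u z} := rfl
    have f1 := diag_ne hz.2
    have f2 := diag_ne ha1.2
    refine ⟨?_, z, T (u, z1, a1, z), hzR, rfl, ?_, ?_, ?_⟩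
    · rw [hG']
      unfold vs
      rw [mem_filter]
      simp only [mem_insert, mem_singleton, Prod.mk.injEq, and_self, f1, f2, or_false]
      rintro ⟨_, h | h | h | h | h | h⟩
      · exact hzx h.symm
      · exact hux h.symm
      · exact hpx h.symm
      · exact hax h.symm
      · exact hz1x h.symm
      · exact ha1x h.symm
    · rw [hT']
      simp only [mem_insert, mem_singleton, Prod.mk.injEq, and_self, f1, f2, or_false]
      rintro (h | h | h | h | h)
      · exact hz.1 h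
      · exact hzp h
      · exact hza h
      · exact hzz1 h
      · exact hza1 h
    · refine tile3 sc (a := x) (b := u) (c := p) (d := a) (e := z1) (f := a1) hux.symm hpx.symm
        hax.symm hz1x.symm ha1x.symm hpu.symm hau.symm hz1u.symm ha1u.symm hap.symm hz1p.symm
        ha1p.symm hz1a.symm ha1a.symm ha1.1.symm ?_ ?_ ?_ ?_ ?_ ?_ ?_ ?_ ?_ ?_
      · rw [hT']
        ext y
        unfold vs
        rw [mem_filter]
        simp only [mem_insert, mem_singleton, Prod.mk.injEq, and_self, f1, f2, or_false,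
          mem_univ, true_and]
      · rw [hxu, hT']; simp
      · rw [hpa, hT']; simp
      · rw [hT']; simp
      · rw [hxu, hpa]
        intro h
        exact hz1p (Prod.ext_iff.1 h).1.symm
      · rw [hxu]; exact fun h => ha1.2 p h.symm
      · rw [hpa]; exact fun h => ha1.2 z1 h.symm
      · intro z' hz'
        rw [hxu] at hz'
        exact Or.inr (Or.inl (Prod.ext_iff.1 hz').1.symm)
      · intro z' hz'
        rw [hpa] at hz'
        exact Or.inr (Or.inr (Prod.ext_iff.1 hz').1.symm)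
      · intro z' hz'
        exact absurd hz' (ha1.2 z')
    · refine tile3 sc (a := u) (b := z) (c := p) (d := a) (e := z1) (f := a1) hz.1.symm hpu.symm
        hau.symm hz1u.symm ha1u.symm hzp hza hzz1 hza1 hap.symm hz1p.symm
        ha1p.symm hz1a.symm ha1a.symm ha1.1.symm ?_ ?_ ?_ ?_ ?_ ?_ ?_ ?_ ?_ ?_
      · rw [hT']
        ext y
        unfold vs
        rw [mem_filter]
        simp only [mem_insert, mem_singleton, Prod.mk.injEq, and_self, f1, f2, or_false,
          mem_univ, true_and]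
        tauto
      · rw [hT']; simp
      · rw [hpa, hT']; simp
      · rw [hT']; simp
      · rw [hpa]; exact hz.2 z1
      · exact hcol
      · rw [hpa]; exact fun h => ha1.2 z1 h.symm
      · intro z' hz'
        exact absurd hz' (hz.2 z')
      · intro z' hz'
        rw [hpa] at hz'
        exact Or.inr (Or.inr (Prod.ext_iff.1 hz').1.symm)
      · intro z' hz'
        exact absurd hz' (ha1.2 z')
  · have h3 : (P.card : ℝ) ≤ 8 * (8 * (Fintype.card V : ℝ) ^ 3) * 𝒢.card := by exact_mod_cast g3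
    calc a * b * c * d ≤ P.card := hPc
      _ ≤ _ := h3
      _ = _ := by ring

/-- few vertices of `Rp` have few rich free neighbours -/
lemma bad_card (sc : SC V) (Ri Rp : Finset V) {r m : ℝ} (hr : ∀ v, v ∉ Ri → ((Fr sc v).card : ℝ) ≤ r)
    (hr0 : 0 ≤ r) (hm : ∀ u ∈ Rp, 2 * m ≤ ((Fr sc u).card : ℝ)) :
    m * ((Rp.filter fun u => ((Fr sc u ∩ Ri).card : ℝ) < m).card : ℝ) ≤ Fintype.card V * r := by
  classical
  set Bd := Rp.filter fun u => ((Fr sc u ∩ Ri).card : ℝ) < m with hBd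
  have h1 : ∑ u ∈ Bd, ((Fr sc u \ Ri).card : ℝ) ≤
      ∑ v ∈ univ \ Ri, ((Fr sc v).card : ℝ) := by
    have h2 := sum_card_bipartiteAbove_eq_sum_card_bipartiteBelow (s := Bd) (t := univ \ Ri)
      (fun u v => v ∈ Fr sc u)
    have h3 : ∀ u, (univ \ Ri).bipartiteAbove (fun u v => v ∈ Fr sc u) u = Fr sc u \ Ri := by
      intro u
      ext v
      simp only [mem_bipartiteAbove, mem_sdiff, mem_univ, true_and]
      tauto
    have h4 : ∀ v, (Bd.bipartiteBelow (fun u v => v ∈ Fr sc u) v).card ≤ (Fr sc v).card := by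
      intro v
      apply card_le_card
      intro u hu
      rw [mem_bipartiteBelow] at hu
      exact Fr_symm.1 hu.2
    simp only [h3] at h2
    have h5 : ∑ u ∈ Bd, (Fr sc u \ Ri).card ≤ ∑ v ∈ univ \ Ri, (Fr sc v).card := by
      rw [h2]
      exact sum_le_sum fun v _ => h4 v
    exact_mod_cast h5
  have h6 : ∀ u ∈ Bd, m ≤ ((Fr sc u \ Ri).card : ℝ) := by
    intro u hu
    obtain ⟨hu1, hu2⟩ := mem_filter.1 hu
    have h7 : (Fr sc u ∩ Ri).card + (Fr sc u \ Ri).card = (Fr sc u).card :=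
      card_inter_add_card_sdiff _ _
    have h8 : ((Fr sc u ∩ Ri).card : ℝ) + (Fr sc u \ Ri).card = (Fr sc u).card := by
      exact_mod_cast h7
    linarith [hm u hu1]
  calc m * (Bd.card : ℝ) = ∑ u ∈ Bd, m := by rw [sum_const, nsmul_eq_mul]; ring
    _ ≤ ∑ u ∈ Bd, ((Fr sc u \ Ri).card : ℝ) := sum_le_sum h6
    _ ≤ ∑ v ∈ univ \ Ri, ((Fr sc v).card : ℝ) := h1
    _ ≤ ∑ v ∈ univ \ Ri, r := sum_le_sum fun v hv => hr v (mem_sdiff.1 hv).2
    _ ≤ ∑ v : V, r := sum_le_sum_of_subset_of_nonneg (subset_univ _) fun _ _ _ => hr0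
    _ = _ := by rw [sum_const, nsmul_eq_mul, card_univ]

end HSW_

open HSW_

theorem p_HSW : T_HSW := by
  intro δ hδ hδ1
  refine ⟨8, δ ^ 4 / 300000, ⌈500 / δ ^ 2⌉₊, by positivity, ?_⟩
  intro V _ _ sc hN hRp x hx
  classical
  set N : ℝ := (Fintype.card V : ℝ) with hNdef
  have hN1 : 500 / δ ^ 2 ≤ N := (Nat.le_ceil _).trans (by rw [hNdef]; exact_mod_cast hN)
  have hN2 : 500 ≤ δ ^ 2 * N := by
    rw [div_le_iff₀ (by positivity)] at hN1
    linarith
  have hN0 : 0 < N := by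
    by_contra h
    push Not at h
    nlinarith [sq_nonneg δ]
  have hN3 : 500 ≤ δ * N := by nlinarith
  set ρ : ℝ := δ ^ 2 / 100 with hρ
  have hρδ : ρ * N ≤ δ * N / 100 := by
    have : ρ ≤ δ / 100 := by rw [hρ]; nlinarith
    nlinarith
  set Ri := Rich sc (δ ^ 2 / 100 * N) with hRi
  set Rp := Rich sc (δ / 2 * N) with hRpdef
  have hRi' : ∀ v, v ∉ Ri → ((Fr sc v).card : ℝ) ≤ ρ * N := by
    intro v hv
    rw [hRi, mem_Rich, not_le] at hv
    exact hv.le
  have hRp' : ∀ u ∈ Rp, δ / 2 * N ≤ ((Fr sc u).card : ℝ) := fun u hu => mem_Rich.1 hu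
  -- good vertices
  set m : ℝ := δ / 4 * N with hm
  set Bd := Rp.filter fun u => ((Fr sc u ∩ Ri).card : ℝ) < m with hBd
  have hBc : (Bd.card : ℝ) ≤ δ * N / 25 := by
    have h1 := bad_card sc Ri Rp (m := m) hRi' (by positivity)
      (fun u hu => by have := hRp' u hu; rw [hm]; linarith)
    have h2 : 0 < m := by positivity
    have h3 : m * (Bd.card : ℝ) ≤ m * (δ * N / 25) := by
      refine h1.trans (le_of_eq ?_)
      rw [hm, hρ, ← hNdef]
      ring
    exact le_of_mul_le_mul_left h3 h2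
  set U := Rp.filter fun u => u ≠ x ∧ u ∉ Fr sc x ∧ m ≤ ((Fr sc u ∩ Ri).card : ℝ) with hU
  have hUc : 2 / 5 * (δ * N) ≤ (U.card : ℝ) := by
    have hsub : Rp ⊆ ((U ∪ {x}) ∪ Fr sc x) ∪ Bd := by
      intro u hu
      by_cases h1 : u = x
      · exact mem_union_left _ (mem_union_left _ (mem_union_right _ (mem_singleton.2 h1)))
      by_cases h2 : u ∈ Fr sc x
      · exact mem_union_left _ (mem_union_right _ h2)
      by_cases h3 : ((Fr sc u ∩ Ri).card : ℝ) < m
      · exact mem_union_right _ (mem_filter.2 ⟨hu, h3⟩)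
      · exact mem_union_left _ (mem_union_left _ (mem_union_left _
          (mem_filter.2 ⟨hu, h1, h2, not_lt.1 h3⟩)))
    have e1 : Rp.card ≤ U.card + 1 + (Fr sc x).card + Bd.card := by
      refine (card_le_card hsub).trans ((card_union_le _ _).trans ?_)
      refine Nat.add_le_add_right ((card_union_le _ _).trans ?_) _
      refine Nat.add_le_add_right ((card_union_le _ _).trans ?_) _
      rw [card_singleton]
    have e2 : (Rp.card : ℝ) ≤ U.card + 1 + (Fr sc x).card + Bd.card := by exact_mod_cast e1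
    have e3 := hRi' x hx
    linarith
  have hU1 : ∀ u ∈ U, u ≠ x ∧ sc.col x u = (pl sc x u, pl sc x u) := by
    intro u hu
    obtain ⟨_, h1, h2, _⟩ := mem_filter.1 hu
    refine ⟨h1, ?_⟩
    rw [mem_Fr] at h2
    push Not at h2
    obtain ⟨z, hz⟩ := h2 h1
    rw [pl, hz]
  have hUR : ∀ u ∈ U, m ≤ ((Fr sc u ∩ Ri).card : ℝ) := fun u hu => (mem_filter.1 hu).2.2.2
  set Ua := U.filter fun u => pl sc x u ∈ Ri with hUa
  set Ub := U.filter fun u => pl sc x u ∉ Ri with hUb
  have hab : (Ua.card : ℝ) + Ub.card = U.card := by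
    have : Ua.card + Ub.card = U.card := card_filter_add_card_filter_not _
    exact_mod_cast this
  have hfin : ∀ 𝒢 : Finset (Finset (V × V)), (𝒢 : Set (Finset (V × V))).PairwiseDisjoint id →
      (∀ G ∈ 𝒢, G.Nonempty ∧ G.card ≤ 8 ∧ SW sc Ri x G) → δ ^ 4 / 300000 * N ≤ 𝒢.card →
      Fam 8 (δ ^ 4 / 300000) (SW sc Ri x) := fun 𝒢 h1 h2 h3 => ⟨𝒢, h1, h2, h3⟩
  rcases le_or_gt (1 / 5 * (δ * N)) (Ua.card : ℝ) with hA | hA
  · obtain ⟨𝒢, g1, g2, g3⟩ := famA sc x Ri Ua (a := 1 / 5 * (δ * N)) (b := ρ * N / 2)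
      (c := δ * N / 8) (by positivity) (by positivity) hA
      (fun u hu => hU1 u (mem_filter.1 hu).1)
      (fun u hu => by
        have h1 := (mem_filter.1 hu).2
        rw [hRi, mem_Rich] at h1
        have h2 : δ ^ 2 / 100 * N = ρ * N := rfl
        rw [h2] at h1
        have h3 : 4 ≤ ρ * N := by rw [hρ]; linarith
        linarith)
      (fun u hu => by
        have h1 := hUR u (mem_filter.1 hu).1
        rw [hm] at h1
        linarith)
    refine hfin 𝒢 g1 g2 ?_
    have h1 : 1 / 5 * (δ * N) * (ρ * N / 2) * (δ * N / 8) = N ^ 2 * (δ ^ 4 / 8000 * N) := by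
      rw [hρ]; ring
    rw [h1, ← hNdef] at g3
    have h2 : N ^ 2 * (δ ^ 4 / 8000 * N) ≤ N ^ 2 * (36 * 𝒢.card) := by
      refine g3.trans (le_of_eq ?_)
      ring
    have h3 := le_of_mul_le_mul_left h2 (by positivity)
    have h4 : 0 ≤ δ ^ 4 * N := by positivity
    linarith
  · have hB : 1 / 5 * (δ * N) ≤ (Ub.card : ℝ) := by linarith
    obtain ⟨𝒢, g1, g2, g3⟩ := famB sc x Ri Rp Ub (a := 1 / 5 * (δ * N)) (b := δ * N / 4)
      (c := δ * N / 4) (d := δ * N / 8) (by positivity) (by positivity) (by positivity) hB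
      (fun u hu => hU1 u (mem_filter.1 hu).1)
      (fun u hu => by
        have h1 := hRi' _ (mem_filter.1 hu).2
        have h2 : ((Ms sc (pl sc x u)).card : ℝ) ≤ (Fr sc (pl sc x u)).card := by
          exact_mod_cast card_Ms_le sc (pl sc x u)
        linarith)
      (fun z1 hz1 => by
        have h1 := hRp' z1 hz1
        linarith)
      (fun u hu => by
        have h1 := hUR u (mem_filter.1 hu).1
        rw [hm] at h1
        linarith)
    refine hfin 𝒢 g1 g2 ?_
    have h1 : 1 / 5 * (δ * N) * (δ * N / 4) * (δ * N / 4) * (δ * N / 8) =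
        N ^ 3 * (δ ^ 4 / 640 * N) := by ring
    rw [h1, ← hNdef] at g3
    have h2 : N ^ 3 * (δ ^ 4 / 640 * N) ≤ N ^ 3 * (64 * 𝒢.card) := by
      refine g3.trans (le_of_eq ?_)
      ring
    have h3 := le_of_mul_le_mul_left h2 (by positivity)
    have h4 : 0 ≤ δ ^ 4 * N := by positivity
    linarith

end SpF
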