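import Pool.Agent.SpF.Sys

namespace SpF

/-- steps -/
def stCL : List Step :=
  [.free, .free, .nbr 0 2, .nbr 2 3, .nbr 3 1]

theorem chk_CL : chk 2 stCL
  [(0, []), (0, []), (1, [3]), (1, []), (1, [4])]
  [[(0, []), (0, []), (1, [2]), (0, []), (1, [4]), (2, [2])],
   [(1, [3]), (0, []), (1, [5]), (1, [2]), (0, [])],
   [(0, []), (0, []), (0, []), (2, [3])],
   [(1, [3]), (0, []), (0, [])],
   [(1, [4]), (2, [6])],
   [(3, [6])],
   []]
  [(1, [3]), (1, [2]), (1, [5]), (1, [2]), (2, [2])] = true := by decide +kernel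

/-- steps -/
def stCO : List Step :=
  [.free, .free, .free, .lab 1 0, .nbr 4 2, .nbr 2 3, .nbr 3 1]

theorem chk_CO : chk 1 stCO
  [(0, []), (0, []), (0, []), (1, [2, 3]), (1, [3]), (1, [1]), (1, [2])]
  [[(0, []), (1, [1, 3]), (1, [1, 2]), (0, []), (1, [1, 6]), (1, [2, 4]), (2, [4, 5])],
   [(1, [2, 3]), (0, []), (0, []), (1, [1, 3]), (1, [1, 2]), (0, [])],
   [(0, []), (0, []), (0, []), (0, []), (2, [1, 2])],
   [(1, [4, 5]), (1, [1, 3]), (0, []), (0, [])],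
   [(0, []), (1, [2, 4]), (2, [2, 7])],
   [(1, [4, 5]), (2, [1, 3])],
   [(2, [3, 6])],
   []]
  [(1, [2, 3]), (1, [1, 3]), (1, [1, 2]), (1, [2, 3]), (1, [1, 3]), (1, [1, 2]), (2, [3, 5])] = true := by decide +kernel

/-- steps -/
def stT6 : List Step :=
  [.free, .free, .free, .nbr 0 1, .nbr 1 2, .nbr 2 0]

theorem chk_T6 : chk 0 stT6
  [(0, []), (0, []), (0, []), (1, [2]), (1, [0]), (1, [1])]
  [[(0, []), (0, []), (0, []), (1, [0, 1]), (0, [])],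
   [(0, []), (0, []), (0, []), (2, [3, 5])],
   [(1, [1, 2]), (0, []), (0, [])],
   [(2, [2, 4]), (2, [1, 5])],
   [(2, [1, 5])],
   []]
  [(1, [1, 2]), (1, [0, 4]), (1, [0, 1]), (1, [0, 2]), (1, [0, 1]), (2, [2, 3])] = true := by decide +kernel

/-- steps -/
def stT8 : List Step :=
  [.free, .free, .free, .free, .nbr 0 1, .nbr 1 2, .nbr 2 3, .nbr 3 0]

theorem chk_T8 : chk 0 stT8
  [(0, []), (0, []), (0, []), (0, []), (1, [2, 3]), (1, [0, 3]), (1, [0, 1]), (1, [2, 4])]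
  [[(0, []), (1, [1, 2, 6]), (0, []), (0, []), (1, [0, 1, 3]), (1, [0, 1, 2]), (0, [])],
   [(0, []), (1, [0, 1, 2]), (0, []), (0, []), (1, [0, 1, 2]), (2, [1, 2, 4])],
   [(0, []), (1, [0, 2, 6]), (0, []), (0, []), (2, [0, 2, 5])],
   [(1, [1, 2, 3]), (1, [0, 1, 3]), (0, []), (0, [])],
   [(1, [1, 3, 5]), (1, [1, 5, 6]), (2, [0, 2, 3])],
   [(2, [2, 5, 7]), (2, [1, 6, 7])],
   [(2, [2, 4, 7])],
   []]
  [(1, [1, 2, 3]), (1, [0, 3, 5]), (1, [0, 1, 3]), (1, [0, 1, 2]), (1, [0, 3, 5]), (1, [0, 1, 3]), (1, [0, 1, 2]), (2, [0, 2, 5])] = true := by decide +kernel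

end SpF
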