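import Pool.Agent.SpF.Targets
import Pool.Agent.SpF.CertPA
import Pool.Agent.SpF.CertSmall

/-!
# Gadgets in the low regime from the certified configurations
-/

namespace SpF
open Spider Finset

namespace LG_

section basic
variable {V : Type} [Fintype V] [DecidableEq V]

omit [Fintype V] [DecidableEq V] in
lemma sat_cons {sc : SC V} {e : ℕ} {s : Step} {l : List Step} {σ : ℕ → V}
    (h : Sat sc e (s :: l) σ) : Holds sc σ e s ∧ Sat sc (e + 1) l σ := by
  refine ⟨?_, ?_⟩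
  · have := h 0 (by simp)
    simpa using this
  · intro j hj
    have := h (j + 1) (by simpa using hj)
    have e1 : e + (j + 1) = e + 1 + j := by omega
    rw [e1] at this
    simpa using this

omit [Fintype V] [DecidableEq V] in
lemma trip {sc : SC V} {σ : ℕ → V} (l : List Step) : ∀ (e : ℕ), Sat sc e l σ →
    ∀ t ∈ triples e l, Lab sc (σ t.1) (σ t.2.1) (σ t.2.2) := by
  induction l with
  | nil => intro e _ t ht; simp [triples] at ht
  | cons s l ih =>
    intro e h t ht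
    have h1 := sat_cons h
    cases s with
    | free => exact ih (e + 1) h1.2 t (by simpa [triples] using ht)
    | lab a b =>
      rw [triples, List.mem_cons] at ht
      rcases ht with rfl | ht
      · exact h1.1
      · exact ih (e + 1) h1.2 t ht
    | nbr a c =>
      rw [triples, List.mem_cons] at ht
      rcases ht with rfl | ht
      · exact h1.1
      · exact ih (e + 1) h1.2 t ht

/-- all members of the list are triples of the configuration, up to the order of the ends -/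
def okL (e : ℕ) (st : List Step) (tl : List (ℕ × ℕ × ℕ)) : Prop :=
  ∀ t ∈ tl, t ∈ triples e st ∨ (t.2.1, t.1, t.2.2) ∈ triples e st

instance (e : ℕ) (st : List Step) (tl : List (ℕ × ℕ × ℕ)) : Decidable (okL e st tl) := by
  unfold okL; infer_instance

/-- conditions on the indices of a tiling -/
def okT (m : ℕ) (tl : List (ℕ × ℕ × ℕ)) : Prop :=
  (∀ t ∈ tl, t.1 < m ∧ t.2.1 < m ∧ t.2.2 < m) ∧ (∀ t ∈ tl, ∀ t' ∈ tl, t.1 ≠ t'.2.1) ∧
  (∀ t ∈ tl, ∀ t' ∈ tl, t.1 = t'.1 → t = t') ∧ (∀ t ∈ tl, ∀ t' ∈ tl, t.2.1 = t'.2.1 → t = t') ∧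
  (∀ t ∈ tl, ∀ t' ∈ tl, t.2.2 = t'.2.2 → t = t')

instance (m : ℕ) (tl : List (ℕ × ℕ × ℕ)) : Decidable (okT m tl) := by
  unfold okT; infer_instance

/-- the ends and the middles together -/
def okI (I : Finset ℕ) (tl : List (ℕ × ℕ × ℕ)) : Prop :=
  (tl.map (fun t => t.1)).toFinset ∪ (tl.map (fun t => t.2.1)).toFinset = I

instance (I : Finset ℕ) (tl : List (ℕ × ℕ × ℕ)) : Decidable (okI I tl) := by
  unfold okI; infer_instance

/-- the labels are ends -/
def okZ (tl : List (ℕ × ℕ × ℕ)) : Prop := ∀ t ∈ tl, ∃ t' ∈ tl, t'.1 = t.2.2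

instance (tl : List (ℕ × ℕ × ℕ)) : Decidable (okZ tl) := by
  unfold okZ; infer_instance

omit [Fintype V] [DecidableEq V] in
lemma lab_of {sc : SC V} {e : ℕ} {st : List Step} {σ : ℕ → V} (h : Sat sc e st σ)
    {tl : List (ℕ × ℕ × ℕ)} (hL : okL e st tl) (t : ℕ × ℕ × ℕ) (ht : t ∈ tl) :
    sc.col (σ t.1) (σ t.2.1) = (σ t.2.2, σ t.2.2) := by
  rcases hL t ht with h1 | h1
  · exact (trip st e h t h1).2
  · have := (trip st e h _ h1).2
    rw [sc.symm]
    exact this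

/-- ends -/
def SS (σ : ℕ → V) (tl : List (ℕ × ℕ × ℕ)) : Finset V := (tl.map fun t => σ t.1).toFinset

/-- pairs -/
def MM (σ : ℕ → V) (tl : List (ℕ × ℕ × ℕ)) : Finset (V × V) :=
  (tl.map fun t => (σ t.1, σ t.2.1)).toFinset

omit [Fintype V] in
lemma mem_SS {σ : ℕ → V} {tl : List (ℕ × ℕ × ℕ)} {x : V} :
    x ∈ SS σ tl ↔ ∃ t ∈ tl, σ t.1 = x := by
  simp [SS]

omit [Fintype V] in
lemma mem_MM {σ : ℕ → V} {tl : List (ℕ × ℕ × ℕ)} {p : V × V} :
    p ∈ MM σ tl ↔ ∃ t ∈ tl, (σ t.1, σ t.2.1) = p := by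
  unfold MM
  rw [List.mem_toFinset, List.mem_map]

omit [Fintype V] in
lemma core {sc : SC V} {σ : ℕ → V} {m : ℕ} {tl : List (ℕ × ℕ × ℕ)} (hT : okT m tl)
    (hinj : ∀ i < m, ∀ j < m, σ i = σ j → i = j)
    (hlab : ∀ t ∈ tl, sc.col (σ t.1) (σ t.2.1) = (σ t.2.2, σ t.2.2)) :
    unc (SS σ tl) (MM σ tl) = ∅ ∧ (∀ p ∈ MM σ tl, p.1 ∈ SS σ tl) ∧
    (∀ p ∈ MM σ tl, p.2 ∉ SS σ tl) ∧
    (∀ p ∈ MM σ tl, ∀ p' ∈ MM σ tl, p.1 = p'.1 → p = p') ∧
    (∀ p ∈ MM σ tl, ∀ p' ∈ MM σ tl, p.2 = p'.2 → p = p') ∧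
    (∀ p ∈ MM σ tl, ∀ p' ∈ MM σ tl, sc.col p.1 p.2 = sc.col p'.1 p'.2 → p = p') := by
  obtain ⟨hlt, hne, h1, h2, h3⟩ := hT
  refine ⟨?_, ?_, ?_, ?_, ?_, ?_⟩
  · rw [Finset.eq_empty_iff_forall_notMem]
    intro x hx
    rw [mem_unc, mem_SS] at hx
    obtain ⟨⟨t, ht, rfl⟩, hx⟩ := hx
    exact hx (σ t.1, σ t.2.1) (mem_MM.2 ⟨t, ht, rfl⟩) rfl
  · intro p hp
    obtain ⟨t, ht, rfl⟩ := mem_MM.1 hp
    exact mem_SS.2 ⟨t, ht, rfl⟩
  · intro p hp hp'
    obtain ⟨t, ht, rfl⟩ := mem_MM.1 hp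
    obtain ⟨t', ht', he⟩ := mem_SS.1 hp'
    exact hne t' ht' t ht (hinj _ (hlt t' ht').1 _ (hlt t ht).2.1 he)
  · intro p hp p' hp' he
    obtain ⟨t, ht, rfl⟩ := mem_MM.1 hp
    obtain ⟨t', ht', rfl⟩ := mem_MM.1 hp'
    have := h1 t ht t' ht' (hinj _ (hlt t ht).1 _ (hlt t' ht').1 he)
    rw [this]
  · intro p hp p' hp' he
    obtain ⟨t, ht, rfl⟩ := mem_MM.1 hp
    obtain ⟨t', ht', rfl⟩ := mem_MM.1 hp'
    have := h2 t ht t' ht' (hinj _ (hlt t ht).2.1 _ (hlt t' ht').2.1 he)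
    rw [this]
  · intro p hp p' hp' he
    obtain ⟨t, ht, rfl⟩ := mem_MM.1 hp
    obtain ⟨t', ht', rfl⟩ := mem_MM.1 hp'
    have he' : σ t.2.2 = σ t'.2.2 := by
      have h4 : sc.col (σ t.1) (σ t.2.1) = sc.col (σ t'.1) (σ t'.2.1) := he
      rw [hlab t ht, hlab t' ht'] at h4
      exact (Prod.mk.inj h4).1
    have := h3 t ht t' ht' (hinj _ (hlt t ht).2.2 _ (hlt t' ht').2.2 he')
    rw [this]

omit [Fintype V] in
lemma un_eq {σ : ℕ → V} {tl : List (ℕ × ℕ × ℕ)} {I : Finset ℕ} (hI : okI I tl) :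
    SS σ tl ∪ (MM σ tl).image Prod.snd = I.image σ := by
  unfold okI at hI
  subst hI
  ext x
  simp only [Finset.mem_union, Finset.mem_image, mem_SS, mem_MM, List.mem_toFinset, List.mem_map]
  constructor
  · rintro (⟨t, ht, rfl⟩ | ⟨p, ⟨t, ht, rfl⟩, rfl⟩)
    · exact ⟨t.1, Or.inl ⟨t, ht, rfl⟩, rfl⟩
    · exact ⟨t.2.1, Or.inr ⟨t, ht, rfl⟩, rfl⟩
  · rintro ⟨i, (⟨t, ht, rfl⟩ | ⟨t, ht, rfl⟩), rfl⟩
    · exact Or.inl ⟨t, ht, rfl⟩
    · exact Or.inr ⟨(σ t.1, σ t.2.1), ⟨t, ht, rfl⟩, rfl⟩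

omit [Fintype V] in
lemma mem_dg {U : Finset V} {i : V × V} : i ∈ dg U ↔ ∃ x ∈ U, (x, x) = i := by
  unfold dg
  rw [Finset.mem_image]

omit [Fintype V] in
lemma mem_dg' {U : Finset V} {x : V} : (x, x) ∈ dg U ↔ x ∈ U := by
  rw [mem_dg]
  constructor
  · rintro ⟨y, hy, he⟩
    have := (Prod.mk.inj he).1
    rwa [← this]
  · intro h
    exact ⟨x, h, rfl⟩

lemma vs_dg (U : Finset V) : vs (dg U) = U := by
  ext x
  unfold vs
  rw [Finset.mem_filter, mem_dg']
  simp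

omit [Fintype V] in
lemma dg_insert (x : V) (U : Finset V) : insert (x, x) (dg U) = dg (insert x U) := by
  unfold dg
  rw [Finset.image_insert]

omit [Fintype V] in
lemma dg_inj : Function.Injective (dg : Finset V → Finset (V × V)) := by
  intro U W h
  ext x
  rw [← mem_dg', h, mem_dg']

omit [Fintype V] in
lemma dg_disj {U W : Finset V} (h : Disjoint U W) : Disjoint (dg U) (dg W) := by
  rw [Finset.disjoint_left]
  intro i hi hi'
  obtain ⟨x, hx, rfl⟩ := mem_dg.1 hi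
  exact (Finset.disjoint_left.1 h) hx (mem_dg'.1 hi')

omit [Fintype V] in
lemma card_dg (U : Finset V) : (dg U).card = U.card := by
  unfold dg
  exact Finset.card_image_of_injective _ (fun x y h => (Prod.mk.inj h).1)

/-- a good list of triples gives a tiling -/
lemma til {sc : SC V} {σ : ℕ → V} {m : ℕ} {tl : List (ℕ × ℕ × ℕ)} {I : Finset ℕ}
    (hT : okT m tl) (hZ : okZ tl) (hI : okI I tl)
    (hinj : ∀ i < m, ∀ j < m, σ i = σ j → i = j)
    (hlab : ∀ t ∈ tl, sc.col (σ t.1) (σ t.2.1) = (σ t.2.2, σ t.2.2)) :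
    Tileable sc (dg (I.image σ)) := by
  obtain ⟨h0, h1, h2, h3, h4, h5⟩ := core hT hinj hlab
  have hz : ∀ t ∈ tl, σ t.2.2 ∈ SS σ tl := by
    intro t ht
    obtain ⟨t', ht', he⟩ := hZ t ht
    rw [← he]
    exact mem_SS.2 ⟨t', ht', rfl⟩
  refine ⟨SS σ tl, MM σ tl, ⟨h1, h2, h3, h4, h5, ?_⟩, h0, ?_, ?_⟩
  · intro p hp z he
    obtain ⟨t, ht, rfl⟩ := mem_MM.1 hp
    have h6 : sc.col (σ t.1) (σ t.2.1) = (z, z) := he
    rw [hlab t ht] at h6
    rw [← (Prod.mk.inj h6).1]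
    exact hz t ht
  · rw [vs_dg]
    exact un_eq hI
  · intro p hp
    obtain ⟨t, ht, rfl⟩ := mem_MM.1 hp
    have h6 : sc.col (σ t.1) (σ t.2.1) = (σ t.2.2, σ t.2.2) := hlab t ht
    show sc.col (σ t.1) (σ t.2.1) ∈ _
    rw [h6, mem_dg', ← un_eq hI]
    exact Finset.mem_union_left _ (hz t ht)

lemma LowG.mono {sc : SC V} {Rg Cg : Finset V} {δ δ' : ℝ} (h : LowG sc Rg Cg δ) (hd : δ ≤ δ') :
    LowG sc Rg Cg δ' := by
  have h0 : δ * (Fintype.card V : ℝ) ≤ δ' * Fintype.card V :=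
    mul_le_mul_of_nonneg_right hd (Nat.cast_nonneg _)
  exact ⟨h.big.trans h0, fun x hx => (h.row x hx).trans h0, fun x hx => (h.sym x hx).trans h0,
    fun x hx => (h.col x hx).trans h0⟩

/-- the conclusion of `T_SYS` for one configuration and one assignment of the constants -/
def Out (e : ℕ) (st : List Step) (c : ℝ) (sc : SC V) (Rg Cg : Finset V) (τ : ℕ → V) : Prop :=
  ∃ 𝒢 : Finset (Finset V), (𝒢 : Set (Finset V)).PairwiseDisjoint id ∧
    c * Fintype.card V ≤ 𝒢.card ∧ ∀ G ∈ 𝒢, ∃ σ : ℕ → V, Sat sc e st σ ∧ (∀ i < e, σ i = τ i) ∧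
      (∀ i, e ≤ i → i < e + st.length → σ i ∈ Rg ∩ Cg) ∧
      (∀ i < e + st.length, ∀ j < e + st.length, σ i = σ j → i = j) ∧
      G = (Finset.Ico e (e + st.length)).image σ

lemma fam_of {e : ℕ} {st : List Step} {c c' : ℝ} {sc : SC V} {Rg Cg : Finset V} {τ : ℕ → V}
    {K : ℕ} (h : Out e st c sc Rg Cg τ) (hK : st.length ≤ K) (h0 : 0 < st.length) (hc : c' ≤ c)
    {P : Finset (V × V) → Prop} (hP : ∀ σ : ℕ → V, Sat sc e st σ → (∀ i < e, σ i = τ i) →
      (∀ i < e + st.length, ∀ j < e + st.length, σ i = σ j → i = j) →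
      P (dg ((Finset.Ico e (e + st.length)).image σ))) :
    Fam K c' fun G => P G ∧ vs G ⊆ Rg ∩ Cg := by
  obtain ⟨𝒢, hd, hcard, hG⟩ := h
  refine ⟨𝒢.image dg, ?_, ?_, ?_⟩
  · intro A hA B hB hAB
    rw [Finset.mem_coe, Finset.mem_image] at hA hB
    obtain ⟨U, hU, rfl⟩ := hA
    obtain ⟨W, hW, rfl⟩ := hB
    have hne : U ≠ W := fun h => hAB (by rw [h])
    exact dg_disj (hd (Finset.mem_coe.2 hU) (Finset.mem_coe.2 hW) hne)
  · intro A hA
    rw [Finset.mem_image] at hA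
    obtain ⟨U, hU, rfl⟩ := hA
    obtain ⟨σ, hs, ht, hg, hi, rfl⟩ := hG U hU
    refine ⟨?_, ?_, hP σ hs ht hi, ?_⟩
    · have h1 : σ e ∈ (Finset.Ico e (e + st.length)).image σ :=
        Finset.mem_image_of_mem σ (Finset.mem_Ico.2 ⟨le_refl _, by omega⟩)
      exact ⟨(σ e, σ e), mem_dg'.2 h1⟩
    · rw [card_dg]
      refine Finset.card_image_le.trans ?_
      rw [Nat.card_Ico]
      omega
    · rw [vs_dg]
      intro x hx
      rw [Finset.mem_image] at hx
      obtain ⟨i, hi', rfl⟩ := hx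
      rw [Finset.mem_Ico] at hi'
      exact hg i hi'.1 hi'.2
  · rw [Finset.card_image_of_injective _ dg_inj]
    refine le_trans ?_ hcard
    exact mul_le_mul_of_nonneg_right hc (Nat.cast_nonneg _)

end basic

/-! ### the tilings -/

/-- tiling of the pair absorber without the two constants -/
def pa0 : List (ℕ × ℕ × ℕ) :=
  [(2,5,11),(3,7,8),(8,4,9),(9,12,3),(11,10,13),(13,6,14),(14,15,2),(30,31,38),(33,34,35),
   (35,36,29),(29,26,33),(38,37,39),(39,32,40),(40,41,30),(17,23,24),(24,19,27),(27,28,16),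
   (16,18,22),(22,25,21),(21,20,17)]

/-- tiling of the pair absorber with the two constants -/
def pa1 : List (ℕ × ℕ × ℕ) :=
  [(2,0,7),(7,3,8),(8,4,9),(9,5,10),(10,11,13),(13,6,14),(14,15,2),(30,1,34),(34,33,35),
   (35,36,29),(29,31,37),(37,38,39),(39,32,40),(40,41,30),(23,17,24),(24,19,27),(27,28,16),
   (16,12,20),(21,18,23),(22,25,21),(20,26,22)]

/-- closing -/
def cl0 : List (ℕ × ℕ × ℕ) := [(0,4,2),(2,5,3),(3,6,1)]

/-- cover -/
def co0 : List (ℕ × ℕ × ℕ) := [(1,0,4),(4,5,2),(2,6,3),(3,7,1)]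

/-- tiling of six vertices -/
def t60 : List (ℕ × ℕ × ℕ) := [(0,3,1),(1,4,2),(2,5,0)]

/-- tiling of eight vertices -/
def t80 : List (ℕ × ℕ × ℕ) := [(0,4,1),(1,5,2),(2,6,3),(3,7,0)]

lemma pa0_L : okL 2 stPA pa0 := by decide +kernel
lemma pa0_T : okT 42 pa0 := by decide +kernel
lemma pa0_Z : okZ pa0 := by decide +kernel
lemma pa0_I : okI (Finset.Ico 2 42) pa0 := by decide +kernel
lemma pa1_L : okL 2 stPA pa1 := by decide +kernel
lemma pa1_T : okT 42 pa1 := by decide +kernel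
lemma pa1_Z : okZ pa1 := by decide +kernel
lemma pa1_I : okI (insert 0 (insert 1 (Finset.Ico 2 42))) pa1 := by decide +kernel
lemma cl0_L : okL 2 stCL cl0 := by decide +kernel
lemma cl0_T : okT 7 cl0 := by decide +kernel
lemma cl0_I : okI (insert 0 (Finset.Ico 2 7)) cl0 := by decide +kernel
lemma co0_L : okL 1 stCO co0 := by decide +kernel
lemma co0_T : okT 8 co0 := by decide +kernel
lemma co0_Z : okZ co0 := by decide +kernel
lemma co0_I : okI (insert 0 (Finset.Ico 1 8)) co0 := by decide +kernel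
lemma t60_L : okL 0 stT6 t60 := by decide +kernel
lemma t60_T : okT 6 t60 := by decide +kernel
lemma t60_Z : okZ t60 := by decide +kernel
lemma t60_I : okI (Finset.Ico 0 6) t60 := by decide +kernel
lemma t80_L : okL 0 stT8 t80 := by decide +kernel
lemma t80_T : okT 8 t80 := by decide +kernel
lemma t80_Z : okZ t80 := by decide +kernel
lemma t80_I : okI (Finset.Ico 0 8) t80 := by decide +kernel

lemma nf_PA : 0 < nfree stPA := by decide
lemma nf_CL : 0 < nfree stCL := by decide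
lemma nf_CO : 0 < nfree stCO := by decide
lemma nf_T6 : 0 < nfree stT6 := by decide
lemma nf_T8 : 0 < nfree stT8 := by decide

section gadgets
variable {V : Type} [Fintype V] [DecidableEq V]

lemma g_pa {sc : SC V} {σ : ℕ → V} (hs : Sat sc 2 stPA σ)
    (hi : ∀ i < 42, ∀ j < 42, σ i = σ j → i = j) :
    PA sc (σ 0) (σ 1) (dg ((Finset.Ico 2 42).image σ)) := by
  refine ⟨?_, ?_, ?_, ?_⟩
  · rw [vs_dg, Finset.mem_image]
    rintro ⟨i, h1, h2⟩
    rw [Finset.mem_Ico] at h1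
    have := hi i h1.2 0 (by omega) h2
    omega
  · rw [vs_dg, Finset.mem_image]
    rintro ⟨i, h1, h2⟩
    rw [Finset.mem_Ico] at h1
    have := hi i h1.2 1 (by omega) h2
    omega
  · exact til pa0_T pa0_Z pa0_I hi (fun t ht => lab_of hs pa0_L t ht)
  · rw [dg_insert, dg_insert, ← Finset.image_insert, ← Finset.image_insert]
    exact til pa1_T pa1_Z pa1_I hi (fun t ht => lab_of hs pa1_L t ht)

lemma g_co {sc : SC V} {σ : ℕ → V} (hs : Sat sc 1 stCO σ)
    (hi : ∀ i < 8, ∀ j < 8, σ i = σ j → i = j) :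
    CO sc (σ 0) (dg ((Finset.Ico 1 8).image σ)) := by
  refine ⟨?_, ?_⟩
  · rw [vs_dg, Finset.mem_image]
    rintro ⟨i, h1, h2⟩
    rw [Finset.mem_Ico] at h1
    have := hi i h1.2 0 (by omega) h2
    omega
  · rw [dg_insert, ← Finset.image_insert]
    exact til co0_T co0_Z co0_I hi (fun t ht => lab_of hs co0_L t ht)

lemma g_cl {sc : SC V} {σ : ℕ → V} (hs : Sat sc 2 stCL σ)
    (hi : ∀ i < 7, ∀ j < 7, σ i = σ j → i = j) :
    CL sc (σ 0) (σ 1) (dg ((Finset.Ico 2 7).image σ)) := by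
  have hlab := fun t ht => lab_of hs cl0_L t ht
  obtain ⟨h0, h1, h2, h3, h4, h5⟩ := core cl0_T hi hlab
  refine ⟨?_, ?_, SS σ cl0, MM σ cl0, ?_, ?_, h0, h1, h2, h3, h4, h5, ?_, ?_⟩
  · rw [vs_dg, Finset.mem_image]
    rintro ⟨i, h1, h2⟩
    rw [Finset.mem_Ico] at h1
    have := hi i h1.2 0 (by omega) h2
    omega
  · rw [vs_dg, Finset.mem_image]
    rintro ⟨i, h1, h2⟩
    rw [Finset.mem_Ico] at h1
    have := hi i h1.2 1 (by omega) h2
    omega
  · exact mem_SS.2 ⟨(0,4,2), by simp [cl0], rfl⟩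
  · rw [vs_dg, ← Finset.image_insert]
    exact un_eq cl0_I
  · intro p hp
    obtain ⟨t, ht, rfl⟩ := mem_MM.1 hp
    show sc.col (σ t.1) (σ t.2.1) ∈ _ ∨ sc.col (σ t.1) (σ t.2.1) = _
    rw [hlab t ht, mem_dg', Finset.mem_image]
    have h6 : t = (0,4,2) ∨ t = (2,5,3) ∨ t = (3,6,1) := by simpa [cl0] using ht
    rcases h6 with rfl | rfl | rfl
    · exact Or.inl ⟨2, by simp, rfl⟩
    · exact Or.inl ⟨3, by simp, rfl⟩
    · exact Or.inr rfl
  · intro p hp z he
    obtain ⟨t, ht, rfl⟩ := mem_MM.1 hp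
    have h7 : sc.col (σ t.1) (σ t.2.1) = (z, z) := he
    rw [hlab t ht] at h7
    have h8 := (Prod.mk.inj h7).1
    have h6 : t = (0,4,2) ∨ t = (2,5,3) ∨ t = (3,6,1) := by simpa [cl0] using ht
    rcases h6 with rfl | rfl | rfl
    · right
      have h8' : σ 2 = z := h8
      rw [← h8']
      refine ⟨mem_SS.2 ⟨(2,5,3), by simp [cl0], rfl⟩, ?_⟩
      intro h9
      have := hi 2 (by omega) 0 (by omega) h9
      omega
    · right
      have h8' : σ 3 = z := h8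
      rw [← h8']
      refine ⟨mem_SS.2 ⟨(3,6,1), by simp [cl0], rfl⟩, ?_⟩
      intro h9
      have := hi 3 (by omega) 0 (by omega) h9
      omega
    · left
      exact h8.symm

lemma g_t6 {sc : SC V} {σ : ℕ → V} (hs : Sat sc 0 stT6 σ)
    (hi : ∀ i < 6, ∀ j < 6, σ i = σ j → i = j) :
    Tileable sc (dg ((Finset.Ico 0 6).image σ)) ∧ (vs (dg ((Finset.Ico 0 6).image σ))).card = 6 := by
  refine ⟨til t60_T t60_Z t60_I hi (fun t ht => lab_of hs t60_L t ht), ?_⟩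
  rw [vs_dg, Finset.card_image_of_injOn, Nat.card_Ico]
  intro i h1 j h2 h3
  rw [Finset.mem_coe, Finset.mem_Ico] at h1 h2
  exact hi i h1.2 j h2.2 h3

lemma g_t8 {sc : SC V} {σ : ℕ → V} (hs : Sat sc 0 stT8 σ)
    (hi : ∀ i < 8, ∀ j < 8, σ i = σ j → i = j) :
    Tileable sc (dg ((Finset.Ico 0 8).image σ)) ∧ (vs (dg ((Finset.Ico 0 8).image σ))).card = 8 := by
  refine ⟨til t80_T t80_Z t80_I hi (fun t ht => lab_of hs t80_L t ht), ?_⟩
  rw [vs_dg, Finset.card_image_of_injOn, Nat.card_Ico]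
  intro i h1 j h2 h3
  rw [Finset.mem_coe, Finset.mem_Ico] at h1 h2
  exact hi i h1.2 j h2.2 h3

end gadgets

lemma two_inj {V : Type} {x y : V} (h : x ≠ y) :
    ∀ i < 2, ∀ j < 2, (fun k : ℕ => if k = 0 then x else y) i =
      (fun k : ℕ => if k = 0 then x else y) j → i = j := by
  intro i hi j hj he
  have h1 : i = 0 ∨ i = 1 := by omega
  have h2 : j = 0 ∨ j = 1 := by omega
  rcases h1 with rfl | rfl <;> rcases h2 with rfl | rfl
  · rfl
  · exact absurd (by simpa using he) h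
  · exact absurd (by simpa using he) h.symm
  · rfl

end LG_

open LG_ in
/-- gadgets in the low regime -/
theorem p_LG (h : T_SYS) : T_LG := by
  obtain ⟨δ₁, c₁, N₁, hδ₁, hc₁, H₁⟩ := h 2 stPA _ _ _ chk_PA nf_PA
  obtain ⟨δ₂, c₂, N₂, hδ₂, hc₂, H₂⟩ := h 2 stCL _ _ _ chk_CL nf_CL
  obtain ⟨δ₃, c₃, N₃, hδ₃, hc₃, H₃⟩ := h 1 stCO _ _ _ chk_CO nf_CO
  obtain ⟨δ₄, c₄, N₄, hδ₄, hc₄, H₄⟩ := h 0 stT6 _ _ _ chk_T6 nf_T6
  obtain ⟨δ₅, c₅, N₅, hδ₅, hc₅, H₅⟩ := h 0 stT8 _ _ _ chk_T8 nf_T8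
  refine ⟨40, min δ₁ (min δ₂ (min δ₃ (min δ₄ δ₅))), min c₁ (min c₂ (min c₃ (min c₄ c₅))),
    N₁ + N₂ + N₃ + N₄ + N₅, by simp [hδ₁, hδ₂, hδ₃, hδ₄, hδ₅], by simp [hc₁, hc₂, hc₃, hc₄, hc₅],
    ?_⟩
  intro V _ _ sc Rg Cg hN hL
  have L₁ : LowG sc Rg Cg δ₁ := LowG.mono hL (by simp)
  have L₂ : LowG sc Rg Cg δ₂ := LowG.mono hL (by simp)
  have L₃ : LowG sc Rg Cg δ₃ := LowG.mono hL (by simp)
  have L₄ : LowG sc Rg Cg δ₄ := LowG.mono hL (by simp)
  have L₅ : LowG sc Rg Cg δ₅ := LowG.mono hL (by simp)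
  have l1 : stPA.length = 40 := by decide
  have l2 : stCL.length = 5 := by decide
  have l3 : stCO.length = 7 := by decide
  have l4 : stT6.length = 6 := by decide
  have l5 : stT8.length = 8 := by decide
  have hco : ∀ w ∈ Rg, Fam 40 (min c₁ (min c₂ (min c₃ (min c₄ c₅))))
      fun G => CO sc w G ∧ vs G ⊆ Rg ∩ Cg := by
    intro w hw
    have hout : Out 1 stCO c₃ sc Rg Cg (fun _ => w) := by
      refine H₃ V sc Rg Cg (by omega) L₃ (fun _ => w) (fun i _ _ => hw) ?_ ?_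
      · intro i hi hu
        exfalso
        have : i = 0 := by omega
        subst this
        simp [stCO, usesCol] at hu
      · intro i hi j hj _
        omega
    refine fam_of hout (by omega) (by omega) (by simp) ?_
    intro σ hs ht hi
    have h0 : σ 0 = w := ht 0 (by omega)
    rw [l3] at hi ⊢
    have := g_co hs hi
    rwa [h0] at this
  refine ⟨⟨?_, ?_, ?_, ?_, ?_⟩, hco⟩
  · intro x hx y hy hxy
    rw [Finset.mem_inter] at hx hy
    have hout : Out 2 stPA c₁ sc Rg Cg (fun k => if k = 0 then x else y) := by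
      refine H₁ V sc Rg Cg (by omega) L₁ (fun k => if k = 0 then x else y) ?_ ?_ (two_inj hxy)
      · intro i _ _
        split_ifs
        · exact hx.1
        · exact hy.1
      · intro i _ _
        split_ifs
        · exact hx.2
        · exact hy.2
    refine fam_of hout (by omega) (by omega) (by simp) ?_
    intro σ hs ht hi
    have h0 : σ 0 = x := ht 0 (by omega)
    have h1 : σ 1 = y := ht 1 (by omega)
    rw [l1] at hi ⊢
    have := g_pa hs hi
    rwa [h0, h1] at this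
  · intro x hx y hy hxy
    rw [Finset.mem_inter] at hx hy
    have hout : Out 2 stCL c₂ sc Rg Cg (fun k => if k = 0 then x else y) := by
      refine H₂ V sc Rg Cg (by omega) L₂ (fun k => if k = 0 then x else y) ?_ ?_ (two_inj hxy)
      · intro i _ _
        split_ifs
        · exact hx.1
        · exact hy.1
      · intro i _ _
        split_ifs
        · exact hx.2
        · exact hy.2
    refine fam_of hout (by omega) (by omega) (by simp) ?_
    intro σ hs ht hi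
    have h0 : σ 0 = x := ht 0 (by omega)
    have h1 : σ 1 = y := ht 1 (by omega)
    rw [l2] at hi ⊢
    have := g_cl hs hi
    rwa [h0, h1] at this
  · intro w hw
    rw [Finset.mem_inter] at hw
    exact hco w hw.1
  · by_cases hV : Nonempty V
    · obtain ⟨v⟩ := hV
      have hout : Out 0 stT6 c₄ sc Rg Cg (fun _ => v) := by
        refine H₄ V sc Rg Cg (by omega) L₄ (fun _ => v) ?_ ?_ ?_
        · intro i hi _; omega
        · intro i hi _; omega
        · intro i hi; omega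
      have := fam_of (K := 40) (c' := min c₁ (min c₂ (min c₃ (min c₄ c₅)))) hout (by omega)
        (by omega) (by simp)
        (P := fun G => Tileable sc G ∧ (vs G).card = 6) (by
          intro σ hs ht hi
          rw [l4] at hi ⊢
          exact g_t6 hs hi)
      obtain ⟨𝒢, a, b, c⟩ := this
      exact ⟨𝒢, a, fun G hG => ⟨(b G hG).1, (b G hG).2.1, (b G hG).2.2.1.1, (b G hG).2.2.1.2,
        (b G hG).2.2.2⟩, c⟩
    · rw [not_nonempty_iff] at hV
      refine ⟨∅, by simp, by simp, ?_⟩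
      rw [Fintype.card_eq_zero]
      simp
  · by_cases hV : Nonempty V
    · obtain ⟨v⟩ := hV
      have hout : Out 0 stT8 c₅ sc Rg Cg (fun _ => v) := by
        refine H₅ V sc Rg Cg (by omega) L₅ (fun _ => v) ?_ ?_ ?_
        · intro i hi _; omega
        · intro i hi _; omega
        · intro i hi; omega
      have := fam_of (K := 40) (c' := min c₁ (min c₂ (min c₃ (min c₄ c₅)))) hout (by omega)
        (by omega) (by simp)
        (P := fun G => Tileable sc G ∧ (vs G).card = 8) (by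
          intro σ hs ht hi
          rw [l5] at hi ⊢
          exact g_t8 hs hi)
      obtain ⟨𝒢, a, b, c⟩ := this
      exact ⟨𝒢, a, fun G hG => ⟨(b G hG).1, (b G hG).2.1, (b G hG).2.2.1.1, (b G hG).2.2.1.2,
        (b G hG).2.2.2⟩, c⟩
    · rw [not_nonempty_iff] at hV
      refine ⟨∅, by simp, by simp, ?_⟩
      rw [Fintype.card_eq_zero]
      simp

end SpF
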