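import Pool.Agent.SpF.Targets

set_option autoImplicit false
set_option linter.unusedSectionVars false

/-!
# The low regime
-/

namespace SpF
open Spider Finset

namespace LOW_

variable {V : Type} [Fintype V] [DecidableEq V]

theorem fam_mono {K K' : ℕ} {c c' : ℝ} {P P' : Finset (V × V) → Prop} (h : Fam K c P)
    (hK : K ≤ K') (hc : c' ≤ c) (hP : ∀ G, P G → P' G) : Fam K' c' P' := by
  obtain ⟨𝒢, h1, h2, h3⟩ := h
  refine ⟨𝒢, h1, fun G hG => ?_, ?_⟩
  · obtain ⟨a, b, d⟩ := h2 G hG
    exact ⟨a, b.trans hK, hP G d⟩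
  · refine le_trans ?_ h3
    exact mul_le_mul_of_nonneg_right hc (Nat.cast_nonneg _)

theorem h1_mono {sc : SC V} {Good : Finset V} {K K' : ℕ} {c : ℝ} (h : H1 sc Good K c)
    (hK : K ≤ K') : H1 sc Good K' c where
  pa x hx y hy hxy := fam_mono (h.pa x hx y hy hxy) hK le_rfl fun _ h => h
  cl x hx y hy hxy := fam_mono (h.cl x hx y hy hxy) hK le_rfl fun _ h => h
  co x hx := fam_mono (h.co x hx) hK le_rfl fun _ h => h
  t6 := fam_mono h.t6 hK le_rfl fun _ h => h
  t8 := fam_mono h.t8 hK le_rfl fun _ h => h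

/-- free neighbours -/
def Fn (sc : SC V) (x : V) : Finset V :=
  univ.filter fun y => y ≠ x ∧ (sc.col x y).1 ≠ (sc.col x y).2

theorem mem_Fn {sc : SC V} {x y : V} :
    y ∈ Fn sc x ↔ y ≠ x ∧ (sc.col x y).1 ≠ (sc.col x y).2 := by
  unfold Fn
  simp

theorem lab_inj {sc : SC V} {x y y' z : V} (h : Lab sc x y z) (h' : Lab sc x y' z) : y = y' := by
  by_contra hne
  exact sc.proper x y y' h.1 h'.1 hne (h.2.trans h'.2.symm)

theorem lab_symm {sc : SC V} {x y z : V} (h : Lab sc x y z) : Lab sc y x z :=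
  ⟨h.1.symm, by rw [sc.symm]; exact h.2⟩

theorem nolab_iff {sc : SC V} {x y : V} :
    (∀ z, ¬ Lab sc x y z) ↔ y = x ∨ y ∈ Fn sc x := by
  rw [mem_Fn]
  constructor
  · intro h
    by_cases hy : y = x
    · exact Or.inl hy
    · refine Or.inr ⟨hy, fun he => ?_⟩
      exact h (sc.col x y).1 ⟨Ne.symm hy, Prod.ext rfl he.symm⟩
  · rintro (h | h) z hz
    · exact hz.1 h.symm
    · apply h.2
      rw [hz.2]

theorem row_card (sc : SC V) (x : V) :
    (univ.filter fun y => ∀ z, ¬ Lab sc x y z).card ≤ (Fn sc x).card + 1 := by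
  have : (univ.filter fun y => ∀ z, ¬ Lab sc x y z) ⊆ insert x (Fn sc x) := by
    intro y hy
    rw [Finset.mem_filter, nolab_iff] at hy
    rw [Finset.mem_insert]
    exact hy.2
  exact (Finset.card_le_card this).trans (Finset.card_insert_le _ _)

theorem sym_card (sc : SC V) (x : V) :
    (univ.filter fun z => ∀ y, ¬ Lab sc x y z).card ≤ (Fn sc x).card + 1 := by
  have h1 := row_card sc x
  have h2 : (univ.filter fun y => ¬ ∀ z, ¬ Lab sc x y z).card ≤
      (univ.filter fun z => ¬ ∀ y, ¬ Lab sc x y z).card := by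
    apply Finset.card_le_card_of_injOn fun y => (sc.col x y).1
    · intro y hy
      rw [Finset.mem_coe, Finset.mem_filter] at hy
      rw [Finset.mem_coe, Finset.mem_filter]
      refine ⟨mem_univ _, fun h => hy.2 fun z hz => ?_⟩
      apply h y
      show Lab sc x y (sc.col x y).1
      rw [hz.2]
      exact hz
    · intro y hy y' hy' he
      rw [Finset.mem_coe, Finset.mem_filter] at hy hy'
      have e1 := hy.2
      have e2 := hy'.2
      push Not at e1 e2
      obtain ⟨z, hz⟩ := e1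
      obtain ⟨z', hz'⟩ := e2
      simp only at he
      rw [hz.2, hz'.2] at he
      simp only at he
      subst he
      exact lab_inj hz hz'
  have h3 := Finset.card_filter_add_card_filter_not (s := (univ : Finset V)) (fun y => ∀ z, ¬ Lab sc x y z)
  have h4 := Finset.card_filter_add_card_filter_not (s := (univ : Finset V)) (fun z => ∀ y, ¬ Lab sc x y z)
  omega

theorem sum_Fn (sc : SC V) : ∑ x, (Fn sc x).card =
    (univ.filter fun p : V × V => p.1 ≠ p.2 ∧ (sc.col p.1 p.2).1 ≠ (sc.col p.1 p.2).2).card := by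
  rw [Finset.card_filter, Fintype.sum_prod_type]
  refine Finset.sum_congr rfl fun x _ => ?_
  unfold Fn
  rw [Finset.card_filter]
  refine Finset.sum_congr rfl fun y _ => ?_
  congr 1
  simp only [ne_comm]

theorem sum_col (sc : SC V) : ∑ z, (univ.filter fun x => ∀ y, ¬ Lab sc x y z).card ≤
    ∑ x, ((Fn sc x).card + 1) := by
  calc ∑ z, (univ.filter fun x => ∀ y, ¬ Lab sc x y z).card
      = ∑ x, (univ.filter fun z => ∀ y, ¬ Lab sc x y z).card := by
        simp_rw [Finset.card_filter]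
        rw [Finset.sum_comm]
    _ ≤ _ := Finset.sum_le_sum fun x _ => sym_card sc x

/-- cover of a vertex by a free edge -/
theorem cover {sc : SC V} {w u : V} (hu : u ∈ Fn sc w) :
    CO sc w {(u, u), sc.col w u} ∧ vs ({(u, u), sc.col w u} : Finset (V × V)) = {u} := by
  rw [mem_Fn] at hu
  have hvs : ∀ x, (x, x) = sc.col w u → False := by
    intro x hx
    apply hu.2
    rw [← hx]
  have h1 : vs ({(u, u), sc.col w u} : Finset (V × V)) = {u} := by
    ext x
    unfold vs
    rw [Finset.mem_filter, Finset.mem_insert, Finset.mem_singleton, Finset.mem_singleton]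
    constructor
    · rintro ⟨_, h | h⟩
      · exact (Prod.ext_iff.mp h).1
      · exact (hvs x h).elim
    · rintro rfl
      exact ⟨mem_univ _, Or.inl rfl⟩
  refine ⟨⟨?_, ?_⟩, h1⟩
  · rw [h1, Finset.mem_singleton]
    exact fun h => hu.1 h.symm
  · refine ⟨{w}, {(w, u)}, ?_, ?_, ?_, ?_⟩
    · refine ⟨?_, ?_, ?_, ?_, ?_, ?_⟩
      · intro p hp
        rw [Finset.mem_singleton] at hp
        rw [hp]; simp
      · intro p hp
        rw [Finset.mem_singleton] at hp
        rw [hp]
        simp only [Finset.mem_singleton]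
        exact hu.1
      · intro p hp p' hp' _
        rw [Finset.mem_singleton] at hp hp'
        rw [hp, hp']
      · intro p hp p' hp' _
        rw [Finset.mem_singleton] at hp hp'
        rw [hp, hp']
      · intro p hp p' hp' _
        rw [Finset.mem_singleton] at hp hp'
        rw [hp, hp']
      · intro p hp z hz
        rw [Finset.mem_singleton] at hp
        rw [hp] at hz
        exact (hvs z hz.symm).elim
    · unfold unc
      simp
    · ext x
      unfold vs
      simp only [Finset.image_singleton, Finset.mem_union, Finset.mem_singleton,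
        Finset.mem_filter, Finset.mem_univ, true_and, Finset.mem_insert, Prod.mk.injEq, and_self]
      constructor
      · rintro (h | h)
        · exact Or.inl h
        · exact Or.inr (Or.inl h)
      · rintro (h | h | h)
        · exact Or.inl h
        · exact Or.inr h
        · exact (hvs x h).elim
    · intro p hp
      rw [Finset.mem_singleton] at hp
      rw [hp]
      simp

theorem fam_cover {sc : SC V} {Good : Finset V} {w : V} {K : ℕ} {c : ℝ} (hK : 2 ≤ K)
    (hc : c * Fintype.card V ≤ ((Fn sc w ∩ Good).card : ℝ)) :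
    Fam K c fun G => CO sc w G ∧ vs G ⊆ Good := by
  have hinj : ∀ u ∈ Fn sc w, ∀ u' ∈ Fn sc w, ¬ Disjoint ({(u, u), sc.col w u} : Finset (V × V))
      {(u', u'), sc.col w u'} → u = u' := by
    intro u hu u' hu' hd
    rw [mem_Fn] at hu hu'
    rw [Finset.not_disjoint_iff] at hd
    obtain ⟨p, h1, h2⟩ := hd
    rw [Finset.mem_insert, Finset.mem_singleton] at h1 h2
    rcases h1 with h1 | h1 <;> rcases h2 with h2 | h2
    · rw [h1] at h2
      exact (Prod.ext_iff.mp h2).1
    · exfalso
      apply hu'.2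
      rw [← h2, h1]
    · exfalso
      apply hu.2
      rw [← h1, h2]
    · by_contra hne
      exact sc.proper w u u' hu.1.symm hu'.1.symm hne (h1.symm.trans h2)
  refine ⟨(Fn sc w ∩ Good).image fun u => {(u, u), sc.col w u}, ?_, ?_, ?_⟩
  · intro G hG G' hG' hne
    rw [Finset.mem_coe, Finset.mem_image] at hG hG'
    obtain ⟨u, hu, rfl⟩ := hG
    obtain ⟨u', hu', rfl⟩ := hG'
    show Disjoint (id _) (id _)
    by_contra hd
    have := hinj u (Finset.mem_inter.mp hu).1 u' (Finset.mem_inter.mp hu').1 hd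
    exact hne (by rw [this])
  · intro G hG
    rw [Finset.mem_image] at hG
    obtain ⟨u, hu, rfl⟩ := hG
    have h := cover (Finset.mem_inter.mp hu).1
    refine ⟨⟨(u, u), by simp⟩, Finset.card_le_two.trans hK, h.1, ?_⟩
    rw [h.2, Finset.singleton_subset_iff]
    exact (Finset.mem_inter.mp hu).2
  · rw [Finset.card_image_of_injOn]
    · exact hc
    · intro u hu u' hu' he
      rw [Finset.mem_coe, Finset.mem_inter] at hu hu'
      apply hinj u hu.1 u' hu'.1
      simp only at he
      rw [he, Finset.disjoint_self_iff_empty]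
      exact Finset.insert_ne_empty _ _

theorem nearP_mono {sc : SC V} {U : Finset V} {Γ : Finset (V × V)} {k k' : ℕ}
    (h : NearP sc U Γ k) (hk : k ≤ k') : NearP sc U Γ k' := by
  obtain ⟨S, M, h1, h2, h3, h4, h5⟩ := h
  exact ⟨S, M, h1, h2, h3, h4, h5.trans (by omega)⟩

/-- the number of usable edges with a given label -/
theorem case1 {sc : SC V} {U : Finset V} {Γ : Finset (V × V)} (hΓ : ∀ z, (z, z) ∈ Γ ↔ z ∈ U)
    {z : V} (hz : z ∈ U) :
    Fintype.card V ≤ ((U ×ˢ U).filter fun p => p.1 ≠ p.2 ∧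
      sc.col p.1 p.2 = (z, z) ∧ sc.col p.1 p.2 ∈ Γ).card + 2 * (univ \ U).card +
      (univ.filter fun x => ∀ y, ¬ Lab sc x y z).card := by
  classical
  set Q : Finset (V × V) := univ.filter fun p => Lab sc p.1 p.2 z with hQ
  have h1 : (univ.filter fun x => ¬ ∀ y, ¬ Lab sc x y z).card ≤ Q.card := by
    have : (univ.filter fun x => ¬ ∀ y, ¬ Lab sc x y z) ⊆ Q.image Prod.fst := by
      intro x hx
      rw [Finset.mem_filter] at hx
      have := hx.2
      push Not at this
      obtain ⟨y, hy⟩ := this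
      rw [Finset.mem_image]
      exact ⟨(x, y), by rw [hQ, Finset.mem_filter]; exact ⟨mem_univ _, hy⟩, rfl⟩
    exact (Finset.card_le_card this).trans Finset.card_image_le
  have h2 : (Q.filter fun p => p.1 ∉ U).card ≤ (univ \ U).card := by
    apply Finset.card_le_card_of_injOn Prod.fst
    · intro p hp
      rw [Finset.mem_coe, Finset.mem_filter] at hp
      rw [Finset.mem_coe, Finset.mem_sdiff]
      exact ⟨mem_univ _, hp.2⟩
    · intro p hp p' hp' he
      rw [Finset.mem_coe, Finset.mem_filter, hQ, Finset.mem_filter] at hp hp'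
      have a1 := hp.1.2
      have a2 := hp'.1.2
      rw [← he] at a2
      exact Prod.ext he (lab_inj a1 a2)
  have h3 : (Q.filter fun p => p.2 ∉ U).card ≤ (univ \ U).card := by
    apply Finset.card_le_card_of_injOn Prod.snd
    · intro p hp
      rw [Finset.mem_coe, Finset.mem_filter] at hp
      rw [Finset.mem_coe, Finset.mem_sdiff]
      exact ⟨mem_univ _, hp.2⟩
    · intro p hp p' hp' he
      rw [Finset.mem_coe, Finset.mem_filter, hQ, Finset.mem_filter] at hp hp'
      have a1 := lab_symm hp.1.2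
      have a2 := lab_symm hp'.1.2
      rw [← he] at a2
      exact Prod.ext (lab_inj a1 a2) he
  have h4 : Q ⊆ (((U ×ˢ U).filter fun p => p.1 ≠ p.2 ∧
      sc.col p.1 p.2 = (z, z) ∧ sc.col p.1 p.2 ∈ Γ) ∪ (Q.filter fun p => p.1 ∉ U)) ∪
      (Q.filter fun p => p.2 ∉ U) := by
    intro p hp
    have hp' := hp
    rw [hQ, Finset.mem_filter] at hp'
    rw [Finset.mem_union, Finset.mem_union]
    by_cases a : p.1 ∈ U
    · by_cases b : p.2 ∈ U
      · left; left
        rw [Finset.mem_filter, Finset.mem_product]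
        refine ⟨⟨a, b⟩, hp'.2.1, hp'.2.2, ?_⟩
        rw [hp'.2.2]
        exact (hΓ z).mpr hz
      · exact Or.inr (Finset.mem_filter.mpr ⟨hp, b⟩)
    · exact Or.inl (Or.inr (Finset.mem_filter.mpr ⟨hp, a⟩))
  have h5 := (Finset.card_le_card h4).trans
    ((Finset.card_union_le _ _).trans (Nat.add_le_add_right (Finset.card_union_le _ _) _))
  have h6 := Finset.card_filter_add_card_filter_not (s := (univ : Finset V))
    (fun x => ∀ y, ¬ Lab sc x y z)
  rw [Finset.card_univ] at h6
  omega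

theorem missing {sc : SC V} {U : Finset V} {Γ : Finset (V × V)} (hΓ : ∀ z, (z, z) ∈ Γ ↔ z ∈ U)
    (a : V) : (U.filter fun b => b = a ∨ sc.col a b ∉ Γ).card ≤
      1 + (univ.filter fun y => y ≠ a ∧ (sc.col a y).1 ≠ (sc.col a y).2 ∧
      sc.col a y ∉ Γ).card + (univ \ U).card := by
  classical
  have h1 : (univ.filter fun b => b ≠ a ∧ (sc.col a b).1 = (sc.col a b).2 ∧
      sc.col a b ∉ Γ).card ≤ (univ \ U).card := by
    apply Finset.card_le_card_of_injOn fun y => (sc.col a y).1
    · intro y hy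
      rw [Finset.mem_coe, Finset.mem_filter] at hy
      rw [Finset.mem_coe, Finset.mem_sdiff]
      refine ⟨mem_univ _, fun h => hy.2.2.2 ?_⟩
      have : sc.col a y = ((sc.col a y).1, (sc.col a y).1) := Prod.ext rfl hy.2.2.1.symm
      rw [this]
      exact (hΓ _).mpr h
    · intro y hy y' hy' he
      rw [Finset.mem_coe, Finset.mem_filter] at hy hy'
      by_contra hne
      apply sc.proper a y y' hy.2.1.symm hy'.2.1.symm hne
      simp only at he
      refine Prod.ext he ?_
      rw [← hy.2.2.1, ← hy'.2.2.1]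
      exact he
  have h2 : (U.filter fun b => b = a ∨ sc.col a b ∉ Γ) ⊆ insert a
      ((univ.filter fun y => y ≠ a ∧ (sc.col a y).1 ≠ (sc.col a y).2 ∧
      sc.col a y ∉ Γ) ∪ (univ.filter fun b => b ≠ a ∧ (sc.col a b).1 = (sc.col a b).2 ∧
      sc.col a b ∉ Γ)) := by
    intro b hb
    rw [Finset.mem_filter] at hb
    rw [Finset.mem_insert, Finset.mem_union, Finset.mem_filter, Finset.mem_filter]
    by_cases hba : b = a
    · exact Or.inl hba
    · right
      have h3 := hb.2.resolve_left hba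
      by_cases h4 : (sc.col a b).1 = (sc.col a b).2
      · exact Or.inr ⟨mem_univ _, hba, h4, h3⟩
      · exact Or.inl ⟨mem_univ _, hba, h4, h3⟩
  have h3 := (Finset.card_le_card h2).trans (Finset.card_insert_le _ _)
  have h4 := Finset.card_union_le (univ.filter fun y => y ≠ a ∧ (sc.col a y).1 ≠ (sc.col a y).2 ∧
      sc.col a y ∉ Γ) (univ.filter fun b => b ≠ a ∧ (sc.col a b).1 = (sc.col a b).2 ∧
      sc.col a b ∉ Γ)
  omega

end LOW_

open LOW_ in
theorem p_LOW (h1 : T_LG) (h2 : T_NP) (h3 : T_ASM) : T_LOW := by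
  obtain ⟨K, δL, c, N1, hδL, hc, hLG⟩ := h1
  -- constants
  set δ₁ : ℝ := min δL (1 / 100) with hδ₁
  have hδ₁0 : 0 < δ₁ := lt_min hδL (by norm_num)
  have hδ₁L : δ₁ ≤ δL := min_le_left _ _
  have hδ₁1 : δ₁ ≤ 1 / 100 := min_le_right _ _
  set cx : ℝ := min c (δ₁ / 8) with hcx
  have hcx0 : 0 < cx := lt_min hc (by positivity)
  have hcxc : cx ≤ c := min_le_left _ _
  have hcx1 : cx ≤ δ₁ / 8 := min_le_right _ _
  set K' : ℕ := K + 2 with hK'
  have hK0 : (0 : ℝ) < 100 * ((K' : ℝ) + 1) := by positivity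
  set κ : ℝ := min cx (1 / 10000) / (100 * ((K' : ℝ) + 1)) with hκ
  have hm0 : 0 < min cx (1 / 10000 : ℝ) := lt_min hcx0 (by norm_num)
  have hκ0 : 0 < κ := by positivity
  have hκe : 100 * ((K' : ℝ) + 1) * κ = min cx (1 / 10000) := by
    rw [hκ]; field_simp
  have hκ1 : κ ≤ cx := by
    have h1 : κ ≤ 100 * ((K' : ℝ) + 1) * κ := by
      have : (1 : ℝ) ≤ 100 * ((K' : ℝ) + 1) := by
        have : (0 : ℝ) ≤ K' := Nat.cast_nonneg _
        linarith
      nlinarith
    rw [hκe] at h1
    exact h1.trans (min_le_left _ _)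
  obtain ⟨ε, ε', N2, hε, hε', hA⟩ := h3 K' c cx κ (1 / 10000) hc hcx0 (by linarith) hcxc hκ0.le
    (by norm_num) (by norm_num) (by rw [hκe]; exact min_le_left _ _)
    (by rw [hκe]; exact min_le_right _ _)
  obtain ⟨N3, hNP⟩ := h2 ε' hε'
  set δ : ℝ := κ * δ₁ / 10 with hδ
  have hδ0 : 0 < δ := by positivity
  refine ⟨δ, ε, max (max N1 N2) (max (2 * N3) (max ⌈1 / δ⌉₊ 100000)), hδ0, hε, ?_⟩
  intro V _ _ sc hN hF t ht ht2
  have hN1 : N1 ≤ Fintype.card V := (le_max_left _ _).trans ((le_max_left _ _).trans hN)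
  have hN2 : N2 ≤ Fintype.card V := (le_max_right _ _).trans ((le_max_left _ _).trans hN)
  have hN3 : 2 * N3 ≤ Fintype.card V := (le_max_left _ _).trans ((le_max_right _ _).trans hN)
  have hN4 : ⌈1 / δ⌉₊ ≤ Fintype.card V :=
    (le_max_left _ _).trans ((le_max_right _ _).trans ((le_max_right _ _).trans hN))
  have hN5 : 100000 ≤ Fintype.card V :=
    (le_max_right _ _).trans ((le_max_right _ _).trans ((le_max_right _ _).trans hN))
  set N : ℝ := (Fintype.card V : ℝ) with hNd
  have hN5' : (100000 : ℝ) ≤ N := by rw [hNd]; exact_mod_cast hN5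
  have hN0 : 0 < N := by linarith
  have hδN : 1 ≤ δ * N := by
    have h0 : ((⌈1 / δ⌉₊ : ℕ) : ℝ) ≤ N := by rw [hNd]; exact_mod_cast hN4
    have h1 : 1 / δ ≤ N := (Nat.le_ceil _).trans h0
    rw [div_le_iff₀ hδ0] at h1
    linarith
  -- sums
  have hsum : (∑ x, (((Fn sc x).card + 1 : ℕ) : ℝ)) ≤ 2 * δ * N ^ 2 := by
    have h1 : (∑ x, ((Fn sc x).card : ℝ)) ≤ δ * N ^ 2 := by
      rw [← Nat.cast_sum, sum_Fn]
      exact hF
    push_cast
    rw [Finset.sum_add_distrib, Finset.sum_const, Finset.card_univ, nsmul_eq_mul, mul_one]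
    nlinarith
  have hsum2 : (∑ z, ((univ.filter fun x => ∀ y, ¬ Lab sc x y z).card : ℝ)) ≤ 2 * δ * N ^ 2 := by
    rw [← Nat.cast_sum]
    refine le_trans ?_ hsum
    rw [← Nat.cast_sum]
    exact_mod_cast sum_col sc
  have m1 := markov (fun x => (Fn sc x).card + 1) (δ₁ / 2 * N) (4 * δ / δ₁ * N) (by positivity) (by
    refine hsum.trans (le_of_eq ?_)
    field_simp
    ring)
  have m2 := markov (fun z => (univ.filter fun x => ∀ y, ¬ Lab sc x y z).card) (δ₁ * N)
    (2 * δ / δ₁ * N) (by positivity) (by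
    refine hsum2.trans (le_of_eq ?_)
    field_simp)
  classical
  set Rg : Finset V := univ.filter fun x => (((Fn sc x).card + 1 : ℕ) : ℝ) ≤ δ₁ / 2 * N with hRg
  set Cg : Finset V := univ.filter fun z =>
    ((univ.filter fun x => ∀ y, ¬ Lab sc x y z).card : ℝ) ≤ δ₁ * N with hCg
  have hbig : ((univ \ (Rg ∩ Cg)).card : ℝ) ≤ κ * N := by
    have h1 : univ \ (Rg ∩ Cg) ⊆ (univ.filter fun x => δ₁ / 2 * N < (((Fn sc x).card + 1 : ℕ) : ℝ)) ∪
        (univ.filter fun z => δ₁ * N < ((univ.filter fun x => ∀ y, ¬ Lab sc x y z).card : ℝ)) := by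
      intro x hx
      rw [Finset.mem_sdiff, Finset.mem_inter, hRg, hCg, Finset.mem_filter, Finset.mem_filter] at hx
      rw [Finset.mem_union, Finset.mem_filter, Finset.mem_filter]
      by_contra hcon
      push Not at hcon
      exact hx.2 ⟨⟨mem_univ _, hcon.1 (mem_univ _)⟩, ⟨mem_univ _, hcon.2 (mem_univ _)⟩⟩
    have h2 := (Finset.card_le_card h1).trans (Finset.card_union_le _ _)
    have h3 : ((univ \ (Rg ∩ Cg)).card : ℝ) ≤
        ((univ.filter fun x => δ₁ / 2 * N < (((Fn sc x).card + 1 : ℕ) : ℝ)).card : ℝ) +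
        ((univ.filter fun z => δ₁ * N < ((univ.filter fun x => ∀ y, ¬ Lab sc x y z).card : ℝ)).card
          : ℝ) := by exact_mod_cast h2
    have h4 : 4 * δ / δ₁ * N + 2 * δ / δ₁ * N ≤ κ * N := by
      have : 4 * δ / δ₁ * N + 2 * δ / δ₁ * N = (6 / 10) * (κ * N) := by
        rw [hδ]; field_simp; ring
      rw [this]
      have : 0 ≤ κ * N := by positivity
      linarith
    linarith
  have hκδ : κ ≤ δ₁ / 8 := hκ1.trans hcx1
  have hlow : LowG sc Rg Cg δ₁ := by
    refine ⟨?_, ?_, ?_, ?_⟩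
    · refine hbig.trans ?_
      have : κ ≤ δ₁ := by linarith
      exact mul_le_mul_of_nonneg_right this hN0.le
    · intro x hx
      rw [hRg, Finset.mem_filter] at hx
      have h1 : ((univ.filter fun y => ∀ z, ¬ Lab sc x y z).card : ℝ) ≤
          (((Fn sc x).card + 1 : ℕ) : ℝ) := by exact_mod_cast row_card sc x
      have h2 : δ₁ / 2 * N ≤ δ₁ * N := by nlinarith
      linarith [hx.2]
    · intro x hx
      rw [hRg, Finset.mem_filter] at hx
      have h1 : ((univ.filter fun z => ∀ y, ¬ Lab sc x y z).card : ℝ) ≤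
          (((Fn sc x).card + 1 : ℕ) : ℝ) := by exact_mod_cast sym_card sc x
      have h2 : δ₁ / 2 * N ≤ δ₁ * N := by nlinarith
      linarith [hx.2]
    · intro z hz
      rw [hCg, Finset.mem_filter] at hz
      exact hz.2
  have hlowL : LowG sc Rg Cg δL := by
    have hle : δ₁ * N ≤ δL * N := mul_le_mul_of_nonneg_right hδ₁L hN0.le
    exact ⟨hlow.big.trans hle, fun x hx => (hlow.row x hx).trans hle,
      fun x hx => (hlow.sym x hx).trans hle, fun x hx => (hlow.col x hx).trans hle⟩
  obtain ⟨hH1, hCO⟩ := hLG V sc Rg Cg hN1 hlowL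
  refine hA V sc (Rg ∩ Cg) hN2 hbig (h1_mono hH1 (by omega)) ?_ ?_ t ht ht2
  · -- covers
    intro w hw
    by_cases hwR : w ∈ Rg
    · exact fam_mono (hCO w hwR) (by omega) hcxc fun _ h => h
    · apply fam_cover (by omega)
      have h1 : δ₁ / 2 * N < (((Fn sc w).card + 1 : ℕ) : ℝ) := by
        by_contra hcon
        apply hwR
        rw [hRg, Finset.mem_filter]
        exact ⟨mem_univ _, not_lt.mp hcon⟩
      have h2 : (Fn sc w).card ≤ (Fn sc w ∩ (Rg ∩ Cg)).card + (univ \ (Rg ∩ Cg)).card := by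
        have h3 : Fn sc w ⊆ (Fn sc w ∩ (Rg ∩ Cg)) ∪ (univ \ (Rg ∩ Cg)) := by
          intro x hx
          rw [Finset.mem_union]
          by_cases h4 : x ∈ Rg ∩ Cg
          · exact Or.inl (Finset.mem_inter.mpr ⟨hx, h4⟩)
          · exact Or.inr (Finset.mem_sdiff.mpr ⟨mem_univ _, h4⟩)
        exact (Finset.card_le_card h3).trans (Finset.card_union_le _ _)
      have h3 : ((Fn sc w).card : ℝ) ≤ ((Fn sc w ∩ (Rg ∩ Cg)).card : ℝ) +
          ((univ \ (Rg ∩ Cg)).card : ℝ) := by exact_mod_cast h2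
      push_cast at h1
      have h4 : κ * N ≤ δ₁ / 8 * N := mul_le_mul_of_nonneg_right hκδ hN0.le
      have h5 : cx * N ≤ δ₁ / 8 * N := mul_le_mul_of_nonneg_right hcx1 hN0.le
      have h6 : 1 ≤ δ₁ / 8 * N := by
        have : δ * N ≤ δ₁ / 8 * N := by
          apply mul_le_mul_of_nonneg_right _ hN0.le
          rw [hδ]
          nlinarith
        linarith
      show cx * N ≤ _
      linarith
  · -- near perfect structures
    intro U Γ hU hUc hΓ hmiss
    have hUN : ((univ \ U).card : ℝ) = N - U.card := by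
      have : (univ \ U).card = Fintype.card V - U.card := by
        rw [Finset.card_sdiff_of_subset (Finset.subset_univ _), Finset.card_univ]
      rw [this, Nat.cast_sub (Finset.card_le_univ U)]
    have hUle : (U.card : ℝ) ≤ N := by rw [hNd]; exact_mod_cast Finset.card_le_univ U
    have hUge : (1 - 1 / 10000) * N ≤ U.card := by
      rw [hUN] at hUc
      linarith
    have hU3 : N3 ≤ U.card := by
      have h1 : (2 * (N3 : ℝ)) ≤ N := by rw [hNd]; exact_mod_cast hN3
      have h2 : (N3 : ℝ) ≤ U.card := by linarith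
      exact_mod_cast h2
    apply nearP_mono (hNP V sc U Γ (1 / 1000) hU3 (by norm_num) (by norm_num) (by linarith)
      (fun z hz => (hΓ z).mp hz) ?_ (Or.inl ?_))
    · apply Nat.floor_mono
      exact mul_le_mul_of_nonneg_left hUle hε'.le
    · intro a ha
      have h1 : ((U.filter fun b => b = a ∨ sc.col a b ∉ Γ).card : ℝ) ≤
        1 + ((univ.filter fun y => y ≠ a ∧ (sc.col a y).1 ≠ (sc.col a y).2 ∧
        sc.col a y ∉ Γ).card : ℝ) + ((univ \ U).card : ℝ) := by exact_mod_cast missing hΓ a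
      have h2 := hmiss a ha
      linarith
    · intro z hz
      have h1 : N ≤ (((U ×ˢ U).filter fun p => p.1 ≠ p.2 ∧
        sc.col p.1 p.2 = (z, z) ∧ sc.col p.1 p.2 ∈ Γ).card : ℝ) + 2 * ((univ \ U).card : ℝ) +
        ((univ.filter fun x => ∀ y, ¬ Lab sc x y z).card : ℝ) := by
        rw [hNd]
        exact_mod_cast case1 hΓ hz
      have h2 := hlow.col z (Finset.mem_inter.mp (hU hz)).2
      have h3 : δ₁ * N ≤ 1 / 100 * N := mul_le_mul_of_nonneg_right hδ₁1 hN0.le
      linarith

end SpF
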