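import Pool.Agent.SpF.Defs

/-!
# Targets for the full range of spiders
-/

namespace SpF
open Spider Finset

variable {V : Type} [Fintype V] [DecidableEq V]

/-! ## 1. weighted nibble -/

/-- weights on a 3-uniform hypergraph with vertex sums at most 1 and codegrees at most `δ` -/
structure Wt (Ω : Type) [DecidableEq Ω] (E : Finset (Finset Ω)) (w : Finset Ω → ℝ) (δ : ℝ) :
    Prop where
  card : ∀ e ∈ E, e.card = 3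
  nonneg : ∀ e ∈ E, 0 ≤ w e
  deg : ∀ x, ∑ e ∈ E.filter (fun e => x ∈ e), w e ≤ 1
  codeg : ∀ x y, x ≠ y → ∑ e ∈ E.filter (fun e => x ∈ e ∧ y ∈ e), w e ≤ δ

/-- one step of the nibble -/
def T_STEP : Prop := ∃ C : ℝ, 0 < C ∧ ∀ (θ δ c : ℝ), 0 < θ → θ ≤ 1 / 10 → 0 < δ → δ ≤ 1 →
  0 ≤ c → c ≤ 1 → ∀ (Ω : Type) [Fintype Ω] [DecidableEq Ω] (E : Finset (Finset Ω))
  (w : Finset Ω → ℝ), Wt Ω E w δ →
  ∃ (M : Finset (Finset Ω)) (E' : Finset (Finset Ω)) (w' : Finset Ω → ℝ), M ⊆ E ∧ E' ⊆ E ∧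
    (M : Set (Finset Ω)).PairwiseDisjoint id ∧ (∀ e ∈ M, ∀ f ∈ E', Disjoint e f) ∧
    Wt Ω E' w' (δ / (1 - θ) ^ 2) ∧
    (θ * (1 - 3 * θ) + c * (1 - θ) - C * Real.sqrt δ) * ∑ e ∈ E, w e
      ≤ (M.card : ℝ) + c * ∑ e ∈ E', w' e

/-- the nibble: a matching with almost as many edges as the total weight -/
def T_NIB : Prop := ∀ ε : ℝ, 0 < ε → ∃ δ : ℝ, 0 < δ ∧ ∀ (Ω : Type) [Fintype Ω] [DecidableEq Ω]
  (E : Finset (Finset Ω)) (w : Finset Ω → ℝ), Wt Ω E w δ →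
  ∃ M ⊆ E, (M : Set (Finset Ω)).PairwiseDisjoint id ∧ (1 - ε) * ∑ e ∈ E, w e ≤ (M.card : ℝ)

/-! ## 2. fractional solutions on nearly complete graphs -/

/-- near-uniform fractional perfect matching of a nearly complete graph -/
def T_FPM : Prop := ∀ (V : Type) [Fintype V] [DecidableEq V] (U : Finset V) (adj : V → V → Prop)
  [∀ a b, Decidable (adj a b)] (η : ℝ),
  (∀ a b, adj a b → adj b a) → (∀ a, ¬ adj a a) → 0 < η → η ≤ 1 / 100 → 10 ≤ η * U.card →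
  (∀ a ∈ U, ((U.filter fun b => ¬ adj a b).card : ℝ) ≤ η * U.card) →
  ∃ x : V → V → ℝ, (∀ a b, x a b = x b a) ∧
    (∀ a b, ¬ (a ∈ U ∧ b ∈ U ∧ adj a b) → x a b = 0) ∧ (∀ a ∈ U, ∑ b ∈ U, x a b = 1) ∧
    (∀ a ∈ U, ∀ b ∈ U, adj a b → (1 - 5 * η) / U.card ≤ x a b ∧ x a b ≤ (1 + 5 * η) / U.card)

/-- small antisymmetric flow with given divergence in a nearly complete graph -/
def T_FLOW : Prop := ∀ (V : Type) [Fintype V] [DecidableEq V] (U : Finset V)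
  (adj : V → V → Prop) [∀ a b, Decidable (adj a b)] (η κ : ℝ) (g : V → ℝ),
  (∀ a b, adj a b → adj b a) → (∀ a, ¬ adj a a) → 0 < η → η ≤ 1 / 100 → 10 ≤ η * U.card →
  (∀ a ∈ U, ((U.filter fun b => ¬ adj a b).card : ℝ) ≤ η * U.card) →
  ∑ a ∈ U, g a = 0 → (∀ a ∈ U, |g a| ≤ κ) →
  ∃ y : V → V → ℝ, (∀ a b, y a b = - y b a) ∧
    (∀ a b, ¬ (a ∈ U ∧ b ∈ U ∧ adj a b) → y a b = 0) ∧ (∀ a ∈ U, ∑ b ∈ U, y a b = g a) ∧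
    (∀ a b, |y a b| ≤ 3 * κ / U.card)

/-- from an exact fractional structure to a near-perfect structure -/
def T_RS : Prop := ∀ ε : ℝ, 0 < ε → ∃ N₀ : ℕ, ∀ (V : Type) [Fintype V] [DecidableEq V]
  (sc : SC V) (U : Finset V) (Γ : Finset (V × V)) (w : V → V → ℝ) (α : V → ℝ),
  N₀ ≤ U.card → (∀ z, (z, z) ∈ Γ → z ∈ U) → (∀ z ∈ U, 1 / 3 ≤ α z ∧ α z ≤ 2 / 3) →
  (∀ b a, 0 ≤ w b a) → (∀ b a, w b a ≤ 4 / U.card) →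
  (∀ b a, w b a ≠ 0 → b ∈ U ∧ a ∈ U ∧ b ≠ a ∧ sc.col b a ∈ Γ) →
  (∀ b ∈ U, ∑ a ∈ U, w b a = α b) → (∀ a ∈ U, ∑ b ∈ U, w b a = 1 - α a) →
  (∀ z ∈ U, ∑ b ∈ U, ∑ a ∈ U, (if sc.col b a = (z, z) then w b a else 0) ≤ α z) →
  (∀ φ : V × V, φ.1 ≠ φ.2 → ∑ b ∈ U, ∑ a ∈ U, (if sc.col b a = φ then w b a else 0) ≤ 1) →
  NearP sc U Γ ⌊ε * U.card⌋₊

/-- near-perfect structures on sets where almost all edges are usable -/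
def T_NP : Prop := ∀ ε : ℝ, 0 < ε → ∃ N₀ : ℕ, ∀ (V : Type) [Fintype V] [DecidableEq V]
  (sc : SC V) (U : Finset V) (Γ : Finset (V × V)) (η : ℝ), N₀ ≤ U.card → 0 < η → η ≤ 1 / 1000 →
  10 ≤ η * U.card → (∀ z, (z, z) ∈ Γ → z ∈ U) →
  (∀ a ∈ U, ((U.filter fun b => b = a ∨ sc.col a b ∉ Γ).card : ℝ) ≤ η * U.card) →
  ((∀ z ∈ U, 49 / 50 * (U.card : ℝ) ≤ (((U ×ˢ U).filter fun p => p.1 ≠ p.2 ∧
      sc.col p.1 p.2 = (z, z) ∧ sc.col p.1 p.2 ∈ Γ).card : ℝ)) ∨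
    1000 * η * (U.card : ℝ) ^ 2 ≤ (((U ×ˢ U).filter fun p => p.1 ≠ p.2 ∧
      (sc.col p.1 p.2).1 ≠ (sc.col p.1 p.2).2 ∧ sc.col p.1 p.2 ∈ Γ).card : ℝ)) →
  NearP sc U Γ ⌊ε * U.card⌋₊

/-! ## 3. template, random reserve, greedy choice -/

/-- template -/
def T_TEMPL : Prop := ∃ D : ℕ, ∀ r m : ℕ, 1 ≤ r → m ≤ r →
  ∃ E : Finset (Fin (3 * r + m) × (Fin (3 * r) ⊕ Fin r)), E.card ≤ D * r ∧
    ∀ Z : Finset (Fin r), Z.card = m → ∃ f : Fin (3 * r + m) → Fin (3 * r) ⊕ Fin r,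
      Function.Injective f ∧ (∀ i, (i, f i) ∈ E) ∧ (∀ i z, f i = Sum.inr z → z ∈ Z)

/-- random reserve -/
def T_RAND : Prop := ∀ (K : ℕ) (ρ τ : ℝ), 0 < ρ → ρ < 1 → 0 < τ → ∃ N₀ : ℕ,
  ∀ (I : Type) [Fintype I] [DecidableEq I] (N : ℕ), N₀ ≤ N → ∀ (J : Type) [Fintype J],
  Fintype.card J ≤ N ^ 4 → ∀ (k : J → ℕ) (𝒢 : J → Finset (Finset I)), (∀ j, k j ≤ K) →
  (∀ j, (𝒢 j : Set (Finset I)).PairwiseDisjoint id) → (∀ j, ∀ G ∈ 𝒢 j, G.card ≤ k j) →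
  (∀ j, (𝒢 j).card ≤ N) →
  ∃ Ω : Finset I, ∀ j,
    ρ ^ k j * (𝒢 j).card - τ * N ≤ (((𝒢 j).filter fun G => G ⊆ Ω).card : ℝ) ∧
    (1 - ρ) ^ k j * (𝒢 j).card - τ * N ≤ (((𝒢 j).filter fun G => Disjoint G Ω).card : ℝ)

/-- greedy choice of disjoint representatives -/
def T_GREEDY : Prop := ∀ (I J : Type) [DecidableEq I] (A : Finset J)
  (𝒢 : J → Finset (Finset I)) (Y : Finset I) (K : ℕ),
  (∀ j ∈ A, (𝒢 j : Set (Finset I)).PairwiseDisjoint id) → (∀ j ∈ A, ∀ G ∈ 𝒢 j, G.card ≤ K) →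
  (∀ j ∈ A, Y.card + K * A.card < (𝒢 j).card) →
  ∃ g : J → Finset I, (∀ j ∈ A, g j ∈ 𝒢 j ∧ Disjoint (g j) Y) ∧
    ∀ i ∈ A, ∀ j ∈ A, i ≠ j → Disjoint (g i) (g j)

/-! ## 4. configurations in the low regime -/

/-- a certified configuration has many disjoint copies in the low regime -/
def T_SYS : Prop := ∀ (e : ℕ) (st : List Step) (Ds : List (ℕ × List ℕ))
  (Cs : List (List (ℕ × List ℕ))) (Fs : List (ℕ × List ℕ)), chk e st Ds Cs Fs = true →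
  0 < nfree st → ∃ (δ c : ℝ) (N₀ : ℕ), 0 < δ ∧ 0 < c ∧
  ∀ (V : Type) [Fintype V] [DecidableEq V] (sc : SC V) (Rg Cg : Finset V),
  N₀ ≤ Fintype.card V → LowG sc Rg Cg δ → ∀ τ : ℕ → V,
  (∀ i < e, usesRow i st → τ i ∈ Rg) → (∀ i < e, usesCol i st → τ i ∈ Cg) →
  (∀ i < e, ∀ j < e, τ i = τ j → i = j) →
  ∃ 𝒢 : Finset (Finset V), (𝒢 : Set (Finset V)).PairwiseDisjoint id ∧
    c * Fintype.card V ≤ 𝒢.card ∧ ∀ G ∈ 𝒢, ∃ σ : ℕ → V, Sat sc e st σ ∧ (∀ i < e, σ i = τ i) ∧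
      (∀ i, e ≤ i → i < e + st.length → σ i ∈ Rg ∩ Cg) ∧
      (∀ i < e + st.length, ∀ j < e + st.length, σ i = σ j → i = j) ∧
      G = (Finset.Ico e (e + st.length)).image σ

/-! ## 5. assembly -/

/-- disjoint union of tileable sets -/
def T_UNION : Prop := ∀ (V : Type) [Fintype V] [DecidableEq V] (sc : SC V) (J : Type)
  [DecidableEq J] (A : Finset J) (G : J → Finset (V × V)), (∀ j ∈ A, Tileable sc (G j)) →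
  (∀ i ∈ A, ∀ j ∈ A, i ≠ j → Disjoint (G i) (G j)) → Tileable sc (A.biUnion G)

/-- a tileable set with `2t` vertices gives a spider with `t` legs -/
def T_DONE : Prop := ∀ (V : Type) [Fintype V] [DecidableEq V] (sc : SC V) (G : Finset (V × V))
  (t : ℕ), Tileable sc G → (vs G).card = 2 * t → Done sc t

/-- closing the uncovered ends of a structure -/
def T_CLOSE : Prop := ∀ (V : Type) [Fintype V] [DecidableEq V] (sc : SC V) (S : Finset V)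
  (M : Finset (V × V)) (O : Finset V) (s : V → V) (G : V → Finset (V × V)),
  PS sc S M → O ⊆ unc S M → (∀ p ∈ M, ∀ z, sc.col p.1 p.2 = (z, z) → z ∈ O ∨ z ∉ unc S M) →
  (∀ e ∈ O, s e ∈ S ∧ s e ∉ unc S M ∧ ∀ p ∈ M, sc.col p.1 p.2 ≠ (s e, s e)) →
  (∀ e ∈ O, ∀ e' ∈ O, s e = s e' → e = e') → (∀ e ∈ O, CL sc e (s e) (G e)) →
  (∀ e ∈ O, ∀ e' ∈ O, e ≠ e' → Disjoint (G e) (G e')) →
  (∀ e ∈ O, Disjoint (G e) (dg S ∪ dg (M.image Prod.snd) ∪ M.image fun p => sc.col p.1 p.2)) →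
  Tileable sc (dg (M.image Prod.fst) ∪ dg (M.image Prod.snd) ∪ dg O ∪
    (M.image fun p => sc.col p.1 p.2) ∪ O.biUnion G)

/-- the absorber -/
def T_ABS : Prop := ∃ D : ℕ, 0 < D ∧ ∀ (V : Type) [Fintype V] [DecidableEq V] (sc : SC V)
  (Good R : Finset V) (Y : Finset (V × V)) (K m : ℕ) (𝒢 : V → V → Finset (Finset (V × V))),
  R ⊆ Good → R.Nonempty → m ≤ R.card →
  (∀ x ∈ Good, ∀ y ∈ Good, x ≠ y → (𝒢 x y : Set (Finset (V × V))).PairwiseDisjoint id ∧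
    (∀ G ∈ 𝒢 x y, G.card ≤ K ∧ PA sc x y G ∧ vs G ⊆ Good) ∧
    Y.card + D * (K + 1) * R.card < (𝒢 x y).card) →
  Y.card + D * (K + 1) * R.card ≤ Good.card →
  ∃ A : Finset (V × V), Disjoint A (Y ∪ dg R) ∧ A.card ≤ D * (K + 1) * R.card ∧ vs A ⊆ Good ∧
    (∀ i ∈ A, i.1 ≠ i.2 → ∃ x ∈ Good, ∃ y ∈ Good, x ≠ y ∧ ∃ G ∈ 𝒢 x y, i ∈ G) ∧
    ∀ R' ⊆ R, R'.card = m → Tileable sc (A ∪ dg R')

/-- the assembly -/
def T_ASM : Prop := ∀ (K : ℕ) (c cx κ η : ℝ), 0 < c → 0 < cx → cx ≤ 1 → cx ≤ c → 0 ≤ κ → 0 < η →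
  η ≤ 1 →
  100 * (K + 1) * κ ≤ cx → 100 * (K + 1) * κ ≤ η →
  ∃ (ε ε' : ℝ) (N₀ : ℕ), 0 < ε ∧ 0 < ε' ∧ ∀ (V : Type) [Fintype V] [DecidableEq V] (sc : SC V)
  (Good : Finset V), N₀ ≤ Fintype.card V → ((univ \ Good).card : ℝ) ≤ κ * Fintype.card V →
  H1 sc Good K c → H2 sc Good K cx → H3 sc Good η ε' →
  ∀ t : ℕ, (1 / 2 - ε) * Fintype.card V ≤ t → 2 * t ≤ Fintype.card V → Done sc t

/-! ## 6. high regime -/

/-- `x` has at least `m` free edges -/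
noncomputable def Rich (sc : SC V) (m : ℝ) : Finset V :=
  univ.filter fun x => m ≤ ((univ.filter fun y => y ≠ x ∧ (sc.col x y).1 ≠ (sc.col x y).2).card : ℝ)

/-- switcher from `x` to a vertex `z` of `Ri` -/
def SW (sc : SC V) (Ri : Finset V) (x : V) (G : Finset (V × V)) : Prop :=
  x ∉ vs G ∧ ∃ (z : V) (T : Finset (V × V)), z ∈ Ri ∧ G = insert (z, z) T ∧ (z, z) ∉ T ∧
    Tileable sc (insert (x, x) T) ∧ Tileable sc (insert (z, z) T)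

/-- pair absorbers for rich vertices -/
def T_HPR : Prop := ∀ δ : ℝ, 0 < δ → δ ≤ 1 → ∃ (K : ℕ) (c : ℝ) (N₀ : ℕ), 0 < c ∧
  ∀ (V : Type) [Fintype V] [DecidableEq V] (sc : SC V), N₀ ≤ Fintype.card V →
  δ / 2 * Fintype.card V ≤ ((Rich sc (δ / 2 * Fintype.card V)).card : ℝ) →
  ∀ x ∈ Rich sc (δ ^ 2 / 100 * Fintype.card V), ∀ y ∈ Rich sc (δ ^ 2 / 100 * Fintype.card V),
  x ≠ y → Fam K c (PA sc x y)

/-- switchers for poor vertices -/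
def T_HSW : Prop := ∀ δ : ℝ, 0 < δ → δ ≤ 1 → ∃ (K : ℕ) (c : ℝ) (N₀ : ℕ), 0 < c ∧
  ∀ (V : Type) [Fintype V] [DecidableEq V] (sc : SC V), N₀ ≤ Fintype.card V →
  δ / 2 * Fintype.card V ≤ ((Rich sc (δ / 2 * Fintype.card V)).card : ℝ) →
  ∀ x, x ∉ Rich sc (δ ^ 2 / 100 * Fintype.card V) →
  Fam K c (SW sc (Rich sc (δ ^ 2 / 100 * Fintype.card V)) x)

/-- pair absorbers for all pairs -/
def T_HPA : Prop := ∀ δ : ℝ, 0 < δ → δ ≤ 1 → ∃ (K : ℕ) (c : ℝ) (N₀ : ℕ), 0 < c ∧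
  ∀ (V : Type) [Fintype V] [DecidableEq V] (sc : SC V), N₀ ≤ Fintype.card V →
  δ / 2 * Fintype.card V ≤ ((Rich sc (δ / 2 * Fintype.card V)).card : ℝ) →
  ∀ x y, x ≠ y → Fam K c (PA sc x y)

/-- covers and closings -/
def T_HCO : Prop := ∀ δ : ℝ, 0 < δ → δ ≤ 1 → ∃ (K : ℕ) (c : ℝ) (N₀ : ℕ), 0 < c ∧
  ∀ (V : Type) [Fintype V] [DecidableEq V] (sc : SC V), N₀ ≤ Fintype.card V →
  δ / 2 * Fintype.card V ≤ ((Rich sc (δ / 2 * Fintype.card V)).card : ℝ) →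
  (∀ w, Fam K c (CO sc w)) ∧ ∀ e s, e ≠ s → Fam K c (CL sc e s)

/-- small tileable sets -/
def T_HTL : Prop := ∀ δ : ℝ, 0 < δ → δ ≤ 1 → ∃ (K : ℕ) (c : ℝ) (N₀ : ℕ), 0 < c ∧
  ∀ (V : Type) [Fintype V] [DecidableEq V] (sc : SC V), N₀ ≤ Fintype.card V →
  δ / 2 * Fintype.card V ≤ ((Rich sc (δ / 2 * Fintype.card V)).card : ℝ) →
  (Fam K c fun G => Tileable sc G ∧ (vs G).card = 6) ∧
  (Fam K c fun G => Tileable sc G ∧ (vs G).card = 8)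

/-- gadgets in the high regime -/
def T_HG : Prop := ∀ δ : ℝ, 0 < δ → ∃ (K : ℕ) (c : ℝ) (N₀ : ℕ), 0 < c ∧ ∀ (V : Type) [Fintype V]
  [DecidableEq V] (sc : SC V), N₀ ≤ Fintype.card V →
  δ * (Fintype.card V : ℝ) ^ 2 ≤ ((univ.filter fun p : V × V => p.1 ≠ p.2 ∧
    (sc.col p.1 p.2).1 ≠ (sc.col p.1 p.2).2).card : ℝ) → H1 sc univ K c

/-- high regime -/
def T_HIGH : Prop := ∀ δ : ℝ, 0 < δ → ∃ (ε : ℝ) (N₀ : ℕ), 0 < ε ∧ ∀ (V : Type) [Fintype V]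
  [DecidableEq V] (sc : SC V), N₀ ≤ Fintype.card V →
  δ * (Fintype.card V : ℝ) ^ 2 ≤ ((univ.filter fun p : V × V => p.1 ≠ p.2 ∧
    (sc.col p.1 p.2).1 ≠ (sc.col p.1 p.2).2).card : ℝ) →
  ∀ t : ℕ, (1 / 2 - ε) * Fintype.card V ≤ t → 2 * t ≤ Fintype.card V → Done sc t

/-! ## 7. low regime -/

/-- gadgets in the low regime -/
def T_LG : Prop := ∃ (K : ℕ) (δ c : ℝ) (N₀ : ℕ), 0 < δ ∧ 0 < c ∧ ∀ (V : Type) [Fintype V]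
  [DecidableEq V] (sc : SC V) (Rg Cg : Finset V), N₀ ≤ Fintype.card V → LowG sc Rg Cg δ →
  H1 sc (Rg ∩ Cg) K c ∧ ∀ w ∈ Rg, Fam K c fun G => CO sc w G ∧ vs G ⊆ Rg ∩ Cg

/-- low regime -/
def T_LOW : Prop := ∃ (δ ε : ℝ) (N₀ : ℕ), 0 < δ ∧ 0 < ε ∧ ∀ (V : Type) [Fintype V]
  [DecidableEq V] (sc : SC V), N₀ ≤ Fintype.card V →
  ((univ.filter fun p : V × V => p.1 ≠ p.2 ∧
    (sc.col p.1 p.2).1 ≠ (sc.col p.1 p.2).2).card : ℝ) ≤ δ * (Fintype.card V : ℝ) ^ 2 →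
  ∀ t : ℕ, (1 / 2 - ε) * Fintype.card V ≤ t → 2 * t ≤ Fintype.card V → Done sc t

/-- the full range -/
def T_FULL : Prop := ∃ n₀ : ℕ, ∀ n t : ℕ, n₀ ≤ n → 3 ≤ t → 2 * t + 1 ≤ n → Good n t

end SpF
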