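import Mathlib
import Pool.Agent.SpF.Targets

/-!
# NIB: iterating the nibble step
-/

set_option autoImplicit false

namespace SpF
open Spider Finset

namespace NIB_

/-- the claim after `T` steps -/
theorem iter {C θ σ : ℝ} (hC : 0 < C) (hθ : 0 < θ) (hθ1 : θ ≤ 1 / 10) (hσ : 0 ≤ σ) (hσ1 : σ ≤ 1)
    (hS : ∀ (δ c : ℝ), 0 < δ → δ ≤ 1 → 0 ≤ c → c ≤ 1 → ∀ (Ω : Type) [Fintype Ω] [DecidableEq Ω]
      (E : Finset (Finset Ω)) (w : Finset Ω → ℝ), Wt Ω E w δ →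
      ∃ (M : Finset (Finset Ω)) (E' : Finset (Finset Ω)) (w' : Finset Ω → ℝ), M ⊆ E ∧ E' ⊆ E ∧
        (M : Set (Finset Ω)).PairwiseDisjoint id ∧ (∀ e ∈ M, ∀ f ∈ E', Disjoint e f) ∧
        Wt Ω E' w' (δ / (1 - θ) ^ 2) ∧
        (θ * (1 - 3 * θ) + c * (1 - θ) - C * Real.sqrt δ) * ∑ e ∈ E, w e
          ≤ (M.card : ℝ) + c * ∑ e ∈ E', w' e) (T : ℕ) :
    ∀ δ : ℝ, 0 < δ → δ ≤ σ ^ 2 * (1 - θ) ^ (2 * T) → ∀ (Ω : Type) [Fintype Ω] [DecidableEq Ω]
      (E : Finset (Finset Ω)) (w : Finset Ω → ℝ), Wt Ω E w δ →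
      ∃ M ⊆ E, (M : Set (Finset Ω)).PairwiseDisjoint id ∧
        ((1 - 3 * θ) * (1 - (1 - θ) ^ T) - T * (C * σ)) * ∑ e ∈ E, w e ≤ (M.card : ℝ) := by
  have hq0 : 0 < 1 - θ := by linarith
  have hq1 : 1 - θ ≤ 1 := by linarith
  induction T with
  | zero =>
    intro δ hδ _ Ω _ _ E w hW
    exact ⟨∅, empty_subset _, by simp, by simp⟩
  | succ T ih =>
    intro δ hδ hδ1 Ω _ _ E w hW
    have hWn : 0 ≤ ∑ e ∈ E, w e := sum_nonneg hW.nonneg
    have hδσ : δ ≤ σ ^ 2 := hδ1.trans (mul_le_of_le_one_right (sq_nonneg _)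
      (pow_le_one₀ hq0.le hq1))
    have hδ2 : δ ≤ 1 := hδσ.trans (pow_le_one₀ hσ hσ1)
    have hsq : Real.sqrt δ ≤ σ := by
      rw [Real.sqrt_le_left hσ]
      exact hδσ
    have hqT : (1 - θ) ^ T ≤ 1 := pow_le_one₀ hq0.le hq1
    have hqT0 : 0 < (1 - θ) ^ T := pow_pos hq0 T
    set a : ℝ := (1 - 3 * θ) * (1 - (1 - θ) ^ T) - T * (C * σ) with ha
    have ha1 : a ≤ 1 := by
      have h1 : (1 - 3 * θ) * (1 - (1 - θ) ^ T) ≤ 1 * 1 :=
        mul_le_mul (by linarith) (by linarith) (by linarith) (by norm_num)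
      have h2 : 0 ≤ (T : ℝ) * (C * σ) := by positivity
      linarith
    obtain ⟨M, E', w', hME, hE', hMd, hdis, hW', hle⟩ := hS δ (max a 0) hδ hδ2 (le_max_right _ _)
      (max_le ha1 zero_le_one) Ω E w hW
    have hδ' : δ / (1 - θ) ^ 2 ≤ σ ^ 2 * (1 - θ) ^ (2 * T) := by
      rw [div_le_iff₀ (by positivity)]
      calc δ ≤ σ ^ 2 * (1 - θ) ^ (2 * (T + 1)) := hδ1
        _ = σ ^ 2 * (1 - θ) ^ (2 * T) * (1 - θ) ^ 2 := by rw [mul_add, pow_add]; ring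
    have hW'n : 0 ≤ ∑ e ∈ E', w' e := sum_nonneg hW'.nonneg
    obtain ⟨M', hM'E, hM'd, hM'⟩ : ∃ M' ⊆ E', (M' : Set (Finset Ω)).PairwiseDisjoint id ∧
        max a 0 * ∑ e ∈ E', w' e ≤ (M'.card : ℝ) := by
      rcases le_total a 0 with h0 | h0
      · exact ⟨∅, empty_subset _, by simp, by rw [max_eq_right h0]; simp⟩
      · obtain ⟨M', h1, h2, h3⟩ := ih (δ / (1 - θ) ^ 2) (by positivity) hδ' Ω E' w' hW'
        exact ⟨M', h1, h2, by rw [max_eq_left h0]; exact h3⟩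
    have hMM : Disjoint M M' := by
      rw [Finset.disjoint_left]
      intro e he he'
      have h1 := hdis e he e (hM'E he')
      rw [disjoint_self, Finset.bot_eq_empty] at h1
      have h2 := hW.card e (hME he)
      rw [h1] at h2
      simp at h2
    refine ⟨M ∪ M', union_subset hME (hM'E.trans hE'), ?_, ?_⟩
    · rw [Finset.coe_union, Set.pairwiseDisjoint_union]
      exact ⟨hMd, hM'd, fun e he f hf _ => hdis e he f (hM'E hf)⟩
    · rw [card_union_of_disjoint hMM]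
      push_cast
      have h1 : (1 - 3 * θ) * (1 - (1 - θ) ^ (T + 1)) - ((T : ℝ) + 1) * (C * σ) ≤
          θ * (1 - 3 * θ) + max a 0 * (1 - θ) - C * Real.sqrt δ := by
        have h2 : a * (1 - θ) ≤ max a 0 * (1 - θ) :=
          mul_le_mul_of_nonneg_right (le_max_left _ _) hq0.le
        have h3 : C * Real.sqrt δ ≤ C * σ := mul_le_mul_of_nonneg_left hsq hC.le
        have h4 : 0 ≤ (T : ℝ) * (C * σ) * θ := by positivity
        have h5 : (1 - 3 * θ) * (1 - (1 - θ) ^ (T + 1)) =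
            θ * (1 - 3 * θ) + (1 - 3 * θ) * (1 - (1 - θ) ^ T) * (1 - θ) := by
          rw [pow_succ]; ring
        have h6 : a * (1 - θ) = (1 - 3 * θ) * (1 - (1 - θ) ^ T) * (1 - θ) -
            (T : ℝ) * (C * σ) + (T : ℝ) * (C * σ) * θ := by
          rw [ha]; ring
        linarith
      have h2 := mul_le_mul_of_nonneg_right h1 hWn
      linarith

end NIB_

open NIB_ in
theorem p_NIB (h : T_STEP) : T_NIB := by
  obtain ⟨C, hC, hS⟩ := h
  intro ε hε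
  -- reduction to small `ε`
  set ε' : ℝ := min ε (1 / 2) with hε'
  have he0 : 0 < ε' := lt_min hε (by norm_num)
  have he1 : ε' ≤ 1 / 2 := min_le_right _ _
  have he2 : ε' ≤ ε := min_le_left _ _
  set θ : ℝ := ε' / 9 with hθ
  have hθ0 : 0 < θ := by positivity
  have hθ1 : θ ≤ 1 / 10 := by rw [hθ]; linarith
  obtain ⟨T, hT⟩ := exists_pow_lt_of_lt_one (show 0 < ε' / 3 by positivity)
    (show 1 - θ < 1 by linarith)
  set σ : ℝ := min 1 (ε' / (3 * (T * C + 1))) with hσ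
  have hTC : 0 ≤ (T : ℝ) * C := by positivity
  have hσ0 : 0 < σ := lt_min one_pos (by positivity)
  have hσ1 : σ ≤ 1 := min_le_left _ _
  have hσ2 : (T : ℝ) * (C * σ) ≤ ε' / 3 := by
    have h1 : σ ≤ ε' / (3 * (T * C + 1)) := min_le_right _ _
    rw [le_div_iff₀ (by positivity)] at h1
    nlinarith [mul_nonneg hTC hσ0.le]
  have hq0 : 0 < 1 - θ := by linarith
  refine ⟨σ ^ 2 * (1 - θ) ^ (2 * T), by positivity, ?_⟩
  intro Ω _ _ E w hW
  obtain ⟨M, hM, hMd, hle⟩ := iter hC hθ0 hθ1 hσ0.le hσ1 (fun δ c h1 h2 h3 h4 => hS θ δ c hθ0 hθ1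
    h1 h2 h3 h4) T _ (by positivity) le_rfl Ω E w hW
  refine ⟨M, hM, hMd, le_trans ?_ hle⟩
  refine mul_le_mul_of_nonneg_right ?_ (sum_nonneg hW.nonneg)
  have h1 : (1 - 3 * θ) * (1 - ε' / 3) ≤ (1 - 3 * θ) * (1 - (1 - θ) ^ T) :=
    mul_le_mul_of_nonneg_left (by linarith) (by linarith)
  have h2 : (1 - 3 * θ) * (1 - ε' / 3) = 1 - 2 * ε' / 3 + ε' ^ 2 / 9 := by
    rw [hθ]; ring
  nlinarith [sq_nonneg ε']

end SpF
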