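import Pool.Agent.SpF.Targets

/-!
# Explicit weights for nearly complete graphs

The theorem `p_NP`: from a near-uniform fractional perfect matching and a small flow one gets the
weights needed for the nibble.
-/

namespace SpF
open Spider Finset

namespace NP_

section

variable {V : Type} [Fintype V] [DecidableEq V]

/-- usable edges -/
def adj (sc : SC V) (Γ : Finset (V × V)) (a b : V) : Prop := a ≠ b ∧ sc.col a b ∈ Γ

instance (sc : SC V) (Γ : Finset (V × V)) (a b : V) : Decidable (adj sc Γ a b) := by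
  unfold adj; infer_instance

omit [Fintype V] in
/-- in each row a colour is used at most once -/
lemma row_le (sc : SC V) (Γ : Finset (V × V)) (U : Finset V) (x : V → V → ℝ) (m : ℝ) (hm : 0 ≤ m)
    (h0 : ∀ a b, ¬ (a ∈ U ∧ b ∈ U ∧ adj sc Γ a b) → x a b = 0)
    (h1 : ∀ a ∈ U, ∀ b ∈ U, adj sc Γ a b → x a b ≤ m) (φ : V × V) (b : V) (hb : b ∈ U) :
    ∑ a ∈ U, (if sc.col b a = φ then x b a else 0) ≤ m := by
  by_cases h : ∃ a ∈ U, adj sc Γ b a ∧ sc.col b a = φ
  · obtain ⟨a, ha, hadj, hcol⟩ := h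
    rw [Finset.sum_eq_single a]
    · rw [if_pos hcol]
      exact h1 b hb a ha hadj
    · intro a' ha' hne
      split_ifs with hc
      · apply h0
        rintro ⟨_, _, hadj'⟩
        exact sc.proper b a a' hadj.1 hadj'.1 (Ne.symm hne) (hcol.trans hc.symm)
      · rfl
    · intro h
      exact absurd ha h
  · push Not at h
    have : ∑ a ∈ U, (if sc.col b a = φ then x b a else 0) = 0 := by
      apply Finset.sum_eq_zero
      intro a ha
      split_ifs with hc
      · apply h0
        rintro ⟨_, _, hadj⟩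
        exact h a ha hadj hc
      · rfl
    rw [this]
    exact hm

omit [Fintype V] in
lemma use_le (sc : SC V) (Γ : Finset (V × V)) (U : Finset V) (x : V → V → ℝ) (m : ℝ) (hm : 0 ≤ m)
    (h0 : ∀ a b, ¬ (a ∈ U ∧ b ∈ U ∧ adj sc Γ a b) → x a b = 0)
    (h1 : ∀ a ∈ U, ∀ b ∈ U, adj sc Γ a b → x a b ≤ m) (φ : V × V) :
    ∑ b ∈ U, ∑ a ∈ U, (if sc.col b a = φ then x b a else 0) ≤ U.card * m := by
  have := Finset.sum_le_sum (fun b hb => row_le sc Γ U x m hm h0 h1 φ b hb)
  refine this.trans ?_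
  rw [Finset.sum_const, nsmul_eq_mul]

omit [Fintype V] in
/-- antisymmetric weights do not contribute to a colour -/
lemma anti_zero (sc : SC V) (U : Finset V) (y : V → V → ℝ) (hy : ∀ a b, y a b = - y b a)
    (φ : V × V) : ∑ b ∈ U, ∑ a ∈ U, (if sc.col b a = φ then y b a else 0) = 0 := by
  have h1 : ∑ b ∈ U, ∑ a ∈ U, (if sc.col b a = φ then y b a else 0) =
      - ∑ b ∈ U, ∑ a ∈ U, (if sc.col b a = φ then y b a else 0) := by
    conv_lhs => rw [Finset.sum_comm]
    rw [← Finset.sum_neg_distrib]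
    refine Finset.sum_congr rfl (fun b _ => ?_)
    rw [← Finset.sum_neg_distrib]
    refine Finset.sum_congr rfl (fun a _ => ?_)
    rw [sc.symm a b, hy a b]
    split_ifs <;> simp
  linarith

omit [Fintype V] in
lemma lower (sc : SC V) (Γ : Finset (V × V)) (U : Finset V) (x : V → V → ℝ) (m : ℝ)
    (hx0 : ∀ a b, 0 ≤ x a b)
    (h1 : ∀ a ∈ U, ∀ b ∈ U, adj sc Γ a b → m ≤ x a b) (φ : V × V → Prop) [DecidablePred φ] :
    m * (((U ×ˢ U).filter fun p => p.1 ≠ p.2 ∧ φ (sc.col p.1 p.2) ∧ sc.col p.1 p.2 ∈ Γ).card : ℝ)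
      ≤ ∑ b ∈ U, ∑ a ∈ U, (if φ (sc.col b a) then x b a else 0) := by
  rw [← Finset.sum_product' U U (fun b a => if φ (sc.col b a) then x b a else 0)]
  have h2 : ∑ p ∈ (U ×ˢ U).filter (fun p => p.1 ≠ p.2 ∧ φ (sc.col p.1 p.2) ∧
      sc.col p.1 p.2 ∈ Γ), m ≤ ∑ p ∈ (U ×ˢ U).filter (fun p => p.1 ≠ p.2 ∧ φ (sc.col p.1 p.2) ∧
      sc.col p.1 p.2 ∈ Γ), (if φ (sc.col p.1 p.2) then x p.1 p.2 else 0) := by
    refine Finset.sum_le_sum (fun p hp => ?_)
    rw [Finset.mem_filter, Finset.mem_product] at hp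
    obtain ⟨⟨hp1, hp2⟩, hne, hφ, hΓ⟩ := hp
    rw [if_pos hφ]
    exact h1 _ hp1 _ hp2 ⟨hne, hΓ⟩
  rw [Finset.sum_const, nsmul_eq_mul, mul_comm] at h2
  refine h2.trans ?_
  refine Finset.sum_le_sum_of_subset_of_nonneg (Finset.filter_subset _ _) (fun p _ _ => ?_)
  split_ifs
  · exact hx0 _ _
  · exact le_rfl

omit [Fintype V] in
/-- the star colours and the free colours together -/
lemma total (sc : SC V) (Γ : Finset (V × V)) (U : Finset V) (x : V → V → ℝ)
    (hΓ : ∀ z, (z, z) ∈ Γ → z ∈ U)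
    (h0 : ∀ a b, ¬ (a ∈ U ∧ b ∈ U ∧ adj sc Γ a b) → x a b = 0) :
    ∑ z ∈ U, ∑ b ∈ U, ∑ a ∈ U, (if sc.col b a = (z, z) then x b a else 0) =
      ∑ b ∈ U, ∑ a ∈ U, x b a -
        ∑ b ∈ U, ∑ a ∈ U, (if (sc.col b a).1 ≠ (sc.col b a).2 then x b a else 0) := by
  rw [Finset.sum_comm]
  rw [← Finset.sum_sub_distrib]
  refine Finset.sum_congr rfl (fun b hb => ?_)
  rw [Finset.sum_comm]
  rw [← Finset.sum_sub_distrib]
  refine Finset.sum_congr rfl (fun a ha => ?_)
  by_cases hadj : adj sc Γ b a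
  · by_cases hd : (sc.col b a).1 = (sc.col b a).2
    · have hz : sc.col b a = ((sc.col b a).1, (sc.col b a).1) := by
        apply Prod.ext
        · rfl
        · exact hd.symm
      have hmem : (sc.col b a).1 ∈ U := by
        apply hΓ
        rw [← hz]
        exact hadj.2
      rw [Finset.sum_eq_single (sc.col b a).1]
      · rw [if_pos hz, if_neg (by simpa using hd), sub_zero]
      · intro z _ hne
        rw [if_neg]
        intro h
        apply hne
        rw [h]
      · intro h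
        exact absurd hmem h
    · rw [if_pos hd, sub_self]
      apply Finset.sum_eq_zero
      intro z _
      rw [if_neg]
      intro h
      apply hd
      rw [h]
  · have hx : x b a = 0 := h0 b a (fun h => hadj h.2.2)
    rw [hx]
    simp

end

/-- balancing the positive and negative parts -/
lemma balance {V : Type} (U : Finset V) (u : V → ℝ) (Xf : ℝ) (hX : 0 ≤ Xf)
    (hsum : ∑ z ∈ U, u z = - Xf) :
    ∃ lam : ℝ, 0 ≤ lam ∧ lam ≤ 1 ∧ lam * Xf ≤ ∑ z ∈ U, max (u z) 0 ∧
      ∑ z ∈ U, (max (u z) 0 - lam * max (- u z) 0) = 0 := by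
  set P := ∑ z ∈ U, max (u z) 0 with hP
  set Q := ∑ z ∈ U, max (- u z) 0 with hQ
  have hP0 : 0 ≤ P := Finset.sum_nonneg (fun z _ => le_max_right _ _)
  have hQ0 : 0 ≤ Q := Finset.sum_nonneg (fun z _ => le_max_right _ _)
  have hPQ : P - Q = - Xf := by
    rw [← hsum, hP, hQ, ← Finset.sum_sub_distrib]
    refine Finset.sum_congr rfl (fun z _ => ?_)
    rcases le_total 0 (u z) with h | h
    · rw [max_eq_left h, max_eq_right (by linarith), sub_zero]
    · rw [max_eq_right h, max_eq_left (by linarith)]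
      ring
  have hsplit : ∀ lam : ℝ, ∑ z ∈ U, (max (u z) 0 - lam * max (- u z) 0) = P - lam * Q := by
    intro lam
    rw [Finset.sum_sub_distrib, ← Finset.mul_sum]
  rcases hQ0.eq_or_lt with h | h
  · refine ⟨0, le_rfl, zero_le_one, by linarith, ?_⟩
    rw [hsplit]
    have : P = 0 := by linarith
    rw [this]
    ring
  · refine ⟨P / Q, div_nonneg hP0 hQ0, ?_, ?_, ?_⟩
    · rw [div_le_one h]
      linarith
    · rw [div_mul_eq_mul_div, div_le_iff₀ h]
      have : Xf ≤ Q := by linarith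
      exact mul_le_mul_of_nonneg_left this hP0
    · rw [hsplit, div_mul_cancel₀ _ h.ne', sub_self]

end NP_

open NP_ in
theorem p_NP (h1 : T_FPM) (h2 : T_FLOW) (h3 : T_RS) : T_NP := by
  intro ε hε
  obtain ⟨N₀, hRS⟩ := h3 ε hε
  refine ⟨N₀, ?_⟩
  intro V _ _ sc U Γ η hN hη hη1 hηU hΓ hdeg hcase
  have hsymm : ∀ a b, adj sc Γ a b → adj sc Γ b a := by
    rintro a b ⟨hne, hc⟩
    exact ⟨hne.symm, by rw [sc.symm]; exact hc⟩
  have hirr : ∀ a, ¬ adj sc Γ a a := fun a h => h.1 rfl
  have hη2 : η ≤ 1 / 100 := by linarith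
  have hdeg' : ∀ a ∈ U, ((U.filter fun b => ¬ adj sc Γ a b).card : ℝ) ≤ η * U.card := by
    intro a ha
    refine le_trans ?_ (hdeg a ha)
    have : (U.filter fun b => ¬ adj sc Γ a b) ⊆ U.filter fun b => b = a ∨ sc.col a b ∉ Γ := by
      intro b hb
      rw [Finset.mem_filter] at hb ⊢
      refine ⟨hb.1, ?_⟩
      by_contra hcon
      push Not at hcon
      exact hb.2 ⟨hcon.1.symm, hcon.2⟩
    exact_mod_cast Finset.card_le_card this
  obtain ⟨x, hxs, hx0, hx1, hxb⟩ := h1 V U (adj sc Γ) η hsymm hirr hη hη2 hηU hdeg'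
  set n : ℝ := (U.card : ℝ) with hn
  have hnpos : 0 < n := by
    by_contra h
    push Not at h
    nlinarith
  have hxnn : ∀ a b, 0 ≤ x a b := by
    intro a b
    by_cases h : a ∈ U ∧ b ∈ U ∧ adj sc Γ a b
    · refine le_trans ?_ (hxb a h.1 b h.2.1 h.2.2).1
      apply div_nonneg _ hnpos.le
      linarith
    · rw [hx0 a b h]
  have hm : 0 ≤ (1 + 5 * η) / n := by positivity
  have hup : ∀ φ, ∑ b ∈ U, ∑ a ∈ U, (if sc.col b a = φ then x b a else 0) ≤ 1 + 5 * η := by
    intro φ
    have h := use_le sc Γ U x ((1 + 5 * η) / n) hm hx0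
      (fun a ha b hb hab => (hxb a ha b hb hab).2) φ
    have e : (U.card : ℝ) * ((1 + 5 * η) / n) = 1 + 5 * η := by
      rw [← hn]
      field_simp
    rw [e] at h
    exact h
  -- usage of the star colours
  set us : V → ℝ := fun z => (1 / 2) *
    ∑ b ∈ U, ∑ a ∈ U, (if sc.col b a = (z, z) then x b a else 0) with hus
  set u : V → ℝ := fun z => us z - 1 / 2 with hu
  set Xf : ℝ := (1 / 2) *
    ∑ b ∈ U, ∑ a ∈ U, (if (sc.col b a).1 ≠ (sc.col b a).2 then x b a else 0) with hXf
  have hXf0 : 0 ≤ Xf := by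
    apply mul_nonneg (by norm_num)
    refine Finset.sum_nonneg (fun b _ => Finset.sum_nonneg (fun a _ => ?_))
    split_ifs
    · exact hxnn _ _
    · exact le_rfl
  have hus0 : ∀ z, 0 ≤ us z := by
    intro z
    apply mul_nonneg (by norm_num)
    refine Finset.sum_nonneg (fun b _ => Finset.sum_nonneg (fun a _ => ?_))
    split_ifs
    · exact hxnn _ _
    · exact le_rfl
  have husle : ∀ z, us z ≤ 1 / 2 + 5 / 2 * η := by
    intro z
    have := hup (z, z)
    simp only [hus]
    linarith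
  have hsumx : ∑ b ∈ U, ∑ a ∈ U, x b a = n := by
    rw [Finset.sum_congr rfl (fun b hb => hx1 b hb), Finset.sum_const, nsmul_eq_mul, mul_one]
  have hsumu : ∑ z ∈ U, u z = - Xf := by
    have ht := total sc Γ U x hΓ hx0
    have e1 : ∑ z ∈ U, u z = (1 / 2) * ∑ z ∈ U, ∑ b ∈ U, ∑ a ∈ U,
        (if sc.col b a = (z, z) then x b a else 0) - n * (1 / 2) := by
      simp only [hu, hus]
      rw [Finset.sum_sub_distrib, ← Finset.mul_sum, Finset.sum_const, nsmul_eq_mul]
    rw [e1, ht, hsumx, hXf]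
    ring
  obtain ⟨lam, hl0, hl1, hlX, hlsum⟩ := balance U u Xf hXf0 hsumu
  set g : V → ℝ := fun z => max (u z) 0 - lam * max (- u z) 0 with hg
  have hgu : ∀ z, u z ≤ g z := by
    intro z
    simp only [hg]
    rcases le_total 0 (u z) with h | h
    · rw [max_eq_left h, max_eq_right (by linarith)]
      linarith
    · rw [max_eq_right h, max_eq_left (by linarith)]
      nlinarith
  have hup' : ∀ z, max (u z) 0 ≤ 5 / 2 * η := by
    intro z
    apply max_le
    · have := husle z
      simp only [hu]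
      linarith
    · positivity
  have hPle : ∑ z ∈ U, max (u z) 0 ≤ n * (5 / 2 * η) := by
    refine (Finset.sum_le_sum (fun z _ => hup' z)).trans ?_
    rw [Finset.sum_const, nsmul_eq_mul]
  have hneg : ∀ z ∈ U, lam * max (- u z) 0 ≤ 1 / 50 := by
    intro z hz
    rcases hcase with hc | hc
    · -- each star colour is used a lot
      have h := lower sc Γ U x ((1 - 5 * η) / n) hxnn
        (fun a ha b hb hab => (hxb a ha b hb hab).1) (fun c => c = (z, z))
      have h4 := hc z hz
      have h5 : (1 - 5 * η) / n * (49 / 50 * n) ≤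
          ∑ b ∈ U, ∑ a ∈ U, (if sc.col b a = (z, z) then x b a else 0) := by
        refine le_trans ?_ h
        apply mul_le_mul_of_nonneg_left h4
        apply div_nonneg _ hnpos.le
        linarith
      have h6 : (1 - 5 * η) / n * (49 / 50 * n) = 49 / 50 * (1 - 5 * η) := by
        field_simp
      rw [h6] at h5
      have h7 : - u z ≤ 1 / 50 := by
        simp only [hu, hus]
        linarith
      have h8 : max (- u z) 0 ≤ 1 / 50 := max_le h7 (by norm_num)
      have h9 : 0 ≤ max (- u z) 0 := le_max_right _ _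
      nlinarith
    · -- many free edges
      have h := lower sc Γ U x ((1 - 5 * η) / n) hxnn
        (fun a ha b hb hab => (hxb a ha b hb hab).1) (fun c => c.1 ≠ c.2)
      have h5 : (1 - 5 * η) / n * (1000 * η * n ^ 2) ≤
          ∑ b ∈ U, ∑ a ∈ U, (if (sc.col b a).1 ≠ (sc.col b a).2 then x b a else 0) := by
        refine le_trans ?_ h
        apply mul_le_mul_of_nonneg_left hc
        apply div_nonneg _ hnpos.le
        linarith
      have h6 : (1 - 5 * η) / n * (1000 * η * n ^ 2) = 1000 * η * n * (1 - 5 * η) := by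
        field_simp
      rw [h6] at h5
      have hηn : 0 < η * n := by positivity
      have h7 : 490 * (η * n) ≤ Xf := by
        rw [hXf]
        nlinarith
      have h8 : lam * (490 * (η * n)) ≤ n * (5 / 2 * η) := by
        refine le_trans ?_ (hlX.trans hPle)
        exact mul_le_mul_of_nonneg_left h7 hl0
      have h9 : lam ≤ 1 / 190 := by
        by_contra hcon
        push Not at hcon
        nlinarith
      have h10 : max (- u z) 0 ≤ 1 / 2 := by
        apply max_le
        · have := hus0 z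
          simp only [hu]
          linarith
        · norm_num
      have h11 : 0 ≤ max (- u z) 0 := le_max_right _ _
      nlinarith
  have hgabs : ∀ z ∈ U, |g z| ≤ 1 / 50 := by
    intro z hz
    have h5 := hneg z hz
    have h6 := hup' z
    have h7 : 0 ≤ max (u z) 0 := le_max_right _ _
    have h8 : 0 ≤ lam * max (- u z) 0 := mul_nonneg hl0 (le_max_right _ _)
    rw [abs_le]
    simp only [hg]
    constructor <;> linarith
  obtain ⟨y, hya, hy0, hy1, hyb⟩ := h2 V U (adj sc Γ) η (1 / 50) g hsymm hirr hη hη2 hηU hdeg'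
    hlsum hgabs
  have hyb' : ∀ a b, |y a b| ≤ 3 / 50 / n := by
    intro a b
    have := hyb a b
    have e : 3 * (1 / 50 : ℝ) / (U.card : ℝ) = 3 / 50 / n := by rw [← hn]; ring
    rw [e] at this
    exact this
  refine hRS V sc U Γ (fun b a => x b a / 2 + y b a) (fun z => 1 / 2 + g z) hN hΓ ?_ ?_ ?_ ?_ ?_
    ?_ ?_ ?_
  · intro z hz
    have := abs_le.1 (hgabs z hz)
    constructor <;> linarith [this.1, this.2]
  · intro b a
    by_cases h : b ∈ U ∧ a ∈ U ∧ adj sc Γ b a
    · have h5 := (hxb b h.1 a h.2.1 h.2.2).1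
      have h6 := (abs_le.1 (hyb' b a)).1
      have h7 : 3 / 50 / n ≤ (1 - 5 * η) / n / 2 := by
        have e : (1 - 5 * η) / n / 2 = ((1 - 5 * η) / 2) / n := by ring
        rw [e]
        apply div_le_div_of_nonneg_right _ hnpos.le
        linarith
      show 0 ≤ x b a / 2 + y b a
      linarith
    · show 0 ≤ x b a / 2 + y b a
      rw [hx0 b a h, hy0 b a h]
      norm_num
  · intro b a
    show x b a / 2 + y b a ≤ 4 / n
    by_cases h : b ∈ U ∧ a ∈ U ∧ adj sc Γ b a
    · have h5 := (hxb b h.1 a h.2.1 h.2.2).2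
      have h6 := (abs_le.1 (hyb' b a)).2
      have h7 : (1 + 5 * η) / n / 2 + 3 / 50 / n ≤ 4 / n := by
        have e : (1 + 5 * η) / n / 2 + 3 / 50 / n = ((1 + 5 * η) / 2 + 3 / 50) / n := by
          field_simp
        rw [e]
        apply div_le_div_of_nonneg_right _ hnpos.le
        linarith
      linarith
    · rw [hx0 b a h, hy0 b a h]
      have h44 : 0 < 4 / n := div_pos four_pos hnpos
      linarith
  · intro b a hne
    by_contra hcon
    have hcon' : ¬ (b ∈ U ∧ a ∈ U ∧ adj sc Γ b a) := by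
      rintro ⟨h5, h6, h7, h8⟩
      exact hcon ⟨h5, h6, h7, h8⟩
    apply hne
    show x b a / 2 + y b a = 0
    rw [hx0 b a hcon', hy0 b a hcon']
    norm_num
  · intro b hb
    show ∑ a ∈ U, (x b a / 2 + y b a) = 1 / 2 + g b
    rw [Finset.sum_add_distrib, ← Finset.sum_div, hx1 b hb, hy1 b hb]
  · intro a ha
    show ∑ b ∈ U, (x b a / 2 + y b a) = 1 - (1 / 2 + g a)
    have e1 : ∑ b ∈ U, x b a = 1 := by
      rw [← hx1 a ha]
      exact Finset.sum_congr rfl (fun b _ => hxs b a)
    have e2 : ∑ b ∈ U, y b a = - g a := by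
      rw [← hy1 a ha, ← Finset.sum_neg_distrib]
      exact Finset.sum_congr rfl (fun b _ => hya b a)
    rw [Finset.sum_add_distrib, ← Finset.sum_div, e1, e2]
    ring
  · intro z hz
    show ∑ b ∈ U, ∑ a ∈ U, (if sc.col b a = (z, z) then x b a / 2 + y b a else 0) ≤ 1 / 2 + g z
    have e : ∑ b ∈ U, ∑ a ∈ U, (if sc.col b a = (z, z) then x b a / 2 + y b a else 0) =
        us z + ∑ b ∈ U, ∑ a ∈ U, (if sc.col b a = (z, z) then y b a else 0) := by
      simp only [hus]
      rw [Finset.mul_sum, ← Finset.sum_add_distrib]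
      refine Finset.sum_congr rfl (fun b _ => ?_)
      rw [Finset.mul_sum, ← Finset.sum_add_distrib]
      refine Finset.sum_congr rfl (fun a _ => ?_)
      split_ifs <;> ring
    rw [e, anti_zero sc U y hya, add_zero]
    have := hgu z
    simp only [hu] at this
    linarith
  · intro φ _
    show ∑ b ∈ U, ∑ a ∈ U, (if sc.col b a = φ then x b a / 2 + y b a else 0) ≤ 1
    have e : ∑ b ∈ U, ∑ a ∈ U, (if sc.col b a = φ then x b a / 2 + y b a else 0) =
        (1 / 2) * (∑ b ∈ U, ∑ a ∈ U, (if sc.col b a = φ then x b a else 0)) +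
        ∑ b ∈ U, ∑ a ∈ U, (if sc.col b a = φ then y b a else 0) := by
      rw [Finset.mul_sum, ← Finset.sum_add_distrib]
      refine Finset.sum_congr rfl (fun b _ => ?_)
      rw [Finset.mul_sum, ← Finset.sum_add_distrib]
      refine Finset.sum_congr rfl (fun a _ => ?_)
      split_ifs <;> ring
    rw [e, anti_zero sc U y hya, add_zero]
    have := hup φ
    linarith

end SpF
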