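import Pool.Agent.SpF.CORE

/-!
# The random choice (`T_OMEGA`)
-/

namespace SpF
open Spider Finset

namespace OMEGA_

/-- a trimmed family -/
lemma trim {V : Type} [Fintype V] [DecidableEq V] {K : ℕ} {c : ℝ} {P : Finset (V × V) → Prop}
    (hc1 : c ≤ 1) (h : Fam K c P) :
    ∃ 𝒢 : Finset (Finset (V × V)), (𝒢 : Set (Finset (V × V))).PairwiseDisjoint id ∧
      (∀ G ∈ 𝒢, G.card ≤ K) ∧ 𝒢.card ≤ Fintype.card V ∧ (∀ G ∈ 𝒢, P G) ∧
      c * Fintype.card V ≤ 𝒢.card := by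
  obtain ⟨𝒢, h1, h2, h3⟩ := h
  have hle : ⌈c * Fintype.card V⌉₊ ≤ 𝒢.card := Nat.ceil_le.2 h3
  obtain ⟨ℋ, hℋ, hcard⟩ := Finset.exists_subset_card_eq hle
  refine ⟨ℋ, h1.subset (Finset.coe_subset.2 hℋ), fun G hG => (h2 G (hℋ hG)).2.1, ?_,
    fun G hG => (h2 G (hℋ hG)).2.2, ?_⟩
  · rw [hcard, Nat.ceil_le]
    exact mul_le_of_le_one_left (Nat.cast_nonneg _) hc1
  · rw [hcard]
    exact Nat.le_ceil _

section single

variable {α I : Type} [DecidableEq I] {A : Finset α} {g : α → I}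

lemma sing_pd (A : Finset α) (g : α → I) :
    ((A.image fun a => ({g a} : Finset I) : Finset (Finset I)) : Set (Finset I)).PairwiseDisjoint
      id := by
  intro G hG H hH hne
  rw [Finset.coe_image] at hG hH
  obtain ⟨a, ha, rfl⟩ := hG
  obtain ⟨b, hb, rfl⟩ := hH
  simp only [Function.onFun, id]
  rw [Finset.disjoint_singleton]
  intro h
  exact hne (by simp only [h])

lemma sing_card_mem {A : Finset α} {g : α → I} {G : Finset I}
    (hG : G ∈ A.image fun a => ({g a} : Finset I)) : G.card ≤ 1 := by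
  obtain ⟨a, ha, rfl⟩ := Finset.mem_image.1 hG
  simp

lemma sing_card (hg : Set.InjOn g A) (p : Finset I → Prop) [DecidablePred p] :
    ((A.image fun a => ({g a} : Finset I)).filter p).card = (A.filter fun a => p {g a}).card := by
  rw [Finset.filter_image]
  refine Finset.card_image_of_injOn ?_
  intro a ha b hb hab
  have ha' := (Finset.mem_filter.1 ha).1
  have hb' := (Finset.mem_filter.1 hb).1
  exact hg ha' hb' (Finset.singleton_injective hab)

lemma sing_card' (hg : Set.InjOn g A) :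
    (A.image fun a => ({g a} : Finset I)).card = A.card := by
  refine Finset.card_image_of_injOn ?_
  intro a ha b hb hab
  exact hg ha hb (Finset.singleton_injective hab)

/-- the number of elements inside `Ω` -/
lemma sing_inside (hg : Set.InjOn g A) (Ω : Finset I) :
    ((A.image fun a => ({g a} : Finset I)).filter fun G => G ⊆ Ω).card =
      (A.filter fun a => g a ∈ Ω).card := by
  rw [sing_card hg]
  simp only [Finset.singleton_subset_iff]

lemma sing_outside (hg : Set.InjOn g A) (Ω : Finset I) :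
    ((A.image fun a => ({g a} : Finset I)).filter fun G => Disjoint G Ω).card +
      (A.filter fun a => g a ∈ Ω).card = A.card := by
  rw [sing_card hg]
  simp only [Finset.disjoint_singleton_left]
  rw [add_comm]
  exact Finset.card_filter_add_card_filter_not (s := A) (fun a => g a ∈ Ω)

end single

end OMEGA_

open OMEGA_ CORE_

theorem p_OMEGA (h : T_RAND) : T_OMEGA := by
  intro K c cx ρ hc hc1 hcx hcx1 hρ hρK
  have hK0 : (0 : ℝ) ≤ K := Nat.cast_nonneg K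
  have hρ1 : ρ < 1 := by nlinarith
  set τ := min (min (c / 4) (cx / 4)) (min (ρ ^ K * c / 2) (ρ / 4)) with hτ
  have hτpos : 0 < τ := by
    rw [hτ]
    exact lt_min (lt_min (by positivity) (by positivity)) (lt_min (by positivity) (by positivity))
  have hτ1 : τ ≤ c / 4 := (min_le_left _ _).trans (min_le_left _ _)
  have hτ2 : τ ≤ cx / 4 := (min_le_left _ _).trans (min_le_right _ _)
  have hτ3 : τ ≤ ρ ^ K * c / 2 := (min_le_right _ _).trans (min_le_left _ _)
  have hτ4 : τ ≤ ρ / 4 := (min_le_right _ _).trans (min_le_right _ _)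
  have hhalf : 1 / 2 ≤ (1 - ρ) ^ K := by
    have h1 := one_add_mul_le_pow (a := -ρ) (by linarith) K
    have h2 : (1 : ℝ) + K * -ρ ≥ 1 / 2 := by nlinarith
    have h3 : (1 : ℝ) + -ρ = 1 - ρ := by ring
    rw [h3] at h1
    linarith
  obtain ⟨N₀, hN₀⟩ := h (K + 1) ρ τ hρ hρ1 hτpos
  refine ⟨ρ ^ K * c / 2, max N₀ 3, by positivity, ?_⟩
  intro V _ _ sc Good hN hGood h1 h2
  have hN0 : N₀ ≤ Fintype.card V := (le_max_left _ _).trans hN
  have hN3 : 3 ≤ Fintype.card V := (le_max_right _ _).trans hN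
  set N := Fintype.card V with hNdef
  -- the families
  have e0 : ∀ z : V × V, ∃ 𝒢 : Finset (Finset (V × V)),
      (𝒢 : Set (Finset (V × V))).PairwiseDisjoint id ∧ (∀ G ∈ 𝒢, G.card ≤ K) ∧ 𝒢.card ≤ N ∧
      (z.1 ∈ Good → z.2 ∈ Good → z.1 ≠ z.2 →
        (∀ G ∈ 𝒢, PA sc z.1 z.2 G ∧ vs G ⊆ Good) ∧ c * N ≤ 𝒢.card) := by
    intro z
    by_cases hz : z.1 ∈ Good ∧ z.2 ∈ Good ∧ z.1 ≠ z.2
    · obtain ⟨𝒢, a1, a2, a3, a4, a5⟩ := trim hc1 (h1.pa z.1 hz.1 z.2 hz.2.1 hz.2.2)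
      exact ⟨𝒢, a1, a2, a3, fun _ _ _ => ⟨a4, a5⟩⟩
    · exact ⟨∅, by simp, by simp, by simp, fun b1 b2 b3 => absurd ⟨b1, b2, b3⟩ hz⟩
  have e1 : ∀ z : V × V, ∃ 𝒢 : Finset (Finset (V × V)),
      (𝒢 : Set (Finset (V × V))).PairwiseDisjoint id ∧ (∀ G ∈ 𝒢, G.card ≤ K) ∧ 𝒢.card ≤ N ∧
      (z.1 ∈ Good → z.2 ∈ Good → z.1 ≠ z.2 →
        (∀ G ∈ 𝒢, CL sc z.1 z.2 G ∧ vs G ⊆ Good) ∧ c * N ≤ 𝒢.card) := by
    intro z
    by_cases hz : z.1 ∈ Good ∧ z.2 ∈ Good ∧ z.1 ≠ z.2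
    · obtain ⟨𝒢, a1, a2, a3, a4, a5⟩ := trim hc1 (h1.cl z.1 hz.1 z.2 hz.2.1 hz.2.2)
      exact ⟨𝒢, a1, a2, a3, fun _ _ _ => ⟨a4, a5⟩⟩
    · exact ⟨∅, by simp, by simp, by simp, fun b1 b2 b3 => absurd ⟨b1, b2, b3⟩ hz⟩
  have e2 : ∀ w : V, ∃ 𝒢 : Finset (Finset (V × V)),
      (𝒢 : Set (Finset (V × V))).PairwiseDisjoint id ∧ (∀ G ∈ 𝒢, G.card ≤ K) ∧ 𝒢.card ≤ N ∧
      (∀ G ∈ 𝒢, CO sc w G ∧ vs G ⊆ Good) ∧ (w ∈ Good → c * N ≤ 𝒢.card) ∧
      (w ∉ Good → cx * N ≤ 𝒢.card) := by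
    intro w
    by_cases hw : w ∈ Good
    · obtain ⟨𝒢, a1, a2, a3, a4, a5⟩ := trim hc1 (h1.co w hw)
      exact ⟨𝒢, a1, a2, a3, a4, fun _ => a5, fun b => absurd hw b⟩
    · obtain ⟨𝒢, a1, a2, a3, a4, a5⟩ := trim hcx1 (h2 w hw)
      exact ⟨𝒢, a1, a2, a3, a4, fun b => absurd b hw, fun _ => a5⟩
  choose f0 p0 k0 n0 s0 using e0
  choose f1 p1 k1 n1 s1 using e1
  choose f2 p2 k2 n2 s2 t2 u2 using e2
  obtain ⟨f3, p3, k3, n3, s3, t3⟩ := trim hc1 h1.t6
  obtain ⟨f4, p4, k4, n4, s4, t4⟩ := trim hc1 h1.t8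
  set Ax : V → Finset V := fun x =>
    univ.filter fun y => y ≠ x ∧ (sc.col x y).1 ≠ (sc.col x y).2 with hAx
  have hAinj : ∀ x, Set.InjOn (fun y => sc.col x y) (Ax x) := by
    intro x y hy z hz hyz
    have hy' := (Finset.mem_filter.1 hy).2.1
    have hz' := (Finset.mem_filter.1 hz).2.1
    by_contra hne
    exact sc.proper x y z hy'.symm hz'.symm hne hyz
  have hGinj : Set.InjOn (fun z : V => (z, z)) (Good : Set V) := by
    intro y _ z _ hyz
    exact (Prod.ext_iff.1 hyz).1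
  let F : (V × V) ⊕ (V × V) ⊕ V ⊕ Unit ⊕ Unit ⊕ V ⊕ Unit → Finset (Finset (V × V)) :=
    Sum.elim f0 (Sum.elim f1 (Sum.elim f2 (Sum.elim (fun _ => f3) (Sum.elim (fun _ => f4)
      (Sum.elim (fun x => (Ax x).image fun y => {sc.col x y})
        (fun _ => Good.image fun z => {(z, z)}))))))
  let kk : (V × V) ⊕ (V × V) ⊕ V ⊕ Unit ⊕ Unit ⊕ V ⊕ Unit → ℕ :=
    Sum.elim (fun _ => K) (Sum.elim (fun _ => K) (Sum.elim (fun _ => K) (Sum.elim (fun _ => K)
      (Sum.elim (fun _ => K) (Sum.elim (fun _ => 1) (fun _ => 1))))))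
  have hJ : Fintype.card ((V × V) ⊕ (V × V) ⊕ V ⊕ Unit ⊕ Unit ⊕ V ⊕ Unit) ≤ N ^ 4 := by
    simp only [Fintype.card_sum, Fintype.card_prod, Fintype.card_unit]
    rw [← hNdef]
    have a1 : 9 ≤ N * N := by nlinarith
    have a2 : N ^ 4 = (N * N) * (N * N) := by ring
    rw [a2]
    nlinarith
  have hF1 : ∀ j, (F j : Set (Finset (V × V))).PairwiseDisjoint id := by
    rintro (j | j | j | j | j | j | j)
    · exact p0 j
    · exact p1 j
    · exact p2 j
    · exact p3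
    · exact p4
    · exact sing_pd _ _
    · exact sing_pd _ _
  have hF2 : ∀ j, ∀ G ∈ F j, G.card ≤ kk j := by
    rintro (j | j | j | j | j | j | j)
    · exact k0 j
    · exact k1 j
    · exact k2 j
    · exact k3
    · exact k4
    · exact fun G hG => sing_card_mem hG
    · exact fun G hG => sing_card_mem hG
  have hF3 : ∀ j, (F j).card ≤ N := by
    rintro (j | j | j | j | j | j | j)
    · exact n0 j
    · exact n1 j
    · exact n2 j
    · exact n3
    · exact n4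
    · exact Finset.card_image_le.trans (Finset.card_le_univ _)
    · exact Finset.card_image_le.trans (Finset.card_le_univ _)
  have hkk : ∀ j, kk j ≤ K + 1 := by
    rintro (j | j | j | j | j | j | j)
    · exact Nat.le_succ K
    · exact Nat.le_succ K
    · exact Nat.le_succ K
    · exact Nat.le_succ K
    · exact Nat.le_succ K
    · exact Nat.le_add_left 1 K
    · exact Nat.le_add_left 1 K
  obtain ⟨Ω, hΩ⟩ := hN₀ (V × V) N hN0 _ hJ kk F hkk hF1 hF2 hF3
  have hn0 : (0 : ℝ) ≤ N := Nat.cast_nonneg N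
  -- the numerical consequences
  have out : ∀ (a : ℝ) (m f : ℕ), 0 < a → a * N ≤ m → τ ≤ a / 4 →
      (1 - ρ) ^ K * m - τ * N ≤ (f : ℝ) → ⌈a / 4 * N⌉₊ ≤ f := by
    intro a m f ha hm hτa hf
    rw [Nat.ceil_le]
    have b1 : (1 : ℝ) / 2 * (a * N) ≤ (1 - ρ) ^ K * m :=
      mul_le_mul hhalf hm (by positivity) (by positivity)
    have b2 : τ * N ≤ a / 4 * N := mul_le_mul_of_nonneg_right hτa hn0
    linarith
  have ins : ∀ (m f : ℕ), c * N ≤ m → ρ ^ K * m - τ * N ≤ (f : ℝ) →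
      ⌈ρ ^ K * c / 2 * N⌉₊ ≤ f := by
    intro m f hm hf
    rw [Nat.ceil_le]
    have b1 : ρ ^ K * (c * N) ≤ ρ ^ K * m := mul_le_mul_of_nonneg_left hm (by positivity)
    have b2 : τ * N ≤ ρ ^ K * c / 2 * N := mul_le_mul_of_nonneg_right hτ3 hn0
    linarith
  refine ⟨Ω, ⌈c / 4 * N⌉₊, ⌈cx / 4 * N⌉₊, ⌈ρ ^ K * c / 2 * N⌉₊, ⌊2 * ρ * N⌋₊, ?_,
    Nat.le_ceil _, Nat.le_ceil _, Nat.le_ceil _, Nat.floor_le (by positivity), ?_, ?_⟩
  · refine ⟨?_, ?_, ?_, ?_, ?_, ?_, ?_⟩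
    · intro x hx y hy hxy
      have hs := s0 (x, y) hx hy hxy
      refine ⟨(f0 (x, y)).filter fun G => Disjoint G Ω,
        (p0 (x, y)).subset (Finset.coe_subset.2 (Finset.filter_subset _ _)), ?_, ?_⟩
      · intro G hG
        obtain ⟨hG1, hG2⟩ := Finset.mem_filter.1 hG
        exact ⟨k0 _ G hG1, (hs.1 G hG1).1, (hs.1 G hG1).2, hG2⟩
      · exact out c _ _ hc hs.2 hτ1 (hΩ (Sum.inl (x, y))).2
    · intro x hx y hy hxy
      have hs := s1 (x, y) hx hy hxy
      refine ⟨(f1 (x, y)).filter fun G => G ⊆ Ω,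
        (p1 (x, y)).subset (Finset.coe_subset.2 (Finset.filter_subset _ _)), ?_, ?_⟩
      · intro G hG
        obtain ⟨hG1, hG2⟩ := Finset.mem_filter.1 hG
        exact ⟨k1 _ G hG1, (hs.1 G hG1).1, (hs.1 G hG1).2, hG2⟩
      · exact ins _ _ hs.2 (hΩ (Sum.inr (Sum.inl (x, y)))).1
    · intro w hw
      refine ⟨(f2 w).filter fun G => G ⊆ Ω,
        (p2 w).subset (Finset.coe_subset.2 (Finset.filter_subset _ _)), ?_, ?_⟩
      · intro G hG
        obtain ⟨hG1, hG2⟩ := Finset.mem_filter.1 hG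
        exact ⟨k2 _ G hG1, (s2 w G hG1).1, (s2 w G hG1).2, hG2⟩
      · exact ins _ _ (t2 w hw) (hΩ (Sum.inr (Sum.inr (Sum.inl w)))).1
    · intro w hw
      refine ⟨(f2 w).filter fun G => Disjoint G Ω,
        (p2 w).subset (Finset.coe_subset.2 (Finset.filter_subset _ _)), ?_, ?_⟩
      · intro G hG
        obtain ⟨hG1, hG2⟩ := Finset.mem_filter.1 hG
        exact ⟨k2 _ G hG1, (s2 w G hG1).1, (s2 w G hG1).2, hG2⟩
      · exact out cx _ _ hcx (u2 w hw) hτ2 (hΩ (Sum.inr (Sum.inr (Sum.inl w)))).2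
    · refine ⟨f3.filter fun G => G ⊆ Ω,
        p3.subset (Finset.coe_subset.2 (Finset.filter_subset _ _)), ?_, ?_⟩
      · intro G hG
        obtain ⟨hG1, hG2⟩ := Finset.mem_filter.1 hG
        obtain ⟨c1, c2, c3⟩ := s3 G hG1
        exact ⟨k3 G hG1, c1, c2, c3, hG2⟩
      · exact ins _ _ t3 (hΩ (Sum.inr (Sum.inr (Sum.inr (Sum.inl ()))))).1
    · refine ⟨f4.filter fun G => G ⊆ Ω,
        p4.subset (Finset.coe_subset.2 (Finset.filter_subset _ _)), ?_, ?_⟩
      · intro G hG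
        obtain ⟨hG1, hG2⟩ := Finset.mem_filter.1 hG
        obtain ⟨c1, c2, c3⟩ := s4 G hG1
        exact ⟨k4 G hG1, c1, c2, c3, hG2⟩
      · exact ins _ _ t4 (hΩ (Sum.inr (Sum.inr (Sum.inr (Sum.inr (Sum.inl ())))))).1
    · intro x
      refine Nat.le_floor ?_
      have a1 := (hΩ (Sum.inr (Sum.inr (Sum.inr (Sum.inr (Sum.inr (Sum.inl x))))))).2
      have a2 := sing_outside (hAinj x) Ω
      have a3 := sing_card' (hAinj x)
      have a4 : (Ax x).card ≤ N := Finset.card_le_univ _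
      have a5 : (univ.filter fun y => y ≠ x ∧ (sc.col x y).1 ≠ (sc.col x y).2 ∧
          sc.col x y ∈ Ω) = (Ax x).filter fun y => sc.col x y ∈ Ω := by
        ext y
        simp only [hAx, Finset.mem_filter, Finset.mem_univ, true_and, and_assoc]
      rw [a5]
      change (1 - ρ) ^ 1 * ((((Ax x).image fun y => ({sc.col x y} : Finset (V × V))).card : ℕ) : ℝ)
        - τ * N ≤ ((((Ax x).image fun y => ({sc.col x y} : Finset (V × V))).filter
          fun G => Disjoint G Ω).card : ℝ) at a1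
      rw [a3, pow_one] at a1
      have a6 : ((((Ax x).image fun y => ({sc.col x y} : Finset (V × V))).filter
          fun G => Disjoint G Ω).card : ℝ) +
          (((Ax x).filter fun y => sc.col x y ∈ Ω).card : ℝ) = (Ax x).card := by
        exact_mod_cast a2
      have a7 : ((Ax x).card : ℝ) ≤ N := by exact_mod_cast a4
      have a8 : ρ * ((Ax x).card : ℝ) ≤ ρ * N := mul_le_mul_of_nonneg_left a7 hρ.le
      have a9 : τ * N ≤ ρ / 4 * N := mul_le_mul_of_nonneg_right hτ4 hn0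
      have a10 : 0 ≤ ρ * N := by positivity
      linarith
  · have a1 := (hΩ (Sum.inr (Sum.inr (Sum.inr (Sum.inr (Sum.inr (Sum.inr ()))))))).2
    have a2 := sing_outside hGinj Ω
    have a3 := sing_card' hGinj
    have a4 : Good.card ≤ N := Finset.card_le_univ _
    have a5 : vs Ω ∩ Good = Good.filter fun z => (z, z) ∈ Ω := by
      ext y
      simp only [Finset.mem_inter, CORE_.mem_vs, Finset.mem_filter]
      exact and_comm
    rw [a5]
    change (1 - ρ) ^ 1 * (((Good.image fun z => ({(z, z)} : Finset (V × V))).card : ℕ) : ℝ)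
      - τ * N ≤ (((Good.image fun z => ({(z, z)} : Finset (V × V))).filter
        fun G => Disjoint G Ω).card : ℝ) at a1
    rw [a3, pow_one] at a1
    have a6 : (((Good.image fun z => ({(z, z)} : Finset (V × V))).filter
        fun G => Disjoint G Ω).card : ℝ) +
        ((Good.filter fun z => (z, z) ∈ Ω).card : ℝ) = Good.card := by
      exact_mod_cast a2
    have a7 : (Good.card : ℝ) ≤ N := by exact_mod_cast a4
    have a8 : ρ * (Good.card : ℝ) ≤ ρ * N := mul_le_mul_of_nonneg_left a7 hρ.le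
    have a9 : τ * N ≤ ρ / 4 * N := mul_le_mul_of_nonneg_right hτ4 hn0
    have a10 : 0 ≤ ρ * N := by positivity
    linarith
  · have a1 := (hΩ (Sum.inr (Sum.inr (Sum.inr (Sum.inr (Sum.inr (Sum.inr ()))))))).1
    have a2 := sing_inside hGinj Ω
    have a3 := sing_card' hGinj
    have a5 : vs Ω ∩ Good = Good.filter fun z => (z, z) ∈ Ω := by
      ext y
      simp only [Finset.mem_inter, CORE_.mem_vs, Finset.mem_filter]
      exact and_comm
    rw [a5]
    change ρ ^ 1 * (((Good.image fun z => ({(z, z)} : Finset (V × V))).card : ℕ) : ℝ)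
      - τ * N ≤ (((Good.image fun z => ({(z, z)} : Finset (V × V))).filter
        fun G => G ⊆ Ω).card : ℝ) at a1
    rw [a3, a2, pow_one] at a1
    have a8 : ρ * ((N : ℝ) / 2) ≤ ρ * Good.card := mul_le_mul_of_nonneg_left hGood hρ.le
    have a9 : τ * N ≤ ρ / 4 * N := mul_le_mul_of_nonneg_right hτ4 hn0
    linarith

end SpF
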