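import Pool.Agent.SpF.CORE

namespace SpF
open Spider Finset

namespace CORE_

variable {V : Type} [Fintype V] [DecidableEq V]

lemma tile2 (hU : T_UNION) {sc : SC V} {G H : Finset (V × V)} (h1 : Tileable sc G)
    (h2 : Tileable sc H) (hd : Disjoint G H) : Tileable sc (G ∪ H) := by
  have h := hU V sc Bool univ (fun b => if b then G else H) ?_ ?_
  · have he : (univ : Finset Bool).biUnion (fun b => if b then G else H) = G ∪ H := by
      ext i; simp
    rwa [he] at h
  · intro j _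
    cases j
    · simpa using h2
    · simpa using h1
  · intro i _ j _ hij
    cases i <;> cases j
    · exact absurd rfl hij
    · simpa using hd.symm
    · simpa using hd
    · exact absurd rfl hij

lemma cover_union (hU : T_UNION) {sc : SC V} (W : Finset V) (g : V → Finset (V × V))
    (h1 : ∀ w ∈ W, CO sc w (g w)) (h2 : ∀ w ∈ W, ∀ w' ∈ W, w ≠ w' → Disjoint (g w) (g w'))
    (h3 : ∀ w ∈ W, Disjoint (g w) (dg W)) : Tileable sc (dg W ∪ W.biUnion g) := by
  have h := hU V sc V W (fun w => insert (w, w) (g w)) (fun w hw => (h1 w hw).2) ?_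
  · have he : W.biUnion (fun w => insert (w, w) (g w)) = dg W ∪ W.biUnion g := by
      ext i
      simp only [Finset.mem_biUnion, Finset.mem_insert, Finset.mem_union, mem_dg]
      constructor
      · rintro ⟨w, hw, rfl | hi⟩
        · exact Or.inl ⟨rfl, hw⟩
        · exact Or.inr ⟨w, hw, hi⟩
      · rintro (⟨h1, h2⟩ | ⟨w, hw, hi⟩)
        · exact ⟨i.1, h2, Or.inl (Prod.ext rfl h1.symm)⟩
        · exact ⟨w, hw, Or.inr hi⟩
    rwa [he] at h
  · intro w hw w' hw' hne
    have hdg : ∀ x ∈ W, ∀ y ∈ W, (x, x) ∉ g y := by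
      intro x hx y hy hxy
      exact Finset.disjoint_left.1 (h3 y hy) hxy (mem_dg.2 ⟨rfl, hx⟩)
    rw [Finset.disjoint_insert_left, Finset.disjoint_insert_right]
    refine ⟨?_, ?_, ?_⟩
    · rw [Finset.mem_insert]
      rintro (h | h)
      · exact hne (Prod.ext_iff.1 h).1
      · exact hdg w hw w' hw' h
    · exact hdg w' hw' w hw
    · exact h2 w hw w' hw' hne

/-- covers of the vertices outside `Good` -/
lemma covers (hG : T_GREEDY) (hU : T_UNION) {sc : SC V} {Good : Finset V} {K : ℕ}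
    {Ω : Finset (V × V)} {p px q r : ℕ} (hO : OM sc Good K Ω p px q r) (L : Finset V)
    (hL : L ⊆ Good) (hc : L.card + (K + 1) * (univ \ Good).card < px) :
    ∃ Q : Finset (V × V), Tileable sc Q ∧ Q.card ≤ (K + 1) * (univ \ Good).card ∧
      Disjoint Q (dg L) ∧ univ \ Good ⊆ vs Q ∧ ∀ i ∈ Q, i ∈ Ω → i.1 = i.2 ∧ i.1 ∉ Good := by
  classical
  have hch : ∀ w : V, ∃ 𝒢 : Finset (Finset (V × V)), w ∈ univ \ Good →
      (𝒢 : Set (Finset (V × V))).PairwiseDisjoint id ∧ (∀ G ∈ 𝒢, G.card ≤ K ∧ CO sc w G ∧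
        vs G ⊆ Good ∧ Disjoint G Ω) ∧ px ≤ 𝒢.card := by
    intro w
    by_cases hw : w ∈ Good
    · exact ⟨∅, fun h => absurd hw (Finset.mem_sdiff.1 h).2⟩
    · obtain ⟨𝒢, h⟩ := hO.cx w hw
      exact ⟨𝒢, fun _ => h⟩
  choose 𝒢 h𝒢 using hch
  obtain ⟨g, hg, hgd⟩ := hG (V × V) V (univ \ Good) 𝒢 (dg L) K (fun w hw => (h𝒢 w hw).1)
    (fun w hw G hG => ((h𝒢 w hw).2.1 G hG).1) (fun w hw => by
      have h1 := (h𝒢 w hw).2.2
      rw [card_dg]
      nlinarith)
  have hp : ∀ w ∈ univ \ Good, (g w).card ≤ K ∧ CO sc w (g w) ∧ vs (g w) ⊆ Good ∧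
      Disjoint (g w) Ω := fun w hw => (h𝒢 w hw).2.1 _ (hg w hw).1
  have hgB : ∀ w ∈ univ \ Good, Disjoint (g w) (dg (univ \ Good)) := by
    intro w hw
    rw [Finset.disjoint_left]
    intro i hi hi'
    rw [mem_dg] at hi'
    have : i = (i.1, i.1) := Prod.ext rfl hi'.1.symm
    rw [this] at hi
    exact (Finset.mem_sdiff.1 hi'.2).2 ((hp w hw).2.2.1 (mem_vs.2 hi))
  refine ⟨dg (univ \ Good) ∪ (univ \ Good).biUnion g, ?_, ?_, ?_, ?_, ?_⟩
  · exact cover_union hU _ g (fun w hw => (hp w hw).2.1) hgd hgB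
  · calc (dg (univ \ Good) ∪ (univ \ Good).biUnion g).card
        ≤ (dg (univ \ Good)).card + ((univ \ Good).biUnion g).card := Finset.card_union_le _ _
      _ ≤ (univ \ Good).card + (univ \ Good).card * K := by
          rw [card_dg]
          exact Nat.add_le_add_left (Finset.card_biUnion_le_card_mul _ _ _
            fun w hw => (hp w hw).1) _
      _ = (K + 1) * (univ \ Good).card := by ring
  · rw [Finset.disjoint_union_left, Finset.disjoint_biUnion_left]
    refine ⟨?_, fun w hw => (hg w hw).2⟩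
    rw [Finset.disjoint_left]
    intro i hi hi'
    rw [mem_dg] at hi hi'
    exact (Finset.mem_sdiff.1 hi.2).2 (hL hi'.2)
  · intro x hx
    rw [mem_vs, Finset.mem_union]
    exact Or.inl (mem_dg.2 ⟨rfl, hx⟩)
  · intro i hi hiΩ
    rw [Finset.mem_union, mem_dg, Finset.mem_biUnion] at hi
    rcases hi with ⟨h1, h2⟩ | ⟨w, hw, hi⟩
    · exact ⟨h1, (Finset.mem_sdiff.1 h2).2⟩
    · exact absurd hiΩ (Finset.disjoint_left.1 (hp w hw).2.2.2 hi)

/-- the ends to be closed -/
lemma ends {sc : SC V} {S : Finset V} {M : Finset (V × V)} (h : PS sc S M) :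
    ∃ (O : Finset V) (s : V → V), O ⊆ unc S M ∧
      (∀ p ∈ M, ∀ z, sc.col p.1 p.2 = (z, z) → z ∈ O ∨ z ∉ unc S M) ∧
      (∀ e ∈ O, s e ∈ S ∧ s e ∉ unc S M ∧ ∀ p ∈ M, sc.col p.1 p.2 ≠ (s e, s e)) ∧
      (∀ e ∈ O, ∀ e' ∈ O, s e = s e' → e = e') := by
  classical
  set used : Finset V := S.filter fun z => ∃ p ∈ M, sc.col p.1 p.2 = (z, z) with hused
  have hmu : ∀ z, z ∈ used ↔ z ∈ S ∧ ∃ p ∈ M, sc.col p.1 p.2 = (z, z) := by
    intro z; rw [hused, Finset.mem_filter]
  have hF : (M.image Prod.fst).card = M.card :=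
    Finset.card_image_of_injOn fun p hp p' hp' he => h.i1 p hp p' hp' he
  have hcu : used.card ≤ M.card := by
    calc used.card = (dg used).card := (card_dg used).symm
      _ ≤ (M.image fun p => sc.col p.1 p.2).card := by
          apply Finset.card_le_card
          intro i hi
          rw [mem_dg] at hi
          obtain ⟨_, p, hp, he⟩ := (hmu _).1 hi.2
          rw [Finset.mem_image]
          exact ⟨p, hp, by rw [he]; exact Prod.ext rfl hi.1⟩
      _ ≤ M.card := Finset.card_image_le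
  have hc : (used ∩ unc S M).card ≤ (M.image Prod.fst \ used).card := by
    have h1 : (used \ M.image Prod.fst).card = (used ∩ unc S M).card := by
      congr 1
      ext x
      rw [Finset.mem_sdiff, Finset.mem_inter]
      unfold unc
      rw [Finset.mem_sdiff]
      constructor
      · rintro ⟨h1, h2⟩; exact ⟨h1, ((hmu x).1 h1).1, h2⟩
      · rintro ⟨h1, -, h2⟩; exact ⟨h1, h2⟩
    have h2 := Finset.card_sdiff_add_card_inter used (M.image Prod.fst)
    have h3 := Finset.card_sdiff_add_card_inter (M.image Prod.fst) used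
    rw [Finset.inter_comm] at h3
    omega
  have hemb : Nonempty ((used ∩ unc S M : Finset V) ↪ (M.image Prod.fst \ used : Finset V)) := by
    apply Function.Embedding.nonempty_of_card_le
    rw [Fintype.card_coe, Fintype.card_coe]
    exact hc
  obtain ⟨f⟩ := hemb
  refine ⟨used ∩ unc S M, fun e => if h : e ∈ used ∩ unc S M then (f ⟨e, h⟩).1 else e,
    Finset.inter_subset_right, ?_, ?_, ?_⟩
  · intro p hp z hz
    by_cases hzu : z ∈ unc S M
    · left
      rw [Finset.mem_inter]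
      exact ⟨(hmu z).2 ⟨h.star p hp z hz, p, hp, hz⟩, hzu⟩
    · exact Or.inr hzu
  · intro e he
    simp only [dif_pos he]
    have h1 := (f ⟨e, he⟩).2
    rw [Finset.mem_sdiff, Finset.mem_image] at h1
    obtain ⟨⟨p, hp, hpe⟩, h2⟩ := h1
    have hS : (f ⟨e, he⟩).1 ∈ S := hpe ▸ h.row p hp
    refine ⟨hS, ?_, ?_⟩
    · rw [mem_unc]
      rintro ⟨-, h3⟩
      exact h3 p hp hpe
    · intro p' hp' he'
      exact h2 ((hmu _).2 ⟨hS, p', hp', he'⟩)
  · intro e he e' he' hee
    simp only [dif_pos he, dif_pos he'] at hee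
    have := f.injective (Subtype.ext hee)
    exact congrArg Subtype.val this


/-- choice of gadget families inside `Ω` for the leftover vertices -/
lemma fill (hG : T_GREEDY) {sc : SC V} {Good : Finset V} {K : ℕ} {Ω : Finset (V × V)}
    {p px q r : ℕ} (hO : OM sc Good K Ω p px q r) (O P : Finset V) (s : V → V)
    (hOG : O ⊆ Good) (hPG : P ⊆ Good) (hsG : ∀ e ∈ O, s e ∈ Good ∧ e ≠ s e)
    (hOP : Disjoint O P) (hc : K * (O ∪ P).card < q) :
    ∃ g : V → Finset (V × V), (∀ e ∈ O, CL sc e (s e) (g e)) ∧ (∀ w ∈ P, CO sc w (g w)) ∧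
      (∀ w ∈ O ∪ P, (g w).card ≤ K ∧ vs (g w) ⊆ Good ∧ g w ⊆ Ω) ∧
      (∀ w ∈ O ∪ P, ∀ w' ∈ O ∪ P, w ≠ w' → Disjoint (g w) (g w')) := by
  classical
  have hch : ∀ w : V, ∃ 𝒢 : Finset (Finset (V × V)), w ∈ O ∪ P →
      (𝒢 : Set (Finset (V × V))).PairwiseDisjoint id ∧ (∀ G ∈ 𝒢, G.card ≤ K ∧
        ((w ∈ O → CL sc w (s w) G) ∧ (w ∈ P → CO sc w G)) ∧
        vs G ⊆ Good ∧ G ⊆ Ω) ∧ q ≤ 𝒢.card := by
    intro w
    by_cases hw : w ∈ O
    · obtain ⟨𝒢, h1, h2, h3⟩ := hO.cl w (hOG hw) (s w) (hsG w hw).1 (hsG w hw).2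
      refine ⟨𝒢, fun _ => ⟨h1, fun G hG => ?_, h3⟩⟩
      obtain ⟨a, b, c, d⟩ := h2 G hG
      exact ⟨a, ⟨fun _ => b, fun hP => absurd hP (Finset.disjoint_left.1 hOP hw)⟩, c, d⟩
    · by_cases hP : w ∈ P
      · obtain ⟨𝒢, h1, h2, h3⟩ := hO.co w (hPG hP)
        refine ⟨𝒢, fun _ => ⟨h1, fun G hG => ?_, h3⟩⟩
        obtain ⟨a, b, c, d⟩ := h2 G hG
        exact ⟨a, ⟨fun h => absurd h hw, fun _ => b⟩, c, d⟩
      · exact ⟨∅, fun h => by
          rw [Finset.mem_union] at h
          rcases h with h | h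
          · exact absurd h hw
          · exact absurd h hP⟩
  choose 𝒢 h𝒢 using hch
  obtain ⟨g, hg, hgd⟩ := hG (V × V) V (O ∪ P) 𝒢 ∅ K (fun w hw => (h𝒢 w hw).1)
    (fun w hw G hG => ((h𝒢 w hw).2.1 G hG).1) (fun w hw => by
      have h1 := (h𝒢 w hw).2.2
      rw [Finset.card_empty]
      omega)
  have hp := fun w (hw : w ∈ O ∪ P) => (h𝒢 w hw).2.1 _ (hg w hw).1
  refine ⟨g, fun e he => ?_, fun w hw => ?_, fun w hw => ?_, hgd⟩
  · exact (hp e (Finset.mem_union_left _ he)).2.1.1 he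
  · exact (hp w (Finset.mem_union_right _ hw)).2.1.2 hw
  · exact ⟨(hp w hw).1, (hp w hw).2.2.1, (hp w hw).2.2.2⟩

/-- tileable sets inside `Ω` with a prescribed number of vertices -/
lemma tilesΩ (hG : T_GREEDY) (hU : T_UNION) {sc : SC V} {Good : Finset V} {K : ℕ}
    {Ω : Finset (V × V)} {p px q r : ℕ} (hO : OM sc Good K Ω p px q r) (Z : Finset (V × V))
    (i j : ℕ) (hc : Z.card + K * (i + j) < q) :
    ∃ Q : Finset (V × V), Tileable sc Q ∧ Disjoint Q Z ∧ Q ⊆ Ω ∧ vs Q ⊆ Good ∧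
      (vs Q).card = 6 * i + 8 * j := by
  classical
  obtain ⟨𝒜, a1, a2, a3⟩ := hO.t6
  obtain ⟨ℬ, b1, b2, b3⟩ := hO.t8
  obtain ⟨g, hg, hgd⟩ := hG (V × V) ℕ (Finset.range (i + j)) (fun n => if n < i then 𝒜 else ℬ) Z K
    (fun n _ => by
      by_cases h : n < i
      · simpa only [h, if_true] using a1
      · simpa only [h, if_false] using b1)
    (fun n _ G hG => by
      by_cases h : n < i
      · simp only [h, if_true] at hG; exact (a2 G hG).1
      · simp only [h, if_false] at hG; exact (b2 G hG).1)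
    (fun n _ => by
      rw [Finset.card_range]
      by_cases h : n < i
      · simp only [h, if_true]; omega
      · simp only [h, if_false]; omega)
  have hp : ∀ n ∈ Finset.range (i + j), Tileable sc (g n) ∧
      (vs (g n)).card = (if n < i then 6 else 8) ∧ vs (g n) ⊆ Good ∧ g n ⊆ Ω := by
    intro n hn
    have h1 := (hg n hn).1
    by_cases h : n < i
    · simp only [h, if_true] at h1 ⊢; exact (a2 _ h1).2
    · simp only [h, if_false] at h1 ⊢; exact (b2 _ h1).2
  refine ⟨(Finset.range (i + j)).biUnion g, hU V sc ℕ _ g (fun n hn => (hp n hn).1) hgd,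
    ?_, ?_, ?_, ?_⟩
  · rw [Finset.disjoint_biUnion_left]
    exact fun n hn => (hg n hn).2
  · exact Finset.biUnion_subset.2 fun n hn => (hp n hn).2.2.2
  · rw [vs_biUnion]
    exact Finset.biUnion_subset.2 fun n hn => (hp n hn).2.2.1
  · rw [vs_biUnion, Finset.card_biUnion (fun m hm n hn hne => vs_disj (hgd m hm n hn hne)),
      Finset.sum_congr rfl fun n hn => (hp n hn).2.1, Finset.sum_ite, Finset.sum_const,
      Finset.sum_const]
    have h1 : ((Finset.range (i + j)).filter fun n => n < i) = Finset.range i := by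
      ext n; simp only [Finset.mem_filter, Finset.mem_range]; omega
    have h2 : ((Finset.range (i + j)).filter fun n => ¬ n < i).card = j := by
      have h3 := Finset.card_filter_add_card_filter_not (s := Finset.range (i + j))
        (fun n => n < i)
      rw [h1, Finset.card_range, Finset.card_range] at h3
      omega
    rw [h1, h2, Finset.card_range]
    simp only [smul_eq_mul]
    ring

/-- arithmetic of the tiles -/
lemma tiles_num (D : ℕ) (hD : 24 ≤ D) (he : Even D) : ∃ i j : ℕ, 6 * i + 8 * j = D := by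
  obtain ⟨d, hd⟩ := he
  refine ⟨(d - 4 * (d % 3)) / 3, d % 3, ?_⟩
  omega


/-- resources on the diagonal of a subset of the vertices -/
lemma diag_eq {i : V × V} (h : i.1 = i.2) : i = (i.1, i.1) := Prod.ext rfl h.symm

open CORE_ in
theorem p_CORE (hA : T_ABS) (hG : T_GREEDY) (hU : T_UNION) (hD : T_DONE) (hC : T_CLOSE) :
    T_CORE := by
  classical
  obtain ⟨D, hD0, hA⟩ := hA
  refine ⟨D, hD0, ?_⟩
  intro V _ _ sc Good K Ω p px q r k μ t η ε' hO h3 hk ht hRne hRL hpx hp hGood hη1 hη2 hμ hμR hq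
  set R := vs Ω ∩ Good with hR
  set Lc := Fintype.card V - 2 * t with hLc
  set nb := (univ \ Good).card with hnb
  have hRG : R ⊆ Good := Finset.inter_subset_right
  -- the vertices to be left out
  have hcL : Lc ≤ (Good \ vs Ω).card := by
    have h1 := Finset.card_sdiff_add_card_inter Good (vs Ω)
    rw [Finset.inter_comm, ← hR] at h1
    omega
  obtain ⟨L, hLs, hLcard⟩ := Finset.exists_subset_card_eq hcL
  have hLG : L ⊆ Good := fun x hx => (Finset.mem_sdiff.1 (hLs hx)).1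
  have hLΩ : ∀ x ∈ L, (x, x) ∉ Ω := fun x hx h => (Finset.mem_sdiff.1 (hLs hx)).2 (mem_vs.2 h)
  have hLR : ∀ x ∈ L, x ∉ R := fun x hx h => hLΩ x hx (mem_vs.1 (Finset.mem_inter.1 h).1)
  -- covers of the bad vertices
  obtain ⟨QB, hQBt, hQBc, hQBL, hQBB, hQBΩ⟩ := covers hG hU hO L hLG (by rw [hLcard]; exact hpx)
  rw [← hnb] at hQBc
  -- the absorber
  have hch : ∀ x y : V, ∃ 𝒢 : Finset (Finset (V × V)), x ∈ Good → y ∈ Good → x ≠ y →
      (𝒢 : Set (Finset (V × V))).PairwiseDisjoint id ∧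
      (∀ G ∈ 𝒢, G.card ≤ K ∧ PA sc x y G ∧ vs G ⊆ Good ∧ Disjoint G Ω) ∧ p ≤ 𝒢.card := by
    intro x y
    by_cases h : x ∈ Good ∧ y ∈ Good ∧ x ≠ y
    · obtain ⟨𝒢, h𝒢⟩ := hO.pa x h.1 y h.2.1 h.2.2
      exact ⟨𝒢, fun _ _ _ => h𝒢⟩
    · exact ⟨∅, fun h1 h2 h3 => absurd ⟨h1, h2, h3⟩ h⟩
  choose 𝒜 h𝒜 using hch
  have hYc : (dg L ∪ QB).card ≤ Lc + (K + 1) * nb := by
    refine (Finset.card_union_le _ _).trans ?_
    rw [card_dg, hLcard]
    exact Nat.add_le_add_left hQBc _
  obtain ⟨A, hAd, hAc, hAG, hAo, hAt⟩ := hA V sc Good R (dg L ∪ QB) K (R.card - μ) 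
    (fun x y => if x ∈ Good ∧ y ∈ Good ∧ x ≠ y then 𝒜 x y else ∅) hRG hRne (Nat.sub_le _ _)
    (fun x hx y hy hxy => by
      rw [if_pos ⟨hx, hy, hxy⟩]
      obtain ⟨a1, a2, a3⟩ := h𝒜 x y hx hy hxy
      refine ⟨a1, fun G hG => ⟨(a2 G hG).1, (a2 G hG).2.1, (a2 G hG).2.2.1⟩, ?_⟩
      omega) (by omega)
  have hAΩ : ∀ i ∈ A, i ∉ Ω := by
    intro i hi hiΩ
    by_cases hd : i.1 = i.2
    · have h1 : i.1 ∈ vs A := by rw [mem_vs, ← diag_eq hd]; exact hi
      have h2 : i ∈ dg R := by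
        rw [mem_dg]
        refine ⟨hd, Finset.mem_inter.2 ⟨?_, hAG h1⟩⟩
        rw [mem_vs, ← diag_eq hd]; exact hiΩ
      exact Finset.disjoint_left.1 hAd hi (Finset.mem_union_right _ h2)
    · obtain ⟨x, hx, y, hy, hxy, G, hG, hiG⟩ := hAo i hi hd
      rw [if_pos ⟨hx, hy, hxy⟩] at hG
      exact Finset.disjoint_left.1 ((h𝒜 x y hx hy hxy).2.1 G hG).2.2.2 hiG hiΩ
  have hAQB : Disjoint A QB := Finset.disjoint_of_subset_right
    (Finset.subset_union_right.trans Finset.subset_union_left) hAd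
  have hAL : Disjoint A (dg L) := Finset.disjoint_of_subset_right
    (Finset.subset_union_left.trans Finset.subset_union_left) hAd
  have hAR : Disjoint A (dg R) := Finset.disjoint_of_subset_right Finset.subset_union_right hAd
  have hQBR : ∀ x ∈ R, x ∉ vs QB := by
    intro x hx h
    exact (hQBΩ _ (mem_vs.1 h) (mem_vs.1 (Finset.mem_inter.1 hx).1)).2 (hRG hx)
  -- the set `U`
  set U := Good \ (R ∪ L ∪ vs QB ∪ vs A) with hUdef
  have hmU : ∀ x, x ∈ U ↔ x ∈ Good ∧ x ∉ R ∧ x ∉ L ∧ x ∉ vs QB ∧ x ∉ vs A := by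
    intro x
    rw [hUdef]
    simp only [Finset.mem_sdiff, Finset.mem_union, not_or, and_assoc]
  set Γ := dg U ∪ univ.filter (fun i : V × V => i.1 ≠ i.2 ∧ i ∉ Ω ∧ i ∉ QB ∧ i ∉ A) with hΓ
  have hmΓ : ∀ i, i ∈ Γ ↔ (i.1 = i.2 ∧ i.1 ∈ U) ∨ (i.1 ≠ i.2 ∧ i ∉ Ω ∧ i ∉ QB ∧ i ∉ A) := by
    intro i
    rw [hΓ, Finset.mem_union, mem_dg, Finset.mem_filter]
    simp only [Finset.mem_univ, true_and]
  have hUG : U ⊆ Good := fun x hx => ((hmU x).1 hx).1
  have hU1 : ((univ \ U).card : ℝ) ≤ η * Fintype.card V := by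
    refine le_trans ?_ hη1
    norm_cast
    have h1 : univ \ U ⊆ (univ \ Good) ∪ (R ∪ L ∪ vs QB ∪ vs A) := by
      intro x hx
      rw [Finset.mem_sdiff, hUdef, Finset.mem_sdiff] at hx
      rw [Finset.mem_union, Finset.mem_sdiff]
      by_cases hxG : x ∈ Good
      · right
        by_contra hcon
        exact hx.2 ⟨hxG, hcon⟩
      · exact Or.inl ⟨Finset.mem_univ _, hxG⟩
    have h2 := Finset.card_le_card h1
    have h3 := Finset.card_union_le (univ \ Good) (R ∪ L ∪ vs QB ∪ vs A)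
    have h4 := Finset.card_union_le (R ∪ L ∪ vs QB) (vs A)
    have h5 := Finset.card_union_le (R ∪ L) (vs QB)
    have h6 := Finset.card_union_le R L
    have h7 := card_vs_le QB
    have h8 := card_vs_le A
    have h9 : (K + 2) * nb = nb + (K + 1) * nb := by ring
    omega
  obtain ⟨S0, M0, hPS, hS0, hM2, hMΓ, hUc⟩ := h3 U Γ hUG hU1 (fun z => by
      rw [hmΓ]; simp) (by
    intro x hx
    refine le_trans ?_ hη2
    norm_cast
    have h1 : ((univ.filter fun y => y ≠ x ∧ (sc.col x y).1 ≠ (sc.col x y).2 ∧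
        sc.col x y ∈ Ω) ∪ (univ.filter fun y => y ≠ x ∧ sc.col x y ∈ QB) ∪
        (univ.filter fun y => y ≠ x ∧ sc.col x y ∈ A)).card ≤ r + (K + 1) * nb +
          D * (K + 1) * R.card := by
      refine (Finset.card_union_le _ _).trans (Nat.add_le_add ((Finset.card_union_le _ _).trans
        (Nat.add_le_add (hO.fr x) ?_)) ?_)
      · refine le_trans ?_ hQBc
        apply Finset.card_le_card_of_injOn (fun y => sc.col x y)
        · intro y hy
          exact (Finset.mem_filter.1 hy).2.2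
        · intro y hy z hz hyz
          by_contra hne
          exact sc.proper x y z (Ne.symm (Finset.mem_filter.1 hy).2.1)
            (Ne.symm (Finset.mem_filter.1 hz).2.1) hne hyz
      · refine le_trans ?_ hAc
        apply Finset.card_le_card_of_injOn (fun y => sc.col x y)
        · intro y hy
          exact (Finset.mem_filter.1 hy).2.2
        · intro y hy z hz hyz
          by_contra hne
          exact sc.proper x y z (Ne.symm (Finset.mem_filter.1 hy).2.1)
            (Ne.symm (Finset.mem_filter.1 hz).2.1) hne hyz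
    refine le_trans (Finset.card_le_card ?_) h1
    intro y hy
    rw [Finset.mem_filter] at hy
    obtain ⟨-, h2, h3, h4⟩ := hy
    rw [hmΓ] at h4
    simp only [Finset.mem_union, Finset.mem_filter, Finset.mem_univ, true_and]
    by_cases g1 : sc.col x y ∈ Ω
    · exact Or.inl (Or.inl ⟨h2, h3, g1⟩)
    · by_cases g2 : sc.col x y ∈ QB
      · exact Or.inl (Or.inr ⟨h2, g2⟩)
      · by_cases g3 : sc.col x y ∈ A
        · exact Or.inr ⟨h2, g3⟩
        · exact absurd (Or.inr ⟨h3, g1, g2, g3⟩) h4)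
  rw [← hk] at hUc
  -- the uncovered vertices
  obtain ⟨O, s, hOu, hOl, hOs, hOi⟩ := ends hPS
  set F0 := M0.image Prod.fst with hF0
  set S2 := M0.image Prod.snd with hS2
  have hF0S : F0 ⊆ S0 := by
    intro x hx
    rw [hF0, Finset.mem_image] at hx
    obtain ⟨p, hp, rfl⟩ := hx
    exact hPS.row p hp
  have hF0c : F0.card = M0.card :=
    Finset.card_image_of_injOn fun p hp p' hp' he => hPS.i1 p hp p' hp' he
  have hS2c : S2.card = M0.card :=
    Finset.card_image_of_injOn fun p hp p' hp' he => hPS.i2 p hp p' hp' he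
  have hS2U : S2 ⊆ U := by
    intro x hx
    rw [hS2, Finset.mem_image] at hx
    obtain ⟨p, hp, rfl⟩ := hx
    exact hM2 p hp
  have hS2S : ∀ x ∈ S2, x ∉ S0 := by
    intro x hx
    rw [hS2, Finset.mem_image] at hx
    obtain ⟨p, hp, rfl⟩ := hx
    exact hPS.lab p hp
  have hOS : ∀ x ∈ O, x ∈ S0 ∧ x ∉ F0 := by
    intro x hx
    have := hOu hx
    unfold unc at this
    rw [Finset.mem_sdiff] at this
    exact this
  set P := U \ (F0 ∪ S2 ∪ O) with hP
  have hmP : ∀ x, x ∈ P ↔ x ∈ U ∧ x ∉ F0 ∧ x ∉ S2 ∧ x ∉ O := by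
    intro x
    rw [hP]
    simp only [Finset.mem_sdiff, Finset.mem_union, not_or, and_assoc]
  have hPU : P ⊆ U := fun x hx => ((hmP x).1 hx).1
  have hOU : O ⊆ U := fun x hx => hS0 (hOS x hx).1
  have hOPd : Disjoint O P := by
    rw [Finset.disjoint_left]
    intro x hx hx'
    exact ((hmP x).1 hx').2.2.2 hx
  have hOPc : (O ∪ P).card ≤ k := by
    have h1 : Disjoint F0 S2 := by
      rw [Finset.disjoint_left]
      intro x hx hx'
      exact hS2S x hx' (hF0S hx)
    have h2 : Disjoint (F0 ∪ S2) (O ∪ P) := by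
      rw [Finset.disjoint_left]
      intro x hx hx'
      rw [Finset.mem_union] at hx hx'
      rcases hx' with hx' | hx'
      · rcases hx with hx | hx
        · exact (hOS x hx').2 hx
        · exact hS2S x hx (hOS x hx').1
      · rcases hx with hx | hx
        · exact ((hmP x).1 hx').2.1 hx
        · exact ((hmP x).1 hx').2.2.1 hx
    have h3 : F0 ∪ S2 ∪ (O ∪ P) ⊆ U :=
      Finset.union_subset (Finset.union_subset (hF0S.trans hS0) hS2U) (Finset.union_subset hOU hPU)
    have h4 := Finset.card_le_card h3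
    rw [Finset.card_union_of_disjoint h2, Finset.card_union_of_disjoint h1] at h4
    omega
  obtain ⟨g, hgO, hgP, hgW, hgd⟩ := fill hG hO O P s (hOU.trans hUG) (hPU.trans hUG)
    (fun e he => ⟨hUG (hS0 (hOs e he).1), by
      intro h
      have h1 := (hOs e he).2.1
      rw [← h] at h1
      exact h1 (hOu he)⟩) hOPd (by nlinarith)
  set Z := (O ∪ P).biUnion g with hZ
  have hZΩ : Z ⊆ Ω := Finset.biUnion_subset.2 fun w hw => (hgW w hw).2.2
  have hZG : vs Z ⊆ Good := by
    rw [hZ, vs_biUnion]; exact Finset.biUnion_subset.2 fun w hw => (hgW w hw).2.1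
  have hZc : Z.card ≤ K * k := by
    calc Z.card ≤ (O ∪ P).card * K := Finset.card_biUnion_le_card_mul _ _ _
          fun w hw => (hgW w hw).1
      _ ≤ K * k := by nlinarith
  have hZR : vs Z ⊆ R := by
    intro x hx
    exact Finset.mem_inter.2 ⟨mem_vs.2 (hZΩ (mem_vs.1 hx)), hZG hx⟩
  -- the two structures
  have hUR : ∀ x ∈ U, x ∉ R := fun x hx => ((hmU x).1 hx).2.1
  have hgU : ∀ w ∈ O ∪ P, ∀ i ∈ g w, i.1 ∉ U ∨ i.1 ≠ i.2 := by
    intro w hw i hi
    by_cases h : i.1 = i.2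
    · left
      intro hiU
      apply hUR _ hiU
      apply hZR
      rw [mem_vs, ← diag_eq h, hZ, Finset.mem_biUnion]
      exact ⟨w, hw, hi⟩
    · exact Or.inr h
  have hgΓ : ∀ w ∈ O ∪ P, ∀ i ∈ g w, i ∉ Γ := by
    intro w hw i hi hiΓ
    rw [hmΓ] at hiΓ
    rcases hiΓ with ⟨h1, h2⟩ | ⟨h1, h2, h3⟩
    · rcases hgU w hw i hi with h | h
      · exact h h2
      · exact h h1
    · exact h2 ((hgW w hw).2.2 hi)
  have hdgΓ : ∀ T ⊆ U, dg T ⊆ Γ := by
    intro T hT i hi
    rw [mem_dg] at hi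
    rw [hmΓ]
    exact Or.inl ⟨hi.1, hT hi.2⟩
  have hcolΓ : (M0.image fun p => sc.col p.1 p.2) ⊆ Γ := by
    intro i hi
    rw [Finset.mem_image] at hi
    obtain ⟨p, hp, rfl⟩ := hi
    exact hMΓ p hp
  have hQM := hC V sc S0 M0 O s g hPS hOu hOl hOs hOi hgO
    (fun e he e' he' hne => hgd e (Finset.mem_union_left _ he) e' (Finset.mem_union_left _ he') hne)
    (fun e he => by
      rw [Finset.disjoint_left]
      intro i hi hi'
      apply hgΓ e (Finset.mem_union_left _ he) i hi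
      rw [Finset.mem_union, Finset.mem_union] at hi'
      rcases hi' with (h | h) | h
      · exact hdgΓ S0 hS0 h
      · exact hdgΓ S2 hS2U h
      · exact hcolΓ h)
  have hQP := cover_union hU P g hgP
    (fun w hw w' hw' hne => hgd w (Finset.mem_union_right _ hw) w' (Finset.mem_union_right _ hw')
      hne) (fun w hw => by
      rw [Finset.disjoint_left]
      intro i hi hi'
      exact hgΓ w (Finset.mem_union_right _ hw) i hi (hdgΓ P hPU hi'))
  rw [← hF0, ← hS2] at hQM
  set QM := dg F0 ∪ dg S2 ∪ dg O ∪ (M0.image fun p => sc.col p.1 p.2) ∪ O.biUnion g with hQMd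
  set QP := dg P ∪ P.biUnion g with hQPd
  have hMP : Disjoint QM QP := by
    rw [Finset.disjoint_left]
    intro i hi hi'
    rw [hQPd, Finset.mem_union, mem_dg, Finset.mem_biUnion] at hi'
    rw [hQMd] at hi
    simp only [Finset.mem_union, mem_dg, Finset.mem_biUnion, Finset.mem_image] at hi
    rcases hi' with ⟨h1, h2⟩ | ⟨w, hw, hiw⟩
    · have h3 := (hmP _).1 h2
      rcases hi with (((h | h) | h) | ⟨p, hp, hpi⟩) | ⟨w, hw, hiw⟩
      · exact h3.2.1 h.2
      · exact h3.2.2.1 h.2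
      · exact h3.2.2.2 h.2
      · rw [diag_eq h1] at hpi
        rcases hOl p hp i.1 hpi with h | h
        · exact h3.2.2.2 h
        · have h4 := hPS.star p hp i.1 hpi
          apply h
          unfold unc
          rw [Finset.mem_sdiff]
          exact ⟨h4, h3.2.1⟩
      · exact hgΓ w (Finset.mem_union_left _ hw) i hiw (hdgΓ P hPU (mem_dg.2 ⟨h1, h2⟩))
    · have hiΓ := hgΓ w (Finset.mem_union_right _ hw) i hiw
      rcases hi with (((h | h) | h) | ⟨p, hp, hpi⟩) | ⟨w', hw', hiw'⟩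
      · exact hiΓ (hdgΓ F0 (hF0S.trans hS0) (mem_dg.2 h))
      · exact hiΓ (hdgΓ S2 hS2U (mem_dg.2 h))
      · exact hiΓ (hdgΓ O hOU (mem_dg.2 h))
      · exact hiΓ (hpi ▸ hMΓ p hp)
      · by_cases hww : w = w'
        · subst hww
          exact Finset.disjoint_left.1 hOPd hw' hw
        · exact Finset.disjoint_left.1 (hgd w (Finset.mem_union_right _ hw) w'
            (Finset.mem_union_left _ hw') hww) hiw hiw'
  have hQMP := tile2 hU hQM hQP hMP
  have hMPz : ∀ i, i ∈ QM ∪ QP → i ∈ Γ ∨ i ∈ Z := by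
    intro i hi
    rw [Finset.mem_union, hQMd, hQPd] at hi
    simp only [Finset.mem_union, Finset.mem_biUnion] at hi
    rcases hi with ((((h | h) | h) | h) | ⟨w, hw, h⟩) | h | ⟨w, hw, h⟩
    · exact Or.inl (hdgΓ F0 (hF0S.trans hS0) h)
    · exact Or.inl (hdgΓ S2 hS2U h)
    · exact Or.inl (hdgΓ O hOU h)
    · exact Or.inl (hcolΓ h)
    · exact Or.inr (Finset.mem_biUnion.2 ⟨w, Finset.mem_union_left _ hw, h⟩)
    · exact Or.inl (hdgΓ P hPU h)
    · exact Or.inr (Finset.mem_biUnion.2 ⟨w, Finset.mem_union_right _ hw, h⟩)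
  have hvMP : ∀ x, x ∈ vs (QM ∪ QP) ↔ x ∈ U ∨ x ∈ vs Z := by
    intro x
    rw [mem_vs, mem_vs]
    constructor
    · intro h
      rcases hMPz _ h with h | h
      · rw [hmΓ] at h
        rcases h with h | h
        · exact Or.inl h.2
        · exact absurd rfl h.1
      · exact Or.inr h
    · rintro (h | h)
      · rw [Finset.mem_union, hQMd, hQPd]
        simp only [Finset.mem_union, mem_dg, true_and]
        by_cases h1 : x ∈ F0
        · exact Or.inl (Or.inl (Or.inl (Or.inl (Or.inl h1))))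
        · by_cases h2 : x ∈ S2
          · exact Or.inl (Or.inl (Or.inl (Or.inl (Or.inr h2))))
          · by_cases h3 : x ∈ O
            · exact Or.inl (Or.inl (Or.inl (Or.inr h3)))
            · exact Or.inr (Or.inl ((hmP x).2 ⟨h, h1, h2, h3⟩))
      · rw [hZ, Finset.mem_biUnion] at h
        obtain ⟨w, hw, hiw⟩ := h
        rw [Finset.mem_union, hQMd, hQPd]
        rcases Finset.mem_union.1 hw with hw | hw
        · exact Or.inl (Finset.mem_union_right _ (Finset.mem_biUnion.2 ⟨w, hw, hiw⟩))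
        · exact Or.inr (Finset.mem_union_right _ (Finset.mem_biUnion.2 ⟨w, hw, hiw⟩))
  have hQBMP : Disjoint QB (QM ∪ QP) := by
    rw [Finset.disjoint_left]
    intro i hi hi'
    rcases hMPz i hi' with h | h
    · rw [hmΓ] at h
      rcases h with ⟨h1, h2⟩ | h
      · rw [diag_eq h1] at hi
        exact ((hmU _).1 h2).2.2.2.1 (mem_vs.2 hi)
      · exact h.2.2.1 hi
    · have h1 := hQBΩ i hi (hZΩ h)
      rw [diag_eq h1.1] at h
      exact h1.2 (hZG (mem_vs.2 h))
  have hE1 := tile2 hU hQBt hQMP hQBMP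
  -- the set `R1`
  set R1 := R \ vs Z with hR1
  have hR1c : R.card ≤ R1.card + K * k := by
    have h1 := Finset.card_sdiff_add_card_eq_card hZR
    have h2 := card_vs_le Z
    rw [← hR1] at h1
    omega
  have hR1R : R1 ⊆ R := Finset.sdiff_subset
  -- counting
  have hcount : (vs (QB ∪ (QM ∪ QP))).card + ((vs A).card + R1.card) = 2 * t := by
    have h1 : vs (QB ∪ (QM ∪ QP)) ∪ (vs A ∪ R1) = univ \ L := by
      ext x
      have hsd : x ∈ univ \ L ↔ x ∉ L := by simp
      rw [Finset.mem_union, Finset.mem_union, vs_union, Finset.mem_union, hvMP, hsd]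
      constructor
      · intro h hxL
        rcases h with (h | h | h) | h | h
        · exact Finset.disjoint_left.1 hQBL (mem_vs.1 h) (mem_dg.2 ⟨rfl, hxL⟩)
        · exact ((hmU x).1 h).2.2.1 hxL
        · exact hLR x hxL (hZR h)
        · exact Finset.disjoint_left.1 hAL (mem_vs.1 h) (mem_dg.2 ⟨rfl, hxL⟩)
        · exact hLR x hxL (hR1R h)
      · intro hxL
        by_cases g1 : x ∈ vs QB
        · exact Or.inl (Or.inl g1)
        · by_cases g2 : x ∈ vs A
          · exact Or.inr (Or.inl g2)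
          · by_cases g3 : x ∈ vs Z
            · exact Or.inl (Or.inr (Or.inr g3))
            · by_cases g4 : x ∈ R
              · exact Or.inr (Or.inr (Finset.mem_sdiff.2 ⟨g4, g3⟩))
              · left; right; left
                rw [hmU]
                refine ⟨?_, g4, hxL, g1, g2⟩
                by_contra hxG
                exact g1 (hQBB (Finset.mem_sdiff.2 ⟨Finset.mem_univ _, hxG⟩))
    have h2 : Disjoint (vs (QB ∪ (QM ∪ QP))) (vs A ∪ R1) := by
      rw [Finset.disjoint_left]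
      intro x hx hx'
      rw [vs_union, Finset.mem_union, hvMP] at hx
      rw [Finset.mem_union] at hx'
      rcases hx' with h | h
      · rcases hx with h' | h' | h'
        · exact Finset.disjoint_left.1 hAQB (mem_vs.1 h) (mem_vs.1 h')
        · exact ((hmU x).1 h').2.2.2.2 h
        · exact hAΩ _ (mem_vs.1 h) (hZΩ (mem_vs.1 h'))
      · rcases hx with h' | h' | h'
        · exact hQBR x (hR1R h) h'
        · exact hUR x h' (hR1R h)
        · exact (Finset.mem_sdiff.1 h).2 h'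
    have h3 : Disjoint (vs A) R1 := by
      rw [Finset.disjoint_left]
      intro x hx hx'
      exact Finset.disjoint_left.1 hAR (mem_vs.1 hx) (mem_dg.2 ⟨rfl, hR1R hx'⟩)
    rw [← Finset.card_union_of_disjoint h3, ← Finset.card_union_of_disjoint h2, h1,
      Finset.card_sdiff_of_subset (Finset.subset_univ L), hLcard, Finset.card_univ]
    omega
  -- parity
  have hAev : ∃ a : ℕ, (vs A).card + (R.card - μ) = 2 * a := by
    obtain ⟨R', hR', hR'c⟩ := Finset.exists_subset_card_eq (Nat.sub_le R.card μ)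
    obtain ⟨a, ha⟩ := even_card (hAt R' hR' hR'c)
    rw [vs_union, vs_dg, Finset.card_union_of_disjoint, hR'c] at ha
    · exact ⟨a, ha⟩
    · rw [Finset.disjoint_left]
      intro x hx hx'
      exact Finset.disjoint_left.1 hAR (mem_vs.1 hx) (mem_dg.2 ⟨rfl, hR' hx'⟩)
  obtain ⟨e1, he1⟩ := even_card hE1
  obtain ⟨a, ha⟩ := hAev
  have hR1R' := Finset.card_le_card hR1R
  obtain ⟨i, j, hij⟩ := tiles_num (R1.card - (R.card - μ)) (by omega)
    (by rw [Nat.even_iff]; omega)
  obtain ⟨QT, hQTt, hQTZ, hQTΩ, hQTG, hQTc⟩ := tilesΩ hG hU hO Z i j (by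
    have h1 : i + j ≤ μ := by omega
    have h2 : K * (i + j) ≤ K * μ := Nat.mul_le_mul_left _ h1
    have h3 : K * (k + μ) = K * k + K * μ := by ring
    omega)
  have hQTR1 : vs QT ⊆ R1 := by
    intro x hx
    rw [hR1, Finset.mem_sdiff, hR, Finset.mem_inter]
    exact ⟨⟨mem_vs.2 (hQTΩ (mem_vs.1 hx)), hQTG hx⟩,
      fun h => Finset.disjoint_left.1 (vs_disj hQTZ) hx h⟩
  have hR'c : (R1 \ vs QT).card = R.card - μ := by
    have h1 := Finset.card_sdiff_add_card_eq_card hQTR1
    omega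
  have hQA := hAt (R1 \ vs QT) (Finset.sdiff_subset.trans hR1R) hR'c
  have hTA : Disjoint QT (A ∪ dg (R1 \ vs QT)) := by
    rw [Finset.disjoint_left]
    intro x hx hx'
    rw [Finset.mem_union, mem_dg] at hx'
    rcases hx' with h | ⟨h1, h2⟩
    · exact hAΩ x h (hQTΩ hx)
    · rw [diag_eq h1] at hx
      exact (Finset.mem_sdiff.1 h2).2 (mem_vs.2 hx)
  have hE2 := tile2 hU hQTt hQA hTA
  have hE12 : Disjoint (QB ∪ (QM ∪ QP)) (QT ∪ (A ∪ dg (R1 \ vs QT))) := by
    rw [Finset.disjoint_left]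
    intro x hx hx'
    rw [Finset.mem_union] at hx
    rw [Finset.mem_union, Finset.mem_union, mem_dg] at hx'
    rcases hx' with h | h | ⟨h1, h2⟩
    · rcases hx with hx | hx
      · have h3 := hQBΩ x hx (hQTΩ h)
        rw [diag_eq h3.1] at h
        exact h3.2 (hQTG (mem_vs.2 h))
      · rcases hMPz x hx with hx | hx
        · rw [hmΓ] at hx
          rcases hx with ⟨h3, h4⟩ | h3
          · rw [diag_eq h3] at h
            exact hUR _ h4 (hR1R (hQTR1 (mem_vs.2 h)))
          · exact h3.2.1 (hQTΩ h)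
        · exact Finset.disjoint_left.1 hQTZ h hx
    · rcases hx with hx | hx
      · exact Finset.disjoint_left.1 hAQB h hx
      · rcases hMPz x hx with hx | hx
        · rw [hmΓ] at hx
          rcases hx with ⟨h3, h4⟩ | h3
          · rw [diag_eq h3] at h
            exact ((hmU _).1 h4).2.2.2.2 (mem_vs.2 h)
          · exact h3.2.2.2 h
        · exact hAΩ x h (hZΩ hx)
    · have h3 := hR1R (Finset.sdiff_subset h2)
      rw [diag_eq h1] at hx
      have hx' : x.1 ∈ vs (QB ∪ (QM ∪ QP)) := mem_vs.2 (Finset.mem_union.2 hx)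
      rw [vs_union, Finset.mem_union, hvMP] at hx'
      rcases hx' with h' | h' | h'
      · exact hQBR _ h3 h'
      · exact hUR _ h' h3
      · exact (Finset.mem_sdiff.1 (Finset.sdiff_subset h2)).2 h'
  refine hD V sc _ t (tile2 hU hE1 hE2 hE12) ?_
  rw [vs_union (QB ∪ (QM ∪ QP)), Finset.card_union_of_disjoint (vs_disj hE12)]
  have hv2 : (vs (QT ∪ (A ∪ dg (R1 \ vs QT)))).card = (vs A).card + R1.card := by
    rw [vs_union, Finset.card_union_of_disjoint (vs_disj hTA), vs_union, vs_dg,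
      Finset.card_union_of_disjoint, hQTc, hR'c]
    · omega
    · rw [Finset.disjoint_left]
      intro x hx hx'
      exact Finset.disjoint_left.1 hAR (mem_vs.1 hx)
        (mem_dg.2 ⟨rfl, hR1R (Finset.sdiff_subset hx')⟩)
  rw [hv2]
  exact hcount

end CORE_

end SpF
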