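import Pool.Agent.SpF.Targets

/-!
# RAND: Chernoff bound and union bound for families of disjoint sets
-/

namespace SpF
open Spider Finset

namespace RAND_

variable {I : Type} [Fintype I] [DecidableEq I]

/-- weight of a subset -/
noncomputable def w (p : ℝ) (Ω : Finset I) : ℝ := p ^ Ω.card * (1 - p) ^ (univ \ Ω).card

lemma w_nonneg {p : ℝ} (h0 : 0 ≤ p) (h1 : p ≤ 1) (Ω : Finset I) : 0 ≤ w p Ω := by
  have : 0 ≤ 1 - p := by linarith
  unfold w; positivity

lemma w_compl (p : ℝ) (Ω : Finset I) : w p (univ \ Ω) = w (1 - p) Ω := by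
  unfold w
  rw [sdiff_sdiff_right_self]
  simp only [inf_eq_inter, univ_inter, sub_sub_cancel]
  ring

lemma sum_w_sup (p : ℝ) (U : Finset I) :
    ∑ Ω : Finset I, w p Ω * (if U ⊆ Ω then 1 else 0) = p ^ U.card := by
  have h := Finset.prod_add (fun _ : I => p) (fun i => if i ∈ U then 0 else 1 - p) univ
  have hl : ∏ i : I, (p + if i ∈ U then 0 else 1 - p) = p ^ U.card := by
    have : ∀ i : I, (p + if i ∈ U then (0 : ℝ) else 1 - p) = if i ∈ U then p else 1 := by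
      intro i; split_ifs <;> ring
    simp_rw [this]
    rw [Finset.prod_ite]
    simp
  rw [hl] at h
  rw [h, powerset_univ]
  refine sum_congr rfl fun Ω _ => ?_
  unfold w
  rw [prod_const]
  by_cases hU : U ⊆ Ω
  · rw [if_pos hU]
    have : ∏ i ∈ univ \ Ω, (if i ∈ U then (0 : ℝ) else 1 - p) = ∏ i ∈ univ \ Ω, (1 - p) := by
      refine prod_congr rfl fun i hi => ?_
      rw [if_neg]
      intro hiU
      exact (mem_sdiff.1 hi).2 (hU hiU)
    rw [this, prod_const]; ring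
  · rw [if_neg hU]
    obtain ⟨i, hiU, hi⟩ := not_subset.1 hU
    have : ∏ i ∈ univ \ Ω, (if i ∈ U then (0 : ℝ) else 1 - p) = 0 :=
      prod_eq_zero (mem_sdiff.2 ⟨mem_univ i, hi⟩) (by rw [if_pos hiU])
    rw [this]; ring

lemma sum_w (p : ℝ) : ∑ Ω : Finset I, w p Ω = 1 := by
  have := sum_w_sup (I := I) p ∅
  simpa using this

lemma exp_prod (p a : ℝ) (𝒢 : Finset (Finset I))
    (hdis : (𝒢 : Set (Finset I)).PairwiseDisjoint id) :
    ∑ Ω : Finset I, w p Ω * ∏ G ∈ 𝒢, (if G ⊆ Ω then a else 1) =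
      ∏ G ∈ 𝒢, (1 + (a - 1) * p ^ G.card) := by
  have h1 : ∀ Ω : Finset I, ∏ G ∈ 𝒢, (if G ⊆ Ω then a else 1) =
      ∑ 𝒮 ∈ 𝒢.powerset, (a - 1) ^ 𝒮.card * (if 𝒮.biUnion id ⊆ Ω then 1 else 0) := by
    intro Ω
    have : ∀ G, (if G ⊆ Ω then a else 1) = 1 + (if G ⊆ Ω then a - 1 else 0) := by
      intro G; split_ifs <;> ring
    simp_rw [this]
    rw [Finset.prod_one_add]
    refine sum_congr rfl fun 𝒮 _ => ?_
    by_cases hS : 𝒮.biUnion id ⊆ Ω
    · rw [if_pos hS, mul_one, ← prod_const]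
      refine prod_congr rfl fun G hG => ?_
      rw [if_pos]
      exact (subset_biUnion_of_mem id hG).trans hS
    · rw [if_neg hS, mul_zero]
      rw [biUnion_subset] at hS
      push Not at hS
      obtain ⟨G, hG, hGΩ⟩ := hS
      exact prod_eq_zero hG (if_neg hGΩ)
  simp_rw [h1, mul_sum]
  rw [sum_comm, Finset.prod_one_add]
  refine sum_congr rfl fun 𝒮 hS => ?_
  have h2 : ∀ Ω : Finset I, w p Ω * ((a - 1) ^ 𝒮.card * (if 𝒮.biUnion id ⊆ Ω then 1 else 0)) =
      (a - 1) ^ 𝒮.card * (w p Ω * (if 𝒮.biUnion id ⊆ Ω then 1 else 0)) := by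
    intro Ω; ring
  simp_rw [h2]
  rw [← mul_sum, sum_w_sup, prod_mul_distrib, prod_const, prod_pow_eq_pow_sum]
  congr 2
  rw [card_biUnion]
  · simp
  · intro x hx y hy hxy
    exact hdis (mem_powerset.1 hS hx) (mem_powerset.1 hS hy) hxy

/-- Chernoff -/
lemma chernoff {p : ℝ} (h0 : 0 ≤ p) (h1 : p ≤ 1) (𝒢 : Finset (Finset I))
    (hdis : (𝒢 : Set (Finset I)).PairwiseDisjoint id) (k N : ℕ) (hk : ∀ G ∈ 𝒢, G.card ≤ k)
    (hN : 𝒢.card ≤ N) {τ : ℝ} (hτ : 0 < τ) :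
    ∑ Ω : Finset I, (if ((𝒢.filter fun G => G ⊆ Ω).card : ℝ) < p ^ k * 𝒢.card - τ * N
      then w p Ω else 0) ≤ Real.exp (-(τ ^ 2 * N / 2)) := by
  set x : ℝ := p ^ k * 𝒢.card with hx
  have hpk : 0 ≤ p ^ k := by positivity
  have hpk1 : p ^ k ≤ 1 := pow_le_one₀ h0 h1
  have hxN : x ≤ N := by
    have : (𝒢.card : ℝ) ≤ N := by exact_mod_cast hN
    calc x ≤ 1 * 𝒢.card := by rw [hx]; gcongr
      _ ≤ N := by rw [one_mul]; exact this
  have hx0 : 0 ≤ x := by positivity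
  have hexp : ∀ Ω : Finset I, Real.exp (-(τ * (𝒢.filter fun G => G ⊆ Ω).card)) =
      ∏ G ∈ 𝒢, (if G ⊆ Ω then Real.exp (-τ) else 1) := by
    intro Ω
    rw [prod_ite, prod_const, prod_const_one, mul_one, ← Real.exp_nat_mul]
    congr 1; ring
  have hE := exp_prod p (Real.exp (-τ)) 𝒢 hdis
  simp_rw [← hexp] at hE
  have hle : ∏ G ∈ 𝒢, (1 + (Real.exp (-τ) - 1) * p ^ G.card) ≤
      Real.exp (-(x * (τ - τ ^ 2 / 2))) := by
    have hq : 1 - Real.exp (-τ) ≥ τ - τ ^ 2 / 2 := by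
      have h3 : 1 + τ + τ ^ 2 / 2 ≤ Real.exp τ := Real.quadratic_le_exp_of_nonneg hτ.le
      have h4 : Real.exp (-τ) * Real.exp τ = 1 := by rw [← Real.exp_add]; simp
      have h5 : 0 < Real.exp (-τ) := Real.exp_pos _
      have h6 : Real.exp (-τ) * (1 + τ + τ ^ 2 / 2) ≤ 1 := by
        calc _ ≤ Real.exp (-τ) * Real.exp τ := mul_le_mul_of_nonneg_left h3 h5.le
          _ = 1 := h4
      have h7 : 1 ≤ (1 - τ + τ ^ 2 / 2) * (1 + τ + τ ^ 2 / 2) := by
        have h10 : (1 - τ + τ ^ 2 / 2) * (1 + τ + τ ^ 2 / 2) = 1 + τ ^ 4 / 4 := by ring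
        have h11 : 0 ≤ τ ^ 4 := by positivity
        rw [h10]; linarith
      have h8 : 0 < 1 + τ + τ ^ 2 / 2 := by positivity
      have h9 : Real.exp (-τ) * (1 + τ + τ ^ 2 / 2) ≤
          (1 - τ + τ ^ 2 / 2) * (1 + τ + τ ^ 2 / 2) := h6.trans h7
      have := le_of_mul_le_mul_right h9 h8
      linarith
    have hq0 : 0 ≤ 1 - Real.exp (-τ) := by
      have : Real.exp (-τ) ≤ 1 := Real.exp_le_one_iff.2 (by linarith)
      linarith
    calc ∏ G ∈ 𝒢, (1 + (Real.exp (-τ) - 1) * p ^ G.card)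
        ≤ ∏ G ∈ 𝒢, Real.exp (-((1 - Real.exp (-τ)) * p ^ k)) := by
          refine prod_le_prod (fun G hG => ?_) (fun G hG => ?_)
          · have h2 : p ^ G.card ≤ 1 := pow_le_one₀ h0 h1
            have h3 : 0 ≤ p ^ G.card := by positivity
            have h4 : 0 < Real.exp (-τ) := Real.exp_pos _
            nlinarith
          · have h2 : p ^ k ≤ p ^ G.card := pow_le_pow_of_le_one h0 h1 (hk G hG)
            have h3 : 1 - (1 - Real.exp (-τ)) * p ^ k ≤
                Real.exp (-((1 - Real.exp (-τ)) * p ^ k)) := by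
              have := Real.add_one_le_exp (-((1 - Real.exp (-τ)) * p ^ k))
              linarith
            refine le_trans ?_ h3
            nlinarith
      _ = Real.exp (-(x * (1 - Real.exp (-τ)))) := by
          rw [prod_const, ← Real.exp_nat_mul]
          congr 1; rw [hx]; ring
      _ ≤ Real.exp (-(x * (τ - τ ^ 2 / 2))) := by
          apply Real.exp_le_exp.2
          nlinarith
  have hmark : (∑ Ω : Finset I, (if ((𝒢.filter fun G => G ⊆ Ω).card : ℝ) < x - τ * N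
      then w p Ω else 0)) * Real.exp (-(τ * (x - τ * N))) ≤
      Real.exp (-(x * (τ - τ ^ 2 / 2))) := by
    refine le_trans ?_ hle
    rw [← hE, sum_mul]
    refine sum_le_sum fun Ω _ => ?_
    split_ifs with h
    · have : Real.exp (-(τ * (x - τ * N))) ≤
          Real.exp (-(τ * (𝒢.filter fun G => G ⊆ Ω).card)) := by
        apply Real.exp_le_exp.2
        nlinarith
      exact mul_le_mul_of_nonneg_left this (w_nonneg h0 h1 Ω)
    · rw [zero_mul]
      exact mul_nonneg (w_nonneg h0 h1 Ω) (Real.exp_pos _).le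
  have h5 : (∑ Ω : Finset I, (if ((𝒢.filter fun G => G ⊆ Ω).card : ℝ) < x - τ * N
      then w p Ω else 0)) ≤ Real.exp (-(x * (τ - τ ^ 2 / 2))) *
        Real.exp (τ * (x - τ * N)) := by
    have h6 : Real.exp (-(τ * (x - τ * N))) * Real.exp (τ * (x - τ * N)) = 1 := by
      rw [← Real.exp_add]; simp
    calc _ = (∑ Ω : Finset I, (if ((𝒢.filter fun G => G ⊆ Ω).card : ℝ) < x - τ * N
      then w p Ω else 0)) * Real.exp (-(τ * (x - τ * N))) * Real.exp (τ * (x - τ * N)) := by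
          rw [mul_assoc, h6, mul_one]
      _ ≤ _ := mul_le_mul_of_nonneg_right hmark (Real.exp_pos _).le
  refine h5.trans ?_
  rw [← Real.exp_add]
  apply Real.exp_le_exp.2
  nlinarith [mul_nonneg (sq_nonneg τ) hx0, mul_le_mul_of_nonneg_left hxN (sq_nonneg τ)]

lemma exists_N (a : ℝ) (ha : 0 < a) : ∃ N₀ : ℕ, ∀ N : ℕ, N₀ ≤ N →
    2 * (N : ℝ) ^ 4 * Real.exp (-(a * N)) < 1 := by
  have h1 : Filter.Tendsto (fun x : ℝ => x ^ 4 * Real.exp (-x)) Filter.atTop (nhds 0) :=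
    Real.tendsto_pow_mul_exp_neg_atTop_nhds_zero 4
  have h2 : Filter.Tendsto (fun N : ℕ => a * (N : ℝ)) Filter.atTop Filter.atTop :=
    Filter.Tendsto.const_mul_atTop ha tendsto_natCast_atTop_atTop
  have h3 := h1.comp h2
  have h4 : ∀ᶠ N : ℕ in Filter.atTop,
      ((fun x : ℝ => x ^ 4 * Real.exp (-x)) ∘ fun N : ℕ => a * (N : ℝ)) N < a ^ 4 / 2 := by
    apply h3.eventually_lt_const
    positivity
  rw [Filter.eventually_atTop] at h4
  obtain ⟨N₀, hN₀⟩ := h4
  refine ⟨N₀, fun N hN => ?_⟩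
  have := hN₀ N hN
  simp only [Function.comp] at this
  have ha4 : 0 < a ^ 4 / 2 := by positivity
  have e : a ^ 4 / 2 * (2 * (N : ℝ) ^ 4 * Real.exp (-(a * N))) < a ^ 4 / 2 * 1 := by
    calc _ = (a * (N : ℝ)) ^ 4 * Real.exp (-(a * N)) := by ring
      _ < _ := this
      _ = _ := by ring
  exact lt_of_mul_lt_mul_left e ha4.le

end RAND_

open RAND_ in
theorem p_RAND : T_RAND := by
  classical
  intro K ρ τ hρ hρ1 hτ
  obtain ⟨N₀, hN₀⟩ := exists_N (τ ^ 2 / 2) (by positivity)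
  refine ⟨N₀, ?_⟩
  intro I _ _ N hN J _ hJ k 𝒢 _ hdis hcard hsize
  by_contra hcon
  push Not at hcon
  -- bad events
  have hb1 : ∀ j, ∑ Ω : Finset I, (if (((𝒢 j).filter fun G => G ⊆ Ω).card : ℝ) <
      ρ ^ k j * (𝒢 j).card - τ * N then w ρ Ω else 0) ≤ Real.exp (-(τ ^ 2 * N / 2)) :=
    fun j => chernoff hρ.le hρ1.le (𝒢 j) (hdis j) (k j) N (hcard j) (hsize j) hτ
  have hb2 : ∀ j, ∑ Ω : Finset I, (if (((𝒢 j).filter fun G => Disjoint G Ω).card : ℝ) <
      (1 - ρ) ^ k j * (𝒢 j).card - τ * N then w ρ Ω else 0) ≤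
      Real.exp (-(τ ^ 2 * N / 2)) := by
    intro j
    have h := chernoff (p := 1 - ρ) (by linarith) (by linarith) (𝒢 j) (hdis j) (k j) N
      (hcard j) (hsize j) hτ
    refine le_trans (le_of_eq ?_) h
    refine Finset.sum_nbij' (fun Ω => univ \ Ω) (fun Ω => univ \ Ω) (by simp) (by simp)
      (by simp) (by simp) ?_
    intro Ω _
    have e1 : ((𝒢 j).filter fun G => G ⊆ univ \ Ω) = (𝒢 j).filter fun G => Disjoint G Ω := by
      refine filter_congr fun G _ => ?_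
      constructor
      · intro h
        rw [Finset.disjoint_left]
        intro x hx hxΩ
        exact (mem_sdiff.1 (h hx)).2 hxΩ
      · intro h x hx
        exact mem_sdiff.2 ⟨mem_univ x, Finset.disjoint_left.1 h hx⟩
    have e2 : w (1 - ρ) (univ \ Ω) = w ρ Ω := by
      rw [w_compl]; congr 1; ring
    simp only [e1, e2]
  have htot : ∑ j, (∑ Ω : Finset I, (if (((𝒢 j).filter fun G => G ⊆ Ω).card : ℝ) <
      ρ ^ k j * (𝒢 j).card - τ * N then w ρ Ω else 0) +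
      ∑ Ω : Finset I, (if (((𝒢 j).filter fun G => Disjoint G Ω).card : ℝ) <
      (1 - ρ) ^ k j * (𝒢 j).card - τ * N then w ρ Ω else 0)) < 1 := by
    calc _ ≤ ∑ _j : J, (2 * Real.exp (-(τ ^ 2 * N / 2))) := by
          refine sum_le_sum fun j _ => ?_
          linarith [hb1 j, hb2 j]
      _ = (Fintype.card J : ℝ) * (2 * Real.exp (-(τ ^ 2 * N / 2))) := by
          rw [sum_const, card_univ, nsmul_eq_mul]
      _ ≤ ((N : ℝ) ^ 4) * (2 * Real.exp (-(τ ^ 2 * N / 2))) := by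
          have : (Fintype.card J : ℝ) ≤ (N : ℝ) ^ 4 := by exact_mod_cast hJ
          gcongr
      _ = 2 * (N : ℝ) ^ 4 * Real.exp (-(τ ^ 2 / 2 * N)) := by
          rw [show τ ^ 2 * (N : ℝ) / 2 = τ ^ 2 / 2 * N by ring]; ring
      _ < 1 := hN₀ N hN
  have hge : (1 : ℝ) ≤ ∑ j, (∑ Ω : Finset I, (if (((𝒢 j).filter fun G => G ⊆ Ω).card : ℝ) <
      ρ ^ k j * (𝒢 j).card - τ * N then w ρ Ω else 0) +
      ∑ Ω : Finset I, (if (((𝒢 j).filter fun G => Disjoint G Ω).card : ℝ) <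
      (1 - ρ) ^ k j * (𝒢 j).card - τ * N then w ρ Ω else 0)) := by
    simp_rw [← sum_add_distrib]
    rw [sum_comm]
    refine le_trans (le_of_eq (sum_w (I := I) ρ).symm) ?_
    refine sum_le_sum fun Ω _ => ?_
    obtain ⟨j, hj⟩ := hcon Ω
    have hw := w_nonneg hρ.le hρ1.le Ω
    refine le_trans ?_ (Finset.single_le_sum (f := fun j =>
      ((if (((𝒢 j).filter fun G => G ⊆ Ω).card : ℝ) <
      ρ ^ k j * (𝒢 j).card - τ * N then w ρ Ω else 0) +
      (if (((𝒢 j).filter fun G => Disjoint G Ω).card : ℝ) <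
      (1 - ρ) ^ k j * (𝒢 j).card - τ * N then w ρ Ω else 0))) (fun j _ => ?_) (mem_univ j))
    · by_cases h1 : (((𝒢 j).filter fun G => G ⊆ Ω).card : ℝ) <
        ρ ^ k j * (𝒢 j).card - τ * N
      · simp only [if_pos h1]
        split_ifs <;> linarith
      · have h2 := hj (not_lt.1 h1)
        simp only [if_pos h2]
        split_ifs <;> linarith
    · split_ifs <;> linarith
  linarith

end SpF
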