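import Pool.Agent.SpF.Targets

/-!
# From an exact fractional structure to a near-perfect structure

The ends are chosen at random (independently, with the probabilities `α`); second moments show
that the weights of the usable cells form, after trimming, a fractional matching of a linear
hypergraph whose total weight is `n/2 - O(√n)`; the nibble gives the structure.
-/

namespace SpF
open Spider Finset

namespace RS_

section prob
variable {V : Type} [Fintype V] [DecidableEq V]

/-- expectation with respect to independent coins -/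
noncomputable def Ex (q : V → Bool → ℝ) (f : (V → Bool) → ℝ) : ℝ :=
  ∑ s : V → Bool, (∏ v, q v (s v)) * f s

/-- coins with probabilities at least one third -/
structure Coin (q : V → Bool → ℝ) : Prop where
  low : ∀ v t, 1 / 3 ≤ q v t
  one : ∀ v, q v true + q v false = 1

lemma Coin.nn {q : V → Bool → ℝ} (hq : Coin q) (v : V) (t : Bool) : 0 ≤ q v t :=
  le_trans (by norm_num) (hq.low v t)

lemma Ex_prod (q : V → Bool → ℝ) (g : V → Bool → ℝ) :
    Ex q (fun s => ∏ v, g v (s v)) = ∏ v, (q v true * g v true + q v false * g v false) := by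
  unfold Ex
  have h1 : ∀ v, q v true * g v true + q v false * g v false = ∑ t : Bool, q v t * g v t := by
    intro v; rw [Fintype.sum_bool]
  simp_rw [h1]
  rw [Finset.prod_univ_sum, Fintype.piFinset_univ]
  exact Finset.sum_congr rfl fun s _ => (Finset.prod_mul_distrib).symm

lemma Ex_one {q : V → Bool → ℝ} (hq : Coin q) : Ex q (fun _ => 1) = 1 := by
  have h := Ex_prod q (fun _ _ => 1)
  simp only [Finset.prod_const_one, mul_one] at h
  rw [h]
  exact Finset.prod_eq_one fun v _ => hq.one v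

lemma Ex_add (q : V → Bool → ℝ) (f g : (V → Bool) → ℝ) :
    Ex q (fun s => f s + g s) = Ex q f + Ex q g := by
  unfold Ex
  rw [← Finset.sum_add_distrib]
  exact Finset.sum_congr rfl fun s _ => by ring

lemma Ex_mul (q : V → Bool → ℝ) (c : ℝ) (f : (V → Bool) → ℝ) :
    Ex q (fun s => c * f s) = c * Ex q f := by
  unfold Ex
  rw [Finset.mul_sum]
  exact Finset.sum_congr rfl fun s _ => by ring

lemma Ex_const {q : V → Bool → ℝ} (hq : Coin q) (c : ℝ) : Ex q (fun _ => c) = c := by
  have h := Ex_mul q c (fun _ => 1)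
  rw [Ex_one hq] at h
  simpa using h

lemma Ex_sum {ι : Type} (q : V → Bool → ℝ) (A : Finset ι) (f : ι → (V → Bool) → ℝ) :
    Ex q (fun s => ∑ i ∈ A, f i s) = ∑ i ∈ A, Ex q (f i) := by
  unfold Ex
  rw [Finset.sum_comm]
  exact Finset.sum_congr rfl fun s _ => Finset.mul_sum _ _ _

lemma Ex_mono {q : V → Bool → ℝ} (hq : Coin q) (f g : (V → Bool) → ℝ) (h : ∀ s, f s ≤ g s) :
    Ex q f ≤ Ex q g := by
  unfold Ex
  exact Finset.sum_le_sum fun s _ =>
    mul_le_mul_of_nonneg_left (h s) (Finset.prod_nonneg fun v _ => hq.nn v _)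

/-- some outcome is at least as good as the average -/
lemma exists_ge {q : V → Bool → ℝ} (hq : Coin q) (f : (V → Bool) → ℝ) (c : ℝ)
    (h : c ≤ Ex q f) : ∃ s, c ≤ f s := by
  by_contra hcon
  push Not at hcon
  have hpos : ∀ s : V → Bool, 0 < ∏ v, q v (s v) := fun s =>
    Finset.prod_pos fun v _ => lt_of_lt_of_le (by norm_num) (hq.low v _)
  have h2 : Ex q f < Ex q (fun _ => c) := by
    unfold Ex
    apply Finset.sum_lt_sum_of_nonempty
    · exact ⟨fun _ => true, Finset.mem_univ _⟩
    · intro s _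
      exact mul_lt_mul_of_pos_left (hcon s) (hpos s)
  rw [Ex_const hq] at h2
  linarith

/-- value of a literal -/
def hh : Option Bool → Bool → ℝ
  | none, _ => 1
  | some t', t => if t = t' then 1 else 0

/-- probability of a literal -/
def pb (q : V → Bool → ℝ) (v : V) : Option Bool → ℝ
  | none => 1
  | some t => q v t

/-- indicator of a partial assignment -/
def tau (D : V → Option Bool) (s : V → Bool) : ℝ := ∏ v, hh (D v) (s v)

lemma hh_nonneg (o : Option Bool) (t : Bool) : 0 ≤ hh o t := by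
  cases o with
  | none => simp [hh]
  | some a => simp only [hh]; split_ifs <;> norm_num

lemma hh_le (o : Option Bool) (t : Bool) : hh o t ≤ 1 := by
  cases o with
  | none => simp [hh]
  | some a => simp only [hh]; split_ifs <;> norm_num

lemma tau_nonneg (D : V → Option Bool) (s : V → Bool) : 0 ≤ tau D s :=
  Finset.prod_nonneg fun _ _ => hh_nonneg _ _

lemma tau_le (D : V → Option Bool) (s : V → Bool) : tau D s ≤ 1 :=
  Finset.prod_le_one (fun _ _ => hh_nonneg _ _) fun _ _ => hh_le _ _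

lemma pb_nonneg {q : V → Bool → ℝ} (hq : Coin q) (v : V) (o : Option Bool) : 0 ≤ pb q v o := by
  cases o with
  | none => simp [pb]
  | some a => exact hq.nn v a

lemma Ex_tau {q : V → Bool → ℝ} (hq : Coin q) (D : V → Option Bool) :
    Ex q (tau D) = ∏ v, pb q v (D v) := by
  have h := Ex_prod q (fun v t => hh (D v) t)
  have h2 : Ex q (tau D) = Ex q (fun s => ∏ v, hh (D v) (s v)) := rfl
  rw [h2, h]
  refine Finset.prod_congr rfl fun v _ => ?_
  have h1 := hq.one v
  cases hD : D v with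
  | none => simp [hh, pb, h1]
  | some a => cases a <;> simp [hh, pb]

lemma Ex_tau_nonneg {q : V → Bool → ℝ} (hq : Coin q) (D : V → Option Bool) :
    0 ≤ Ex q (tau D) := by
  rw [Ex_tau hq]
  exact Finset.prod_nonneg fun v _ => pb_nonneg hq v _

lemma Ex_tau_mul {q : V → Bool → ℝ} (hq : Coin q) (D D' : V → Option Bool)
    (h : ∀ v, D v = none ∨ D' v = none) :
    Ex q (fun s => tau D s * tau D' s) = Ex q (tau D) * Ex q (tau D') := by
  have h0 : Ex q (fun s => tau D s * tau D' s)
      = Ex q (fun s => ∏ v, (hh (D v) (s v) * hh (D' v) (s v))) := by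
    congr 1
    funext s
    exact Finset.prod_mul_distrib.symm
  have h1 := Ex_prod q (fun v t => hh (D v) t * hh (D' v) t)
  rw [h0, h1, Ex_tau hq, Ex_tau hq, ← Finset.prod_mul_distrib]
  refine Finset.prod_congr rfl fun v _ => ?_
  have h2 := hq.one v
  rcases h v with h3 | h3
  · rw [h3]
    cases hD : D' v with
    | none => simp [hh, pb, h2]
    | some a => cases a <;> simp [hh, pb]
  · rw [h3]
    cases hD : D v with
    | none => simp [hh, pb, h2]
    | some a => cases a <;> simp [hh, pb]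

lemma Ex_tau_mul_le {q : V → Bool → ℝ} (hq : Coin q) (D D' : V → Option Bool) :
    Ex q (fun s => tau D s * tau D' s) ≤ Ex q (tau D) := by
  apply Ex_mono hq
  intro s
  exact mul_le_of_le_one_right (tau_nonneg _ _) (tau_le _ _)

/-- second moment of a weighted sum of partial assignments -/
lemma var {ι : Type} {q : V → Bool → ℝ} (hq : Coin q) (J : Finset ι)
    (D : ι → V → Option Bool) (c : ι → ℝ) (A K : ℝ) (hc : ∀ j ∈ J, 0 ≤ c j)
    (hA : ∀ j ∈ J, c j ≤ A) (hA0 : 0 ≤ A)
    (T : ι → Finset ι) (hT : ∀ j ∈ J, T j ⊆ J)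
    (hK : ∀ j ∈ J, ((T j).card : ℝ) ≤ K)
    (hdis : ∀ j ∈ J, ∀ j' ∈ J, j' ∉ T j → ∀ v, D j v = none ∨ D j' v = none) :
    Ex q (fun s => (∑ j ∈ J, c j * tau (D j) s - ∑ j ∈ J, c j * Ex q (tau (D j))) ^ 2)
      ≤ K * A * ∑ j ∈ J, c j * Ex q (tau (D j)) := by
  classical
  set μ : ℝ := ∑ j ∈ J, c j * Ex q (tau (D j)) with hμ
  have e1 : Ex q (fun s => (∑ j ∈ J, c j * tau (D j) s - μ) ^ 2)
      = Ex q (fun s => ∑ j ∈ J, ∑ j' ∈ J, c j * c j' * (tau (D j) s * tau (D j') s))
        + (-2 * μ) * Ex q (fun s => ∑ j ∈ J, c j * tau (D j) s) + μ ^ 2 := by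
    rw [← Ex_mul, ← Ex_add, ← Ex_const hq (μ ^ 2), ← Ex_add]
    congr 1
    funext s
    have : ∑ j ∈ J, ∑ j' ∈ J, c j * c j' * (tau (D j) s * tau (D j') s)
        = (∑ j ∈ J, c j * tau (D j) s) ^ 2 := by
      rw [sq, Finset.sum_mul_sum]
      exact Finset.sum_congr rfl fun j _ => Finset.sum_congr rfl fun j' _ => by ring
    rw [this]
    ring
  have e2 : Ex q (fun s => ∑ j ∈ J, c j * tau (D j) s) = μ := by
    rw [Ex_sum q J (fun j s => c j * tau (D j) s)]
    exact Finset.sum_congr rfl fun j _ => Ex_mul q (c j) (tau (D j))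
  have e3 : Ex q (fun s => ∑ j ∈ J, ∑ j' ∈ J, c j * c j' * (tau (D j) s * tau (D j') s))
      = ∑ j ∈ J, ∑ j' ∈ J, c j * c j' * Ex q (fun s => tau (D j) s * tau (D j') s) := by
    rw [Ex_sum q J (fun j s => ∑ j' ∈ J, c j * c j' * (tau (D j) s * tau (D j') s))]
    refine Finset.sum_congr rfl fun j _ => ?_
    rw [Ex_sum q J (fun j' s => c j * c j' * (tau (D j) s * tau (D j') s))]
    exact Finset.sum_congr rfl fun j' _ => Ex_mul q _ _
  have e4 : μ ^ 2 = ∑ j ∈ J, ∑ j' ∈ J, c j * c j' * (Ex q (tau (D j)) * Ex q (tau (D j'))) := by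
    rw [sq, hμ, Finset.sum_mul_sum]
    exact Finset.sum_congr rfl fun j _ => Finset.sum_congr rfl fun j' _ => by ring
  have e5 : Ex q (fun s => (∑ j ∈ J, c j * tau (D j) s - μ) ^ 2)
      = ∑ j ∈ J, ∑ j' ∈ J, c j * c j' * (Ex q (fun s => tau (D j) s * tau (D j') s)
          - Ex q (tau (D j)) * Ex q (tau (D j'))) := by
    rw [e1, e2, e3]
    have : ∑ j ∈ J, ∑ j' ∈ J, c j * c j' * (Ex q (fun s => tau (D j) s * tau (D j') s)
          - Ex q (tau (D j)) * Ex q (tau (D j')))
        = ∑ j ∈ J, ∑ j' ∈ J, c j * c j' * Ex q (fun s => tau (D j) s * tau (D j') s) - μ ^ 2 := by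
      rw [e4, ← Finset.sum_sub_distrib]
      refine Finset.sum_congr rfl fun j _ => ?_
      rw [← Finset.sum_sub_distrib]
      exact Finset.sum_congr rfl fun j' _ => by ring
    rw [this]
    ring
  rw [e5, hμ, Finset.mul_sum]
  refine Finset.sum_le_sum fun j hj => ?_
  have t0 := Ex_tau_nonneg hq (D j)
  calc ∑ j' ∈ J, c j * c j' * (Ex q (fun s => tau (D j) s * tau (D j') s)
          - Ex q (tau (D j)) * Ex q (tau (D j')))
      ≤ ∑ j' ∈ J, (if j' ∈ T j then c j * A * Ex q (tau (D j)) else 0) := by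
        refine Finset.sum_le_sum fun j' hj' => ?_
        have t1 := Ex_tau_nonneg hq (D j')
        split_ifs with hjj
        · have h1 := Ex_tau_mul_le hq (D j) (D j')
          have h2 : Ex q (fun s => tau (D j) s * tau (D j') s)
              - Ex q (tau (D j)) * Ex q (tau (D j')) ≤ Ex q (tau (D j)) := by
            have := mul_nonneg t0 t1
            linarith
          calc c j * c j' * (Ex q (fun s => tau (D j) s * tau (D j') s)
                - Ex q (tau (D j)) * Ex q (tau (D j')))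
              ≤ c j * c j' * Ex q (tau (D j)) :=
                mul_le_mul_of_nonneg_left h2 (mul_nonneg (hc j hj) (hc j' hj'))
            _ ≤ c j * A * Ex q (tau (D j)) := by
                apply mul_le_mul_of_nonneg_right _ t0
                exact mul_le_mul_of_nonneg_left (hA j' hj') (hc j hj)
        · rw [Ex_tau_mul hq (D j) (D j') (hdis j hj j' hj' hjj)]
          simp
    _ = ((T j).card : ℝ) * (c j * A * Ex q (tau (D j))) := by
        rw [← Finset.sum_filter, Finset.sum_const, nsmul_eq_mul]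
        congr 2
        congr 1
        ext x
        rw [Finset.mem_filter]
        exact ⟨fun h => h.2, fun h => ⟨hT j hj h, h⟩⟩
    _ ≤ K * (c j * A * Ex q (tau (D j))) := by
        apply mul_le_mul_of_nonneg_right (hK j hj)
        exact mul_nonneg (mul_nonneg (hc j hj) hA0) t0
    _ = K * A * (c j * Ex q (tau (D j))) := by ring

/-- expected excess over one -/
lemma exc {q : V → Bool → ℝ} (hq : Coin q) (F : (V → Bool) → ℝ) (μ B r : ℝ)
    (hμ0 : 0 ≤ μ) (hμ1 : μ ≤ 1) (hB : 1 ≤ B) (hr : 1 ≤ r)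
    (hv : Ex q (fun s => (F s - μ) ^ 2) ≤ B * μ / r ^ 2) :
    Ex q (fun s => max 0 (F s - 1)) ≤ 2 * B * μ / r := by
  have hr0 : 0 < r := by linarith
  by_cases h : μ ≤ 1 / 2
  · calc Ex q (fun s => max 0 (F s - 1)) ≤ Ex q (fun s => 2 * (F s - μ) ^ 2) := by
          apply Ex_mono hq
          intro s
          apply max_le (by positivity)
          by_cases h1 : F s ≤ 1
          · have : 0 ≤ 2 * (F s - μ) ^ 2 := by positivity
            linarith
          · push Not at h1
            nlinarith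
      _ = 2 * Ex q (fun s => (F s - μ) ^ 2) := Ex_mul q 2 _
      _ ≤ 2 * (B * μ / r ^ 2) := by linarith
      _ ≤ 2 * B * μ / r := by
          have h2 : B * μ / r ^ 2 ≤ B * μ / r := by
            apply div_le_div_of_nonneg_left (by positivity) hr0
            nlinarith
          calc 2 * (B * μ / r ^ 2) ≤ 2 * (B * μ / r) := by linarith
            _ = 2 * B * μ / r := by ring
  · push Not at h
    calc Ex q (fun s => max 0 (F s - 1))
        ≤ Ex q (fun s => (r / 2) * (F s - μ) ^ 2 + 1 / (2 * r)) := by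
          apply Ex_mono hq
          intro s
          apply max_le (by positivity)
          have h1 : 0 ≤ (r * (F s - μ) - 1) ^ 2 / (2 * r) := by positivity
          have h2 : (r * (F s - μ) - 1) ^ 2 / (2 * r)
              = (r / 2) * (F s - μ) ^ 2 + 1 / (2 * r) - (F s - μ) := by
            field_simp
            ring
          linarith
      _ = (r / 2) * Ex q (fun s => (F s - μ) ^ 2) + 1 / (2 * r) := by
          rw [Ex_add q (fun s => (r / 2) * (F s - μ) ^ 2) (fun _ => 1 / (2 * r)), Ex_mul,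
            Ex_const hq]
      _ ≤ (r / 2) * (B * μ / r ^ 2) + 1 / (2 * r) := by
          have := mul_le_mul_of_nonneg_left hv (by positivity : (0:ℝ) ≤ r / 2)
          linarith
      _ = (B * μ + 1) / (2 * r) := by field_simp
      _ ≤ 2 * B * μ / r := by
          rw [div_le_div_iff₀ (by positivity) hr0]
          have h3 : 1 / 2 ≤ B * μ := by nlinarith
          have h4 : (B * μ + 1) * r ≤ (4 * (B * μ)) * r :=
            mul_le_mul_of_nonneg_right (by linarith) hr0.le
          linarith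

end prob

section cells
variable {V : Type} [DecidableEq V]

/-- rows, columns and colours -/
abbrev Om (V : Type) : Type := V ⊕ V ⊕ (V × V)

/-- the hyperedge of a cell -/
def he (sc : SC V) (p : V × V) : Finset (Om V) :=
  {Sum.inl p.1, Sum.inr (Sum.inl p.2), Sum.inr (Sum.inr (sc.col p.1 p.2))}

lemma mem_he {sc : SC V} {p : V × V} {x : Om V} : x ∈ he sc p ↔
    x = Sum.inl p.1 ∨ x = Sum.inr (Sum.inl p.2) ∨ x = Sum.inr (Sum.inr (sc.col p.1 p.2)) := by
  unfold he
  simp only [Finset.mem_insert, Finset.mem_singleton]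

lemma card_he (sc : SC V) (p : V × V) : (he sc p).card = 3 := by
  unfold he
  rw [Finset.card_eq_three]
  exact ⟨_, _, _, by simp, by simp, by simp, rfl⟩

/-- a common point of two hyperedges -/
lemma common {sc : SC V} {p p' : V × V} {x : Om V} (h : x ∈ he sc p) (h' : x ∈ he sc p') :
    (x = Sum.inl p.1 ∧ p.1 = p'.1) ∨ (x = Sum.inr (Sum.inl p.2) ∧ p.2 = p'.2) ∨
      (x = Sum.inr (Sum.inr (sc.col p.1 p.2)) ∧ sc.col p.1 p.2 = sc.col p'.1 p'.2) := by
  rw [mem_he] at h h'
  rcases h with rfl | rfl | rfl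
  · simp only [Sum.inl.injEq, reduceCtorEq, or_false] at h'
    exact Or.inl ⟨rfl, h'⟩
  · simp only [Sum.inr.injEq, Sum.inl.injEq, reduceCtorEq, or_false, false_or] at h'
    exact Or.inr (Or.inl ⟨rfl, h'⟩)
  · simp only [Sum.inr.injEq, reduceCtorEq, false_or] at h'
    exact Or.inr (Or.inr ⟨rfl, h'⟩)

lemma row_col {sc : SC V} {p p' : V × V} (hp : p.1 ≠ p.2) (hp' : p'.1 ≠ p'.2)
    (h1 : p.1 = p'.1) (h2 : sc.col p.1 p.2 = sc.col p'.1 p'.2) : p = p' := by
  by_contra hne
  have h3 : p.2 ≠ p'.2 := fun h => hne (Prod.ext h1 h)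
  rw [← h1] at h2 hp'
  exact sc.proper p.1 p.2 p'.2 hp hp' h3 h2

lemma col_col {sc : SC V} {p p' : V × V} (hp : p.1 ≠ p.2) (hp' : p'.1 ≠ p'.2)
    (h1 : p.2 = p'.2) (h2 : sc.col p.1 p.2 = sc.col p'.1 p'.2) : p = p' := by
  by_contra hne
  have h3 : p.1 ≠ p'.1 := fun h => hne (Prod.ext h h1)
  rw [← h1] at h2 hp'
  rw [sc.symm p.1 p.2, sc.symm p'.1 p.2] at h2
  exact sc.proper p.2 p.1 p'.1 hp.symm hp'.symm h3 h2

/-- two cells with two common points are equal -/
lemma lin {sc : SC V} {p p' : V × V} (hp : p.1 ≠ p.2) (hp' : p'.1 ≠ p'.2) {x y : Om V}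
    (hxy : x ≠ y) (hx : x ∈ he sc p) (hx' : x ∈ he sc p') (hy : y ∈ he sc p)
    (hy' : y ∈ he sc p') : p = p' := by
  rcases common hx hx' with ⟨e1, e2⟩ | ⟨e1, e2⟩ | ⟨e1, e2⟩ <;>
    rcases common hy hy' with ⟨f1, f2⟩ | ⟨f1, f2⟩ | ⟨f1, f2⟩
  · exact absurd (e1.trans f1.symm) hxy
  · exact Prod.ext e2 f2
  · exact row_col hp hp' e2 f2
  · exact Prod.ext f2 e2
  · exact absurd (e1.trans f1.symm) hxy
  · exact col_col hp hp' e2 f2
  · exact row_col hp hp' f2 e2
  · exact col_col hp hp' f2 e2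
  · exact absurd (e1.trans f1.symm) hxy

lemma he_inj {sc : SC V} {p p' : V × V} (h : he sc p = he sc p') : p = p' := by
  have h1 : Sum.inl p.1 ∈ he sc p' := h ▸ mem_he.2 (Or.inl rfl)
  have h2 : Sum.inr (Sum.inl p.2) ∈ he sc p' := h ▸ mem_he.2 (Or.inr (Or.inl rfl))
  rw [mem_he] at h1 h2
  simp only [Sum.inl.injEq, reduceCtorEq, or_false] at h1
  simp only [Sum.inr.injEq, Sum.inl.injEq, reduceCtorEq, or_false, false_or] at h2
  exact Prod.ext h1 h2

/-- the literals of a cell -/
def DD (sc : SC V) (p : V × V) (v : V) : Option Bool :=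
  if v = p.1 then some true else if v = p.2 then some false
    else if sc.col p.1 p.2 = (v, v) then some true else none

/-- the vertex of a point -/
def crd : Om V → Option V
  | Sum.inl b => some b
  | Sum.inr (Sum.inl a) => some a
  | Sum.inr (Sum.inr φ) => if φ.1 = φ.2 then some φ.1 else none

/-- the literals of a cell, without the one of the point `x` -/
def DX (sc : SC V) (x : Om V) (p : V × V) (v : V) : Option Bool :=
  if crd x = some v then none else DD sc p v

/-- the probability of a point -/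
def kap (q : V → Bool → ℝ) : Om V → ℝ
  | Sum.inl b => q b true
  | Sum.inr (Sum.inl a) => q a false
  | Sum.inr (Sum.inr φ) => if φ.1 = φ.2 then q φ.1 true else 1

lemma DD_ne {sc : SC V} {p : V × V} {v : V} (h : DD sc p v ≠ none) :
    Sum.inl v ∈ he sc p ∨ Sum.inr (Sum.inl v) ∈ he sc p ∨ Sum.inr (Sum.inr (v, v)) ∈ he sc p := by
  unfold DD at h
  split_ifs at h with h1 h2 h3
  · exact Or.inl (mem_he.2 (Or.inl (by rw [h1])))
  · exact Or.inr (Or.inl (mem_he.2 (Or.inr (Or.inl (by rw [h2])))))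
  · exact Or.inr (Or.inr (mem_he.2 (Or.inr (Or.inr (by rw [h3])))))
  · exact absurd rfl h

lemma DX_ne {sc : SC V} {x : Om V} {p : V × V} {v : V} (h : DX sc x p v ≠ none) :
    crd x ≠ some v ∧ DD sc p v ≠ none := by
  unfold DX at h
  split_ifs at h with h1
  · exact absurd rfl h
  · exact ⟨h1, h⟩

/-- the literal of a point of a cell -/
lemma pb_crd [Fintype V] {q : V → Bool → ℝ} (sc : SC V) {p : V × V} (hp : p.1 ≠ p.2) {x : Om V}
    (hx : x ∈ he sc p) (v : V) :
    pb q v (DD sc p v) = (if crd x = some v then kap q x else 1) * pb q v (DX sc x p v) := by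
  unfold DX
  split_ifs with h
  · rw [mem_he] at hx
    rcases hx with rfl | rfl | rfl
    · simp only [crd, Option.some.injEq] at h
      subst h
      simp [kap, DD, pb]
    · simp only [crd, Option.some.injEq] at h
      subst h
      simp [kap, DD, pb, hp.symm]
    · simp only [crd] at h
      split_ifs at h with h2
      simp only [Option.some.injEq] at h
      have h3 : sc.col p.1 p.2 = (v, v) := Prod.ext h (h2 ▸ h)
      have h4 : v ≠ p.1 := fun he => sc.star_ne p.1 p.2 hp (by rw [h3, he])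
      have h5 : v ≠ p.2 := fun he => sc.star_ne p.2 p.1 hp.symm (by rw [sc.symm, h3, he])
      simp [kap, DD, pb, h3, h4, h5]
  · rw [one_mul]

lemma kap_low {q : V → Bool → ℝ} [Fintype V] (hq : Coin q) (x : Om V) : 1 / 3 ≤ kap q x := by
  rcases x with b | a | φ
  · exact hq.low b true
  · exact hq.low a false
  · simp only [kap]
    split_ifs
    · exact hq.low _ _
    · norm_num

lemma Ex_DD [Fintype V] {q : V → Bool → ℝ} (hq : Coin q) (sc : SC V) {p : V × V}
    (hp : p.1 ≠ p.2) {x : Om V} (hx : x ∈ he sc p) (hfree : crd x = none → kap q x = 1) :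
    Ex q (tau (DD sc p)) = kap q x * Ex q (tau (DX sc x p)) := by
  rw [Ex_tau hq, Ex_tau hq]
  have h1 : ∏ v, pb q v (DD sc p v)
      = ∏ v, ((if crd x = some v then kap q x else 1) * pb q v (DX sc x p v)) :=
    Finset.prod_congr rfl fun v _ => pb_crd sc hp hx v
  rw [h1, Finset.prod_mul_distrib]
  congr 1
  cases hc : crd x with
  | none => simp [hfree hc]
  | some u => simp

lemma kap_free (q : V → Bool → ℝ) {x : Om V} (h : crd x = none) : kap q x = 1 := by
  rcases x with b | a | φ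
  · simp [crd] at h
  · simp [crd] at h
  · simp only [crd] at h
    split_ifs at h with h1
    simp [kap, h1]

lemma Ex_DD' [Fintype V] {q : V → Bool → ℝ} (hq : Coin q) (sc : SC V) {p : V × V}
    (hp : p.1 ≠ p.2) {x : Om V} (hx : x ∈ he sc p) :
    Ex q (tau (DD sc p)) = kap q x * Ex q (tau (DX sc x p)) :=
  Ex_DD hq sc hp hx fun h => kap_free q h

/-- the support of a cell -/
def sup3 (sc : SC V) (p : V × V) : Finset V := {p.1, p.2, (sc.col p.1 p.2).1}

lemma card_sup3 (sc : SC V) (p : V × V) : (sup3 sc p).card ≤ 3 := Finset.card_le_three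

lemma mem_sup3 {sc : SC V} {p : V × V} {v : V} (h : DD sc p v ≠ none) : v ∈ sup3 sc p := by
  unfold sup3
  simp only [Finset.mem_insert, Finset.mem_singleton]
  rcases DD_ne h with h | h | h <;> rw [mem_he] at h
  · simp only [Sum.inl.injEq, reduceCtorEq, or_false] at h
    exact Or.inl h
  · simp only [Sum.inr.injEq, Sum.inl.injEq, reduceCtorEq, or_false, false_or] at h
    exact Or.inr (Or.inl h)
  · simp only [Sum.inr.injEq, reduceCtorEq, false_or] at h
    exact Or.inr (Or.inr (by rw [← h]))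

lemma Ex_DD_low [Fintype V] {q : V → Bool → ℝ} (hq : Coin q) (sc : SC V) (p : V × V) :
    1 / 27 ≤ Ex q (tau (DD sc p)) := by
  rw [Ex_tau hq]
  have h1 : ∏ v ∈ sup3 sc p, pb q v (DD sc p v) = ∏ v, pb q v (DD sc p v) := by
    apply Finset.prod_subset (Finset.subset_univ _)
    intro v _ hv
    have : DD sc p v = none := by
      by_contra hne
      exact hv (mem_sup3 hne)
    rw [this]
    rfl
  rw [← h1]
  have h2 : ∏ v ∈ sup3 sc p, (1 / 3 : ℝ) ≤ ∏ v ∈ sup3 sc p, pb q v (DD sc p v) := by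
    apply Finset.prod_le_prod
    · intro v _; norm_num
    · intro v _
      cases DD sc p v with
      | none => simp only [pb]; norm_num
      | some a => exact hq.low v a
  rw [Finset.prod_const] at h2
  calc (1 / 27 : ℝ) = (1 / 3) ^ 3 := by norm_num
    _ ≤ (1 / 3) ^ (sup3 sc p).card := by
        apply pow_le_pow_of_le_one (by norm_num) (by norm_num) (card_sup3 sc p)
    _ ≤ _ := h2

/-- the cells related to `p` with respect to `x` -/
def TT (sc : SC V) (C : Finset (V × V)) (x : Om V) (p : V × V) : Finset (V × V) :=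
  (sup3 sc p).biUnion fun v =>
    ({Sum.inl v, Sum.inr (Sum.inl v), Sum.inr (Sum.inr (v, v))} : Finset (Om V)).biUnion fun y =>
      C.filter fun p' => x ≠ y ∧ x ∈ he sc p' ∧ y ∈ he sc p'

lemma card_TT (sc : SC V) (C : Finset (V × V)) (hC : ∀ p ∈ C, p.1 ≠ p.2) (x : Om V)
    (p : V × V) : (TT sc C x p).card ≤ 9 := by
  unfold TT
  have h1 : ∀ v ∈ sup3 sc p,
      (({Sum.inl v, Sum.inr (Sum.inl v), Sum.inr (Sum.inr (v, v))} : Finset (Om V)).biUnion
        fun y => C.filter fun p' => x ≠ y ∧ x ∈ he sc p' ∧ y ∈ he sc p').card ≤ 3 := by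
    intro v _
    have h2 := Finset.card_biUnion_le_card_mul
      ({Sum.inl v, Sum.inr (Sum.inl v), Sum.inr (Sum.inr (v, v))} : Finset (Om V))
      (fun y => C.filter fun p' => x ≠ y ∧ x ∈ he sc p' ∧ y ∈ he sc p') 1 (by
        intro y _
        rw [Finset.card_le_one]
        intro p1 hp1 p2 hp2
        rw [Finset.mem_filter] at hp1 hp2
        exact lin (hC p1 hp1.1) (hC p2 hp2.1) hp1.2.1 hp1.2.2.1 hp2.2.2.1 hp1.2.2.2 hp2.2.2.2)
    have h3 : ({Sum.inl v, Sum.inr (Sum.inl v), Sum.inr (Sum.inr (v, v))}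
      : Finset (Om V)).card ≤ 3 := Finset.card_le_three
    omega
  have h4 := Finset.card_biUnion_le_card_mul (sup3 sc p) _ 3 h1
  have h5 := card_sup3 sc p
  omega

lemma TT_sub (sc : SC V) (C : Finset (V × V)) (x : Om V) (p : V × V) :
    TT sc C x p ⊆ C.filter fun p' => x ∈ he sc p' := by
  intro p' hp'
  unfold TT at hp'
  simp only [Finset.mem_biUnion, Finset.mem_filter] at hp'
  obtain ⟨v, _, y, _, h1, _, h2, _⟩ := hp'
  exact Finset.mem_filter.2 ⟨h1, h2⟩

lemma TT_dis (sc : SC V) (C : Finset (V × V)) (x : Om V) (p p' : V × V)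
    (hp' : p' ∈ C.filter fun p' => x ∈ he sc p') (h : p' ∉ TT sc C x p) (v : V) :
    DX sc x p v = none ∨ DX sc x p' v = none := by
  by_contra hcon
  push Not at hcon
  obtain ⟨h1, h2⟩ := hcon
  have h3 := DX_ne h1
  have h4 := DX_ne h2
  rw [Finset.mem_filter] at hp'
  apply h
  unfold TT
  simp only [Finset.mem_biUnion, Finset.mem_filter, Finset.mem_insert, Finset.mem_singleton]
  refine ⟨v, mem_sup3 h3.2, ?_⟩
  have hne1 : x ≠ Sum.inl v := by
    rintro rfl
    exact h3.1 rfl
  have hne2 : x ≠ Sum.inr (Sum.inl v) := by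
    rintro rfl
    exact h3.1 rfl
  have hne3 : x ≠ Sum.inr (Sum.inr (v, v)) := by
    rintro rfl
    exact h3.1 (by simp [crd])
  rcases DD_ne h4.2 with h5 | h5 | h5
  · exact ⟨_, Or.inl rfl, hp'.1, hne1, hp'.2, h5⟩
  · exact ⟨_, Or.inr (Or.inl rfl), hp'.1, hne2, hp'.2, h5⟩
  · exact ⟨_, Or.inr (Or.inr rfl), hp'.1, hne3, hp'.2, h5⟩

end cells

section trim
variable {V : Type} [Fintype V] [DecidableEq V]

/-- the cells through a point -/
def thru (sc : SC V) (C : Finset (V × V)) (x : Om V) : Finset (V × V) :=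
  C.filter fun p => x ∈ he sc p

/-- weights of the present cells -/
noncomputable def w1 (sc : SC V) (w' : V × V → ℝ) (s : V → Bool) (p : V × V) : ℝ :=
  w' p * tau (DD sc p) s

/-- loads -/
noncomputable def ld (sc : SC V) (C : Finset (V × V)) (w' : V × V → ℝ) (s : V → Bool)
    (x : Om V) : ℝ := ∑ p ∈ thru sc C x, w1 sc w' s p

/-- largest load of a cell -/
noncomputable def mx (sc : SC V) (C : Finset (V × V)) (w' : V × V → ℝ) (s : V → Bool)
    (p : V × V) : ℝ :=
  max (max 1 (ld sc C w' s (Sum.inl p.1))) (max (ld sc C w' s (Sum.inr (Sum.inl p.2)))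
    (ld sc C w' s (Sum.inr (Sum.inr (sc.col p.1 p.2)))))

/-- trimmed weights -/
noncomputable def w2 (sc : SC V) (C : Finset (V × V)) (w' : V × V → ℝ) (s : V → Bool)
    (p : V × V) : ℝ := w1 sc w' s p / mx sc C w' s p

lemma one_le_mx (sc : SC V) (C : Finset (V × V)) (w' : V × V → ℝ) (s : V → Bool)
    (p : V × V) : 1 ≤ mx sc C w' s p := (le_max_left _ _).trans (le_max_left _ _)

lemma ld_le_mx (sc : SC V) (C : Finset (V × V)) (w' : V × V → ℝ) (s : V → Bool)
    {p : V × V} {x : Om V} (hx : x ∈ he sc p) : ld sc C w' s x ≤ mx sc C w' s p := by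
  rw [mem_he] at hx
  rcases hx with rfl | rfl | rfl
  · exact (le_max_right _ _).trans (le_max_left _ _)
  · exact (le_max_left _ _).trans (le_max_right _ _)
  · exact (le_max_right _ _).trans (le_max_right _ _)

lemma w1_nonneg (sc : SC V) {w' : V × V → ℝ} (s : V → Bool) {p : V × V} (h : 0 ≤ w' p) :
    0 ≤ w1 sc w' s p := mul_nonneg h (tau_nonneg _ _)

lemma w1_le (sc : SC V) {w' : V × V → ℝ} (s : V → Bool) {p : V × V} (h : 0 ≤ w' p) :
    w1 sc w' s p ≤ w' p := mul_le_of_le_one_right h (tau_le _ _)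

lemma w2_nonneg (sc : SC V) (C : Finset (V × V)) {w' : V × V → ℝ} (s : V → Bool) {p : V × V}
    (h : 0 ≤ w' p) : 0 ≤ w2 sc C w' s p :=
  div_nonneg (w1_nonneg sc s h) (le_trans zero_le_one (one_le_mx _ _ _ _ _))

lemma w2_le (sc : SC V) (C : Finset (V × V)) {w' : V × V → ℝ} (s : V → Bool) {p : V × V}
    (h : 0 ≤ w' p) : w2 sc C w' s p ≤ w' p :=
  (div_le_self (w1_nonneg sc s h) (one_le_mx _ _ _ _ _)).trans (w1_le sc s h)

lemma deg_le (sc : SC V) (C : Finset (V × V)) (w' : V × V → ℝ) (s : V → Bool)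
    (h0 : ∀ p ∈ C, 0 ≤ w' p) (x : Om V) : ∑ p ∈ thru sc C x, w2 sc C w' s p ≤ 1 := by
  set m : ℝ := max 1 (ld sc C w' s x) with hm
  have hm1 : 1 ≤ m := le_max_left _ _
  have h1 : (∑ p ∈ thru sc C x, w2 sc C w' s p) * m ≤ ld sc C w' s x := by
    rw [Finset.sum_mul]
    unfold ld
    refine Finset.sum_le_sum fun p hp => ?_
    have hp' := Finset.mem_filter.1 hp
    have hle : m ≤ mx sc C w' s p := max_le (one_le_mx _ _ _ _ _) (ld_le_mx _ _ _ _ hp'.2)
    have hmx : 0 < mx sc C w' s p := lt_of_lt_of_le zero_lt_one (one_le_mx _ _ _ _ _)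
    unfold w2
    rw [div_mul_eq_mul_div, div_le_iff₀ hmx]
    exact mul_le_mul_of_nonneg_left hle (w1_nonneg sc s (h0 p hp'.1))
  have h2 : (∑ p ∈ thru sc C x, w2 sc C w' s p) * m ≤ 1 * m := by
    rw [one_mul]
    exact h1.trans (le_max_right _ _)
  exact le_of_mul_le_mul_right h2 (by linarith)

/-- loss of one cell -/
lemma loss1 (sc : SC V) (C : Finset (V × V)) (w' : V × V → ℝ) (s : V → Bool) (p : V × V)
    (h0 : 0 ≤ w' p) : w1 sc w' s p - w2 sc C w' s p
      ≤ ∑ x ∈ he sc p, w1 sc w' s p * (1 - 1 / max 1 (ld sc C w' s x)) := by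
  have hw := w1_nonneg sc s h0
  have hnn : ∀ x ∈ he sc p, 0 ≤ w1 sc w' s p * (1 - 1 / max 1 (ld sc C w' s x)) := by
    intro x _
    apply mul_nonneg hw
    have : 1 / max 1 (ld sc C w' s x) ≤ 1 := by
      rw [div_le_one (by positivity)]
      exact le_max_left _ _
    linarith
  have hsum : ∀ x ∈ he sc p, w1 sc w' s p * (1 - 1 / max 1 (ld sc C w' s x))
      ≤ ∑ x ∈ he sc p, w1 sc w' s p * (1 - 1 / max 1 (ld sc C w' s x)) := fun x hx =>
    Finset.single_le_sum hnn hx
  have h1 : w1 sc w' s p - w2 sc C w' s p = w1 sc w' s p * (1 - 1 / mx sc C w' s p) := by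
    unfold w2; ring
  rw [h1]
  have key : ∃ x ∈ he sc p, mx sc C w' s p ≤ max 1 (ld sc C w' s x) := by
    have a1 : (Sum.inl p.1 : Om V) ∈ he sc p := mem_he.2 (Or.inl rfl)
    have a2 : (Sum.inr (Sum.inl p.2) : Om V) ∈ he sc p := mem_he.2 (Or.inr (Or.inl rfl))
    have a3 : (Sum.inr (Sum.inr (sc.col p.1 p.2)) : Om V) ∈ he sc p :=
      mem_he.2 (Or.inr (Or.inr rfl))
    unfold mx
    rcases le_total (max 1 (ld sc C w' s (Sum.inl p.1)))
      (max (ld sc C w' s (Sum.inr (Sum.inl p.2)))
        (ld sc C w' s (Sum.inr (Sum.inr (sc.col p.1 p.2))))) with h | h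
    · rw [max_eq_right h]
      rcases le_total (ld sc C w' s (Sum.inr (Sum.inl p.2)))
        (ld sc C w' s (Sum.inr (Sum.inr (sc.col p.1 p.2)))) with h' | h'
      · rw [max_eq_right h']
        exact ⟨_, a3, le_max_right _ _⟩
      · rw [max_eq_left h']
        exact ⟨_, a2, le_max_right _ _⟩
    · rw [max_eq_left h]
      exact ⟨_, a1, le_rfl⟩
  obtain ⟨x, hx, hle⟩ := key
  refine le_trans ?_ (hsum x hx)
  apply mul_le_mul_of_nonneg_left _ hw
  have hpos : 0 < mx sc C w' s p := lt_of_lt_of_le zero_lt_one (one_le_mx _ _ _ _ _)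
  have := one_div_le_one_div_of_le hpos hle
  linarith

lemma swap (sc : SC V) (C : Finset (V × V)) (f : V × V → Om V → ℝ) :
    ∑ p ∈ C, ∑ x ∈ he sc p, f p x = ∑ x, ∑ p ∈ thru sc C x, f p x := by
  apply Finset.sum_comm'
  intro p x
  unfold thru
  simp only [Finset.mem_filter, Finset.mem_univ, and_true]

/-- total loss -/
lemma loss (sc : SC V) (C : Finset (V × V)) (w' : V × V → ℝ) (s : V → Bool)
    (h0 : ∀ p ∈ C, 0 ≤ w' p) :
    ∑ p ∈ C, w1 sc w' s p - ∑ x, max 0 (ld sc C w' s x - 1) ≤ ∑ p ∈ C, w2 sc C w' s p := by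
  have h1 : ∑ p ∈ C, w1 sc w' s p - ∑ p ∈ C, w2 sc C w' s p
      ≤ ∑ p ∈ C, ∑ x ∈ he sc p, w1 sc w' s p * (1 - 1 / max 1 (ld sc C w' s x)) := by
    rw [← Finset.sum_sub_distrib]
    exact Finset.sum_le_sum fun p hp => loss1 sc C w' s p (h0 p hp)
  rw [swap sc C fun p x => w1 sc w' s p * (1 - 1 / max 1 (ld sc C w' s x))] at h1
  have h2 : ∑ x, ∑ p ∈ thru sc C x, w1 sc w' s p * (1 - 1 / max 1 (ld sc C w' s x))
      ≤ ∑ x, max 0 (ld sc C w' s x - 1) := by
    refine Finset.sum_le_sum fun x _ => ?_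
    rw [← Finset.sum_mul]
    have : ∑ p ∈ thru sc C x, w1 sc w' s p = ld sc C w' s x := rfl
    rw [this]
    rcases le_total (ld sc C w' s x) 1 with h | h
    · rw [max_eq_left h]
      simp
    · rw [max_eq_right h]
      have hpos : 0 < ld sc C w' s x := by linarith
      have : ld sc C w' s x * (1 - 1 / ld sc C w' s x) = ld sc C w' s x - 1 := by
        field_simp
      rw [this]
      exact le_max_right _ _
  linarith

lemma tau_DD_le (sc : SC V) (x : Om V) (p : V × V) (s : V → Bool) :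
    tau (DD sc p) s ≤ tau (DX sc x p) s := by
  unfold tau
  apply Finset.prod_le_prod
  · intro v _; exact hh_nonneg _ _
  · intro v _
    unfold DX
    split_ifs
    · exact hh_le _ _
    · exact le_rfl

/-- the random choice -/
lemma core {q : V → Bool → ℝ} (hq : Coin q) (sc : SC V) (C : Finset (V × V))
    (hC : ∀ p ∈ C, p.1 ≠ p.2) (w : V × V → ℝ) (r : ℝ) (hr : 1 ≤ r)
    (hw0 : ∀ p ∈ C, 0 ≤ w p) (hw1 : ∀ p ∈ C, w p ≤ 4 / r ^ 2)
    (hld : ∀ x, ∑ p ∈ thru sc C x, w p ≤ kap q x) :
    ∃ (w' : V × V → ℝ) (s : V → Bool), (∀ p ∈ C, 0 ≤ w' p) ∧ (∀ p ∈ C, w' p ≤ 108 / r ^ 2) ∧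
      (1 - 17496 / r) * ∑ p ∈ C, w p ≤ ∑ p ∈ C, w2 sc C w' s p := by
  have hr0 : 0 < r := by linarith
  set W : ℝ := ∑ p ∈ C, w p with hW
  have hpi : ∀ p, 0 < Ex q (tau (DD sc p)) := fun p =>
    lt_of_lt_of_le (by norm_num) (Ex_DD_low hq sc p)
  set w' : V × V → ℝ := fun p => w p / Ex q (tau (DD sc p)) with hw'
  have hw'0 : ∀ p ∈ C, 0 ≤ w' p := fun p hp => div_nonneg (hw0 p hp) (hpi p).le
  have hw'1 : ∀ p ∈ C, w' p ≤ 108 / r ^ 2 := by
    intro p hp
    rw [hw']
    simp only
    rw [div_le_iff₀ (hpi p)]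
    have h1 := Ex_DD_low hq sc p
    have h2 : (108 / r ^ 2) * (1 / 27) ≤ (108 / r ^ 2) * Ex q (tau (DD sc p)) :=
      mul_le_mul_of_nonneg_left h1 (by positivity)
    have h3 : (108 / r ^ 2) * (1 / 27) = 4 / r ^ 2 := by ring
    have h4 := hw1 p hp
    linarith
  have hmu : ∀ x, ∑ p ∈ thru sc C x, w' p * Ex q (tau (DX sc x p))
      = (∑ p ∈ thru sc C x, w p) / kap q x := by
    intro x
    rw [Finset.sum_div]
    refine Finset.sum_congr rfl fun p hp => ?_
    have hp' := Finset.mem_filter.1 hp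
    have h1 := Ex_DD' hq sc (hC p hp'.1) hp'.2
    have h2 := hpi p
    have h3 : 0 < kap q x := lt_of_lt_of_le (by norm_num) (kap_low hq x)
    have h4 : Ex q (tau (DX sc x p)) = Ex q (tau (DD sc p)) / kap q x := by
      rw [h1]; field_simp
    rw [hw', h4]
    simp only
    field_simp
  have hexc : ∀ x, Ex q (fun s => max 0 (ld sc C w' s x - 1))
      ≤ 2 * 972 * (3 * ∑ p ∈ thru sc C x, w p) / r := by
    intro x
    have hS0 : 0 ≤ ∑ p ∈ thru sc C x, w p :=
      Finset.sum_nonneg fun p hp => hw0 p (Finset.mem_filter.1 hp).1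
    have hk := kap_low hq x
    have hk0 : 0 < kap q x := by linarith
    have hv := var hq (thru sc C x) (fun p => DX sc x p) w' (108 / r ^ 2) 9
      (fun p hp => hw'0 p (Finset.mem_filter.1 hp).1)
      (fun p hp => hw'1 p (Finset.mem_filter.1 hp).1) (by positivity)
      (fun p => TT sc C x p) (fun p _ => TT_sub sc C x p)
      (fun p _ => by exact_mod_cast card_TT sc C hC x p)
      (fun p _ p' hp' hnot v => TT_dis sc C x p p' hp' hnot v)
    rw [hmu x] at hv
    set μ : ℝ := (∑ p ∈ thru sc C x, w p) / kap q x with hμ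
    have hμ0 : 0 ≤ μ := div_nonneg hS0 hk0.le
    have hμ1 : μ ≤ 1 := by
      rw [hμ, div_le_one hk0]
      exact hld x
    have hμ3 : μ ≤ 3 * ∑ p ∈ thru sc C x, w p := by
      rw [hμ, div_le_iff₀ hk0]
      nlinarith
    have hv' : Ex q (fun s => (∑ p ∈ thru sc C x, w' p * tau (DX sc x p) s - μ) ^ 2)
        ≤ 972 * μ / r ^ 2 := by
      calc _ ≤ 9 * (108 / r ^ 2) * μ := hv
        _ = 972 * μ / r ^ 2 := by ring
    have he := exc hq (fun s => ∑ p ∈ thru sc C x, w' p * tau (DX sc x p) s) μ 972 r hμ0 hμ1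
      (by norm_num) hr hv'
    calc Ex q (fun s => max 0 (ld sc C w' s x - 1))
        ≤ Ex q (fun s => max 0 (∑ p ∈ thru sc C x, w' p * tau (DX sc x p) s - 1)) := by
          apply Ex_mono hq
          intro s
          apply max_le_max le_rfl
          have : ld sc C w' s x ≤ ∑ p ∈ thru sc C x, w' p * tau (DX sc x p) s := by
            unfold ld
            refine Finset.sum_le_sum fun p hp => ?_
            exact mul_le_mul_of_nonneg_left (tau_DD_le sc x p s)
              (hw'0 p (Finset.mem_filter.1 hp).1)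
          linarith
      _ ≤ 2 * 972 * μ / r := he
      _ ≤ _ := by
          apply div_le_div_of_nonneg_right _ hr0.le
          linarith
  have htot : Ex q (fun s => ∑ p ∈ C, w1 sc w' s p - ∑ x, max 0 (ld sc C w' s x - 1))
      = W - ∑ x, Ex q (fun s => max 0 (ld sc C w' s x - 1)) := by
    have e1 : Ex q (fun s => ∑ p ∈ C, w1 sc w' s p) = W := by
      rw [Ex_sum q C (fun p s => w1 sc w' s p)]
      refine Finset.sum_congr rfl fun p _ => ?_
      have : Ex q (fun s => w1 sc w' s p) = w' p * Ex q (tau (DD sc p)) :=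
        Ex_mul q (w' p) (tau (DD sc p))
      rw [this, hw']
      have := (hpi p).ne'
      field_simp
    have e2 : Ex q (fun s => ∑ x, max 0 (ld sc C w' s x - 1))
        = ∑ x, Ex q (fun s => max 0 (ld sc C w' s x - 1)) :=
      Ex_sum q Finset.univ (fun x s => max 0 (ld sc C w' s x - 1))
    rw [← e2]
    have e3 : (fun s => ∑ p ∈ C, w1 sc w' s p - ∑ x, max 0 (ld sc C w' s x - 1))
        = fun s => ∑ p ∈ C, w1 sc w' s p + (-1) * ∑ x, max 0 (ld sc C w' s x - 1) := by
      funext s; ring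
    rw [e3, Ex_add q (fun s => ∑ p ∈ C, w1 sc w' s p)
      (fun s => (-1) * ∑ x, max 0 (ld sc C w' s x - 1)), Ex_mul, e1]
    ring
  have hge : (1 - 17496 / r) * W
      ≤ Ex q (fun s => ∑ p ∈ C, w1 sc w' s p - ∑ x, max 0 (ld sc C w' s x - 1)) := by
    rw [htot]
    have h1 : ∑ x, Ex q (fun s => max 0 (ld sc C w' s x - 1))
        ≤ ∑ x, 2 * 972 * (3 * ∑ p ∈ thru sc C x, w p) / r :=
      Finset.sum_le_sum fun x _ => hexc x
    have h2 : ∑ x, 2 * 972 * (3 * ∑ p ∈ thru sc C x, w p) / r
        = 5832 / r * ∑ x, ∑ p ∈ thru sc C x, w p := by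
      rw [Finset.mul_sum]
      exact Finset.sum_congr rfl fun x _ => by ring
    have h3 : ∑ x, ∑ p ∈ thru sc C x, w p = 3 * W := by
      rw [← swap sc C fun p _ => w p]
      rw [hW, Finset.mul_sum]
      refine Finset.sum_congr rfl fun p _ => ?_
      rw [Finset.sum_const, card_he, nsmul_eq_mul]
      norm_num
    rw [h2, h3] at h1
    have h4 : 5832 / r * (3 * W) = 17496 / r * W := by ring
    rw [h4] at h1
    linarith
  obtain ⟨s, hs⟩ := exists_ge hq _ _ hge
  exact ⟨w', s, hw'0, hw'1, hs.trans (loss sc C w' s hw'0)⟩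

lemma he_injective (sc : SC V) : Function.Injective (he sc) := fun _ _ h => he_inj h

lemma sum_ext (sc : SC V) (P : Finset (V × V)) (g : V × V → ℝ) (Q : Finset (Om V) → Prop)
    [DecidablePred Q] :
    ∑ e ∈ (P.image (he sc)).filter Q, Function.extend (he sc) g 0 e
      = ∑ p ∈ P.filter (fun p => Q (he sc p)), g p := by
  rw [Finset.filter_image, Finset.sum_image fun _ _ _ _ h => he_inj h]
  exact Finset.sum_congr rfl fun p _ => (he_injective sc).extend_apply _ _ _

lemma hh_ne {o : Option Bool} {t b : Bool} (h : hh o t ≠ 0) (ho : o = some b) : t = b := by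
  subst ho
  simp only [hh] at h
  by_contra hne
  exact h (if_neg hne)

lemma pres {sc : SC V} {p : V × V} {s : V → Bool} (h : tau (DD sc p) s ≠ 0) (v : V) (b : Bool)
    (hv : DD sc p v = some b) : s v = b := by
  unfold tau at h
  rw [Finset.prod_ne_zero_iff] at h
  exact hh_ne (h v (Finset.mem_univ v)) hv

end trim

section fin
variable {V : Type} [Fintype V] [DecidableEq V]

lemma thru_inl (sc : SC V) (C : Finset (V × V)) (b : V) {p : V × V} :
    p ∈ thru sc C (Sum.inl b) ↔ p ∈ C ∧ p.1 = b := by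
  unfold thru
  rw [Finset.mem_filter, mem_he]
  simp only [Sum.inl.injEq, reduceCtorEq, or_false]
  exact ⟨fun h => ⟨h.1, h.2.symm⟩, fun h => ⟨h.1, h.2.symm⟩⟩

lemma thru_inr (sc : SC V) (C : Finset (V × V)) (a : V) {p : V × V} :
    p ∈ thru sc C (Sum.inr (Sum.inl a)) ↔ p ∈ C ∧ p.2 = a := by
  unfold thru
  rw [Finset.mem_filter, mem_he]
  simp only [Sum.inr.injEq, Sum.inl.injEq, reduceCtorEq, or_false, false_or]
  exact ⟨fun h => ⟨h.1, h.2.symm⟩, fun h => ⟨h.1, h.2.symm⟩⟩

lemma thru_col (sc : SC V) (C : Finset (V × V)) (φ : V × V) {p : V × V} :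
    p ∈ thru sc C (Sum.inr (Sum.inr φ)) ↔ p ∈ C ∧ sc.col p.1 p.2 = φ := by
  unfold thru
  rw [Finset.mem_filter, mem_he]
  simp only [Sum.inr.injEq, reduceCtorEq, false_or]
  exact ⟨fun h => ⟨h.1, h.2.symm⟩, fun h => ⟨h.1, h.2.symm⟩⟩

end fin

end RS_

open RS_ in
theorem p_RS (h : T_NIB) : T_RS := by
  classical
  intro ε hε
  set ε₁ : ℝ := min ε 1 with hε₁
  have hε₁0 : 0 < ε₁ := lt_min hε one_pos
  have hε₁1 : ε₁ ≤ 1 := min_le_right _ _
  have hε₁ε : ε₁ ≤ ε := min_le_left _ _
  obtain ⟨δ, hδ, hnib⟩ := h (ε₁ / 4) (by positivity)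
  obtain ⟨N₁, hN₁⟩ := exists_nat_ge ((23328 / ε₁) ^ 2)
  obtain ⟨N₂, hN₂⟩ := exists_nat_ge (108 / δ)
  refine ⟨N₁ + N₂ + 1, ?_⟩
  intro V _ _ sc U Γ w α hU hΓ hα hw0 hw4 hwne hrow hcol hstar hfree
  set n : ℝ := (U.card : ℝ) with hn
  have hn1 : 1 ≤ n := by
    have : 1 ≤ U.card := by omega
    rw [hn]
    exact_mod_cast this
  have hnN₁ : (23328 / ε₁) ^ 2 ≤ n := by
    have : (N₁ : ℝ) ≤ n := by
      rw [hn]
      exact_mod_cast (by omega : N₁ ≤ U.card)
    linarith
  have hnN₂ : 108 / n ≤ δ := by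
    have : (N₂ : ℝ) ≤ n := by
      rw [hn]
      exact_mod_cast (by omega : N₂ ≤ U.card)
    have h2 : 108 / δ ≤ n := hN₂.trans this
    rw [div_le_iff₀ hδ] at h2
    rw [div_le_iff₀ (by linarith)]
    linarith
  set r : ℝ := Real.sqrt n with hr
  have hr1 : 1 ≤ r := by rw [hr]; exact Real.one_le_sqrt.2 hn1
  have hr0 : 0 < r := by linarith
  have hr2 : r ^ 2 = n := Real.sq_sqrt (by linarith)
  have hr3 : 23328 / ε₁ ≤ r := by
    rw [hr]
    exact Real.le_sqrt_of_sq_le hnN₁
  set q : V → Bool → ℝ := fun v t => if v ∈ U then (if t then α v else 1 - α v) else 1 / 2 with hqdef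
  have hq : Coin q := by
    constructor
    · intro v t
      simp only [hqdef]
      split_ifs with h1 h2
      · exact (hα v h1).1
      · have := (hα v h1).2
        linarith
      · norm_num
    · intro v
      by_cases h1 : v ∈ U
      · simp [hqdef, h1]
      · simp only [hqdef, h1, if_false]
        norm_num
  set C : Finset (V × V) := univ.filter fun p => w p.1 p.2 ≠ 0 with hCdef
  have hCm : ∀ p, p ∈ C ↔ w p.1 p.2 ≠ 0 := by
    intro p
    rw [hCdef, Finset.mem_filter]
    simp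
  have hC : ∀ p ∈ C, p.1 ≠ p.2 := fun p hp => (hwne _ _ ((hCm p).1 hp)).2.2.1
  set wp : V × V → ℝ := fun p => w p.1 p.2 with hwp
  have hwp0 : ∀ p, 0 ≤ wp p := fun p => hw0 _ _
  have hCU : C ⊆ U ×ˢ U := by
    intro p hp
    have := hwne _ _ ((hCm p).1 hp)
    exact Finset.mem_product.2 ⟨this.1, this.2.1⟩
  have hld : ∀ x, ∑ p ∈ thru sc C x, wp p ≤ kap q x := by
    intro x
    rcases x with b | a | φ
    · by_cases hb : b ∈ U
      · have h1 : kap q (Sum.inl b) = α b := by simp [kap, hqdef, hb]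
        rw [h1, ← hrow b hb]
        calc ∑ p ∈ thru sc C (Sum.inl b), wp p
            ≤ ∑ p ∈ U.image (fun a => (b, a)), wp p := by
              apply Finset.sum_le_sum_of_subset_of_nonneg
              · intro p hp
                rw [thru_inl] at hp
                have := Finset.mem_product.1 (hCU hp.1)
                exact Finset.mem_image.2 ⟨p.2, this.2, by rw [← hp.2]⟩
              · intro p _ _; exact hwp0 p
          _ = ∑ a ∈ U, w b a := by
              rw [Finset.sum_image]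
              intro a _ a' _ h
              exact (Prod.ext_iff.1 h).2
      · have h1 : thru sc C (Sum.inl b) = ∅ := by
          rw [Finset.eq_empty_iff_forall_notMem]
          intro p hp
          rw [thru_inl] at hp
          have := Finset.mem_product.1 (hCU hp.1)
          exact hb (hp.2 ▸ this.1)
        rw [h1, Finset.sum_empty]
        exact le_trans (by norm_num) (kap_low hq _)
    · by_cases hb : a ∈ U
      · have h1 : kap q (Sum.inr (Sum.inl a)) = 1 - α a := by simp [kap, hqdef, hb]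
        rw [h1, ← hcol a hb]
        calc ∑ p ∈ thru sc C (Sum.inr (Sum.inl a)), wp p
            ≤ ∑ p ∈ U.image (fun b => (b, a)), wp p := by
              apply Finset.sum_le_sum_of_subset_of_nonneg
              · intro p hp
                rw [thru_inr] at hp
                have := Finset.mem_product.1 (hCU hp.1)
                exact Finset.mem_image.2 ⟨p.1, this.1, by rw [← hp.2]⟩
              · intro p _ _; exact hwp0 p
          _ = ∑ b ∈ U, w b a := by
              rw [Finset.sum_image]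
              intro a _ a' _ h
              exact (Prod.ext_iff.1 h).1
      · have h1 : thru sc C (Sum.inr (Sum.inl a)) = ∅ := by
          rw [Finset.eq_empty_iff_forall_notMem]
          intro p hp
          rw [thru_inr] at hp
          have := Finset.mem_product.1 (hCU hp.1)
          exact hb (hp.2 ▸ this.2)
        rw [h1, Finset.sum_empty]
        exact le_trans (by norm_num) (kap_low hq _)
    · have hle : ∑ p ∈ thru sc C (Sum.inr (Sum.inr φ)), wp p
          ≤ ∑ b ∈ U, ∑ a ∈ U, (if sc.col b a = φ then w b a else 0) := by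
        rw [← Finset.sum_product', ← Finset.sum_filter]
        apply Finset.sum_le_sum_of_subset_of_nonneg
        · intro p hp
          rw [thru_col] at hp
          exact Finset.mem_filter.2 ⟨hCU hp.1, hp.2⟩
        · intro p _ _; exact hwp0 p
      by_cases hφ : φ.1 = φ.2
      · by_cases hb : φ.1 ∈ U
        · have h1 : kap q (Sum.inr (Sum.inr φ)) = α φ.1 := by simp [kap, hφ, hqdef, hφ ▸ hb]
          rw [h1]
          have h2 := hstar φ.1 hb
          have h3 : φ = (φ.1, φ.1) := Prod.ext rfl hφ.symm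
          rw [← h3] at h2
          exact hle.trans h2
        · have h1 : thru sc C (Sum.inr (Sum.inr φ)) = ∅ := by
            rw [Finset.eq_empty_iff_forall_notMem]
            intro p hp
            rw [thru_col] at hp
            have h2 := (hwne _ _ ((hCm p).1 hp.1)).2.2.2
            rw [hp.2] at h2
            have h3 : φ = (φ.1, φ.1) := Prod.ext rfl hφ.symm
            rw [h3] at h2
            exact hb (hΓ _ h2)
          rw [h1, Finset.sum_empty]
          exact le_trans (by norm_num) (kap_low hq _)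
      · have h1 : kap q (Sum.inr (Sum.inr φ)) = 1 := by simp [kap, hφ]
        rw [h1]
        exact hle.trans (hfree φ hφ)
  obtain ⟨w', s, hw'0, hw'1, hcore⟩ := core hq sc C hC wp r hr1 (fun p _ => hwp0 p)
    (fun p _ => by rw [hr2]; exact hw4 _ _) hld
  have hW : ∑ p ∈ C, wp p = n / 2 := by
    have e1 : ∑ p ∈ C, wp p = ∑ p ∈ U ×ˢ U, wp p := by
      apply Finset.sum_subset hCU
      intro p _ hp
      by_contra hne
      exact hp ((hCm p).2 hne)
    have e2 : ∑ p ∈ U ×ˢ U, wp p = ∑ b ∈ U, α b := by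
      rw [Finset.sum_product]
      exact Finset.sum_congr rfl fun b hb => hrow b hb
    have e3 : ∑ p ∈ U ×ˢ U, wp p = ∑ a ∈ U, (1 - α a) := by
      rw [Finset.sum_product_right]
      exact Finset.sum_congr rfl fun b hb => hcol b hb
    rw [Finset.sum_sub_distrib, Finset.sum_const, nsmul_eq_mul, mul_one] at e3
    rw [e1]
    linarith
  rw [hW] at hcore
  set P : Finset (V × V) := C.filter fun p => tau (DD sc p) s ≠ 0 with hP
  have hPC : P ⊆ C := Finset.filter_subset _ _
  set g : V × V → ℝ := w2 sc C w' s with hg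
  have hg0 : ∀ p ∈ C, 0 ≤ g p := fun p hp => w2_nonneg sc C s (hw'0 p hp)
  have hgδ : ∀ p ∈ C, g p ≤ δ := fun p hp =>
    (w2_le sc C s (hw'0 p hp)).trans ((hw'1 p hp).trans (by rw [hr2]; exact hnN₂))
  have hWt : Wt (Om V) (P.image (he sc)) (Function.extend (he sc) g 0) δ := by
    constructor
    · intro e he'
      obtain ⟨p, _, rfl⟩ := Finset.mem_image.1 he'
      exact card_he sc p
    · intro e he'
      obtain ⟨p, hp, rfl⟩ := Finset.mem_image.1 he'
      rw [(he_injective sc).extend_apply]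
      exact hg0 p (hPC hp)
    · intro x
      rw [sum_ext sc P g (fun e => x ∈ e)]
      refine le_trans ?_ (deg_le sc C w' s hw'0 x)
      apply Finset.sum_le_sum_of_subset_of_nonneg
      · intro p hp
        have := Finset.mem_filter.1 hp
        exact Finset.mem_filter.2 ⟨hPC this.1, this.2⟩
      · intro p hp _
        exact hg0 p (Finset.mem_filter.1 hp).1
    · intro x y hxy
      rw [sum_ext sc P g (fun e => x ∈ e ∧ y ∈ e)]
      have hc : (P.filter fun p => x ∈ he sc p ∧ y ∈ he sc p).card ≤ 1 := by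
        rw [Finset.card_le_one]
        intro p1 hp1 p2 hp2
        rw [Finset.mem_filter] at hp1 hp2
        exact lin (hC p1 (hPC hp1.1)) (hC p2 (hPC hp2.1)) hxy hp1.2.1 hp2.2.1 hp1.2.2 hp2.2.2
      calc ∑ p ∈ P.filter (fun p => x ∈ he sc p ∧ y ∈ he sc p), g p
          ≤ ∑ p ∈ P.filter (fun p => x ∈ he sc p ∧ y ∈ he sc p), δ :=
            Finset.sum_le_sum fun p hp => hgδ p (hPC (Finset.mem_filter.1 hp).1)
        _ = ((P.filter fun p => x ∈ he sc p ∧ y ∈ he sc p).card : ℝ) * δ := by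
            rw [Finset.sum_const, nsmul_eq_mul]
        _ ≤ 1 * δ := by
            apply mul_le_mul_of_nonneg_right _ hδ.le
            exact_mod_cast hc
        _ = δ := one_mul δ
  obtain ⟨M, hME, hMdis, hMcard⟩ := hnib (Om V) (P.image (he sc)) _ hWt
  have hsumE : ∑ e ∈ P.image (he sc), Function.extend (he sc) g 0 e = ∑ p ∈ C, g p := by
    have e1 := sum_ext sc P g (fun _ => True)
    simp only [Finset.filter_true] at e1
    rw [e1]
    apply Finset.sum_subset hPC
    intro p hpC hpP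
    have : tau (DD sc p) s = 0 := by
      by_contra hne
      exact hpP (Finset.mem_filter.2 ⟨hpC, hne⟩)
    rw [hg]
    simp only [w2, w1, this, mul_zero, zero_div]
  rw [hsumE] at hMcard
  set M' : Finset (V × V) := P.filter fun p => he sc p ∈ M with hM'
  have hM'P : M' ⊆ P := Finset.filter_subset _ _
  have hMM' : M = M'.image (he sc) := by
    ext e
    constructor
    · intro he'
      obtain ⟨p, hp, rfl⟩ := Finset.mem_image.1 (hME he')
      exact Finset.mem_image_of_mem _ (Finset.mem_filter.2 ⟨hp, he'⟩)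
    · intro he'
      obtain ⟨p, hp, rfl⟩ := Finset.mem_image.1 he'
      exact (Finset.mem_filter.1 hp).2
  have hcardM : M.card = M'.card := by
    rw [hMM']
    exact Finset.card_image_of_injective _ (he_injective sc)
  have hdisj : ∀ p ∈ M', ∀ p' ∈ M', ∀ x, x ∈ he sc p → x ∈ he sc p' → p = p' := by
    intro p hp p' hp' x hx hx'
    by_contra hne
    have h1 : he sc p ≠ he sc p' := fun h => hne (he_inj h)
    have h2 := hMdis (Finset.mem_coe.2 (Finset.mem_filter.1 hp).2)
      (Finset.mem_coe.2 (Finset.mem_filter.1 hp').2) h1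
    exact Finset.disjoint_left.1 h2 hx hx'
  have hpres : ∀ p ∈ M', tau (DD sc p) s ≠ 0 := fun p hp => (Finset.mem_filter.1 (hM'P hp)).2
  have hMw : ∀ p ∈ M', p.1 ∈ U ∧ p.2 ∈ U ∧ p.1 ≠ p.2 ∧ sc.col p.1 p.2 ∈ Γ := fun p hp =>
    hwne _ _ ((hCm p).1 (hPC (hM'P hp)))
  refine ⟨U.filter fun v => s v = true, M', ?_, Finset.filter_subset _ _, fun p hp => (hMw p hp).2.1,
    fun p hp => (hMw p hp).2.2.2, ?_⟩
  · refine ⟨?_, ?_, ?_, ?_, ?_, ?_⟩
    · intro p hp
      refine Finset.mem_filter.2 ⟨(hMw p hp).1, pres (hpres p hp) p.1 true ?_⟩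
      simp [DD]
    · intro p hp hmem
      have h1 : s p.2 = false := pres (hpres p hp) p.2 false (by
        simp [DD, (hMw p hp).2.2.1.symm])
      have h2 := (Finset.mem_filter.1 hmem).2
      rw [h1] at h2
      exact absurd h2 (by simp)
    · intro p hp p' hp' he'
      exact hdisj p hp p' hp' (Sum.inl p.1) (mem_he.2 (Or.inl rfl))
        (mem_he.2 (Or.inl (by rw [he'])))
    · intro p hp p' hp' he'
      exact hdisj p hp p' hp' (Sum.inr (Sum.inl p.2)) (mem_he.2 (Or.inr (Or.inl rfl)))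
        (mem_he.2 (Or.inr (Or.inl (by rw [he']))))
    · intro p hp p' hp' he'
      exact hdisj p hp p' hp' (Sum.inr (Sum.inr (sc.col p.1 p.2))) (mem_he.2 (Or.inr (Or.inr rfl)))
        (mem_he.2 (Or.inr (Or.inr (by rw [he']))))
    · intro p hp z hz
      have h0 := hMw p hp
      have hzΓ := h0.2.2.2
      rw [hz] at hzΓ
      refine Finset.mem_filter.2 ⟨hΓ z hzΓ, pres (hpres p hp) z true ?_⟩
      have h4 : z ≠ p.1 := fun he' => sc.star_ne p.1 p.2 h0.2.2.1 (by rw [hz, he'])
      have h5 : z ≠ p.2 := fun he' =>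
        sc.star_ne p.2 p.1 h0.2.2.1.symm (by rw [sc.symm, hz, he'])
      simp [DD, hz, h4, h5]
  · have h1 : (1 - ε₁ / 4) * ((1 - 17496 / r) * (n / 2)) ≤ (M'.card : ℝ) := by
      rw [← hcardM]
      refine le_trans ?_ hMcard
      exact mul_le_mul_of_nonneg_left hcore (by linarith)
    have h2 : (n : ℝ) - 2 * M'.card ≤ ε * n := by
      have h3 : 17496 / r ≤ 3 / 4 * ε₁ := by
        rw [div_le_iff₀ hr0]
        rw [div_le_iff₀ hε₁0] at hr3
        linarith
      have h4 : 0 ≤ 17496 / r := div_nonneg (by norm_num) hr0.le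
      have h5 : (1 - ε₁) * n ≤ (1 - ε₁ / 4) * ((1 - 17496 / r) * n) := by
        have : (1 - ε₁) ≤ (1 - ε₁ / 4) * (1 - 17496 / r) := by nlinarith
        nlinarith
      have h6 : ε₁ * n ≤ ε * n := mul_le_mul_of_nonneg_right hε₁ε (by linarith)
      nlinarith
    have h7 : U.card - 2 * M'.card ≤ ⌊ε * n⌋₊ := by
      apply Nat.le_floor
      rcases le_total (2 * M'.card) U.card with h8 | h8
      · rw [Nat.cast_sub h8]
        push_cast
        exact h2
      · rw [Nat.sub_eq_zero_of_le h8, Nat.cast_zero]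
        exact mul_nonneg hε.le (by linarith)
    omega

end SpF
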