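import Pool.Agent.SpF.Targets

/-! SYSP: certified configurations have many disjoint copies -/

namespace SpF
open Spider Finset

namespace SYSP_

/-! ## labels -/

section lab
variable {V : Type} {sc : SC V} {x y z x' y' z' : V}

lemma lab_symm (h : Lab sc x y z) : Lab sc y x z :=
  ⟨h.1.symm, by rw [sc.symm]; exact h.2⟩

lemma lab_label (h : Lab sc x y z) (h' : Lab sc x y z') : z = z' :=
  (Prod.ext_iff.1 (h.2.symm.trans h'.2)).1

lemma lab_nbr (h : Lab sc x y z) (h' : Lab sc x y' z) : y = y' := by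
  by_contra hne
  exact sc.proper x y y' h.1 h'.1 hne (h.2.trans h'.2.symm)

lemma lab_nbr' (h : Lab sc x y z) (h' : Lab sc x' y z) : x = x' :=
  lab_nbr (lab_symm h) (lab_symm h')

lemma lab_ne1 (h : Lab sc x y z) : z ≠ x := by
  intro he
  subst he
  exact sc.star_ne _ _ h.1 h.2

lemma lab_ne2 (h : Lab sc x y z) : z ≠ y := lab_ne1 (lab_symm h)

end lab

/-! ## masks -/

section masks

lemma bit_lor (a b i : ℕ) : (Nat.lor a b).testBit i = (a.testBit i || b.testBit i) :=
  Nat.testBit_or a b i

lemma bit_land (a b i : ℕ) : (Nat.land a b).testBit i = (a.testBit i && b.testBit i) :=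
  Nat.testBit_and a b i

lemma bit_pow (a i : ℕ) : (2 ^ a).testBit i = decide (a = i) := Nat.testBit_two_pow

variable {V : Type}

/-- agreement on the indices coded by the mask -/
def Agr (σ σ' : ℕ → V) (m : ℕ) : Prop := ∀ i, m.testBit i = true → σ i = σ' i

lemma agr_lor {σ σ' : ℕ → V} {m n : ℕ} (h : Agr σ σ' m) (h' : Agr σ σ' n) :
    Agr σ σ' (Nat.lor m n) := by
  intro i hi
  rw [bit_lor, Bool.or_eq_true] at hi
  rcases hi with hi | hi
  · exact h i hi
  · exact h' i hi

lemma agr_pow {σ σ' : ℕ → V} {a : ℕ} (h : σ a = σ' a) : Agr σ σ' (2 ^ a) := by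
  intro i hi
  rw [bit_pow, decide_eq_true_eq] at hi
  subst hi
  exact h

lemma bits_of_land {m X a b : ℕ} (h : Nat.land m X = Nat.lor (2 ^ a) (2 ^ b)) :
    m.testBit a = true ∧ m.testBit b = true := by
  have h1 := congrArg (fun n => Nat.testBit n a) h
  have h2 := congrArg (fun n => Nat.testBit n b) h
  simp only [bit_land, bit_lor, bit_pow, decide_true, Bool.true_or, Bool.or_true,
    Bool.and_eq_true] at h1 h2
  exact ⟨h1.1, h2.1⟩

lemma apl_agr {sc : SC V} {σ σ' : ℕ → V} : ∀ (ts : List (ℕ × ℕ × ℕ)) (m : ℕ),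
    (∀ t ∈ ts, Lab sc (σ t.1) (σ t.2.1) (σ t.2.2)) →
    (∀ t ∈ ts, Lab sc (σ' t.1) (σ' t.2.1) (σ' t.2.2)) → Agr σ σ' m → Agr σ σ' (apl ts m)
  | [], m, _, _, hm => hm
  | t :: ts, m, h, h', hm => by
      unfold apl
      refine apl_agr ts _ (fun s hs => h s (List.mem_cons_of_mem _ hs))
        (fun s hs => h' s (List.mem_cons_of_mem _ hs)) ?_
      have ht := h t List.mem_cons_self
      have ht' := h' t List.mem_cons_self
      have key : ∀ (c : Bool), (c = true → σ t.1 = σ' t.1 ∧ σ t.2.1 = σ' t.2.1 ∧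
          σ t.2.2 = σ' t.2.2) → Agr σ σ' (bif c then
            Nat.lor m (Nat.lor (2 ^ t.1) (Nat.lor (2 ^ t.2.1) (2 ^ t.2.2))) else m) := by
        intro c hc
        cases c with
        | false => exact hm
        | true =>
          obtain ⟨h1, h2, h3⟩ := hc rfl
          exact agr_lor hm (agr_lor (agr_pow h1) (agr_lor (agr_pow h2) (agr_pow h3)))
      apply key
      intro hc
      rw [Bool.or_eq_true, Bool.or_eq_true] at hc
      rcases hc with hc | hc | hc
      · obtain ⟨b1, b2⟩ := bits_of_land (Nat.eq_of_beq_eq_true hc)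
        have e1 := hm _ b1
        have e2 := hm _ b2
        refine ⟨e1, e2, ?_⟩
        rw [e1, e2] at ht
        exact lab_label ht ht'
      · obtain ⟨b1, b2⟩ := bits_of_land (Nat.eq_of_beq_eq_true hc)
        have e1 := hm _ b1
        have e2 := hm _ b2
        refine ⟨e1, ?_, e2⟩
        rw [e1, e2] at ht
        exact lab_nbr ht ht'
      · obtain ⟨b1, b2⟩ := bits_of_land (Nat.eq_of_beq_eq_true hc)
        have e1 := hm _ b1
        have e2 := hm _ b2
        refine ⟨?_, e1, e2⟩
        rw [e1, e2] at ht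
        exact lab_nbr' ht ht'

lemma idt_agr {σ σ' : ℕ → V} {p q m : ℕ} (h : σ p = σ q) (h' : σ' p = σ' q)
    (hm : Agr σ σ' m) : Agr σ σ' (idt p q m) := by
  unfold idt
  by_cases hc : Nat.land m (Nat.lor (2 ^ p) (2 ^ q)) = 0
  · rw [hc]
    exact hm
  · have h0 : Nat.beq (Nat.land m (Nat.lor (2 ^ p) (2 ^ q))) 0 = false := by
      rw [← Bool.not_eq_true]
      intro h1
      exact hc (Nat.eq_of_beq_eq_true h1)
    rw [h0]
    have h2 : ∃ i, (Nat.land m (Nat.lor (2 ^ p) (2 ^ q))).testBit i = true :=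
      Nat.exists_testBit_of_ne_zero hc
    obtain ⟨i, hi⟩ := h2
    rw [bit_land, bit_lor, bit_pow, bit_pow, Bool.and_eq_true, Bool.or_eq_true,
      decide_eq_true_eq, decide_eq_true_eq] at hi
    have hi' := hm i hi.1
    have hp : σ p = σ' p := by
      rcases hi.2 with h3 | h3
      · rw [h3]; exact hi'
      · rw [h, h', h3]; exact hi'
    have hq : σ q = σ' q := by rw [← h, ← h']; exact hp
    exact agr_lor hm (agr_lor (agr_pow hp) (agr_pow hq))

lemma clos_agr {sc : SC V} {σ σ' : ℕ → V} {p q : ℕ} {ts : List (ℕ × ℕ × ℕ)}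
    (h : ∀ t ∈ ts, Lab sc (σ t.1) (σ t.2.1) (σ t.2.2))
    (h' : ∀ t ∈ ts, Lab sc (σ' t.1) (σ' t.2.1) (σ' t.2.2)) (hp : σ p = σ q)
    (hp' : σ' p = σ' q) : ∀ (n m : ℕ), Agr σ σ' m → Agr σ σ' (clos p q ts n m)
  | 0, _, hm => hm
  | n + 1, _, hm => clos_agr h h' hp hp' n _ (apl_agr ts _ h h' (idt_agr hp hp' hm))

lemma maskOf_agr {σ σ' : ℕ → V} : ∀ (F : List ℕ) (B : ℕ), Agr σ σ' B →
    (∀ i ∈ F, σ i = σ' i) → Agr σ σ' (maskOf B F)
  | [], _, hB, _ => hB
  | i :: F, _, hB, hF => maskOf_agr F _ (agr_lor hB (agr_pow (hF i List.mem_cons_self)))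
      fun j hj => hF j (List.mem_cons_of_mem _ hj)

lemma gen_agr {sc : SC V} {σ σ' : ℕ → V} {p q : ℕ} {ts : List (ℕ × ℕ × ℕ)} {m n B : ℕ}
    {F : List ℕ} (hg : gen p q ts m n B F = true)
    (h : ∀ t ∈ ts, Lab sc (σ t.1) (σ t.2.1) (σ t.2.2))
    (h' : ∀ t ∈ ts, Lab sc (σ' t.1) (σ' t.2.1) (σ' t.2.2)) (hp : σ p = σ q)
    (hp' : σ' p = σ' q) (hB : Agr σ σ' B) (hF : ∀ i ∈ F, σ i = σ' i) :
    ∀ i < m, σ i = σ' i := by
  intro i hi
  unfold gen at hg
  have h1 := Nat.eq_of_beq_eq_true hg
  have h2 := congrArg (fun n => Nat.testBit n i) h1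
  simp only [bit_land, Nat.testBit_two_pow_sub_one, hi, decide_true, Bool.and_true] at h2
  exact clos_agr h h' hp hp' n _ (maskOf_agr F B hB hF) i h2

lemma agr_const {σ σ' : ℕ → V} {e : ℕ} (h : ∀ i < e, σ i = σ' i) : Agr σ σ' (2 ^ e - 1) := by
  intro i hi
  rw [Nat.testBit_two_pow_sub_one, decide_eq_true_eq] at hi
  exact h i hi

end masks

/-! ## configurations -/

section conf
variable {V : Type}

/-- recursive form of `Sat` -/
def SatR (sc : SC V) (σ : ℕ → V) : ℕ → List Step → Prop
  | _, [] => True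
  | i, s :: l => Holds sc σ i s ∧ SatR sc σ (i + 1) l

lemma sat_of_satR (sc : SC V) (σ : ℕ → V) : ∀ (l : List Step) (i : ℕ), SatR sc σ i l →
    Sat sc i l σ
  | [], _, _ => by
      intro j h
      exact absurd h (Nat.not_lt_zero _)
  | s :: l, i, hs => by
      intro j h
      cases j with
      | zero => exact hs.1
      | succ j =>
        have h1 := sat_of_satR sc σ l (i + 1) hs.2 j (by simpa using h)
        have h2 : i + (j + 1) = i + 1 + j := by omega
        rw [h2]
        exact h1

lemma satR_append (sc : SC V) (σ : ℕ → V) : ∀ (l l' : List Step) (i : ℕ),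
    SatR sc σ i (l ++ l') ↔ SatR sc σ i l ∧ SatR sc σ (i + l.length) l'
  | [], l', i => by simp [SatR]
  | s :: l, l', i => by
      have h := satR_append sc σ l l' (i + 1)
      have h2 : i + (s :: l).length = i + 1 + l.length := by
        simp only [List.length_cons]
        omega
      rw [h2]
      simp only [List.cons_append, SatR]
      rw [h, and_assoc]

lemma wf_append : ∀ (l l' : List Step) (i : ℕ), wf i (l ++ l') = true →
    wf i l = true ∧ wf (i + l.length) l' = true
  | [], l', i, h => by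
      refine ⟨rfl, ?_⟩
      simpa using h
  | s :: l, l', i, h => by
      have h2 : i + (s :: l).length = i + 1 + l.length := by
        simp only [List.length_cons]
        omega
      rw [h2]
      cases s with
      | free =>
        simp only [List.cons_append, wf] at h ⊢
        exact wf_append l l' (i + 1) h
      | lab a b =>
        simp only [List.cons_append, wf, Bool.and_eq_true] at h ⊢
        obtain ⟨h3, h4, h5, h6⟩ := h
        have h7 := wf_append l l' (i + 1) h6
        exact ⟨⟨h3, h4, h5, h7.1⟩, h7.2⟩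
      | nbr a b =>
        simp only [List.cons_append, wf, Bool.and_eq_true] at h ⊢
        obtain ⟨h3, h4, h5, h6⟩ := h
        have h7 := wf_append l l' (i + 1) h6
        exact ⟨⟨h3, h4, h5, h7.1⟩, h7.2⟩

lemma nfree_append : ∀ (l l' : List Step), nfree (l ++ l') = nfree l + nfree l'
  | [], l' => by simp [nfree]
  | s :: l, l' => by
      have h := nfree_append l l'
      cases s <;> simp only [List.cons_append, nfree, h]
      omega

lemma satR_congr (sc : SC V) {σ σ' : ℕ → V} : ∀ (l : List Step) (i : ℕ), wf i l = true →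
    (∀ j < i + l.length, σ j = σ' j) → SatR sc σ i l → SatR sc σ' i l
  | [], _, _, _, _ => trivial
  | s :: l, i, hw, hσ, hs => by
      have hlen : i + (s :: l).length = i + 1 + l.length := by
        simp only [List.length_cons]
        omega
      rw [hlen] at hσ
      have hi := hσ i (by omega)
      cases s with
      | free =>
        simp only [wf] at hw
        exact ⟨trivial, satR_congr sc l (i + 1) hw hσ hs.2⟩
      | lab a b =>
        simp only [wf, Bool.and_eq_true] at hw
        obtain ⟨h3, h4, _, h6⟩ := hw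
        have ha : a < i := by simpa [Nat.blt_eq] using h3
        have hb : b < i := by simpa [Nat.blt_eq] using h4
        refine ⟨?_, satR_congr sc l (i + 1) h6 hσ hs.2⟩
        have h1 : Lab sc (σ a) (σ b) (σ i) := hs.1
        show Lab sc (σ' a) (σ' b) (σ' i)
        rw [← hσ a (by omega), ← hσ b (by omega), ← hi]
        exact h1
      | nbr a b =>
        simp only [wf, Bool.and_eq_true] at hw
        obtain ⟨h3, h4, _, h6⟩ := hw
        have ha : a < i := by simpa [Nat.blt_eq] using h3
        have hb : b < i := by simpa [Nat.blt_eq] using h4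
        refine ⟨?_, satR_congr sc l (i + 1) h6 hσ hs.2⟩
        have h1 : Lab sc (σ a) (σ i) (σ b) := hs.1
        show Lab sc (σ' a) (σ' i) (σ' b)
        rw [← hσ a (by omega), ← hσ b (by omega), ← hi]
        exact h1

lemma lab_of_triples (sc : SC V) (σ : ℕ → V) : ∀ (l : List Step) (i : ℕ), SatR sc σ i l →
    ∀ t ∈ triples i l, Lab sc (σ t.1) (σ t.2.1) (σ t.2.2)
  | [], _, _, t, ht => by simp [triples] at ht
  | s :: l, i, hs, t, ht => by
      cases s with
      | free =>
        simp only [triples] at ht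
        exact lab_of_triples sc σ l (i + 1) hs.2 t ht
      | lab a b =>
        simp only [triples, List.mem_cons] at ht
        rcases ht with ht | ht
        · subst ht
          exact hs.1
        · exact lab_of_triples sc σ l (i + 1) hs.2 t ht
      | nbr a b =>
        simp only [triples, List.mem_cons] at ht
        rcases ht with ht | ht
        · subst ht
          exact hs.1
        · exact lab_of_triples sc σ l (i + 1) hs.2 t ht

end conf

/-! ## counting -/

section count
variable {V : Type} [Fintype V] [DecidableEq V]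

/-- extension by a default value -/
def ex (m : ℕ) (v0 : V) (f : Fin m → V) : ℕ → V := fun i => if h : i < m then f ⟨i, h⟩ else v0

omit [Fintype V] [DecidableEq V] in
lemma ex_ext {m : ℕ} {v0 : V} {f g : Fin m → V} (h : ∀ i < m, ex m v0 f i = ex m v0 g i) :
    f = g := by
  funext i
  have := h i i.2
  simpa [ex] using this

omit [Fintype V] [DecidableEq V] in
lemma ex_ge {m : ℕ} {v0 : V} {f : Fin m → V} {i : ℕ} (h : m ≤ i) : ex m v0 f i = v0 := by
  simp [ex, Nat.not_lt.2 h]

/-- change of one value -/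
def upd (m : ℕ) (f : Fin m → V) (i : ℕ) (v : V) : Fin m → V := fun j => if (j : ℕ) = i then v else f j

omit [Fintype V] [DecidableEq V] in
lemma ex_upd {m : ℕ} {v0 : V} {f : Fin m → V} {i : ℕ} (hi : i < m) (v : V) (j : ℕ) :
    ex m v0 (upd m f i v) j = if j = i then v else ex m v0 f j := by
  unfold ex upd
  by_cases hj : j < m
  · simp [hj]
  · have : j ≠ i := by omega
    simp [hj, this]

omit [DecidableEq V] in
lemma card_le_of_det {m : ℕ} (v0 : V) (S : Finset (Fin m → V)) (F : List ℕ)
    (h : ∀ f ∈ S, ∀ g ∈ S, (∀ i ∈ F, ex m v0 f i = ex m v0 g i) → f = g) :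
    S.card ≤ Fintype.card V ^ F.length := by
  have h1 : S.card ≤ (univ : Finset (Fin F.length → V)).card := by
    refine card_le_card_of_injOn (fun f j => ex m v0 f (F.get j)) (fun _ _ => mem_univ _) ?_
    intro f hf g hg hfg
    refine h f hf g hg fun i hi => ?_
    obtain ⟨j, hj⟩ := List.get_of_mem hi
    have := congrFun hfg j
    simp only [hj] at this
    exact this
  refine h1.trans_eq ?_
  rw [card_univ, Fintype.card_fun, Fintype.card_fin]

open Classical in
/-- solutions of the steps `pre` with new vertices in `W` -/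
noncomputable def Sol (sc : SC V) (W : Finset V) (e m : ℕ) (v0 : V) (τ : ℕ → V)
    (pre : List Step) : Finset (Fin m → V) :=
  univ.filter fun f => (∀ i < e, ex m v0 f i = τ i) ∧ SatR sc (ex m v0 f) e pre ∧
    (∀ i, e ≤ i → i < e + pre.length → ex m v0 f i ∈ W) ∧
    (∀ i, e + pre.length ≤ i → ex m v0 f i = v0)

lemma mem_Sol {sc : SC V} {W : Finset V} {e m : ℕ} {v0 : V} {τ : ℕ → V} {pre : List Step}
    {f : Fin m → V} : f ∈ Sol sc W e m v0 τ pre ↔ (∀ i < e, ex m v0 f i = τ i) ∧
    SatR sc (ex m v0 f) e pre ∧ (∀ i, e ≤ i → i < e + pre.length → ex m v0 f i ∈ W) ∧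
    (∀ i, e + pre.length ≤ i → ex m v0 f i = v0) := by
  simp only [Sol, mem_filter, mem_univ, true_and]

/-- determination of solutions -/
lemma sol_det {sc : SC V} {W : Finset V} {e m : ℕ} {v0 : V} {τ : ℕ → V} {pre : List Step}
    {p q n B : ℕ} {F : List ℕ}
    (hg : gen p q (triples e pre) (e + pre.length) n B F = true) (S : Finset (Fin m → V))
    (hS : ∀ f ∈ S, f ∈ Sol sc W e m v0 τ pre) (hpq : ∀ f ∈ S, ex m v0 f p = ex m v0 f q)
    (hB : ∀ f ∈ S, ∀ g ∈ S, Agr (ex m v0 f) (ex m v0 g) B) :
    S.card ≤ Fintype.card V ^ F.length := by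
  refine card_le_of_det v0 S F fun f hf g hg' hF => ?_
  have h1 := mem_Sol.1 (hS f hf)
  have h2 := mem_Sol.1 (hS g hg')
  have h3 := gen_agr hg (lab_of_triples sc _ pre e h1.2.1) (lab_of_triples sc _ pre e h2.2.1)
    (hpq f hf) (hpq g hg') (hB f hf g hg') hF
  refine ex_ext (v0 := v0) fun i _ => ?_
  by_cases hi : i < e + pre.length
  · exact h3 i hi
  · rw [h1.2.2.2 i (by omega), h2.2.2.2 i (by omega)]

/-- extension by one vertex -/
lemma sol_ext {sc : SC V} {W : Finset V} {e m : ℕ} {v0 : V} {τ : ℕ → V} {pre : List Step}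
    {s : Step} (hm : e + pre.length < m) (hw : wf e pre = true) {f : Fin m → V} {v : V}
    (hf : f ∈ Sol sc W e m v0 τ pre) (hv : v ∈ W)
    (hs : Holds sc (ex m v0 (upd m f (e + pre.length) v)) (e + pre.length) s) :
    upd m f (e + pre.length) v ∈ Sol sc W e m v0 τ (pre ++ [s]) := by
  obtain ⟨h1, h2, h3, h4⟩ := mem_Sol.1 hf
  rw [mem_Sol]
  have hlen : e + (pre ++ [s]).length = e + pre.length + 1 := by
    simp only [List.length_append, List.length_cons, List.length_nil]
    omega
  rw [hlen]
  refine ⟨fun i hi => ?_, ?_, fun i hi hi' => ?_, fun i hi => ?_⟩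
  · rw [ex_upd hm, if_neg (by omega)]
    exact h1 i hi
  · rw [satR_append]
    refine ⟨satR_congr sc pre e hw (fun j hj => ?_) h2, hs, trivial⟩
    rw [ex_upd hm, if_neg (by omega)]
  · rw [ex_upd hm]
    split_ifs with h
    · exact hv
    · exact h3 i hi (by omega)
  · rw [ex_upd hm, if_neg (by omega)]
    exact h4 i (by omega)

lemma upd_inj {sc : SC V} {W : Finset V} {e m : ℕ} {v0 : V} {τ : ℕ → V} {pre : List Step}
    (hm : e + pre.length < m) {f g : Fin m → V} {v w : V}
    (hf : f ∈ Sol sc W e m v0 τ pre) (hg : g ∈ Sol sc W e m v0 τ pre)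
    (h : upd m f (e + pre.length) v = upd m g (e + pre.length) w) : f = g ∧ v = w := by
  obtain ⟨_, _, _, h4⟩ := mem_Sol.1 hf
  obtain ⟨_, _, _, h4'⟩ := mem_Sol.1 hg
  have h5 : ∀ j, ex m v0 (upd m f (e + pre.length) v) j =
      ex m v0 (upd m g (e + pre.length) w) j := fun j => by rw [h]
  constructor
  · refine ex_ext (v0 := v0) fun j _ => ?_
    have h6 := h5 j
    rw [ex_upd hm, ex_upd hm] at h6
    by_cases hj : j = e + pre.length
    · rw [hj, h4 _ le_rfl, h4' _ le_rfl]
    · rw [if_neg hj, if_neg hj] at h6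
      exact h6
  · have h6 := h5 (e + pre.length)
    rw [ex_upd hm, ex_upd hm, if_pos rfl, if_pos rfl] at h6
    exact h6

/-- free step -/
lemma step_free {sc : SC V} {W : Finset V} {e m : ℕ} {v0 : V} {τ : ℕ → V} {pre : List Step}
    (hm : e + pre.length < m) (hw : wf e pre = true) :
    (Sol sc W e m v0 τ pre).card * W.card ≤ (Sol sc W e m v0 τ (pre ++ [Step.free])).card := by
  rw [← card_product]
  refine card_le_card_of_injOn (fun p => upd m p.1 (e + pre.length) p.2) ?_ ?_
  · rintro ⟨f, v⟩ hfv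
    rw [coe_product, Set.mem_prod, mem_coe, mem_coe] at hfv
    exact sol_ext hm hw hfv.1 hfv.2 trivial
  · rintro ⟨f, v⟩ hfv ⟨g, w⟩ hgw h
    rw [coe_product, Set.mem_prod, mem_coe, mem_coe] at hfv hgw
    obtain ⟨h1, h2⟩ := upd_inj hm hfv.1 hgw.1 h
    exact Prod.ext h1 h2

open Classical in
/-- a step which is not free -/
lemma step_bound {sc : SC V} {W Rg : Finset V} {e m : ℕ} {v0 : V} {τ : ℕ → V}
    {pre : List Step} {s : Step} {a b : ℕ} {c : ℕ × List ℕ} {Q : V → V → Prop} {β : ℝ}
    (hm : e + pre.length < m) (hw : wf e pre = true)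
    (ha : a < e + pre.length) (hWR : W ⊆ Rg)
    (hc : chkStep e pre a b c = true)
    (hQ : ∀ (f : Fin m → V), f ∈ Sol sc W e m v0 τ pre → ¬ Q (ex m v0 f a) (ex m v0 f b) →
      ∃ v ∈ W, Holds sc (ex m v0 (upd m f (e + pre.length) v)) (e + pre.length) s)
    (hrow : ∀ x ∈ Rg, ((univ.filter fun y => Q x y).card : ℝ) ≤ β)
    (hcol : b < e → ((univ.filter fun x => Q x (τ b)).card : ℝ) ≤ β) (hβ : 0 ≤ β)
    (hτ : a < e → τ a ∈ Rg) (hN : 1 ≤ Fintype.card V) :
    ((Sol sc W e m v0 τ pre).card : ℝ) - β * (Fintype.card V : ℝ) ^ (nfree pre - 1) ≤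
      ((Sol sc W e m v0 τ (pre ++ [s])).card : ℝ) := by
  have hN1 : (1 : ℝ) ≤ Fintype.card V := by exact_mod_cast hN
  unfold chkStep at hc
  rw [Bool.and_eq_true, Bool.and_eq_true] at hc
  obtain ⟨hg, hle, hab⟩ := hc
  have hle := Nat.le_of_ble_eq_true hle
  set S := Sol sc W e m v0 τ pre with hS
  set Bd := S.filter fun f => Q (ex m v0 f a) (ex m v0 f b) with hBd
  -- the good solutions extend
  have h1 : (S.filter fun f => ¬ Q (ex m v0 f a) (ex m v0 f b)).card ≤
      (Sol sc W e m v0 τ (pre ++ [s])).card := by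
    have h2 : ∀ f ∈ S.filter (fun f => ¬ Q (ex m v0 f a) (ex m v0 f b)),
        ∃ v ∈ W, Holds sc (ex m v0 (upd m f (e + pre.length) v)) (e + pre.length) s :=
      fun f hf => hQ f (mem_filter.1 hf).1 (mem_filter.1 hf).2
    have : Nonempty V := ⟨v0⟩
    choose! φ hφ1 hφ2 using h2
    refine card_le_card_of_injOn (fun f => upd m f (e + pre.length) (φ f)) ?_ ?_
    · intro f hf
      exact sol_ext hm hw (mem_filter.1 hf).1 (hφ1 f hf) (hφ2 f hf)
    · intro f hf g hg h
      exact (upd_inj hm (mem_filter.1 hf).1 (mem_filter.1 hg).1 h).1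
  have h2 : S.card = Bd.card + (S.filter fun f => ¬ Q (ex m v0 f a) (ex m v0 f b)).card := by
    rw [hBd]
    exact (card_filter_add_card_filter_not _).symm
  -- few solutions with given values at `a`, `b`
  have h3 : ∀ x y, (S.filter fun f => ex m v0 f a = x ∧ ex m v0 f b = y).card ≤
      Fintype.card V ^ c.2.length := by
    intro x y
    refine sol_det (m := m) hg _ (fun f hf => (mem_filter.1 hf).1) (fun f hf => rfl) ?_
    intro f hf g hg'
    have hf' := mem_filter.1 hf
    have hg'' := mem_filter.1 hg'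
    refine agr_lor (agr_const fun i hi => ?_) (agr_lor (agr_pow ?_) (agr_pow ?_))
    · rw [(mem_Sol.1 hf'.1).1 i hi, (mem_Sol.1 hg''.1).1 i hi]
    · rw [hf'.2.1, hg''.2.1]
    · rw [hf'.2.2, hg''.2.2]
  -- fixed first argument
  have h4 : ∀ x ∈ Rg, ((Bd.filter fun f => ex m v0 f a = x).card : ℝ) ≤
      (Fintype.card V : ℝ) ^ c.2.length * β := by
    intro x hx
    have h5 : (Bd.filter fun f => ex m v0 f a = x).card ≤
        Fintype.card V ^ c.2.length * (univ.filter fun y => Q x y).card := by
      refine card_le_mul_card_image_of_maps_to (f := fun f => ex m v0 f b) ?_ _ ?_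
      · intro f hf
        obtain ⟨hf1, hf2⟩ := mem_filter.1 hf
        have hf3 := (mem_filter.1 hf1).2
        rw [mem_filter]
        refine ⟨mem_univ _, ?_⟩
        rw [hf2] at hf3
        exact hf3
      · intro y _
        refine le_trans (card_le_card ?_) (h3 x y)
        intro f hf
        obtain ⟨hf1, hf2⟩ := mem_filter.1 hf
        obtain ⟨hf3, hf4⟩ := mem_filter.1 hf1
        exact mem_filter.2 ⟨(mem_filter.1 hf3).1, hf4, hf2⟩
    calc ((Bd.filter fun f => ex m v0 f a = x).card : ℝ)
        ≤ ((Fintype.card V ^ c.2.length * (univ.filter fun y => Q x y).card : ℕ) : ℝ) := by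
          exact_mod_cast h5
      _ = (Fintype.card V : ℝ) ^ c.2.length * ((univ.filter fun y => Q x y).card : ℝ) := by
          push_cast
          ring
      _ ≤ _ := mul_le_mul_of_nonneg_left (hrow x hx) (by positivity)
  have hBdle : (Bd.card : ℝ) ≤ β * (Fintype.card V : ℝ) ^ (nfree pre - 1) := by
    by_cases hae : a < e
    · -- `a` is a constant
      have hlen : c.2.length ≤ nfree pre - 1 := by
        have : Nat.blt a e = true := by simpa [Nat.blt_eq] using hae
        rw [this] at hle
        simp only [Bool.true_or, cond_true] at hle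
        omega
      have h5 : Bd.filter (fun f => ex m v0 f a = τ a) = Bd := by
        refine filter_true_of_mem fun f hf => ?_
        exact (mem_Sol.1 (mem_filter.1 hf).1).1 a hae
      have h6 := h4 (τ a) (hτ hae)
      rw [h5] at h6
      refine h6.trans ?_
      rw [mul_comm]
      exact mul_le_mul_of_nonneg_left (pow_le_pow_right₀ hN1 hlen) hβ
    · by_cases hbe : b < e
      · -- `b` is a constant
        have hlen : c.2.length ≤ nfree pre - 1 := by
          have : Nat.blt b e = true := by simpa [Nat.blt_eq] using hbe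
          rw [this] at hle
          simp only [Bool.or_true, cond_true] at hle
          omega
        have h5 : Bd.card ≤
            Fintype.card V ^ c.2.length * (univ.filter fun x => Q x (τ b)).card := by
          refine card_le_mul_card_image_of_maps_to (f := fun f => ex m v0 f a) ?_ _ ?_
          · intro f hf
            obtain ⟨hf1, hf2⟩ := mem_filter.1 hf
            rw [(mem_Sol.1 hf1).1 b hbe] at hf2
            exact mem_filter.2 ⟨mem_univ _, hf2⟩
          · intro x _
            refine le_trans (card_le_card ?_) (h3 x (τ b))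
            intro f hf
            obtain ⟨hf1, hf2⟩ := mem_filter.1 hf
            obtain ⟨hf3, hf4⟩ := mem_filter.1 hf1
            exact mem_filter.2 ⟨hf3, hf2, (mem_Sol.1 hf3).1 b hbe⟩
        calc (Bd.card : ℝ)
            ≤ ((Fintype.card V ^ c.2.length * (univ.filter fun x => Q x (τ b)).card : ℕ) : ℝ) := by
              exact_mod_cast h5
          _ = ((univ.filter fun x => Q x (τ b)).card : ℝ) * (Fintype.card V : ℝ) ^ c.2.length := by
              push_cast
              ring
          _ ≤ β * (Fintype.card V : ℝ) ^ (nfree pre - 1) :=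
              mul_le_mul (hcol hbe) (pow_le_pow_right₀ hN1 hlen) (by positivity) hβ
      · -- both are new
        have hlen : c.2.length + 1 ≤ nfree pre - 1 := by
          have h5 : Nat.blt a e = false := by
            rw [← Bool.not_eq_true]
            intro h6
            exact hae (by simpa [Nat.blt_eq] using h6)
          have h6 : Nat.blt b e = false := by
            rw [← Bool.not_eq_true]
            intro h6
            exact hbe (by simpa [Nat.blt_eq] using h6)
          rw [h5, h6] at hle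
          simp only [Bool.or_false, cond_false] at hle
          omega
        have h5 : Bd.card = ∑ x ∈ W, (Bd.filter fun f => ex m v0 f a = x).card := by
          refine card_eq_sum_card_fiberwise fun f hf => ?_
          rw [mem_coe] at hf ⊢
          exact (mem_Sol.1 (mem_filter.1 hf).1).2.2.1 a (by omega) ha
        calc (Bd.card : ℝ) = ∑ x ∈ W, ((Bd.filter fun f => ex m v0 f a = x).card : ℝ) := by
              rw [h5]
              push_cast
              rfl
          _ ≤ ∑ _x ∈ W, (Fintype.card V : ℝ) ^ c.2.length * β :=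
              sum_le_sum fun x hx => h4 x (hWR hx)
          _ = (W.card : ℝ) * ((Fintype.card V : ℝ) ^ c.2.length * β) := by
              rw [sum_const, nsmul_eq_mul]
          _ ≤ (Fintype.card V : ℝ) * ((Fintype.card V : ℝ) ^ c.2.length * β) := by
              refine mul_le_mul_of_nonneg_right ?_ (by positivity)
              exact_mod_cast card_le_univ W
          _ = β * (Fintype.card V : ℝ) ^ (c.2.length + 1) := by ring
          _ ≤ β * (Fintype.card V : ℝ) ^ (nfree pre - 1) :=
              mul_le_mul_of_nonneg_left (pow_le_pow_right₀ hN1 hlen) hβ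
  have h6 : (S.card : ℝ) = (Bd.card : ℝ) +
      ((S.filter fun f => ¬ Q (ex m v0 f a) (ex m v0 f b)).card : ℝ) := by
    exact_mod_cast h2
  have h7 : ((S.filter fun f => ¬ Q (ex m v0 f a) (ex m v0 f b)).card : ℝ) ≤
      ((Sol sc W e m v0 τ (pre ++ [s])).card : ℝ) := by exact_mod_cast h1
  linarith

open Classical in
lemma card_rel (R : V → V → Prop) (hR : ∀ y y' z, R y z → R y' z → y = y') (W : Finset V) :
    (univ.filter fun y => ∃ z, R y z ∧ z ∉ W).card ≤ (univ \ W).card := by
  have h : ∀ y ∈ univ.filter (fun y => ∃ z, R y z ∧ z ∉ W), ∃ z, R y z ∧ z ∉ W :=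
    fun y hy => (mem_filter.1 hy).2
  rcases isEmpty_or_nonempty V with hV | hV
  · rw [filter_eq_empty_iff.2 fun y _ => hV.elim y]
    simp
  choose! φ hφ1 hφ2 using h
  refine card_le_card_of_injOn φ (fun y hy => ?_) fun y hy y' hy' he => ?_
  · rw [mem_coe, mem_sdiff]
    exact ⟨mem_univ _, hφ2 y hy⟩
  · exact hR y y' (φ y) (hφ1 y hy) (he ▸ hφ1 y' hy')

lemma Qbound (R : V → V → Prop) (hR : ∀ y y' z, R y z → R y' z → y = y') (W : Finset V) {γ : ℝ}
    {P : V → Prop} (hP : ∀ y, P y → ∀ v ∈ W, ¬ R y v)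
    {i1 : DecidablePred fun y => ∀ z, ¬ R y z} {i2 : DecidablePred P}
    (h1 : ((@Finset.filter V (fun y => ∀ z, ¬ R y z) i1 univ).card : ℝ) ≤ γ)
    (h2 : ((univ \ W).card : ℝ) ≤ γ) :
    ((@Finset.filter V P i2 univ).card : ℝ) ≤ 2 * γ := by
  classical
  have h3 : (@Finset.filter V P i2 univ) ⊆
      (@Finset.filter V (fun y => ∀ z, ¬ R y z) i1 univ) ∪
      (univ.filter fun y => ∃ z, R y z ∧ z ∉ W) := by
    intro y hy
    rw [mem_union, mem_filter, mem_filter]
    by_cases h : ∀ z, ¬ R y z
    · exact Or.inl ⟨mem_univ _, h⟩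
    · push Not at h
      obtain ⟨z, hz⟩ := h
      exact Or.inr ⟨mem_univ _, z, hz, fun hzW => hP y (mem_filter.1 hy).2 z hzW hz⟩
  have h4 : ((@Finset.filter V P i2 univ).card : ℝ) ≤
      ((@Finset.filter V (fun y => ∀ z, ¬ R y z) i1 univ).card : ℝ) +
      ((univ.filter fun y => ∃ z, R y z ∧ z ∉ W).card : ℝ) := by
    exact_mod_cast (card_le_card h3).trans (card_union_le _ _)
  have h5 : ((univ.filter fun y => ∃ z, R y z ∧ z ∉ W).card : ℝ) ≤ ((univ \ W).card : ℝ) := by
    exact_mod_cast card_rel R hR W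
  linarith

lemma nfree_pos_of_chk {e : ℕ} {pre : List Step} {a b : ℕ} {c : ℕ × List ℕ}
    (h : chkStep e pre a b c = true) : 1 ≤ nfree pre := by
  unfold chkStep at h
  rw [Bool.and_eq_true, Bool.and_eq_true] at h
  have h1 := Nat.le_of_ble_eq_true h.2.1
  cases h2 : (Nat.blt a e || Nat.blt b e) with
  | false =>
    rw [h2] at h1
    simp only [cond_false] at h1
    omega
  | true =>
    rw [h2] at h1
    simp only [cond_true] at h1
    omega

/-- lower bound for the number of solutions -/
lemma main_ind {sc : SC V} {Rg Cg : Finset V} {δ : ℝ} (hL : LowG sc Rg Cg δ) (hδ : 0 ≤ δ)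
    (hδ1 : δ ≤ 1) (hN : 1 ≤ Fintype.card V) {e m : ℕ} {v0 : V} {τ : ℕ → V} :
    ∀ (l pre : List Step) (cs : List (ℕ × List ℕ)), wf e (pre ++ l) = true →
    chkDet e pre l cs = true → e + (pre ++ l).length ≤ m → (∀ i < e, usesRow i l → τ i ∈ Rg) →
    (∀ i < e, usesCol i l → τ i ∈ Cg) →
    (Fintype.card V : ℝ) ^ nfree pre * (1 - 3 * pre.length * δ) ≤
      ((Sol sc (Rg ∩ Cg) e m v0 τ pre).card : ℝ) →
    (Fintype.card V : ℝ) ^ nfree (pre ++ l) * (1 - 3 * (pre ++ l).length * δ) ≤
      ((Sol sc (Rg ∩ Cg) e m v0 τ (pre ++ l)).card : ℝ) := by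
  classical
  have hN1 : (1 : ℝ) ≤ Fintype.card V := by exact_mod_cast hN
  intro l
  induction l with
  | nil =>
    intro pre cs _ _ _ _ _ h
    rw [List.append_nil]
    exact h
  | cons s l ih =>
    intro pre cs hw hc hm hr hcl h
    have happ : pre ++ s :: l = (pre ++ [s]) ++ l := by simp
    rw [happ] at hw hm ⊢
    have hw1 := (wf_append (pre ++ [s]) l e hw).1
    have hw2 := (wf_append pre [s] e hw1).1
    have hw3 := (wf_append pre [s] e hw1).2
    have hm1 : e + pre.length < m := by
      simp only [List.length_append, List.length_cons, List.length_nil] at hm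
      omega
    have hlen : (((pre ++ [s]).length : ℕ) : ℝ) = (pre.length : ℝ) + 1 := by
      simp
    have hbig : ((univ \ (Rg ∩ Cg)).card : ℝ) ≤ δ * Fintype.card V := hL.big
    cases cs with
    | nil => cases s <;> simp [chkDet] at hc
    | cons c cs =>
      cases s with
      | free =>
        simp only [chkDet] at hc
        refine ih (pre ++ [Step.free]) cs hw hc hm (fun i hi hu => hr i hi hu)
          (fun i hi hu => hcl i hi hu) ?_
        have h1 : ((Sol sc (Rg ∩ Cg) e m v0 τ pre).card : ℝ) * ((Rg ∩ Cg).card : ℝ) ≤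
            ((Sol sc (Rg ∩ Cg) e m v0 τ (pre ++ [Step.free])).card : ℝ) := by
          exact_mod_cast step_free (sc := sc) (W := Rg ∩ Cg) (v0 := v0) (τ := τ) hm1 hw2
        have h2 : (1 - δ) * Fintype.card V ≤ ((Rg ∩ Cg).card : ℝ) := by
          have h3 : ((univ \ (Rg ∩ Cg)).card : ℝ) + ((Rg ∩ Cg).card : ℝ) = Fintype.card V := by
            have := card_sdiff_add_card_eq_card (subset_univ (Rg ∩ Cg))
            rw [card_univ] at this
            exact_mod_cast this
          linarith
        refine le_trans ?_ h1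
        rw [nfree_append, hlen]
        have h4 : nfree [Step.free] = 1 := rfl
        rw [h4, pow_succ]
        calc (Fintype.card V : ℝ) ^ nfree pre * Fintype.card V * (1 - 3 * (pre.length + 1) * δ)
            ≤ (Fintype.card V : ℝ) ^ nfree pre * Fintype.card V *
              ((1 - 3 * pre.length * δ) * (1 - δ)) := by
              refine mul_le_mul_of_nonneg_left ?_ (by positivity)
              have h5 : 0 ≤ (pre.length : ℝ) * δ * δ := by positivity
              nlinarith
          _ = ((Fintype.card V : ℝ) ^ nfree pre * (1 - 3 * pre.length * δ)) *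
              ((1 - δ) * Fintype.card V) := by ring
          _ ≤ ((Sol sc (Rg ∩ Cg) e m v0 τ pre).card : ℝ) * ((1 - δ) * Fintype.card V) := by
              refine mul_le_mul_of_nonneg_right h ?_
              have : 0 ≤ 1 - δ := by linarith
              positivity
          _ ≤ _ := mul_le_mul_of_nonneg_left h2 (by positivity)
      | lab a b =>
        simp only [chkDet, Bool.and_eq_true] at hc
        simp only [wf, Bool.and_eq_true, Nat.blt_eq] at hw3
        obtain ⟨ha, hb, _⟩ := hw3
        have hd := nfree_pos_of_chk hc.1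
        refine ih (pre ++ [Step.lab a b]) cs hw hc.2 hm
          (fun i hi hu => hr i hi (Or.inr (Or.inr hu))) (fun i hi hu => hcl i hi hu) ?_
        have h1 := step_bound (sc := sc) (W := Rg ∩ Cg) (Rg := Rg) (v0 := v0) (τ := τ)
          (s := Step.lab a b) (Q := fun x y => ∀ v ∈ Rg ∩ Cg, ¬ Lab sc x y v)
          (β := 2 * (δ * Fintype.card V)) hm1 hw2 ha inter_subset_left hc.1
          (by
            intro f hf hnQ
            push Not at hnQ
            obtain ⟨v, hv, hlab⟩ := hnQ
            refine ⟨v, hv, ?_⟩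
            show Lab sc _ _ _
            rw [ex_upd hm1, ex_upd hm1, ex_upd hm1, if_neg (by omega), if_neg (by omega),
              if_pos rfl]
            exact hlab)
          (by
            intro x hx
            exact Qbound (fun y z => Lab sc x y z) (fun y y' z h h' => lab_nbr h h') (Rg ∩ Cg)
              (fun y h => h) (hL.row x hx) hbig)
          (by
            intro hbe
            exact Qbound (fun y z => Lab sc (τ b) y z) (fun y y' z h h' => lab_nbr h h') (Rg ∩ Cg)
              (fun y h v hv hl => h v hv (lab_symm hl))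
              (hL.row (τ b) (hr b hbe (Or.inr (Or.inl rfl)))) hbig)
          (by positivity) (fun hae => hr a hae (Or.inl rfl)) hN
        refine le_trans ?_ h1
        rw [nfree_append, hlen]
        have h4 : nfree [Step.lab a b] = 0 := rfl
        rw [h4, add_zero]
        have h5 : 2 * (δ * (Fintype.card V : ℝ)) * (Fintype.card V : ℝ) ^ (nfree pre - 1) =
            2 * δ * (Fintype.card V : ℝ) ^ nfree pre := by
          obtain ⟨q, hq⟩ : ∃ q, nfree pre = q + 1 := ⟨nfree pre - 1, by omega⟩
          rw [hq, Nat.add_sub_cancel, pow_succ]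
          ring
        rw [h5]
        have h6 : 0 ≤ δ * (Fintype.card V : ℝ) ^ nfree pre := by positivity
        nlinarith
      | nbr a b =>
        simp only [chkDet, Bool.and_eq_true] at hc
        simp only [wf, Bool.and_eq_true, Nat.blt_eq] at hw3
        obtain ⟨ha, hb, _⟩ := hw3
        have hd := nfree_pos_of_chk hc.1
        refine ih (pre ++ [Step.nbr a b]) cs hw hc.2 hm
          (fun i hi hu => hr i hi (Or.inr hu)) (fun i hi hu => hcl i hi (Or.inr hu)) ?_
        have h1 := step_bound (sc := sc) (W := Rg ∩ Cg) (Rg := Rg) (v0 := v0) (τ := τ)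
          (s := Step.nbr a b) (Q := fun x y => ∀ v ∈ Rg ∩ Cg, ¬ Lab sc x v y)
          (β := 2 * (δ * Fintype.card V)) hm1 hw2 ha inter_subset_left hc.1
          (by
            intro f hf hnQ
            push Not at hnQ
            obtain ⟨v, hv, hlab⟩ := hnQ
            refine ⟨v, hv, ?_⟩
            show Lab sc _ _ _
            rw [ex_upd hm1, ex_upd hm1, ex_upd hm1, if_neg (by omega), if_pos rfl,
              if_neg (by omega)]
            exact hlab)
          (by
            intro x hx
            exact Qbound (fun y z => Lab sc x z y) (fun y y' z h h' => lab_label h h') (Rg ∩ Cg)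
              (fun y h => h) (hL.sym x hx) hbig)
          (by
            intro hbe
            exact Qbound (fun x z => Lab sc x z (τ b)) (fun y y' z h h' => lab_nbr' h h') (Rg ∩ Cg)
              (fun y h => h) (hL.col (τ b) (hcl b hbe (Or.inl rfl))) hbig)
          (by positivity) (fun hae => hr a hae (Or.inl rfl)) hN
        refine le_trans ?_ h1
        rw [nfree_append, hlen]
        have h4 : nfree [Step.nbr a b] = 0 := rfl
        rw [h4, add_zero]
        have h5 : 2 * (δ * (Fintype.card V : ℝ)) * (Fintype.card V : ℝ) ^ (nfree pre - 1) =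
            2 * δ * (Fintype.card V : ℝ) ^ nfree pre := by
          obtain ⟨q, hq⟩ : ∃ q, nfree pre = q + 1 := ⟨nfree pre - 1, by omega⟩
          rw [hq, Nat.add_sub_cancel, pow_succ]
          ring
        rw [h5]
        have h6 : 0 ≤ δ * (Fintype.card V : ℝ) ^ nfree pre := by positivity
        nlinarith

lemma sol_nil {sc : SC V} {W : Finset V} {e m : ℕ} (hm : e ≤ m) (v0 : V) (τ : ℕ → V) :
    1 ≤ (Sol sc W e m v0 τ []).card := by
  rw [Nat.one_le_iff_ne_zero, Ne, card_eq_zero, ← Ne, ← nonempty_iff_ne_empty]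
  refine ⟨fun i => if (i : ℕ) < e then τ i else v0, ?_⟩
  rw [mem_Sol]
  refine ⟨fun i hi => ?_, trivial, fun i hi hi' => ?_, fun i hi => ?_⟩
  · simp [ex, hi, lt_of_lt_of_le hi hm]
  · simp only [List.length_nil, add_zero] at hi'
    omega
  · simp only [List.length_nil, add_zero] at hi
    unfold ex
    split_ifs with h1
    · simp only
      rw [if_neg (by omega)]
    · rfl

/-! ## certificates -/

lemma row_cert {e m d : ℕ} {ts : List (ℕ × ℕ × ℕ)} {i : ℕ} :
    ∀ (cs : List (ℕ × List ℕ)) (j0 : ℕ), chkRow e m d ts i j0 cs = true →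
    ∀ j, j0 ≤ j → j < j0 + cs.length → ∃ c, chkCoin e m d ts i j c = true
  | [], j0, _, j, h1, h2 => by
      simp only [List.length_nil, add_zero] at h2
      omega
  | c :: cs, j0, h, j, h1, h2 => by
      simp only [chkRow, Bool.and_eq_true] at h
      rcases Nat.eq_or_lt_of_le h1 with h3 | h3
      · subst h3
        exact ⟨c, h.1⟩
      · refine row_cert cs (j0 + 1) h.2 j h3 ?_
        simp only [List.length_cons] at h2
        omega

lemma rows_cert {e m d : ℕ} {ts : List (ℕ × ℕ × ℕ)} :
    ∀ (Rs : List (List (ℕ × List ℕ))) (i0 : ℕ), chkRows e m d ts i0 Rs = true →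
    ∀ i j, i0 ≤ i → i < j → j < m → ∃ c, chkCoin e m d ts i j c = true
  | [], i0, h, i, j, h1, h2, h3 => by
      simp only [chkRows] at h
      have := Nat.eq_of_beq_eq_true h
      omega
  | R :: Rs, i0, h, i, j, h1, h2, h3 => by
      simp only [chkRows, Bool.and_eq_true] at h
      obtain ⟨h4, h5, h6⟩ := h
      have h4 := Nat.eq_of_beq_eq_true h4
      rcases Nat.eq_or_lt_of_le h1 with h7 | h7
      · subst h7
        exact row_cert R (i0 + 1) h5 j h2 (by omega)
      · exact rows_cert Rs (i0 + 1) h6 i j h7 h2 h3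

lemma fibs_cert {e m d : ℕ} {ts : List (ℕ × ℕ × ℕ)} :
    ∀ (cs : List (ℕ × List ℕ)) (i0 : ℕ), chkFibs e m d ts i0 cs = true →
    ∀ i, i0 ≤ i → i < m → ∃ c : ℕ × List ℕ,
      gen i i ts m c.1 (Nat.lor (2 ^ e - 1) (2 ^ i)) c.2 = true ∧ c.2.length < d
  | [], i0, h, i, h1, h2 => by
      simp only [chkFibs] at h
      have := Nat.eq_of_beq_eq_true h
      omega
  | c :: cs, i0, h, i, h1, h2 => by
      simp only [chkFibs, Bool.and_eq_true, Nat.blt_eq] at h
      rcases Nat.eq_or_lt_of_le h1 with h3 | h3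
      · subst h3
        exact ⟨c, h.1⟩
      · exact fibs_cert cs (i0 + 1) h.2 i h3 h2

lemma tog_mem : ∀ (ts : List (ℕ × ℕ × ℕ)) (i j : ℕ), tog ts i j = true →
    ∃ t ∈ ts, inT t i = true ∧ inT t j = true
  | [], i, j, h => by simp [tog] at h
  | t :: ts, i, j, h => by
      simp only [tog, Bool.or_eq_true, Bool.and_eq_true] at h
      rcases h with h | h
      · exact ⟨t, List.mem_cons_self, h⟩
      · obtain ⟨s, hs, h2⟩ := tog_mem ts i j h
        exact ⟨s, List.mem_cons_of_mem _ hs, h2⟩

lemma inT_cases {t : ℕ × ℕ × ℕ} {i : ℕ} (h : inT t i = true) :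
    i = t.1 ∨ i = t.2.1 ∨ i = t.2.2 := by
  unfold inT at h
  rw [Bool.or_eq_true, Bool.or_eq_true] at h
  rcases h with h | h | h
  · exact Or.inl (Nat.eq_of_beq_eq_true h).symm
  · exact Or.inr (Or.inl (Nat.eq_of_beq_eq_true h).symm)
  · exact Or.inr (Or.inr (Nat.eq_of_beq_eq_true h).symm)

omit [Fintype V] [DecidableEq V] in
lemma ne_of_tog {sc : SC V} {σ : ℕ → V} {ts : List (ℕ × ℕ × ℕ)}
    (h : ∀ t ∈ ts, Lab sc (σ t.1) (σ t.2.1) (σ t.2.2)) {i j : ℕ} (hij : i ≠ j)
    (ht : tog ts i j = true) : σ i ≠ σ j := by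
  obtain ⟨t, htm, h1, h2⟩ := tog_mem ts i j ht
  have hl := h t htm
  have n1 := hl.1
  have n2 := lab_ne1 hl
  have n3 := lab_ne2 hl
  rcases inT_cases h1 with h1 | h1 | h1 <;> rcases inT_cases h2 with h2 | h2 | h2 <;>
    rw [h1, h2] <;> first
      | exact absurd (h1.trans h2.symm) hij
      | exact n1
      | exact n1.symm
      | exact n2
      | exact n2.symm
      | exact n3
      | exact n3.symm

open Classical in
lemma coin_bound {sc : SC V} {W : Finset V} {e : ℕ} {v0 : V} {τ : ℕ → V} {st : List Step}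
    {d : ℕ} (hN : 1 ≤ Fintype.card V) (hτ : ∀ i < e, ∀ j < e, τ i = τ j → i = j) {i j : ℕ}
    (hij : i < j) {c : ℕ × List ℕ}
    (h : chkCoin e (e + st.length) d (triples e st) i j c = true) :
    ((Sol sc W e (e + st.length) v0 τ st).filter fun f =>
      ex (e + st.length) v0 f i = ex (e + st.length) v0 f j).card ≤
      Fintype.card V ^ (d - 1) := by
  obtain ⟨n, F⟩ := c
  cases n with
  | zero =>
    simp only [chkCoin, Bool.or_eq_true, Bool.and_eq_true, Nat.blt_eq] at h
    rw [filter_eq_empty_iff.2]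
    · simp
    · intro f hf he
      have hf' := mem_Sol.1 hf
      rcases h with ⟨h1, h2⟩ | h
      · rw [hf'.1 i h1, hf'.1 j h2] at he
        have := hτ i h1 j h2 he
        omega
      · exact ne_of_tog (lab_of_triples sc _ st e hf'.2.1) (by omega) h he
  | succ n =>
    simp only [chkCoin, Bool.and_eq_true, Nat.blt_eq] at h
    refine (sol_det (m := e + st.length) h.1 _ (fun f hf => (mem_filter.1 hf).1)
      (fun f hf => (mem_filter.1 hf).2) ?_).trans ?_
    · intro f hf g hg
      refine agr_const fun i hi => ?_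
      rw [(mem_Sol.1 (mem_filter.1 hf).1).1 i hi, (mem_Sol.1 (mem_filter.1 hg).1).1 i hi]
    · exact Nat.pow_le_pow_right hN (by omega)

open Classical in
lemma fib_bound {sc : SC V} {W : Finset V} {e : ℕ} {v0 : V} {τ : ℕ → V} {st : List Step}
    {d : ℕ} (hN : 1 ≤ Fintype.card V) {i : ℕ} {c : ℕ × List ℕ}
    (h : gen i i (triples e st) (e + st.length) c.1 (Nat.lor (2 ^ e - 1) (2 ^ i)) c.2 = true)
    (hd : c.2.length < d) (v : V) :
    ((Sol sc W e (e + st.length) v0 τ st).filter fun f =>
      ex (e + st.length) v0 f i = v).card ≤ Fintype.card V ^ (d - 1) := by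
  refine (sol_det (m := e + st.length) h _ (fun f hf => (mem_filter.1 hf).1)
    (fun f hf => rfl) ?_).trans ?_
  · intro f hf g hg
    refine agr_lor (agr_const fun i hi => ?_) (agr_pow ?_)
    · rw [(mem_Sol.1 (mem_filter.1 hf).1).1 i hi, (mem_Sol.1 (mem_filter.1 hg).1).1 i hi]
    · rw [(mem_filter.1 hf).2, (mem_filter.1 hg).2]
  · exact Nat.pow_le_pow_right hN (by omega)

end count

end SYSP_

theorem p_SYS : T_SYS := by
  classical
  intro e st Ds Cs Fs hchk hfree
  simp only [chk, Bool.and_eq_true] at hchk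
  obtain ⟨hwf, hdet, hrows, hfibs⟩ := hchk
  set k := st.length with hk
  set d := nfree st with hd
  set m := e + k with hm
  have hk1 : 1 ≤ k := by
    rcases Nat.eq_zero_or_pos k with h | h
    · have : st = [] := List.length_eq_zero_iff.1 h
      rw [hd, this] at hfree
      exact absurd hfree (lt_irrefl _)
    · exact h
  have hk1r : (1 : ℝ) ≤ k := by exact_mod_cast hk1
  refine ⟨1 / (12 * k), 1 / (2 * k ^ 2), 4 * m ^ 2 + 1, by positivity, by positivity, ?_⟩
  intro V _ _ sc Rg Cg hN0 hL τ hτR hτC hτinj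
  have hN : 1 ≤ Fintype.card V := by omega
  have hN1 : (1 : ℝ) ≤ Fintype.card V := by exact_mod_cast hN
  obtain ⟨v0⟩ : Nonempty V := Fintype.card_pos_iff.1 hN
  set N := Fintype.card V with hNdef
  set S := SYSP_.Sol sc (Rg ∩ Cg) e m v0 τ st with hS
  have hδ1 : (1 : ℝ) / (12 * k) ≤ 1 := by
    rw [div_le_one (by positivity)]
    linarith
  have h1 := SYSP_.main_ind hL (by positivity) hδ1 hN (e := e) (m := m) (v0 := v0) (τ := τ)
    st [] Ds (by simpa using hwf) hdet (by simp [hm, hk]) hτR hτC (by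
      simp only [nfree, pow_zero, List.length_nil, Nat.cast_zero, mul_zero, zero_mul, sub_zero,
        one_mul]
      exact_mod_cast SYSP_.sol_nil (by omega) v0 τ)
  rw [List.nil_append, ← hd, ← hk, ← hNdef, ← hS] at h1
  have h2 : (3 / 4 : ℝ) * (N : ℝ) ^ d ≤ S.card := by
    have h3 : (1 : ℝ) - 3 * k * (1 / (12 * k)) = 3 / 4 := by
      field_simp
      norm_num
    rw [h3] at h1
    linarith
  -- injective configurations
  set P := S.filter fun f => ∀ i < m, ∀ j < m, SYSP_.ex m v0 f i = SYSP_.ex m v0 f j → i = j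
    with hP
  have hcoin : ∀ p ∈ (range m ×ˢ range m).filter (fun p => p.1 < p.2),
      (S.filter fun f => SYSP_.ex m v0 f p.1 = SYSP_.ex m v0 f p.2).card ≤ N ^ (d - 1) := by
    intro p hp
    rw [mem_filter, mem_product, mem_range, mem_range] at hp
    obtain ⟨c, hc⟩ := SYSP_.rows_cert Cs 0 hrows p.1 p.2 (Nat.zero_le _) hp.2 hp.1.2
    exact SYSP_.coin_bound (sc := sc) (W := Rg ∩ Cg) (v0 := v0) hN hτinj hp.2 hc
  have h3 : S.card ≤ P.card + m ^ 2 * N ^ (d - 1) := by
    have h4 : S ⊆ P ∪ ((range m ×ˢ range m).filter (fun p => p.1 < p.2)).biUnion fun p =>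
        S.filter fun f => SYSP_.ex m v0 f p.1 = SYSP_.ex m v0 f p.2 := by
      intro f hf
      rw [mem_union]
      by_cases h : f ∈ P
      · exact Or.inl h
      · refine Or.inr ?_
        rw [hP, mem_filter, not_and] at h
        have h5 := h hf
        push Not at h5
        obtain ⟨i, hi, j, hj, hij, hne⟩ := h5
        rw [mem_biUnion]
        rcases lt_or_gt_of_ne hne with h6 | h6
        · refine ⟨(i, j), ?_, mem_filter.2 ⟨hf, hij⟩⟩
          rw [mem_filter, mem_product, mem_range, mem_range]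
          exact ⟨⟨hi, hj⟩, h6⟩
        · refine ⟨(j, i), ?_, mem_filter.2 ⟨hf, hij.symm⟩⟩
          rw [mem_filter, mem_product, mem_range, mem_range]
          exact ⟨⟨hj, hi⟩, h6⟩
    refine (card_le_card h4).trans ((card_union_le _ _).trans ?_)
    refine Nat.add_le_add_left ?_ _
    refine (card_biUnion_le_card_mul _ _ _ hcoin).trans ?_
    refine Nat.mul_le_mul_right _ ?_
    refine (card_filter_le _ _).trans ?_
    rw [card_product, card_range, sq]
  have hd1 : 1 ≤ d := hfree
  have hpow : (N : ℝ) ^ d = (N : ℝ) ^ (d - 1) * N := by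
    obtain ⟨q, hq⟩ : ∃ q, d = q + 1 := ⟨d - 1, by omega⟩
    rw [hq, Nat.add_sub_cancel, pow_succ]
  have h4 : (1 / 2 : ℝ) * (N : ℝ) ^ d ≤ P.card := by
    have h5 : (S.card : ℝ) ≤ P.card + (m : ℝ) ^ 2 * (N : ℝ) ^ (d - 1) := by exact_mod_cast h3
    have h6 : (m : ℝ) ^ 2 * (N : ℝ) ^ (d - 1) ≤ 1 / 4 * (N : ℝ) ^ d := by
      have h7 : 4 * (m : ℝ) ^ 2 ≤ N := by
        have : 4 * m ^ 2 ≤ N := by omega
        exact_mod_cast this
      rw [hpow]
      have h8 : (0 : ℝ) ≤ (N : ℝ) ^ (d - 1) := by positivity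
      nlinarith
    linarith
  -- disjoint family
  obtain ⟨𝒢, g1, g2, g3⟩ := exists_disjoint_family P
    (fun f => (Finset.Ico e m).image (SYSP_.ex m v0 f)) k (k * N ^ (d - 1))
    (fun f _ => by
      refine ⟨SYSP_.ex m v0 f e, mem_image_of_mem _ ?_⟩
      rw [Finset.mem_Ico]
      omega)
    (fun f _ => by
      refine card_image_le.trans ?_
      rw [Nat.card_Ico]
      omega)
    (fun v => by
      have h5 : (P.filter fun f => v ∈ (Finset.Ico e m).image (SYSP_.ex m v0 f)) ⊆
          (Finset.Ico e m).biUnion fun i => S.filter fun f => SYSP_.ex m v0 f i = v := by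
        intro f hf
        obtain ⟨hf1, hf2⟩ := mem_filter.1 hf
        obtain ⟨i, hi, hiv⟩ := mem_image.1 hf2
        exact mem_biUnion.2 ⟨i, hi, mem_filter.2 ⟨(mem_filter.1 hf1).1, hiv⟩⟩
      refine (card_le_card h5).trans ?_
      refine (card_biUnion_le_card_mul _ _ (N ^ (d - 1)) ?_).trans ?_
      · intro i hi
        rw [Finset.mem_Ico] at hi
        obtain ⟨c, hc1, hc2⟩ := SYSP_.fibs_cert Fs e hfibs i hi.1 hi.2
        exact SYSP_.fib_bound hN hc1 hc2 v
      · rw [Nat.card_Ico]
        refine Nat.mul_le_mul_right _ ?_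
        omega)
  refine ⟨𝒢, g1, ?_, ?_⟩
  · have h5 : (P.card : ℝ) ≤ k * (k * (N : ℝ) ^ (d - 1)) * 𝒢.card := by exact_mod_cast g3
    have h6 : (N : ℝ) ^ (d - 1) * ((1 / 2 : ℝ) * N) ≤ (N : ℝ) ^ (d - 1) * (k ^ 2 * 𝒢.card) := by
      rw [hpow] at h4
      nlinarith
    have h7 : (0 : ℝ) < (N : ℝ) ^ (d - 1) := by positivity
    have h8 := le_of_mul_le_mul_left h6 h7
    rw [one_div, inv_mul_le_iff₀ (by positivity)]
    nlinarith
  · intro G hG
    obtain ⟨f, hf, rfl⟩ := g2 G hG
    obtain ⟨hf1, hf2⟩ := mem_filter.1 hf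
    obtain ⟨f1, f2, f3, f4⟩ := SYSP_.mem_Sol.1 hf1
    exact ⟨SYSP_.ex m v0 f, SYSP_.sat_of_satR sc _ st e f2, f1, f3, hf2, rfl⟩

end SpF
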