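import Pool.Agent.SpF.Targets

set_option autoImplicit false

/-!
# The template: a sparse bipartite graph with robust matchings
-/

namespace SpF
open Spider Finset

namespace TEMPL_

/-- elementary bound for binomial coefficients -/
theorem choose_bd (n k j : ℕ) (hj : 1 ≤ j) (hjk : j ≤ k) :
    ((n.choose k : ℕ) : ℝ) ≤ ((n : ℝ) * Real.exp 1 / j) ^ k := by
  have hk : 1 ≤ k := hj.trans hjk
  have hj0 : (0 : ℝ) < j := by exact_mod_cast hj
  have hk0 : (0 : ℝ) < k := by exact_mod_cast hk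
  have h1 : ((n.choose k : ℕ) : ℝ) ≤ (n : ℝ) ^ k / (k.factorial : ℝ) := Nat.choose_le_pow_div k n
  have h2 : (k : ℝ) ^ k / (k.factorial : ℝ) ≤ Real.exp 1 ^ k := by
    have := Real.pow_div_factorial_le_exp (k : ℝ) hk0.le k
    rwa [← Real.exp_nat_mul, mul_one]
  have hf : (0 : ℝ) < (k.factorial : ℝ) := by exact_mod_cast k.factorial_pos
  have h3 : 1 / (k.factorial : ℝ) ≤ Real.exp 1 ^ k / (j : ℝ) ^ k := by
    rw [le_div_iff₀ (by positivity)]
    calc 1 / (k.factorial : ℝ) * (j : ℝ) ^ k ≤ 1 / (k.factorial : ℝ) * (k : ℝ) ^ k := by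
          have : (j : ℝ) ≤ k := by exact_mod_cast hjk
          gcongr
      _ = (k : ℝ) ^ k / (k.factorial : ℝ) := by ring
      _ ≤ _ := h2
  calc ((n.choose k : ℕ) : ℝ) ≤ (n : ℝ) ^ k / (k.factorial : ℝ) := h1
    _ = (n : ℝ) ^ k * (1 / (k.factorial : ℝ)) := by ring
    _ ≤ (n : ℝ) ^ k * (Real.exp 1 ^ k / (j : ℝ) ^ k) := by gcongr
    _ = _ := by rw [div_pow, mul_pow]; ring

/-- the main numerical estimate -/
theorem term_bd (r p q j : ℕ) (hr : 1 ≤ r) (hp : p ≤ 4 * r) (hq : 3 * r ≤ q) (hj : 1 ≤ j)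
    (hj2 : j ≤ 2 * r) :
    ((p.choose (j + 1) : ℕ) : ℝ) * ((q.choose j : ℕ) : ℝ) * ((j : ℝ) / q) ^ (16 * (j + 1)) ≤
      (1 / 4 : ℝ) ^ (j + 1) := by
  have hj0 : (0 : ℝ) < j := by exact_mod_cast hj
  have hr0 : (0 : ℝ) < r := by exact_mod_cast hr
  have hq' : (3 : ℝ) * r ≤ q := by exact_mod_cast hq
  have hp' : (p : ℝ) ≤ 4 * r := by exact_mod_cast hp
  have hj' : (j : ℝ) ≤ 2 * r := by exact_mod_cast hj2
  have hq0 : (0 : ℝ) < q := by linarith
  have he : Real.exp 1 < 2.7182818286 := Real.exp_one_lt_d9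
  have he1 : (1 : ℝ) ≤ Real.exp 1 := Real.one_le_exp (by norm_num)
  have h1 : ((p.choose (j + 1) : ℕ) : ℝ) ≤ ((p : ℝ) * Real.exp 1 / j) ^ (j + 1) :=
    choose_bd p (j + 1) j hj (by omega)
  have h2 : ((q.choose j : ℕ) : ℝ) ≤ ((q : ℝ) * Real.exp 1 / j) ^ j :=
    choose_bd q j j hj le_rfl
  have h3 : (1 : ℝ) ≤ (q : ℝ) * Real.exp 1 / j := by
    rw [le_div_iff₀ hj0]
    nlinarith
  have h4 : ((q.choose j : ℕ) : ℝ) ≤ ((q : ℝ) * Real.exp 1 / j) ^ (j + 1) :=
    h2.trans (pow_le_pow_right₀ h3 (by omega))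
  have h5 : (j : ℝ) / q ≤ 2 / 3 := by
    rw [div_le_div_iff₀ hq0 (by norm_num)]
    linarith
  have h6 : (p : ℝ) / q ≤ 4 / 3 := by
    rw [div_le_div_iff₀ hq0 (by norm_num)]
    linarith
  calc ((p.choose (j + 1) : ℕ) : ℝ) * ((q.choose j : ℕ) : ℝ) * ((j : ℝ) / q) ^ (16 * (j + 1))
      ≤ ((p : ℝ) * Real.exp 1 / j) ^ (j + 1) * ((q : ℝ) * Real.exp 1 / j) ^ (j + 1) *
        ((j : ℝ) / q) ^ (16 * (j + 1)) := by gcongr
    _ = ((p : ℝ) / q * (Real.exp 1) ^ 2 * ((j : ℝ) / q) ^ 14) ^ (j + 1) := by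
        rw [pow_mul, ← mul_pow, ← mul_pow]
        congr 1
        field_simp
    _ ≤ (1 / 4 : ℝ) ^ (j + 1) := by
        refine pow_le_pow_left₀ (by positivity) ?_ _
        calc (p : ℝ) / q * (Real.exp 1) ^ 2 * ((j : ℝ) / q) ^ 14
            ≤ 4 / 3 * (2.7182818286 : ℝ) ^ 2 * (2 / 3) ^ 14 := by gcongr
          _ ≤ 1 / 4 := by norm_num

theorem geom_bd (n : ℕ) : ∑ j ∈ Finset.Icc 1 n, (1 / 4 : ℝ) ^ (j + 1) < 1 := by
  have h : ∀ n : ℕ, ∑ j ∈ Finset.Icc 1 n, (1 / 4 : ℝ) ^ (j + 1) ≤ 1 / 4 - (1 / 4) ^ (n + 1) := by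
    intro n
    induction n with
    | zero => norm_num
    | succ n ih =>
      rw [Finset.sum_Icc_succ_top (by omega)]
      have h1 : (0 : ℝ) < (1 / 4) ^ n := by positivity
      have h2 : (1 / 4 : ℝ) ^ (n + 1) = 1 / 4 * (1 / 4) ^ n := by rw [pow_succ]; ring
      have h3 : (1 / 4 : ℝ) ^ (n + 1 + 1) = 1 / 16 * (1 / 4) ^ n := by
        rw [pow_succ, pow_succ]; ring
      rw [h3]
      rw [h2] at ih
      linarith
  have := h n
  have h1 : (0 : ℝ) < (1 / 4) ^ (n + 1) := by positivity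
  linarith

/-- functions whose values on `A` lie in `J` -/
def bad {P Q : Type} [Fintype P] [DecidableEq P] [Fintype Q] [DecidableEq Q] (A : Finset P)
    (J : Finset Q) : Finset (P × Fin 16 → Q) :=
  Fintype.piFinset fun x => if x.1 ∈ A then J else univ

theorem card_bad {P Q : Type} [Fintype P] [DecidableEq P] [Fintype Q] [DecidableEq Q]
    (A : Finset P) (J : Finset Q) :
    (bad A J).card = J.card ^ (16 * A.card) *
      Fintype.card Q ^ (16 * (Fintype.card P - A.card)) := by
  rw [bad, Fintype.card_piFinset, Fintype.prod_prod_type]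
  have h : ∀ x : P, ∏ y : Fin 16, (if x ∈ A then J else (univ : Finset Q)).card =
      if x ∈ A then J.card ^ 16 else Fintype.card Q ^ 16 := by
    intro x
    rw [prod_const, card_univ, Fintype.card_fin]
    split_ifs <;> simp
  rw [prod_congr rfl fun x _ => h x, prod_ite, prod_const, prod_const]
  congr 1
  · rw [← pow_mul]
    congr 2
    simp
  · rw [← pow_mul]
    congr 2
    rw [filter_not, card_sdiff_of_subset (filter_subset _ _), card_univ]
    simp

/-- random functions expand -/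
theorem exists_fun (r : ℕ) (hr : 1 ≤ r) (P Q : Type) [Fintype P] [DecidableEq P] [Fintype Q]
    [DecidableEq Q] (hp : Fintype.card P ≤ 4 * r) (hq : 3 * r ≤ Fintype.card Q) :
    ∃ F : P × Fin 16 → Q, ∀ A : Finset P, A.card ≤ 2 * r + 1 →
      A.card ≤ ((A ×ˢ univ).image F).card := by
  by_contra hcon
  push Not at hcon
  have hq0 : 0 < Fintype.card Q := by omega
  have hcov : (univ : Finset (P × Fin 16 → Q)) ⊆
      (Finset.Icc 1 (2 * r)).biUnion fun j =>
        ((univ : Finset P).powersetCard (j + 1) ×ˢ (univ : Finset Q).powersetCard j).biUnion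
          fun AJ => bad AJ.1 AJ.2 := by
    intro F _
    obtain ⟨A, hA, hlt⟩ := hcon F
    have hA0 : 0 < A.card := by omega
    have hne : ((A ×ˢ (univ : Finset (Fin 16))).image F).Nonempty := by
      obtain ⟨a, ha⟩ := Finset.card_pos.1 hA0
      exact ⟨F (a, 0), mem_image_of_mem _ (by simp [ha])⟩
    have hi : 1 ≤ ((A ×ˢ (univ : Finset (Fin 16))).image F).card := hne.card_pos
    obtain ⟨J, hJ1, -, hJ2⟩ := Finset.exists_subsuperset_card_eq
      (subset_univ ((A ×ˢ (univ : Finset (Fin 16))).image F))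
      (by omega : _ ≤ A.card - 1) (by rw [card_univ]; omega)
    rw [mem_biUnion]
    refine ⟨A.card - 1, Finset.mem_Icc.2 ⟨by omega, by omega⟩, ?_⟩
    rw [mem_biUnion]
    refine ⟨(A, J), ?_, ?_⟩
    · rw [mem_product, mem_powersetCard, mem_powersetCard]
      exact ⟨⟨subset_univ _, by simp only; omega⟩, ⟨subset_univ _, hJ2⟩⟩
    · rw [bad, Fintype.mem_piFinset]
      intro x
      split_ifs with hx
      · exact hJ1 (mem_image_of_mem _ (by simp [hx]))
      · exact mem_univ _
  have hcard := (card_le_card hcov).trans card_biUnion_le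
  rw [card_univ, Fintype.card_fun, Fintype.card_prod, Fintype.card_fin] at hcard
  set p := Fintype.card P with hpdef
  set q := Fintype.card Q with hqdef
  have hcard2 : q ^ (p * 16) ≤ ∑ j ∈ Finset.Icc 1 (2 * r),
      p.choose (j + 1) * q.choose j * (j ^ (16 * (j + 1)) * q ^ (16 * (p - (j + 1)))) := by
    refine hcard.trans (sum_le_sum fun j _ => card_biUnion_le.trans ?_)
    rw [sum_congr rfl (g := fun _ => j ^ (16 * (j + 1)) * q ^ (16 * (p - (j + 1))))]
    · rw [sum_const, smul_eq_mul, card_product, card_powersetCard, card_powersetCard, card_univ,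
        card_univ]
    · rintro ⟨A, J⟩ hAJ
      rw [mem_product, mem_powersetCard, mem_powersetCard] at hAJ
      rw [card_bad, hAJ.1.2, hAJ.2.2]
  have hqR : (0 : ℝ) < q := by exact_mod_cast hq0
  have hcard3 : ((q : ℝ) ^ (p * 16)) ≤ ∑ j ∈ Finset.Icc 1 (2 * r),
      (p.choose (j + 1) : ℝ) * (q.choose j : ℝ) *
        ((j : ℝ) ^ (16 * (j + 1)) * (q : ℝ) ^ (16 * (p - (j + 1)))) := by
    exact_mod_cast hcard2
  have hcard4 : ((q : ℝ) ^ (p * 16)) ≤ ∑ j ∈ Finset.Icc 1 (2 * r),
      (1 / 4 : ℝ) ^ (j + 1) * (q : ℝ) ^ (p * 16) := by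
    refine hcard3.trans (sum_le_sum fun j hj => ?_)
    rw [Finset.mem_Icc] at hj
    by_cases hjp : j + 1 ≤ p
    · have hb := term_bd r p q j hr hp hq hj.1 hj.2
      have e : (j : ℝ) ^ (16 * (j + 1)) * (q : ℝ) ^ (16 * (p - (j + 1))) =
          ((j : ℝ) / q) ^ (16 * (j + 1)) * (q : ℝ) ^ (p * 16) := by
        have : p * 16 = 16 * (j + 1) + 16 * (p - (j + 1)) := by omega
        rw [this, pow_add, div_pow]
        field_simp
      rw [e, ← mul_assoc]
      gcongr
    · rw [Nat.choose_eq_zero_of_lt (by omega)]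
      simp only [Nat.cast_zero, zero_mul]
      positivity
  rw [← sum_mul] at hcard4
  have hlt := geom_bd (2 * r)
  have hpos : (0 : ℝ) < (q : ℝ) ^ (p * 16) := by positivity
  nlinarith

end TEMPL_

open TEMPL_

theorem p_TEMPL : T_TEMPL := by
  refine ⟨128, fun r m hr hm => ?_⟩
  obtain ⟨F, hF⟩ := exists_fun r hr (Fin (3 * r + m)) (Fin (3 * r))
    (by rw [Fintype.card_fin]; omega) (by rw [Fintype.card_fin])
  obtain ⟨H, hH⟩ := exists_fun r hr (Fin (3 * r) ⊕ Fin r) (Fin (3 * r + m))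
    (by rw [Fintype.card_sum, Fintype.card_fin, Fintype.card_fin]; omega)
    (by rw [Fintype.card_fin]; omega)
  refine ⟨(univ : Finset (Fin (3 * r + m) × Fin 16)).image (fun x => (x.1, Sum.inl (F x))) ∪
    (univ : Finset ((Fin (3 * r) ⊕ Fin r) × Fin 16)).image (fun y => (H y, y.1)), ?_, ?_⟩
  · refine (card_union_le _ _).trans ?_
    have h1 := card_image_le (s := (univ : Finset (Fin (3 * r + m) × Fin 16)))
      (f := fun x => (x.1, (Sum.inl (F x) : Fin (3 * r) ⊕ Fin r)))
    have h2 := card_image_le (s := (univ : Finset ((Fin (3 * r) ⊕ Fin r) × Fin 16)))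
      (f := fun y => (H y, y.1))
    rw [card_univ, Fintype.card_prod, Fintype.card_fin, Fintype.card_fin] at h1
    rw [card_univ, Fintype.card_prod, Fintype.card_sum, Fintype.card_fin, Fintype.card_fin,
      Fintype.card_fin] at h2
    omega
  · intro Z hZ
    set E : Finset (Fin (3 * r + m) × (Fin (3 * r) ⊕ Fin r)) :=
      (univ : Finset (Fin (3 * r + m) × Fin 16)).image (fun x => (x.1, Sum.inl (F x))) ∪
      (univ : Finset ((Fin (3 * r) ⊕ Fin r) × Fin 16)).image (fun y => (H y, y.1)) with hE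
    set T : Finset (Fin (3 * r) ⊕ Fin r) :=
      (univ : Finset (Fin (3 * r))).map ⟨Sum.inl, Sum.inl_injective⟩ ∪
        Z.map ⟨Sum.inr, Sum.inr_injective⟩ with hT
    have hTcard : T.card = 3 * r + m := by
      rw [hT, card_union_of_disjoint, card_map, card_map, card_univ, Fintype.card_fin, hZ]
      rw [disjoint_left]
      intro a ha hb
      rw [mem_map] at ha hb
      obtain ⟨x, _, hx⟩ := ha
      obtain ⟨y, _, hy⟩ := hb
      rw [← hx] at hy
      simp at hy
    have hall : ∀ A : Finset (Fin (3 * r + m)),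
        A.card ≤ (A.biUnion fun x => T.filter fun t => (x, t) ∈ E).card := by
      intro A
      by_contra hlt
      push Not at hlt
      by_cases hA : A.card ≤ 2 * r + 1
      · have h1 := hF A hA
        have h2 : ((A ×ˢ (univ : Finset (Fin 16))).image F).card ≤
            (A.biUnion fun x => T.filter fun t => (x, t) ∈ E).card := by
          rw [← card_map ⟨(Sum.inl : Fin (3 * r) → Fin (3 * r) ⊕ Fin r), Sum.inl_injective⟩]
          refine card_le_card fun t ht => ?_
          rw [mem_map] at ht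
          obtain ⟨y, hy, rfl⟩ := ht
          rw [mem_image] at hy
          obtain ⟨⟨x, i⟩, hx, rfl⟩ := hy
          rw [mem_product] at hx
          rw [mem_biUnion]
          refine ⟨x, hx.1, ?_⟩
          rw [mem_filter]
          refine ⟨?_, ?_⟩
          · rw [hT, mem_union]
            left
            exact mem_map_of_mem _ (mem_univ _)
          · rw [hE, mem_union]
            left
            exact mem_image.2 ⟨(x, i), mem_univ _, rfl⟩
        omega
      · set N := A.biUnion fun x => T.filter fun t => (x, t) ∈ E with hN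
        have hNT : N ⊆ T := by
          intro t ht
          rw [hN, mem_biUnion] at ht
          obtain ⟨x, _, hx⟩ := ht
          exact (mem_filter.1 hx).1
        have hB : (T \ N).card = 3 * r + m - N.card := by
          rw [card_sdiff_of_subset hNT, hTcard]
        have hAc : (Aᶜ).card = 3 * r + m - A.card := by
          rw [card_compl, Fintype.card_fin]
        have hAle : A.card ≤ 3 * r + m := by
          have := card_le_univ A
          rwa [Fintype.card_fin] at this
        obtain ⟨B, hB1, hB2⟩ := exists_subset_card_eq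
          (by omega : (Aᶜ).card + 1 ≤ (T \ N).card)
        have h3 := hH B (by omega)
        have h4 : ((B ×ˢ (univ : Finset (Fin 16))).image H) ⊆ Aᶜ := by
          intro x hx
          rw [mem_image] at hx
          obtain ⟨⟨y, i⟩, hy, rfl⟩ := hx
          rw [mem_product] at hy
          rw [mem_compl]
          intro hxA
          have hyB := mem_sdiff.1 (hB1 hy.1)
          apply hyB.2
          rw [hN, mem_biUnion]
          refine ⟨H (y, i), hxA, mem_filter.2 ⟨hyB.1, ?_⟩⟩
          rw [hE, mem_union]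
          right
          exact mem_image.2 ⟨(y, i), mem_univ _, rfl⟩
        have h5 := card_le_card h4
        omega
    obtain ⟨f, hf1, hf2⟩ := (all_card_le_biUnion_card_iff_exists_injective _).1 hall
    refine ⟨f, hf1, fun i => (mem_filter.1 (hf2 i)).2, fun i z hz => ?_⟩
    have h1 := (mem_filter.1 (hf2 i)).1
    rw [hz, hT, mem_union] at h1
    rcases h1 with h1 | h1
    · rw [mem_map] at h1
      obtain ⟨x, _, hx⟩ := h1
      simp at hx
    · rw [mem_map] at h1
      obtain ⟨x, hx, hx2⟩ := h1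
      have : x = z := Sum.inr_injective hx2
      rwa [← this]

end SpF
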