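import Pool.Agent.SpF.Targets

/-!
# Disjoint unions of tileable sets (job UNION)
-/

namespace SpF
open Spider Finset

namespace UNION_

theorem mem_vs {V : Type} [Fintype V] [DecidableEq V] {G : Finset (V × V)} {x : V} :
    x ∈ vs G ↔ (x, x) ∈ G := by
  simp [vs]

end UNION_

open UNION_ in
theorem p_UNION : T_UNION := by
  intro V _ _ sc J _ A G hT hD
  choose! S M hPS hunc hvs hcol using hT
  have hidx : ∀ i ∈ A, ∀ j ∈ A, ∀ y, y ∈ G i → y ∈ G j → i = j := by
    intro i hi j hj y h1 h2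
    by_contra hne
    exact (Finset.disjoint_left.1 (hD i hi j hj hne)) h1 h2
  have hS : ∀ j ∈ A, ∀ x ∈ S j, (x, x) ∈ G j := by
    intro j hj x hx
    rw [← mem_vs, ← hvs j hj]
    exact mem_union_left _ hx
  have hM : ∀ j ∈ A, ∀ p ∈ M j, (p.2, p.2) ∈ G j := by
    intro j hj p hp
    rw [← mem_vs, ← hvs j hj]
    exact mem_union_right _ (mem_image_of_mem _ hp)
  refine ⟨A.biUnion S, A.biUnion M, ⟨?_, ?_, ?_, ?_, ?_, ?_⟩, ?_, ?_, ?_⟩
  · intro p hp
    obtain ⟨j, hj, hpj⟩ := mem_biUnion.1 hp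
    exact mem_biUnion.2 ⟨j, hj, (hPS j hj).row p hpj⟩
  · intro p hp hmem
    obtain ⟨j, hj, hpj⟩ := mem_biUnion.1 hp
    obtain ⟨i, hi, hpi⟩ := mem_biUnion.1 hmem
    have := hidx i hi j hj _ (hS i hi _ hpi) (hM j hj _ hpj)
    subst this
    exact (hPS i hi).lab p hpj hpi
  · intro p hp p' hp' h
    obtain ⟨j, hj, hpj⟩ := mem_biUnion.1 hp
    obtain ⟨i, hi, hpi⟩ := mem_biUnion.1 hp'
    have h1 := hS j hj _ ((hPS j hj).row p hpj)
    have h2 := hS i hi _ ((hPS i hi).row p' hpi)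
    rw [h] at h1
    have := hidx j hj i hi _ h1 h2
    subst this
    exact (hPS j hj).i1 p hpj p' hpi h
  · intro p hp p' hp' h
    obtain ⟨j, hj, hpj⟩ := mem_biUnion.1 hp
    obtain ⟨i, hi, hpi⟩ := mem_biUnion.1 hp'
    have h1 := hM j hj _ hpj
    have h2 := hM i hi _ hpi
    rw [h] at h1
    have := hidx j hj i hi _ h1 h2
    subst this
    exact (hPS j hj).i2 p hpj p' hpi h
  · intro p hp p' hp' h
    obtain ⟨j, hj, hpj⟩ := mem_biUnion.1 hp
    obtain ⟨i, hi, hpi⟩ := mem_biUnion.1 hp'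
    have h1 := hcol j hj _ hpj
    have h2 := hcol i hi _ hpi
    rw [h] at h1
    have := hidx j hj i hi _ h1 h2
    subst this
    exact (hPS j hj).i3 p hpj p' hpi h
  · intro p hp z hz
    obtain ⟨j, hj, hpj⟩ := mem_biUnion.1 hp
    exact mem_biUnion.2 ⟨j, hj, (hPS j hj).star p hpj z hz⟩
  · rw [Finset.eq_empty_iff_forall_notMem]
    intro x hx
    rw [mem_unc] at hx
    obtain ⟨j, hj, hxj⟩ := mem_biUnion.1 hx.1
    have h1 : x ∉ unc (S j) (M j) := by rw [hunc j hj]; exact notMem_empty x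
    apply h1
    rw [mem_unc]
    exact ⟨hxj, fun p hp => hx.2 p (mem_biUnion.2 ⟨j, hj, hp⟩)⟩
  · ext x
    rw [mem_vs, mem_union, mem_biUnion, mem_image, mem_biUnion]
    constructor
    · rintro (⟨j, hj, hx⟩ | ⟨p, hp, rfl⟩)
      · exact ⟨j, hj, hS j hj x hx⟩
      · obtain ⟨j, hj, hpj⟩ := mem_biUnion.1 hp
        exact ⟨j, hj, hM j hj p hpj⟩
    · rintro ⟨j, hj, hx⟩
      rw [← mem_vs, ← hvs j hj, mem_union, mem_image] at hx
      rcases hx with hx | ⟨p, hp, hpx⟩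
      · exact Or.inl ⟨j, hj, hx⟩
      · exact Or.inr ⟨p, mem_biUnion.2 ⟨j, hj, hp⟩, hpx⟩
  · intro p hp
    obtain ⟨j, hj, hpj⟩ := mem_biUnion.1 hp
    exact mem_biUnion.2 ⟨j, hj, hcol j hj p hpj⟩

open UNION_ in
theorem p_DONE : T_DONE := by
  intro V _ _ sc G t hT hcard
  obtain ⟨S, M, hPS, hunc, hvs, -⟩ := hT
  refine ⟨S, M, hPS, ?_, hunc⟩
  have h1 : M.image Prod.fst = S := by
    apply Finset.Subset.antisymm
    · intro x hx
      obtain ⟨p, hp, rfl⟩ := mem_image.1 hx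
      exact hPS.row p hp
    · intro x hx
      by_contra hc
      have : x ∈ unc S M := mem_sdiff.2 ⟨hx, hc⟩
      rw [hunc] at this
      exact absurd this (notMem_empty x)
  have h2 : S.card = M.card := by
    rw [← h1]
    exact card_image_of_injOn fun p hp p' hp' h => hPS.i1 p hp p' hp' h
  have h3 : (M.image Prod.snd).card = M.card :=
    card_image_of_injOn fun p hp p' hp' h => hPS.i2 p hp p' hp' h
  have h4 : Disjoint S (M.image Prod.snd) := by
    rw [Finset.disjoint_right]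
    intro x hx
    obtain ⟨p, hp, rfl⟩ := mem_image.1 hx
    exact hPS.lab p hp
  rw [← hvs, card_union_of_disjoint h4, h3, h2] at hcard
  omega

end SpF
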