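import Pool.Agent.SpF.STEP
import Pool.Agent.SpF.NIB
import Pool.Agent.SpF.FPM
import Pool.Agent.SpF.FLOW
import Pool.Agent.SpF.RS
import Pool.Agent.SpF.NP
import Pool.Agent.SpF.TEMPL
import Pool.Agent.SpF.RAND
import Pool.Agent.SpF.GREEDY
import Pool.Agent.SpF.SYSP
import Pool.Agent.SpF.UNION
import Pool.Agent.SpF.CLOSE
import Pool.Agent.SpF.ABS
import Pool.Agent.SpF.OMEGA
import Pool.Agent.SpF.PCORE
import Pool.Agent.SpF.ASM
import Pool.Agent.SpF.HPR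
import Pool.Agent.SpF.HSW
import Pool.Agent.SpF.HPA
import Pool.Agent.SpF.HCO
import Pool.Agent.SpF.HG
import Pool.Agent.SpF.LG
import Pool.Agent.SpF.LOW
import Pool.Agent.SpF.FULL

namespace SpF

theorem p_RS' : T_RS := p_RS (p_NIB p_STEP)

theorem p_NP' : T_NP := p_NP p_FPM p_FLOW p_RS'

theorem p_ABS' : T_ABS := p_ABS p_TEMPL p_GREEDY p_UNION

open CORE_ in
theorem p_ASM' : T_ASM := p_ASM (p_CORE p_ABS' p_GREEDY p_UNION p_DONE p_CLOSE) (p_OMEGA p_RAND)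

theorem p_HIGH' : T_HIGH := p_HIGH (p_HG (p_HPA p_HPR p_HSW) p_HCO p_HTL) p_NP' p_ASM'

theorem p_LOW' : T_LOW := p_LOW (p_LG p_SYS) p_NP' p_ASM'

theorem full : T_FULL := p_FULL p_HIGH' p_LOW'

end SpF
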