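import Pool.Agent.SpF.Targets

namespace SpF
open Spider Finset

namespace CORE_

variable {V : Type} [Fintype V] [DecidableEq V]

@[simp] lemma mem_vs {G : Finset (V × V)} {x : V} : x ∈ vs G ↔ (x, x) ∈ G := by
  unfold vs; simp

@[simp] lemma mem_dg {U : Finset V} {i : V × V} : i ∈ dg U ↔ i.1 = i.2 ∧ i.1 ∈ U := by
  unfold dg
  rw [Finset.mem_image]
  constructor
  · rintro ⟨x, hx, rfl⟩; exact ⟨rfl, hx⟩
  · rintro ⟨h1, h2⟩; exact ⟨i.1, h2, Prod.ext rfl h1⟩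

lemma card_dg (U : Finset V) : (dg U).card = U.card := by
  unfold dg
  exact Finset.card_image_of_injective _ fun a b h => (Prod.ext_iff.1 h).1

lemma vs_dg (U : Finset V) : vs (dg U) = U := by
  ext x; simp

lemma vs_union (G H : Finset (V × V)) : vs (G ∪ H) = vs G ∪ vs H := by
  ext x; simp

lemma vs_insert (w : V) (G : Finset (V × V)) : vs (insert (w, w) G) = insert w (vs G) := by
  ext x; simp [Prod.ext_iff]

lemma vs_biUnion {J : Type} [DecidableEq J] (A : Finset J) (G : J → Finset (V × V)) :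
    vs (A.biUnion G) = A.biUnion fun j => vs (G j) := by
  ext x; simp

lemma card_vs_le (G : Finset (V × V)) : (vs G).card ≤ G.card := by
  rw [← card_dg (vs G)]
  apply Finset.card_le_card
  intro i hi
  rw [mem_dg] at hi
  have h := mem_vs.1 hi.2
  have : i = (i.1, i.1) := Prod.ext rfl hi.1.symm
  rw [this]; exact h

lemma vs_disj {G H : Finset (V × V)} (h : Disjoint G H) : Disjoint (vs G) (vs H) := by
  rw [Finset.disjoint_left] at h ⊢
  intro x hx hx'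
  exact h (mem_vs.1 hx) (mem_vs.1 hx')

/-- number of vertices of a tileable set -/
lemma even_card {sc : SC V} {G : Finset (V × V)} (h : Tileable sc G) :
    ∃ s : ℕ, (vs G).card = 2 * s := by
  obtain ⟨S, M, hPS, hu, hv, -⟩ := h
  refine ⟨M.card, ?_⟩
  have h1 : S = M.image Prod.fst := by
    ext x
    rw [Finset.mem_image]
    constructor
    · intro hx
      by_contra hcon
      push Not at hcon
      have : x ∈ unc S M := mem_unc.2 ⟨hx, hcon⟩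
      rw [hu] at this
      exact absurd this (Finset.notMem_empty _)
    · rintro ⟨p, hp, rfl⟩; exact hPS.row p hp
  have h2 : (M.image Prod.fst).card = M.card := by
    apply Finset.card_image_of_injOn
    intro p hp p' hp' he
    exact hPS.i1 p hp p' hp' he
  have h3 : (M.image Prod.snd).card = M.card := by
    apply Finset.card_image_of_injOn
    intro p hp p' hp' he
    exact hPS.i2 p hp p' hp' he
  rw [← hv, h1, Finset.card_union_of_disjoint, h2, h3]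
  · ring
  · rw [Finset.disjoint_left]
    intro x hx hx'
    rw [← h1] at hx
    rw [Finset.mem_image] at hx'
    obtain ⟨p, hp, rfl⟩ := hx'
    exact hPS.lab p hp hx

/-- the outcome of the random choice, with explicit numbers -/
structure OM (sc : SC V) (Good : Finset V) (K : ℕ) (Ω : Finset (V × V)) (p px q r : ℕ) :
    Prop where
  pa : ∀ x ∈ Good, ∀ y ∈ Good, x ≠ y → ∃ 𝒢 : Finset (Finset (V × V)),
    (𝒢 : Set (Finset (V × V))).PairwiseDisjoint id ∧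
    (∀ G ∈ 𝒢, G.card ≤ K ∧ PA sc x y G ∧ vs G ⊆ Good ∧ Disjoint G Ω) ∧ p ≤ 𝒢.card
  cl : ∀ e ∈ Good, ∀ s ∈ Good, e ≠ s → ∃ 𝒢 : Finset (Finset (V × V)),
    (𝒢 : Set (Finset (V × V))).PairwiseDisjoint id ∧
    (∀ G ∈ 𝒢, G.card ≤ K ∧ CL sc e s G ∧ vs G ⊆ Good ∧ G ⊆ Ω) ∧ q ≤ 𝒢.card
  co : ∀ w ∈ Good, ∃ 𝒢 : Finset (Finset (V × V)),
    (𝒢 : Set (Finset (V × V))).PairwiseDisjoint id ∧
    (∀ G ∈ 𝒢, G.card ≤ K ∧ CO sc w G ∧ vs G ⊆ Good ∧ G ⊆ Ω) ∧ q ≤ 𝒢.card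
  cx : ∀ w, w ∉ Good → ∃ 𝒢 : Finset (Finset (V × V)),
    (𝒢 : Set (Finset (V × V))).PairwiseDisjoint id ∧
    (∀ G ∈ 𝒢, G.card ≤ K ∧ CO sc w G ∧ vs G ⊆ Good ∧ Disjoint G Ω) ∧ px ≤ 𝒢.card
  t6 : ∃ 𝒢 : Finset (Finset (V × V)), (𝒢 : Set (Finset (V × V))).PairwiseDisjoint id ∧
    (∀ G ∈ 𝒢, G.card ≤ K ∧ Tileable sc G ∧ (vs G).card = 6 ∧ vs G ⊆ Good ∧ G ⊆ Ω) ∧ q ≤ 𝒢.card
  t8 : ∃ 𝒢 : Finset (Finset (V × V)), (𝒢 : Set (Finset (V × V))).PairwiseDisjoint id ∧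
    (∀ G ∈ 𝒢, G.card ≤ K ∧ Tileable sc G ∧ (vs G).card = 8 ∧ vs G ⊆ Good ∧ G ⊆ Ω) ∧ q ≤ 𝒢.card
  fr : ∀ x, (univ.filter fun y => y ≠ x ∧ (sc.col x y).1 ≠ (sc.col x y).2 ∧
      sc.col x y ∈ Ω).card ≤ r

end CORE_

open CORE_ in
/-- the combinatorial core of the assembly -/
def T_CORE : Prop := ∃ D : ℕ, 0 < D ∧ ∀ (V : Type) [Fintype V] [DecidableEq V] (sc : SC V)
  (Good : Finset V) (K : ℕ) (Ω : Finset (V × V)) (p px q r k μ t : ℕ) (η ε' : ℝ),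
  OM sc Good K Ω p px q r → H3 sc Good η ε' → k = ⌊ε' * Fintype.card V⌋₊ →
  2 * t ≤ Fintype.card V → (vs Ω ∩ Good).Nonempty →
  (vs Ω ∩ Good).card + (Fintype.card V - 2 * t) ≤ Good.card →
  (Fintype.card V - 2 * t) + (K + 1) * (univ \ Good).card < px →
  (Fintype.card V - 2 * t) + (K + 1) * (univ \ Good).card + D * (K + 1) * (vs Ω ∩ Good).card < p →
  (Fintype.card V - 2 * t) + (K + 1) * (univ \ Good).card + D * (K + 1) * (vs Ω ∩ Good).card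
    ≤ Good.card →
  (((K + 2) * (univ \ Good).card + (vs Ω ∩ Good).card + (Fintype.card V - 2 * t)
    + D * (K + 1) * (vs Ω ∩ Good).card : ℕ) : ℝ) ≤ η * Fintype.card V →
  ((r + (K + 1) * (univ \ Good).card + D * (K + 1) * (vs Ω ∩ Good).card : ℕ) : ℝ)
    ≤ η * Fintype.card V →
  K * k + 24 ≤ μ → μ ≤ (vs Ω ∩ Good).card → K * (k + μ) < q → Done sc t
open CORE_ in
/-- the random choice gives `OM` -/
def T_OMEGA : Prop := ∀ (K : ℕ) (c cx ρ : ℝ), 0 < c → c ≤ 1 → 0 < cx → cx ≤ 1 → 0 < ρ →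
  ρ * (2 * (K + 1)) ≤ 1 → ∃ (c' : ℝ) (N₀ : ℕ), 0 < c' ∧
  ∀ (V : Type) [Fintype V] [DecidableEq V] (sc : SC V) (Good : Finset V),
  N₀ ≤ Fintype.card V → (Fintype.card V : ℝ) / 2 ≤ Good.card → H1 sc Good K c →
  H2 sc Good K cx → ∃ (Ω : Finset (V × V)) (p px q r : ℕ), OM sc Good K Ω p px q r ∧
    c / 4 * Fintype.card V ≤ p ∧ cx / 4 * Fintype.card V ≤ px ∧ c' * Fintype.card V ≤ q ∧
    (r : ℝ) ≤ 2 * ρ * Fintype.card V ∧ ((vs Ω ∩ Good).card : ℝ) ≤ 2 * ρ * Fintype.card V ∧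
    ρ / 4 * Fintype.card V ≤ ((vs Ω ∩ Good).card : ℝ)

end SpF
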