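import Pool.Agent.SpF.Sys

/-!
# Full range: definitions

Resources are elements of `V × V`: `(x,x)` stands for the vertex `x` (and for its star colour),
an off-diagonal element stands for a free colour.
-/

namespace SpF
open Spider Finset

variable {V : Type} [Fintype V] [DecidableEq V]

/-- the vertices in a set of resources -/
def vs (G : Finset (V × V)) : Finset V := univ.filter fun x => (x, x) ∈ G

/-- the diagonal of a set of vertices -/
def dg (U : Finset V) : Finset (V × V) := U.image fun x => (x, x)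

/-- `G` is tileable: the vertices of `G` have a perfect matching `M` (pairs (end, middle)),
rainbow, with colours in `G`, all labels being ends. -/
def Tileable (sc : SC V) (G : Finset (V × V)) : Prop :=
  ∃ (S : Finset V) (M : Finset (V × V)), PS sc S M ∧ unc S M = ∅ ∧
    S ∪ M.image Prod.snd = vs G ∧ ∀ p ∈ M, sc.col p.1 p.2 ∈ G

/-- pair absorber for `x`, `y` -/
def PA (sc : SC V) (x y : V) (G : Finset (V × V)) : Prop :=
  x ∉ vs G ∧ y ∉ vs G ∧ Tileable sc G ∧ Tileable sc (insert (x, x) (insert (y, y) G))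

/-- cover of `w` -/
def CO (sc : SC V) (w : V) (G : Finset (V × V)) : Prop :=
  w ∉ vs G ∧ Tileable sc (insert (w, w) G)

/-- closing for the end `e` (whose star colour is used elsewhere) with the help of the unused
star colour of `s` -/
def CL (sc : SC V) (e s : V) (G : Finset (V × V)) : Prop :=
  e ∉ vs G ∧ s ∉ vs G ∧ ∃ (S : Finset V) (M : Finset (V × V)),
    e ∈ S ∧ S ∪ M.image Prod.snd = insert e (vs G) ∧ unc S M = ∅ ∧
    (∀ p ∈ M, p.1 ∈ S) ∧ (∀ p ∈ M, p.2 ∉ S) ∧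
    (∀ p ∈ M, ∀ p' ∈ M, p.1 = p'.1 → p = p') ∧
    (∀ p ∈ M, ∀ p' ∈ M, p.2 = p'.2 → p = p') ∧
    (∀ p ∈ M, ∀ p' ∈ M, sc.col p.1 p.2 = sc.col p'.1 p'.2 → p = p') ∧
    (∀ p ∈ M, sc.col p.1 p.2 ∈ G ∨ sc.col p.1 p.2 = (s, s)) ∧
    (∀ p ∈ M, ∀ z, sc.col p.1 p.2 = (z, z) → z = s ∨ (z ∈ S ∧ z ≠ e))

/-- there are at least `c |V|` pairwise disjoint sets of size at most `K` with property `P` -/
def Fam (K : ℕ) (c : ℝ) (P : Finset (V × V) → Prop) : Prop :=
  ∃ 𝒢 : Finset (Finset (V × V)), (𝒢 : Set (Finset (V × V))).PairwiseDisjoint id ∧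
    (∀ G ∈ 𝒢, G.Nonempty ∧ G.card ≤ K ∧ P G) ∧ c * Fintype.card V ≤ 𝒢.card

/-- gadgets for the good vertices -/
structure H1 (sc : SC V) (Good : Finset V) (K : ℕ) (c : ℝ) : Prop where
  pa : ∀ x ∈ Good, ∀ y ∈ Good, x ≠ y → Fam K c fun G => PA sc x y G ∧ vs G ⊆ Good
  cl : ∀ e ∈ Good, ∀ s ∈ Good, e ≠ s → Fam K c fun G => CL sc e s G ∧ vs G ⊆ Good
  co : ∀ w ∈ Good, Fam K c fun G => CO sc w G ∧ vs G ⊆ Good
  t6 : Fam K c fun G => Tileable sc G ∧ (vs G).card = 6 ∧ vs G ⊆ Good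
  t8 : Fam K c fun G => Tileable sc G ∧ (vs G).card = 8 ∧ vs G ⊆ Good

/-- covers of the other vertices -/
def H2 (sc : SC V) (Good : Finset V) (K : ℕ) (c : ℝ) : Prop :=
  ∀ w, w ∉ Good → Fam K c fun G => CO sc w G ∧ vs G ⊆ Good

/-- near-perfect structure on `U` with colours in `Γ`, with at most `k` vertices left -/
def NearP (sc : SC V) (U : Finset V) (Γ : Finset (V × V)) (k : ℕ) : Prop :=
  ∃ (S : Finset V) (M : Finset (V × V)), PS sc S M ∧ S ⊆ U ∧ (∀ p ∈ M, p.2 ∈ U) ∧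
    (∀ p ∈ M, sc.col p.1 p.2 ∈ Γ) ∧ U.card ≤ 2 * M.card + k

/-- near-perfect structures exist on all large sets of good vertices -/
def H3 (sc : SC V) (Good : Finset V) (η ε : ℝ) : Prop :=
  ∀ (U : Finset V) (Γ : Finset (V × V)), U ⊆ Good → ((univ \ U).card : ℝ) ≤ η * Fintype.card V →
    (∀ z, (z, z) ∈ Γ ↔ z ∈ U) →
    (∀ x ∈ U, ((univ.filter fun y => y ≠ x ∧ (sc.col x y).1 ≠ (sc.col x y).2 ∧
      sc.col x y ∉ Γ).card : ℝ) ≤ η * Fintype.card V) →
    NearP sc U Γ ⌊ε * Fintype.card V⌋₊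

/-- low regime: `Rg` contains vertices with few free edges, `Cg` vertices whose star colour is
missing at few vertices -/
structure LowG (sc : SC V) (Rg Cg : Finset V) (δ : ℝ) : Prop where
  big : ((univ \ (Rg ∩ Cg)).card : ℝ) ≤ δ * Fintype.card V
  row : ∀ x ∈ Rg, ((univ.filter fun y => ∀ z, ¬ Lab sc x y z).card : ℝ) ≤ δ * Fintype.card V
  sym : ∀ x ∈ Rg, ((univ.filter fun z => ∀ y, ¬ Lab sc x y z).card : ℝ) ≤ δ * Fintype.card V
  col : ∀ z ∈ Cg, ((univ.filter fun x => ∀ y, ¬ Lab sc x y z).card : ℝ) ≤ δ * Fintype.card V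

/-- `i` occurs as a vertex of an edge in a step -/
def usesRow (i : ℕ) : List Step → Prop
  | [] => False
  | Step.free :: l => usesRow i l
  | Step.lab a b :: l => a = i ∨ b = i ∨ usesRow i l
  | Step.nbr a _ :: l => a = i ∨ usesRow i l

/-- `i` occurs as a label in a step -/
def usesCol (i : ℕ) : List Step → Prop
  | [] => False
  | Step.free :: l => usesCol i l
  | Step.lab _ _ :: l => usesCol i l
  | Step.nbr _ c :: l => c = i ∨ usesCol i l

end SpF
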