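import Pool.Agent.SpF.Targets

/-!
# High regime: pair absorbers for rich vertices

`fam_of_avoid`: if every small set of resources is avoided by some gadget, then there is a large
family of pairwise disjoint gadgets (a maximal family). `tile_list`: a list of pairs gives a tiling.
-/

namespace SpF
open Spider Finset

namespace HPR_

variable {V : Type} [Fintype V] [DecidableEq V]

/-- greedy: if every set of at most `K * c * |V|` resources is avoided by a gadget, there are at
least `c * |V|` disjoint gadgets -/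
lemma fam_of_avoid {K : ℕ} {c : ℝ} {P : Finset (V × V) → Prop}
    (h : ∀ Y : Finset (V × V), (Y.card : ℝ) ≤ K * (c * Fintype.card V) →
      ∃ G : Finset (V × V), G.Nonempty ∧ G.card ≤ K ∧ P G ∧ Disjoint G Y) : Fam K c P := by
  classical
  set F : Finset (Finset (Finset (V × V))) := univ.filter fun 𝒢 =>
    (𝒢 : Set (Finset (V × V))).PairwiseDisjoint id ∧ ∀ G ∈ 𝒢, G.Nonempty ∧ G.card ≤ K ∧ P G with hF
  have hFne : F.Nonempty := ⟨∅, by rw [hF, Finset.mem_filter]; simp⟩
  obtain ⟨𝒢, hG, hmax⟩ := Finset.exists_max_image F Finset.card hFne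
  rw [hF, Finset.mem_filter] at hG
  obtain ⟨_, hd, hP⟩ := hG
  refine ⟨𝒢, hd, hP, ?_⟩
  by_contra hcon
  rw [not_le] at hcon
  have hY : (((𝒢.biUnion id).card : ℕ) : ℝ) ≤ K * (c * Fintype.card V) := by
    have h1 : (𝒢.biUnion id).card ≤ 𝒢.card * K :=
      Finset.card_biUnion_le_card_mul _ _ _ fun G hG => (hP G hG).2.1
    have h2 : (((𝒢.biUnion id).card : ℕ) : ℝ) ≤ (𝒢.card : ℝ) * K := by exact_mod_cast h1
    have h3 : (𝒢.card : ℝ) * K ≤ (c * Fintype.card V) * K :=
      mul_le_mul_of_nonneg_right hcon.le (Nat.cast_nonneg K)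
    linarith
  obtain ⟨G, hGne, hGK, hGP, hGd⟩ := h _ hY
  have hGn : G ∉ 𝒢 := by
    intro hG
    obtain ⟨i, hi⟩ := hGne
    exact Finset.disjoint_left.1 hGd hi (Finset.mem_biUnion.2 ⟨G, hG, hi⟩)
  have hins : insert G 𝒢 ∈ F := by
    rw [hF, Finset.mem_filter]
    refine ⟨Finset.mem_univ _, ?_, ?_⟩
    · rw [Finset.coe_insert]
      refine hd.insert fun G' hG' _ => ?_
      change Disjoint G G'
      refine hGd.mono_right ?_
      exact Finset.subset_biUnion_of_mem id hG'
    · intro G' hG'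
      rcases Finset.mem_insert.1 hG' with h' | h'
      · rw [h']; exact ⟨hGne, hGK, hGP⟩
      · exact hP G' h'
  have h4 := hmax _ hins
  rw [Finset.card_insert_of_notMem hGn] at h4
  omega

/-- removing the elements with image in `Z` under an injective function costs `|Z|` elements -/
lemma filt {α β : Type} [DecidableEq β] (A : Finset α) (f : α → β) (hf : Set.InjOn f A)
    (Z : Finset β) : A.card ≤ (A.filter fun a => f a ∉ Z).card + Z.card := by
  have h1 := Finset.card_filter_add_card_filter_not (s := A) (fun a => f a ∈ Z)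
  have h2 : (A.filter fun a => f a ∈ Z).card ≤ Z.card := by
    apply Finset.card_le_card_of_injOn f
    · intro a ha
      rw [Finset.mem_coe, Finset.mem_filter] at ha
      exact ha.2
    · intro a ha b hb he
      rw [Finset.mem_coe, Finset.mem_filter] at ha hb
      exact hf (Finset.mem_coe.2 ha.1) (Finset.mem_coe.2 hb.1) he
  omega

/-- a list of pairs gives a tiling -/
lemma tile_list (sc : SC V) (G : Finset (V × V)) (L : List (V × V))
    (h1 : (L.map Prod.fst ++ L.map Prod.snd).Nodup)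
    (h2 : (L.map fun p => sc.col p.1 p.2).Nodup)
    (h3 : ∀ p ∈ L, ∀ z, sc.col p.1 p.2 = (z, z) → z ∈ L.map Prod.fst)
    (h4 : ∀ v, (v, v) ∈ G ↔ v ∈ L.map Prod.fst ++ L.map Prod.snd)
    (h5 : ∀ p ∈ L, sc.col p.1 p.2 ∈ G) : Tileable sc G := by
  classical
  rw [List.nodup_append] at h1
  obtain ⟨n1, n2, n3⟩ := h1
  refine ⟨(L.map Prod.fst).toFinset, L.toFinset, ⟨?_, ?_, ?_, ?_, ?_, ?_⟩, ?_, ?_, ?_⟩
  · intro p hp
    rw [List.mem_toFinset] at hp ⊢
    exact List.mem_map.2 ⟨p, hp, rfl⟩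
  · intro p hp hq
    rw [List.mem_toFinset] at hp hq
    exact n3 _ hq _ (List.mem_map.2 ⟨p, hp, rfl⟩) rfl
  · intro p hp p' hp' he
    rw [List.mem_toFinset] at hp hp'
    exact List.inj_on_of_nodup_map n1 hp hp' he
  · intro p hp p' hp' he
    rw [List.mem_toFinset] at hp hp'
    exact List.inj_on_of_nodup_map n2 hp hp' he
  · intro p hp p' hp' he
    rw [List.mem_toFinset] at hp hp'
    exact List.inj_on_of_nodup_map h2 hp hp' he
  · intro p hp z hz
    rw [List.mem_toFinset] at hp ⊢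
    exact h3 p hp z hz
  · rw [Finset.eq_empty_iff_forall_notMem]
    intro v hv
    rw [mem_unc, List.mem_toFinset, List.mem_map] at hv
    obtain ⟨⟨p, hp, rfl⟩, hv2⟩ := hv
    exact hv2 p (List.mem_toFinset.2 hp) rfl
  · ext v
    unfold vs
    rw [Finset.mem_filter, h4 v, Finset.mem_union, List.mem_toFinset, Finset.mem_image,
      List.mem_append, List.mem_map (f := Prod.snd)]
    simp only [Finset.mem_univ, true_and, List.mem_toFinset]
  · intro p hp
    rw [List.mem_toFinset] at hp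
    exact h5 p hp

omit [Fintype V] [DecidableEq V] in
lemma free_iff {sc : SC V} {x y : V} :
    (sc.col x y).1 ≠ (sc.col x y).2 ↔ ∀ z, sc.col x y ≠ (z, z) := by
  constructor
  · intro h z hz
    rw [hz] at h
    exact h rfl
  · intro h he
    exact h (sc.col x y).1 (Prod.ext rfl he.symm)

lemma mem_Rich {sc : SC V} {m : ℝ} {x : V} : x ∈ Rich sc m ↔ m ≤ ((Fr sc x).card : ℝ) := by
  classical
  unfold Rich
  rw [Finset.mem_filter]
  have e : (univ.filter fun y => y ≠ x ∧ (sc.col x y).1 ≠ (sc.col x y).2) = Fr sc x := by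
    ext y
    rw [Finset.mem_filter, mem_Fr, free_iff]
    simp
  rw [e]
  simp

lemma injCol (sc : SC V) (x : V) (A : Finset V) (hA : ∀ a ∈ A, a ≠ x) :
    Set.InjOn (fun a => sc.col x a) A := by
  intro a ha b hb he
  exact inj_col sc (hA a ha) (hA b hb) he

omit [Fintype V] [DecidableEq V] in
lemma injDg (A : Finset V) : Set.InjOn (fun a : V => (a, a)) A := by
  intro a _ b _ he
  exact (Prod.ext_iff.1 he).1

/-- choice of a vertex `a` in `A` avoiding the vertices in `B`, the resources in `Y`, and such that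
the colour of `va` avoids `Z` -/
lemma pick (sc : SC V) (v : V) (A : Finset V) (hA : ∀ a ∈ A, a ≠ v) (B : Finset V)
    (Y Z : Finset (V × V)) (h : B.card + Y.card + Z.card < A.card) :
    ∃ a ∈ A, a ∉ B ∧ (a, a) ∉ Y ∧ sc.col v a ∉ Z := by
  classical
  have h1 := filt A (fun a => a) (fun a _ b _ he => he) B
  have h2 := filt (A.filter fun a => a ∉ B) (fun a => (a, a)) (injDg _) Y
  have h3 := filt ((A.filter fun a => a ∉ B).filter fun a => (a, a) ∉ Y) (fun a => sc.col v a)
    (injCol sc v _ (fun a ha => hA a (Finset.filter_subset _ _ (Finset.filter_subset _ _ ha)))) Z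
  have h4 : 0 < ((((A.filter fun a => a ∉ B).filter fun a => (a, a) ∉ Y)).filter
      fun a => sc.col v a ∉ Z).card := by omega
  obtain ⟨a, ha⟩ := Finset.card_pos.1 h4
  rw [Finset.mem_filter, Finset.mem_filter, Finset.mem_filter] at ha
  exact ⟨a, ha.1.1.1, ha.1.1.2, ha.1.2, ha.2⟩

/-- the same with two colour conditions -/
lemma pick2 (sc : SC V) (v v' : V) (A : Finset V) (hA : ∀ a ∈ A, a ≠ v) (B : Finset V)
    (hB : v' ∈ B) (Y Z Z' : Finset (V × V))
    (h : B.card + Y.card + Z.card + Z'.card < A.card) :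
    ∃ a ∈ A, a ∉ B ∧ (a, a) ∉ Y ∧ sc.col v a ∉ Z ∧ sc.col v' a ∉ Z' := by
  classical
  have h1 := filt A (fun a => a) (fun a _ b _ he => he) B
  have h2 := filt (A.filter fun a => a ∉ B) (fun a => sc.col v' a) (injCol sc v' _ (by
    intro a ha he
    rw [Finset.mem_filter] at ha
    rw [he] at ha
    exact ha.2 hB)) Z'
  obtain ⟨a, ha, _, hb, hc⟩ := pick sc v ((A.filter fun a => a ∉ B).filter
    fun a => sc.col v' a ∉ Z') (fun a ha => hA a (Finset.filter_subset _ _
      (Finset.filter_subset _ _ ha))) ∅ Y Z (by rw [Finset.card_empty]; omega)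
  rw [Finset.mem_filter, Finset.mem_filter] at ha
  exact ⟨a, ha.1.1, ha.1.2, hb, hc, ha.2⟩

/-- case 1: `uw` is a free edge -/
lemma case1 (sc : SC V) (x y u w : V) (hxy : x ≠ y) (hux : u ≠ x) (huy : u ≠ y) (hwx : w ≠ x)
    (hwy : w ≠ y) (huw : u ≠ w) (fxu : ∀ z, sc.col x u ≠ (z, z)) (fyw : ∀ z, sc.col y w ≠ (z, z))
    (fuw : ∀ z, sc.col u w ≠ (z, z)) (h1 : sc.col y w ≠ sc.col x u) :
    PA sc x y {(u, u), (w, w), sc.col u w, sc.col x u, sc.col y w} := by
  have fxu' : ∀ z, (z, z) ≠ sc.col x u := fun z => (fxu z).symm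
  have fyw' : ∀ z, (z, z) ≠ sc.col y w := fun z => (fyw z).symm
  have fuw' : ∀ z, (z, z) ≠ sc.col u w := fun z => (fuw z).symm
  refine ⟨?_, ?_, ?_, ?_⟩
  · unfold vs
    simp [fxu', fyw', fuw', hux.symm, hwx.symm]
  · unfold vs
    simp [fxu', fyw', fuw', huy.symm, hwy.symm]
  · apply tile_list sc _ [(u, w)]
    · simp [huw]
    · simp
    · simp [fuw]
    · intro v
      simp [fxu', fyw', fuw']
    · simp
  · apply tile_list sc _ [(x, u), (y, w)]
    · simp [huw, hxy, hux.symm, hwx.symm, huy.symm, hwy.symm]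
    · simp [h1.symm]
    · simp [fxu, fyw]
    · intro v
      simp [fxu', fyw', fuw']
    · simp

/-- case 2: the label `z` of `uw` has a free edge `za` -/
lemma case2 (sc : SC V) (x y u w z a : V) (hxy : x ≠ y) (hux : u ≠ x) (huy : u ≠ y) (hwx : w ≠ x)
    (hwy : w ≠ y) (huw : u ≠ w) (hzx : z ≠ x) (hzy : z ≠ y) (hzu : z ≠ u) (hzw : z ≠ w)
    (hax : a ≠ x) (hay : a ≠ y) (hau : a ≠ u) (haw : a ≠ w) (haz : a ≠ z)
    (fxu : ∀ z, sc.col x u ≠ (z, z)) (fyw : ∀ z, sc.col y w ≠ (z, z))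
    (fza : ∀ v, sc.col z a ≠ (v, v)) (huz : sc.col u w = (z, z)) (h1 : sc.col y w ≠ sc.col x u)
    (h2 : sc.col z a ≠ sc.col x u) (h3 : sc.col z a ≠ sc.col y w) :
    PA sc x y {(u, u), (w, w), (z, z), (a, a), sc.col x u, sc.col y w, sc.col z a} := by
  have fxu' : ∀ z, (z, z) ≠ sc.col x u := fun z => (fxu z).symm
  have fyw' : ∀ z, (z, z) ≠ sc.col y w := fun z => (fyw z).symm
  have fza' : ∀ v, (v, v) ≠ sc.col z a := fun z => (fza z).symm
  refine ⟨?_, ?_, ?_, ?_⟩
  · unfold vs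
    simp [fxu', fyw', fza', hux.symm, hwx.symm, hzx.symm, hax.symm]
  · unfold vs
    simp [fxu', fyw', fza', huy.symm, hwy.symm, hzy.symm, hay.symm]
  · apply tile_list sc _ [(u, w), (z, a)]
    · simp [huw, hzu.symm, hau.symm, hzw, haz.symm, haw.symm]
    · simp [huz, fza']
    · simp [huz, fza]
    · intro v
      simp [fxu', fyw', fza']
      tauto
    · simp [huz]
  · apply tile_list sc _ [(x, u), (y, w), (z, a)]
    · simp [huw, hxy, hux.symm, hwx.symm, huy.symm, hwy.symm, hzx.symm, hax.symm, hzy.symm,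
        hay.symm, hzu, hzw, haz.symm, hau.symm, haw.symm]
    · simp [h1.symm, h2.symm, h3.symm]
    · simp [fxu, fyw, fza]
    · intro v
      simp [fxu', fyw', fza']
      tauto
    · simp

/-- case 3: the label `z` of `uw`, an edge `za` with label `z1`, and a free edge `z1 a1` -/
lemma case3 (sc : SC V) (x y u w z a z1 a1 : V) (hxy : x ≠ y) (hux : u ≠ x) (huy : u ≠ y)
    (hwx : w ≠ x) (hwy : w ≠ y) (huw : u ≠ w) (hzx : z ≠ x) (hzy : z ≠ y) (hzu : z ≠ u)
    (hzw : z ≠ w) (hax : a ≠ x) (hay : a ≠ y) (hau : a ≠ u) (haw : a ≠ w) (haz : a ≠ z)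
    (hbx : z1 ≠ x) (hby : z1 ≠ y) (hbu : z1 ≠ u) (hbw : z1 ≠ w) (hbz : z1 ≠ z) (hba : z1 ≠ a)
    (hcx : a1 ≠ x) (hcy : a1 ≠ y) (hcu : a1 ≠ u) (hcw : a1 ≠ w) (hcz : a1 ≠ z) (hca : a1 ≠ a)
    (hcb : a1 ≠ z1)
    (fxu : ∀ z, sc.col x u ≠ (z, z)) (fyw : ∀ z, sc.col y w ≠ (z, z))
    (fbc : ∀ v, sc.col z1 a1 ≠ (v, v)) (huz : sc.col u w = (z, z)) (hzz : sc.col z a = (z1, z1))
    (h1 : sc.col y w ≠ sc.col x u) (h2 : sc.col z1 a1 ≠ sc.col x u)
    (h3 : sc.col z1 a1 ≠ sc.col y w) :
    PA sc x y {(u, u), (w, w), (z, z), (a, a), (z1, z1), (a1, a1), sc.col x u, sc.col y w,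
      sc.col z1 a1} := by
  have fxu' : ∀ z, (z, z) ≠ sc.col x u := fun z => (fxu z).symm
  have fyw' : ∀ z, (z, z) ≠ sc.col y w := fun z => (fyw z).symm
  have fbc' : ∀ v, (v, v) ≠ sc.col z1 a1 := fun z => (fbc z).symm
  refine ⟨?_, ?_, ?_, ?_⟩
  · unfold vs
    simp [fxu', fyw', fbc', hux.symm, hwx.symm, hzx.symm, hax.symm, hbx.symm, hcx.symm]
  · unfold vs
    simp [fxu', fyw', fbc', huy.symm, hwy.symm, hzy.symm, hay.symm, hby.symm, hcy.symm]
  · apply tile_list sc _ [(u, w), (z, a), (z1, a1)]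
    · simp [huw, hzu.symm, hau.symm, hzw, haz.symm, haw.symm, hbu.symm, hbw, hbz.symm, hba,
        hcu.symm, hcw.symm, hcz.symm, hca.symm, hcb.symm]
    · simp [huz, hzz, fbc', hbz.symm]
    · simp [huz, hzz, fbc]
    · intro v
      simp [fxu', fyw', fbc']
      tauto
    · simp [huz, hzz]
  · apply tile_list sc _ [(x, u), (y, w), (z, a), (z1, a1)]
    · simp [huw, hxy, hux.symm, hwx.symm, huy.symm, hwy.symm, hzx.symm, hax.symm, hzy.symm,
        hay.symm, hzu, hzw, haz.symm, hau.symm, haw.symm, hbx.symm, hby.symm, hbu, hbw, hbz.symm,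
        hba, hcx.symm, hcy.symm, hcu.symm, hcw.symm, hcz.symm, hca.symm, hcb.symm]
    · simp [h1.symm, h2.symm, h3.symm, hzz, fxu, fyw, fbc']
    · simp [fxu, fyw, fbc, hzz]
    · intro v
      simp [fxu', fyw', fbc']
      tauto
    · simp [hzz]

/-- a pair absorber avoiding a small set of resources -/
lemma gad (sc : SC V) (r : ℕ) (hr : 100 ≤ r) (Rp : Finset V) (hRp : 40 * r ≤ Rp.card)
    (hF : ∀ v ∈ Rp, 40 * r ≤ (Fr sc v).card) (Y : Finset (V × V)) (hY : 10 * Y.card ≤ r)
    (x y : V) (hx : r ≤ (Fr sc x).card) (hy : r ≤ (Fr sc y).card) (hxy : x ≠ y) :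
    ∃ G : Finset (V × V), G.Nonempty ∧ G.card ≤ 9 ∧ PA sc x y G ∧ Disjoint G Y := by
  classical
  obtain ⟨u, hu, huB, huY, huZ⟩ := pick sc x (Fr sc x) (fun a ha => (mem_Fr.1 ha).1) {y} Y Y
    (by rw [Finset.card_singleton]; omega)
  have hc1 := Finset.card_le_two (a := x) (b := u)
  have hc2 := Finset.card_insert_le (sc.col x u) Y
  have hc3 := Finset.card_insert_le (x, x) (insert (y, y) Y)
  have hc4 := Finset.card_insert_le (y, y) Y
  obtain ⟨w, hw, hwB, hwY, hwZ, hwZ'⟩ := pick2 sc y u (Fr sc y) (fun a ha => (mem_Fr.1 ha).1)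
    {x, u} (by simp) Y (insert (sc.col x u) Y) (insert (x, x) (insert (y, y) Y)) (by omega)
  rw [mem_Fr] at hu hw
  rw [Finset.mem_singleton] at huB
  simp only [Finset.mem_insert, Finset.mem_singleton, not_or] at hwB hwZ hwZ'
  obtain ⟨hux, fxu⟩ := hu
  obtain ⟨hwy, fyw⟩ := hw
  obtain ⟨hwx, hwu⟩ := hwB
  obtain ⟨h1, hwZ⟩ := hwZ
  obtain ⟨hzx', hzy', huwY⟩ := hwZ'
  by_cases hfree : ∀ z, sc.col u w ≠ (z, z)
  · refine ⟨_, ?_, ?_, case1 sc x y u w hxy hux huB hwx hwy (Ne.symm hwu) fxu fyw hfree h1, ?_⟩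
    · simp
    · exact Finset.card_le_five.trans (by norm_num)
    · rw [Finset.disjoint_left]
      intro i hi
      simp only [Finset.mem_insert, Finset.mem_singleton] at hi
      rcases hi with rfl | rfl | rfl | rfl | rfl <;> assumption
  · push Not at hfree
    obtain ⟨z, hz⟩ := hfree
    obtain ⟨hzu, hzw⟩ := ne_star sc hwu hz
    have hzx : z ≠ x := by rintro rfl; exact hzx' hz
    have hzy : z ≠ y := by rintro rfl; exact hzy' hz
    have hzY : (z, z) ∉ Y := by rw [← hz]; exact huwY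
    have hc5 := Finset.card_insert_le (sc.col x u) (insert (sc.col y w) Y)
    have hc6 := Finset.card_insert_le (sc.col y w) Y
    by_cases hzr : r ≤ (Fr sc z).card
    · have hc7 := Finset.card_le_four (a := x) (b := y) (c := u) (d := w)
      obtain ⟨a, ha, haB, haY, haZ⟩ := pick sc z (Fr sc z) (fun a ha => (mem_Fr.1 ha).1)
        {x, y, u, w} Y (insert (sc.col x u) (insert (sc.col y w) Y)) (by omega)
      rw [mem_Fr] at ha
      simp only [Finset.mem_insert, Finset.mem_singleton, not_or] at haB haZ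
      refine ⟨_, ?_, ?_, case2 sc x y u w z a hxy hux huB hwx hwy (Ne.symm hwu) hzx hzy hzu hzw
        haB.1 haB.2.1 haB.2.2.1 haB.2.2.2 ha.1 fxu fyw ha.2 hz h1 haZ.1 haZ.2.1, ?_⟩
      · simp
      · refine (Finset.card_insert_le _ _).trans ?_
        have := Finset.card_le_six (a := (w, w)) (b := (z, z)) (c := (a, a)) (d := sc.col x u)
          (e := sc.col y w) (f := sc.col z a)
        omega
      · rw [Finset.disjoint_left]
        intro i hi
        simp only [Finset.mem_insert, Finset.mem_singleton] at hi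
        rcases hi with rfl | rfl | rfl | rfl | rfl | rfl | rfl
        · assumption
        · assumption
        · assumption
        · assumption
        · assumption
        · assumption
        · exact haZ.2.2
    · have hc7 := card_Ms_le sc z
      have hc8 : (Rp \ insert z (Ms sc z)).card + ((Ms sc z).card + 1) ≥ Rp.card := by
        have h3 := Finset.le_card_sdiff (insert z (Ms sc z)) Rp
        have h4 := Finset.card_insert_le z (Ms sc z)
        omega
      have hoth : ∀ b ∈ Rp \ insert z (Ms sc z), b ≠ z ∧ oth sc z b ≠ z ∧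
          sc.col z (oth sc z b) = (b, b) := by
        intro b hb
        rw [Finset.mem_sdiff, Finset.mem_insert, not_or] at hb
        exact ⟨hb.2.1, oth_spec hb.2.1 hb.2.2⟩
      have hinj : Set.InjOn (fun b => oth sc z b) ((Rp \ insert z (Ms sc z) : Finset V) : Set V) := by
        intro b hb b' hb' he
        have e1 := (hoth b hb).2.2
        have e2 := (hoth b' hb').2.2
        have he' : oth sc z b = oth sc z b' := he
        rw [he', e2] at e1
        exact (Prod.ext_iff.1 e1).1.symm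
      have hc9 := filt (Rp \ insert z (Ms sc z)) (fun b => oth sc z b) hinj {x, y, u, w}
      have hc10 := filt ((Rp \ insert z (Ms sc z)).filter fun b => oth sc z b ∉
        ({x, y, u, w} : Finset V)) (fun b => (oth sc z b, oth sc z b)) (by
          intro b hb b' hb' he
          rw [Finset.mem_coe, Finset.mem_filter] at hb hb'
          exact hinj (Finset.mem_coe.2 hb.1) (Finset.mem_coe.2 hb'.1) (Prod.ext_iff.1 he).1) Y
      have hc11 := filt (((Rp \ insert z (Ms sc z)).filter fun b => oth sc z b ∉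
        ({x, y, u, w} : Finset V)).filter fun b => (oth sc z b, oth sc z b) ∉ Y)
        (fun b => b) (fun _ _ _ _ he => he) {x, y, u, w}
      have hc12 := filt ((((Rp \ insert z (Ms sc z)).filter fun b => oth sc z b ∉
        ({x, y, u, w} : Finset V)).filter fun b => (oth sc z b, oth sc z b) ∉ Y).filter
        fun b => b ∉ ({x, y, u, w} : Finset V)) (fun b => (b, b)) (injDg _) Y
      have hc13 := Finset.card_le_four (a := x) (b := y) (c := u) (d := w)
      have hpos : 0 < (((((Rp \ insert z (Ms sc z)).filter fun b => oth sc z b ∉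
        ({x, y, u, w} : Finset V)).filter fun b => (oth sc z b, oth sc z b) ∉ Y).filter
        fun b => b ∉ ({x, y, u, w} : Finset V)).filter fun b => (b, b) ∉ Y).card := by omega
      obtain ⟨b, hb⟩ := Finset.card_pos.1 hpos
      rw [Finset.mem_filter, Finset.mem_filter, Finset.mem_filter, Finset.mem_filter] at hb
      obtain ⟨⟨⟨⟨hb1, hb2⟩, hb3⟩, hb4⟩, hb5⟩ := hb
      obtain ⟨hbz, haz, hzz⟩ := hoth b hb1
      have hbR : 40 * r ≤ (Fr sc b).card := hF b (Finset.sdiff_subset hb1)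
      set a := oth sc z b with ha
      have hba : b ≠ a := (ne_star sc haz hzz).2
      have hc14 := Finset.card_le_six (a := x) (b := y) (c := u) (d := w) (e := z) (f := a)
      obtain ⟨c, hc, hcB, hcY, hcZ⟩ := pick sc b (Fr sc b) (fun a ha => (mem_Fr.1 ha).1)
        {x, y, u, w, z, a} Y (insert (sc.col x u) (insert (sc.col y w) Y)) (by omega)
      rw [mem_Fr] at hc
      simp only [Finset.mem_insert, Finset.mem_singleton, not_or] at hb2 hb4 hcB hcZ
      refine ⟨_, ?_, ?_, case3 sc x y u w z a b c hxy hux huB hwx hwy (Ne.symm hwu) hzx hzy hzu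
        hzw hb2.1 hb2.2.1 hb2.2.2.1 hb2.2.2.2 haz hb4.1 hb4.2.1 hb4.2.2.1 hb4.2.2.2 hbz hba
        hcB.1 hcB.2.1 hcB.2.2.1 hcB.2.2.2.1 hcB.2.2.2.2.1 hcB.2.2.2.2.2 hc.1 fxu fyw hc.2 hz hzz h1
        hcZ.1 hcZ.2.1, ?_⟩
      · simp
      · refine (Finset.card_insert_le _ _).trans ?_
        refine Nat.succ_le_succ ((Finset.card_insert_le _ _).trans ?_)
        refine Nat.succ_le_succ ((Finset.card_insert_le _ _).trans ?_)
        exact Nat.succ_le_succ Finset.card_le_six
      · rw [Finset.disjoint_left]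
        intro i hi
        simp only [Finset.mem_insert, Finset.mem_singleton] at hi
        rcases hi with rfl | rfl | rfl | rfl | rfl | rfl | rfl | rfl | rfl
        · assumption
        · assumption
        · assumption
        · assumption
        · assumption
        · assumption
        · assumption
        · assumption
        · exact hcZ.2.2

end HPR_

/-- pair absorbers for rich vertices -/
theorem p_HPR : T_HPR := by
  classical
  intro δ hδ hδ1
  have hρ : 0 < δ ^ 2 / 100 := by positivity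
  refine ⟨9, δ ^ 2 / 10000, ⌈10000 / (δ ^ 2 / 100)⌉₊, by positivity, ?_⟩
  intro V _ _ sc hN hR x hx y hy hxy
  have hN' : 10000 / (δ ^ 2 / 100) ≤ (Fintype.card V : ℝ) := Nat.ceil_le.1 hN
  rw [div_le_iff₀ hρ] at hN'
  apply HPR_.fam_of_avoid
  intro Y hY
  rw [HPR_.mem_Rich] at hx hy
  have hδ2 : δ ^ 2 ≤ δ := by nlinarith
  have hcN : (0 : ℝ) ≤ (Fintype.card V : ℝ) := Nat.cast_nonneg _
  have hr1 : (⌈δ ^ 2 / 100 * (Fintype.card V : ℝ)⌉₊ : ℝ) < δ ^ 2 / 100 * (Fintype.card V : ℝ) + 1 :=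
    Nat.ceil_lt_add_one (by positivity)
  have hr2 : δ ^ 2 / 100 * (Fintype.card V : ℝ) ≤ (⌈δ ^ 2 / 100 * (Fintype.card V : ℝ)⌉₊ : ℝ) :=
    Nat.le_ceil _
  have hbig : (((40 * ⌈δ ^ 2 / 100 * (Fintype.card V : ℝ)⌉₊ : ℕ)) : ℝ)
      ≤ δ / 2 * Fintype.card V := by
    push_cast
    have h3 : δ ^ 2 * (Fintype.card V : ℝ) ≤ δ * (Fintype.card V : ℝ) :=
      mul_le_mul_of_nonneg_right hδ2 hcN
    linarith
  apply HPR_.gad sc ⌈δ ^ 2 / 100 * (Fintype.card V : ℝ)⌉₊ ?_ (Rich sc (δ / 2 * Fintype.card V))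
    ?_ ?_ Y ?_ x y ?_ ?_ hxy
  · have h3 : (100 : ℝ) ≤ (⌈δ ^ 2 / 100 * (Fintype.card V : ℝ)⌉₊ : ℝ) := by linarith
    exact_mod_cast h3
  · exact_mod_cast hbig.trans hR
  · intro v hv
    rw [HPR_.mem_Rich] at hv
    exact_mod_cast hbig.trans hv
  · have h3 : (((10 * Y.card : ℕ)) : ℝ) ≤ (⌈δ ^ 2 / 100 * (Fintype.card V : ℝ)⌉₊ : ℝ) := by
      push_cast at hY ⊢
      nlinarith
    exact_mod_cast h3
  · exact Nat.ceil_le.2 hx
  · exact Nat.ceil_le.2 hy

end SpF
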