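import Pool.Agent.SpF.Targets

/-!
# One step of the weighted nibble
-/

namespace SpF
namespace STEP_
open Finset

section coins
variable {I : Type} [Fintype I] [DecidableEq I]

/-- probability of the outcome `ω` -/
noncomputable def pw (p : I → ℝ) (ω : I → Bool) : ℝ := ∏ i, (if ω i then p i else 1 - p i)

/-- expectation -/
noncomputable def Ex (p : I → ℝ) (f : (I → Bool) → ℝ) : ℝ := ∑ ω, pw p ω * f ω

lemma pw_nonneg (p : I → ℝ) (h0 : ∀ i, 0 ≤ p i) (h1 : ∀ i, p i ≤ 1) (ω : I → Bool) :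
    0 ≤ pw p ω := by
  unfold pw
  apply Finset.prod_nonneg
  intro i _
  split_ifs
  · exact h0 i
  · linarith [h1 i]

lemma ex_prod (p : I → ℝ) (g : I → Bool → ℝ) :
    Ex p (fun ω => ∏ i, g i (ω i)) = ∏ i, (p i * g i true + (1 - p i) * g i false) := by
  unfold Ex pw
  have h : ∀ ω : I → Bool, (∏ i, (if ω i then p i else 1 - p i)) * ∏ i, g i (ω i) =
      ∏ i, ((fun i (b : Bool) => (if b then p i else 1 - p i) * g i b) i (ω i)) := by
    intro ω
    rw [← Finset.prod_mul_distrib]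
  simp_rw [h]
  refine (Fintype.prod_sum (fun i (b : Bool) => (if b then p i else 1 - p i) * g i b)).symm.trans ?_
  apply Finset.prod_congr rfl
  intro i _
  simp

lemma ex_one (p : I → ℝ) : Ex p (fun _ => 1) = 1 := by
  have h := ex_prod p (fun _ _ => 1)
  simp only [Finset.prod_const_one, mul_one] at h
  rw [h]
  simp

lemma ex_off (p : I → ℝ) (S : Finset I) :
    Ex p (fun ω => if ∀ i ∈ S, ω i = false then 1 else 0) = ∏ i ∈ S, (1 - p i) := by
  have h := ex_prod p (fun i b => if i ∈ S then (if b then 0 else 1) else 1)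
  have h1 : (fun ω : I → Bool => (if ∀ i ∈ S, ω i = false then (1 : ℝ) else 0)) =
      fun ω => ∏ i, (if i ∈ S then (if ω i then (0 : ℝ) else 1) else 1) := by
    funext ω
    split_ifs with hc
    · symm
      apply Finset.prod_eq_one
      intro i _
      by_cases hi : i ∈ S
      · simp [hi, hc i hi]
      · simp [hi]
    · push Not at hc
      obtain ⟨i, hi, hne⟩ := hc
      symm
      apply Finset.prod_eq_zero (Finset.mem_univ i)
      have : ω i = true := by
        cases hb : ω i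
        · exact absurd hb hne
        · rfl
      simp [hi, this]
  rw [h1]
  refine h.trans ?_
  have h2 : ∀ i, (p i * (if i ∈ S then (if (true : Bool) then (0 : ℝ) else 1) else 1) +
      (1 - p i) * (if i ∈ S then (if (false : Bool) then (0 : ℝ) else 1) else 1)) =
      if i ∈ S then 1 - p i else 1 := by
    intro i
    by_cases hi : i ∈ S
    · simp [hi]
    · simp [hi]
  rw [Finset.prod_congr rfl (fun i _ => h2 i)]
  rw [Finset.prod_ite_mem, Finset.univ_inter]

lemma ex_on_off (p : I → ℝ) (S : Finset I) (a : I) (ha : a ∉ S) :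
    Ex p (fun ω => if ω a = true ∧ ∀ i ∈ S, ω i = false then 1 else 0) =
      p a * ∏ i ∈ S, (1 - p i) := by
  have h := ex_prod p (fun i b => if i = a then (if b then 1 else 0) else
    if i ∈ S then (if b then 0 else 1) else 1)
  have h1 : (fun ω : I → Bool => (if ω a = true ∧ ∀ i ∈ S, ω i = false then (1 : ℝ) else 0)) =
      fun ω => ∏ i, (if i = a then (if ω i then (1 : ℝ) else 0) else
        if i ∈ S then (if ω i then (0 : ℝ) else 1) else 1) := by
    funext ω
    split_ifs with hc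
    · symm
      apply Finset.prod_eq_one
      intro i _
      by_cases hia : i = a
      · subst hia
        simp [hc.1]
      · by_cases hi : i ∈ S
        · simp [hi, hia, hc.2 i hi]
        · simp [hi, hia]
    · rw [not_and_or] at hc
      symm
      rcases hc with hc | hc
      · apply Finset.prod_eq_zero (Finset.mem_univ a)
        simp [hc]
      · push Not at hc
        obtain ⟨i, hi, hne⟩ := hc
        have hia : i ≠ a := fun h => ha (h ▸ hi)
        apply Finset.prod_eq_zero (Finset.mem_univ i)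
        have : ω i = true := by
          cases hb : ω i
          · exact absurd hb hne
          · rfl
        simp [hi, this, hia]
  rw [h1]
  refine h.trans ?_
  have h2 : ∀ i, (p i * (if i = a then (if (true : Bool) then (1 : ℝ) else 0) else
      if i ∈ S then (if (true : Bool) then (0 : ℝ) else 1) else 1) +
      (1 - p i) * (if i = a then (if (false : Bool) then (1 : ℝ) else 0) else
      if i ∈ S then (if (false : Bool) then (0 : ℝ) else 1) else 1)) =
      (if i = a then p a else 1) * (if i ∈ S then 1 - p i else 1) := by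
    intro i
    by_cases hia : i = a
    · subst hia
      simp [ha]
    · by_cases hi : i ∈ S
      · simp [hi, hia]
      · simp [hi, hia]
  rw [Finset.prod_congr rfl (fun i _ => h2 i), Finset.prod_mul_distrib]
  rw [Finset.prod_ite_mem, Finset.univ_inter]
  congr 1
  rw [Finset.prod_ite_eq' Finset.univ a (fun _ => p a)]
  simp

lemma ex_add (p : I → ℝ) (f g : (I → Bool) → ℝ) :
    Ex p (fun ω => f ω + g ω) = Ex p f + Ex p g := by
  unfold Ex
  rw [← Finset.sum_add_distrib]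
  apply Finset.sum_congr rfl
  intro ω _
  ring

lemma ex_sub (p : I → ℝ) (f g : (I → Bool) → ℝ) :
    Ex p (fun ω => f ω - g ω) = Ex p f - Ex p g := by
  unfold Ex
  rw [← Finset.sum_sub_distrib]
  apply Finset.sum_congr rfl
  intro ω _
  ring

lemma ex_smul (p : I → ℝ) (c : ℝ) (f : (I → Bool) → ℝ) :
    Ex p (fun ω => c * f ω) = c * Ex p f := by
  unfold Ex
  rw [Finset.mul_sum]
  apply Finset.sum_congr rfl
  intro ω _
  ring

lemma ex_sum {J : Type} (p : I → ℝ) (A : Finset J) (f : J → (I → Bool) → ℝ) :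
    Ex p (fun ω => ∑ j ∈ A, f j ω) = ∑ j ∈ A, Ex p (f j) := by
  unfold Ex
  simp_rw [Finset.mul_sum]
  rw [Finset.sum_comm]

lemma ex_mono (p : I → ℝ) (h0 : ∀ i, 0 ≤ p i) (h1 : ∀ i, p i ≤ 1) (f g : (I → Bool) → ℝ)
    (h : ∀ ω, f ω ≤ g ω) : Ex p f ≤ Ex p g := by
  unfold Ex
  apply Finset.sum_le_sum
  intro ω _
  exact mul_le_mul_of_nonneg_left (h ω) (pw_nonneg p h0 h1 ω)

lemma ex_exists (p : I → ℝ) (h0 : ∀ i, 0 ≤ p i) (h1 : ∀ i, p i ≤ 1) (f : (I → Bool) → ℝ) :
    ∃ ω, Ex p f ≤ f ω := by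
  by_contra hc
  push Not at hc
  have h2 : Ex p (fun ω => f ω - Ex p f) = 0 := by
    rw [ex_sub]
    have : Ex p (fun _ => Ex p f) = Ex p f := by
      have := ex_smul p (Ex p f) (fun _ => 1)
      rw [ex_one, mul_one] at this
      simpa using this
    rw [this]
    ring
  have h3 : ∀ ω, pw p ω * (f ω - Ex p f) ≤ 0 := by
    intro ω
    apply mul_nonpos_of_nonneg_of_nonpos (pw_nonneg p h0 h1 ω)
    linarith [hc ω]
  have h4 : ∀ ω ∈ (Finset.univ : Finset (I → Bool)), pw p ω * (f ω - Ex p f) = 0 := by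
    unfold Ex at h2
    have := (Finset.sum_eq_zero_iff_of_nonpos (fun ω _ => h3 ω)).1 h2
    exact this
  have h5 : ∀ ω, pw p ω = 0 := by
    intro ω
    rcases mul_eq_zero.1 (h4 ω (Finset.mem_univ _)) with h | h
    · exact h
    · exfalso
      linarith [hc ω]
  have h6 : Ex p (fun _ => 1) = 0 := by
    unfold Ex
    simp [h5]
  rw [ex_one] at h6
  exact one_ne_zero h6

end coins

/-- Weierstrass product inequality -/
lemma one_sub_sum_le_prod {J : Type} [DecidableEq J] (A : Finset J) (p : J → ℝ)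
    (h0 : ∀ j ∈ A, 0 ≤ p j) (h1 : ∀ j ∈ A, p j ≤ 1) :
    1 - ∑ j ∈ A, p j ≤ ∏ j ∈ A, (1 - p j) := by
  induction A using Finset.induction_on with
  | empty => simp
  | insert a A ha ih =>
    rw [Finset.sum_insert ha, Finset.prod_insert ha]
    have ih' := ih (fun j hj => h0 j (Finset.mem_insert_of_mem hj))
      (fun j hj => h1 j (Finset.mem_insert_of_mem hj))
    have ha0 := h0 a (Finset.mem_insert_self a A)
    have ha1 := h1 a (Finset.mem_insert_self a A)
    have hs : 0 ≤ ∑ j ∈ A, p j :=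
      Finset.sum_nonneg (fun j hj => h0 j (Finset.mem_insert_of_mem hj))
    have := mul_le_mul_of_nonneg_left ih' (by linarith : (0 : ℝ) ≤ 1 - p a)
    nlinarith

section main
variable {Ω : Type} [Fintype Ω] [DecidableEq Ω]

/-- product of the off-probabilities at a vertex -/
noncomputable def ppi (E : Finset (Finset Ω)) (w : Finset Ω → ℝ) (θ : ℝ) (x : Ω) : ℝ :=
  ∏ f ∈ E.filter (fun f => x ∈ f), (1 - θ * w f)

/-- coin probabilities -/
noncomputable def pr (E : Finset (Finset Ω)) (w : Finset Ω → ℝ) (θ : ℝ) : Finset Ω ⊕ Ω → ℝ :=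
  Sum.elim (fun f => if f ∈ E then θ * w f else 0) (fun x => 1 - (1 - θ) / ppi E w θ x)

/-- coins which must be off for `X` to survive -/
def SS (E : Finset (Finset Ω)) (X : Finset Ω) : Finset (Finset Ω ⊕ Ω) :=
  (E.filter (fun f => ¬ Disjoint f X)).disjSum X

/-- indicator of the survival of `X` -/
noncomputable def ind (E : Finset (Finset Ω)) (X : Finset Ω) (ω : Finset Ω ⊕ Ω → Bool) : ℝ :=
  if ∀ i ∈ SS E X, ω i = false then 1 else 0

lemma SS_union (E : Finset (Finset Ω)) (X Y : Finset Ω) (i : Finset Ω ⊕ Ω) :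
    i ∈ SS E (X ∪ Y) ↔ i ∈ SS E X ∨ i ∈ SS E Y := by
  unfold SS
  rcases i with f | x
  · simp only [Finset.inl_mem_disjSum, Finset.mem_filter, Finset.disjoint_union_right, not_and_or]
    tauto
  · simp only [Finset.inr_mem_disjSum, Finset.mem_union]

lemma ind_mul (E : Finset (Finset Ω)) (X Y : Finset Ω) (ω : Finset Ω ⊕ Ω → Bool) :
    ind E X ω * ind E Y ω = ind E (X ∪ Y) ω := by
  unfold ind
  by_cases h1 : ∀ i ∈ SS E X, ω i = false
  · by_cases h2 : ∀ i ∈ SS E Y, ω i = false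
    · have h3 : ∀ i ∈ SS E (X ∪ Y), ω i = false := by
        intro i hi
        rcases (SS_union E X Y i).1 hi with h | h
        · exact h1 i h
        · exact h2 i h
      rw [if_pos h1, if_pos h2, if_pos h3, one_mul]
    · have h3 : ¬ ∀ i ∈ SS E (X ∪ Y), ω i = false := by
        intro h
        exact h2 (fun i hi => h i ((SS_union E X Y i).2 (Or.inr hi)))
      rw [if_neg h2, if_neg h3, mul_zero]
  · have h3 : ¬ ∀ i ∈ SS E (X ∪ Y), ω i = false := by
      intro h
      exact h1 (fun i hi => h i ((SS_union E X Y i).2 (Or.inl hi)))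
    rw [if_neg h1, if_neg h3, zero_mul]

lemma ind_nonneg (E : Finset (Finset Ω)) (X : Finset Ω) (ω : Finset Ω ⊕ Ω → Bool) :
    0 ≤ ind E X ω := by
  unfold ind
  split_ifs <;> norm_num

lemma ind_le_one (E : Finset (Finset Ω)) (X : Finset Ω) (ω : Finset Ω ⊕ Ω → Bool) :
    ind E X ω ≤ 1 := by
  unfold ind
  split_ifs <;> norm_num

variable {E : Finset (Finset Ω)} {w : Finset Ω → ℝ} {δ θ : ℝ}

lemma w_le (H : Wt Ω E w δ) (e : Finset Ω) (he : e ∈ E) : w e ≤ 1 := by
  have hc := H.card e he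
  have hne : e.Nonempty := by
    rw [← Finset.card_pos]
    omega
  obtain ⟨x, hx⟩ := hne
  refine le_trans ?_ (H.deg x)
  apply Finset.single_le_sum (f := fun e => w e) (s := E.filter (fun e => x ∈ e))
  · intro f hf
    exact H.nonneg f (Finset.mem_filter.1 hf).1
  · exact Finset.mem_filter.2 ⟨he, hx⟩

lemma ppi_ge (H : Wt Ω E w δ) (h0 : 0 < θ) (h1 : θ ≤ 1 / 10) (x : Ω) :
    1 - θ ≤ ppi E w θ x := by
  unfold ppi
  have h := one_sub_sum_le_prod (E.filter (fun f => x ∈ f)) (fun f => θ * w f)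
    (fun f hf => mul_nonneg h0.le (H.nonneg f (Finset.mem_filter.1 hf).1))
    (fun f hf => by
      have := w_le H f (Finset.mem_filter.1 hf).1
      have := H.nonneg f (Finset.mem_filter.1 hf).1
      nlinarith)
  rw [← Finset.mul_sum] at h
  have h2 := mul_le_mul_of_nonneg_left (H.deg x) h0.le
  linarith

lemma ppi_le_one (H : Wt Ω E w δ) (h0 : 0 < θ) (h1 : θ ≤ 1 / 10) (x : Ω) :
    ppi E w θ x ≤ 1 := by
  unfold ppi
  apply Finset.prod_le_one
  · intro f hf
    have := w_le H f (Finset.mem_filter.1 hf).1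
    have := H.nonneg f (Finset.mem_filter.1 hf).1
    nlinarith
  · intro f hf
    have := mul_nonneg h0.le (H.nonneg f (Finset.mem_filter.1 hf).1)
    linarith

lemma pr_nonneg (H : Wt Ω E w δ) (h0 : 0 < θ) (h1 : θ ≤ 1 / 10) (i : Finset Ω ⊕ Ω) :
    0 ≤ pr E w θ i := by
  unfold pr
  rcases i with f | x
  · simp only [Sum.elim_inl]
    split_ifs with hf
    · exact mul_nonneg h0.le (H.nonneg f hf)
    · exact le_refl _
  · simp only [Sum.elim_inr]
    have h2 := ppi_ge H h0 h1 x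
    have h3 : (1 - θ) / ppi E w θ x ≤ 1 := by
      rw [div_le_one (by linarith)]
      exact h2
    linarith

lemma pr_le_one (H : Wt Ω E w δ) (h0 : 0 < θ) (h1 : θ ≤ 1 / 10) (i : Finset Ω ⊕ Ω) :
    pr E w θ i ≤ 1 := by
  unfold pr
  rcases i with f | x
  · simp only [Sum.elim_inl]
    split_ifs with hf
    · have := w_le H f hf
      have := H.nonneg f hf
      nlinarith
    · exact zero_le_one
  · simp only [Sum.elim_inr]
    have h2 := ppi_ge H h0 h1 x
    have h3 : 0 ≤ (1 - θ) / ppi E w θ x := div_nonneg (by linarith) (by linarith)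
    linarith

/-- the correlation correction -/
noncomputable def DD (E : Finset (Finset Ω)) (w : Finset Ω → ℝ) (θ : ℝ) (X : Finset Ω) : ℝ :=
  ∏ f ∈ E, (1 - θ * w f) ^ ((X.filter (fun x => x ∈ f)).card - 1)

/-- survival probability -/
noncomputable def PP (E : Finset (Finset Ω)) (w : Finset Ω → ℝ) (θ : ℝ) (X : Finset Ω) : ℝ :=
  Ex (pr E w θ) (ind E X)

lemma PP_eq (X : Finset Ω) : PP E w θ X = ∏ i ∈ SS E X, (1 - pr E w θ i) :=
  ex_off (pr E w θ) (SS E X)

lemma PP_mul_DD (H : Wt Ω E w δ) (h0 : 0 < θ) (h1 : θ ≤ 1 / 10) (X : Finset Ω) :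
    PP E w θ X * DD E w θ X = (1 - θ) ^ X.card := by
  rw [PP_eq]
  unfold SS
  rw [Finset.prod_disjSum]
  have e1 : ∏ x ∈ X, (1 - pr E w θ (Sum.inr x)) = (1 - θ) ^ X.card / ∏ x ∈ X, ppi E w θ x := by
    have : ∀ x ∈ X, 1 - pr E w θ (Sum.inr x) = (1 - θ) / ppi E w θ x := by
      intro x _
      unfold pr
      simp only [Sum.elim_inr]
      ring
    rw [Finset.prod_congr rfl this, Finset.prod_div_distrib, Finset.prod_const]
  have e2 : ∏ x ∈ X, ppi E w θ x =
      ∏ f ∈ E, (1 - θ * w f) ^ ((X.filter (fun x => x ∈ f)).card) := by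
    unfold ppi
    simp_rw [Finset.prod_filter]
    rw [Finset.prod_comm]
    apply Finset.prod_congr rfl
    intro f _
    rw [← Finset.prod_filter, Finset.prod_const]
  have e3 : ∏ f ∈ E.filter (fun f => ¬ Disjoint f X), (1 - pr E w θ (Sum.inl f)) =
      ∏ f ∈ E, (if ¬ Disjoint f X then 1 - θ * w f else 1) := by
    rw [Finset.prod_filter]
    apply Finset.prod_congr rfl
    intro f hf
    unfold pr
    simp only [Sum.elim_inl, hf, if_true]
  have e4 : (∏ f ∈ E.filter (fun f => ¬ Disjoint f X), (1 - pr E w θ (Sum.inl f))) *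
      DD E w θ X = ∏ x ∈ X, ppi E w θ x := by
    rw [e3, e2]
    unfold DD
    rw [← Finset.prod_mul_distrib]
    apply Finset.prod_congr rfl
    intro f _
    by_cases hd : Disjoint f X
    · have hz : (X.filter (fun x => x ∈ f)) = ∅ := by
        rw [Finset.filter_eq_empty_iff]
        intro x hx hxf
        exact (Finset.disjoint_left.1 hd hxf) hx
      simp [hz, hd]
    · have hpos : 0 < (X.filter (fun x => x ∈ f)).card := by
        rw [Finset.card_pos]
        rw [Finset.not_disjoint_iff] at hd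
        obtain ⟨x, hxf, hx⟩ := hd
        exact ⟨x, Finset.mem_filter.2 ⟨hx, hxf⟩⟩
      obtain ⟨k, hk⟩ : ∃ k, (X.filter (fun x => x ∈ f)).card = k + 1 := ⟨_, (Nat.succ_pred_eq_of_pos hpos).symm⟩
      rw [hk, if_pos hd, Nat.add_sub_cancel, pow_succ]
      ring
  have hpp : (0 : ℝ) < ∏ x ∈ X, ppi E w θ x := by
    apply Finset.prod_pos
    intro x _
    have := ppi_ge H h0 h1 x
    linarith
  rw [e1]
  have : ∀ a b c d : ℝ, a * (b / c) * d = (a * d) * b / c := by
    intro a b c d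
    ring
  rw [this, e4]
  rw [mul_comm, mul_div_assoc, div_self hpp.ne', mul_one]

lemma DD_le_one (H : Wt Ω E w δ) (h0 : 0 < θ) (h1 : θ ≤ 1 / 10) (X : Finset Ω) :
    DD E w θ X ≤ 1 := by
  unfold DD
  apply Finset.prod_le_one
  · intro f hf
    have := w_le H f hf
    have := H.nonneg f hf
    apply pow_nonneg
    nlinarith
  · intro f hf
    have := w_le H f hf
    have h2 := H.nonneg f hf
    have h3 := mul_nonneg h0.le h2
    apply pow_le_one₀
    · nlinarith
    · linarith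

lemma DD_pos (H : Wt Ω E w δ) (h0 : 0 < θ) (h1 : θ ≤ 1 / 10) (X : Finset Ω) :
    0 < DD E w θ X := by
  unfold DD
  apply Finset.prod_pos
  intro f hf
  have := w_le H f hf
  have := H.nonneg f hf
  apply pow_pos
  nlinarith

lemma DD_one (X : Finset Ω) (hX : X.card ≤ 1) : DD E w θ X = 1 := by
  unfold DD
  apply Finset.prod_eq_one
  intro f _
  have : (X.filter (fun x => x ∈ f)).card ≤ X.card := Finset.card_filter_le _ _
  have h2 : (X.filter (fun x => x ∈ f)).card - 1 = 0 := by omega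
  rw [h2, pow_zero]

lemma PP_single (H : Wt Ω E w δ) (h0 : 0 < θ) (h1 : θ ≤ 1 / 10) (x : Ω) :
    PP E w θ {x} = 1 - θ := by
  have h := PP_mul_DD H h0 h1 {x}
  rw [DD_one {x} (by simp)] at h
  simpa using h

lemma sub_one_le (k : ℕ) : ((k - 1 : ℕ) : ℝ) ≤ ((k * k - k : ℕ) : ℝ) := by
  have : k - 1 ≤ k * k - k := by
    rcases k with _ | k
    · simp
    · have : (k + 1) * (k + 1) - (k + 1) = (k + 1) * k := by
        rw [← Nat.mul_sub_one]
        simp
      rw [this]
      simp only [Nat.add_sub_cancel]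
      nlinarith
  exact_mod_cast this

lemma DD_ge (H : Wt Ω E w δ) (h0 : 0 < θ) (h1 : θ ≤ 1 / 10) (hδ : 0 < δ) (X : Finset Ω)
    (hX : X.card ≤ 5) : 1 - 2 * δ ≤ DD E w θ X := by
  have key : ∑ f ∈ E, (((X.filter (fun x => x ∈ f)).card - 1 : ℕ) : ℝ) * (θ * w f) ≤ 2 * δ := by
    have s1 : ∑ f ∈ E, (((X.filter (fun x => x ∈ f)).card - 1 : ℕ) : ℝ) * (θ * w f) ≤
        ∑ f ∈ E, ∑ q ∈ X.offDiag, (if q.1 ∈ f ∧ q.2 ∈ f then θ * w f else 0) := by
      apply Finset.sum_le_sum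
      intro f hf
      have e1 : ∑ q ∈ X.offDiag, (if q.1 ∈ f ∧ q.2 ∈ f then θ * w f else 0) =
          ((X.filter (fun x => x ∈ f)).offDiag.card : ℝ) * (θ * w f) := by
        rw [← Finset.sum_filter, Finset.sum_const, nsmul_eq_mul]
        congr 2
        congr 1
        ext q
        simp only [Finset.mem_filter, Finset.mem_offDiag]
        tauto
      rw [e1, Finset.offDiag_card]
      apply mul_le_mul_of_nonneg_right (sub_one_le _)
      exact mul_nonneg h0.le (H.nonneg f hf)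
    have s2 : ∑ f ∈ E, ∑ q ∈ X.offDiag, (if q.1 ∈ f ∧ q.2 ∈ f then θ * w f else 0) ≤
        ∑ q ∈ X.offDiag, θ * δ := by
      rw [Finset.sum_comm]
      apply Finset.sum_le_sum
      intro q hq
      rw [← Finset.sum_filter, ← Finset.mul_sum]
      apply mul_le_mul_of_nonneg_left _ h0.le
      exact H.codeg q.1 q.2 (Finset.mem_offDiag.1 hq).2.2
    have s3 : ∑ q ∈ X.offDiag, θ * δ ≤ 20 * (θ * δ) := by
      rw [Finset.sum_const, nsmul_eq_mul, Finset.offDiag_card]
      apply mul_le_mul_of_nonneg_right _ (mul_nonneg h0.le hδ.le)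
      have : X.card * X.card - X.card ≤ 20 := by
        interval_cases X.card <;> norm_num
      exact_mod_cast this
    have s4 : 20 * (θ * δ) ≤ 2 * δ := by nlinarith
    linarith
  unfold DD
  have h := one_sub_sum_le_prod E (fun f => 1 - (1 - θ * w f) ^ ((X.filter (fun x => x ∈ f)).card - 1))
    (fun f hf => by
      have := w_le H f hf
      have h2 := H.nonneg f hf
      have h3 := mul_nonneg h0.le h2
      have : (1 - θ * w f) ^ ((X.filter (fun x => x ∈ f)).card - 1) ≤ 1 := by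
        apply pow_le_one₀
        · nlinarith
        · linarith
      linarith)
    (fun f hf => by
      have := w_le H f hf
      have h2 := H.nonneg f hf
      have h3 := mul_nonneg h0.le h2
      have : 0 ≤ (1 - θ * w f) ^ ((X.filter (fun x => x ∈ f)).card - 1) := by
        apply pow_nonneg
        nlinarith
      linarith)
  simp only [sub_sub_cancel] at h
  refine le_trans ?_ h
  have : ∑ f ∈ E, (1 - (1 - θ * w f) ^ ((X.filter (fun x => x ∈ f)).card - 1)) ≤ 2 * δ := by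
    refine le_trans ?_ key
    apply Finset.sum_le_sum
    intro f hf
    have := w_le H f hf
    have h2 := H.nonneg f hf
    have hb := one_add_mul_le_pow (a := -(θ * w f)) (by nlinarith)
      ((X.filter (fun x => x ∈ f)).card - 1)
    have e : 1 - θ * w f = 1 + -(θ * w f) := by ring
    rw [e]
    linarith
  linarith

lemma PP_ge (H : Wt Ω E w δ) (h0 : 0 < θ) (h1 : θ ≤ 1 / 10) (X : Finset Ω) :
    (1 - θ) ^ X.card ≤ PP E w θ X := by
  rw [← PP_mul_DD H h0 h1 X]
  have hp : 0 ≤ PP E w θ X := by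
    rw [PP_eq]
    apply Finset.prod_nonneg
    intro i _
    linarith [pr_le_one H h0 h1 i]
  have := DD_le_one H h0 h1 X
  nlinarith

lemma PP_le (H : Wt Ω E w δ) (h0 : 0 < θ) (h1 : θ ≤ 1 / 10) (hδ : 0 < δ) (hδ1 : δ ≤ 1 / 6)
    (X : Finset Ω) (hX : X.card ≤ 5) : PP E w θ X ≤ (1 - θ) ^ X.card * (1 + 3 * δ) := by
  have h := PP_mul_DD H h0 h1 X
  have hp : 0 ≤ PP E w θ X := by
    rw [PP_eq]
    apply Finset.prod_nonneg
    intro i _
    linarith [pr_le_one H h0 h1 i]
  have h2 := DD_ge H h0 h1 hδ X hX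
  rw [← h]
  have h3 : 1 ≤ DD E w θ X * (1 + 3 * δ) := by
    have : (1 - 2 * δ) * (1 + 3 * δ) ≤ DD E w θ X * (1 + 3 * δ) :=
      mul_le_mul_of_nonneg_right h2 (by linarith)
    nlinarith
  nlinarith

lemma PP_mono (H : Wt Ω E w δ) (h0 : 0 < θ) (h1 : θ ≤ 1 / 10) (X Y : Finset Ω) :
    PP E w θ (X ∪ Y) ≤ PP E w θ X := by
  unfold PP
  apply ex_mono _ (pr_nonneg H h0 h1) (pr_le_one H h0 h1)
  intro ω
  rw [← ind_mul]
  have := ind_nonneg E X ω
  have := ind_le_one E Y ω
  nlinarith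

/-- degree of a vertex -/
noncomputable def dg1 (E : Finset (Finset Ω)) (w : Finset Ω → ℝ) (x : Ω) : ℝ :=
  ∑ e ∈ E.filter (fun e => x ∈ e), w e

/-- new degree of a vertex -/
noncomputable def YY (E : Finset (Finset Ω)) (w : Finset Ω → ℝ) (θ : ℝ) (x : Ω)
    (ω : Finset Ω ⊕ Ω → Bool) : ℝ :=
  ∑ e ∈ E.filter (fun e => x ∈ e), w e / (1 - θ) ^ 2 * ind E e ω

lemma YY_nonneg (H : Wt Ω E w δ) (x : Ω) (ω : Finset Ω ⊕ Ω → Bool) : 0 ≤ YY E w θ x ω := by
  unfold YY
  apply Finset.sum_nonneg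
  intro e he
  have := H.nonneg e (Finset.mem_filter.1 he).1
  exact mul_nonneg (div_nonneg this (sq_nonneg _)) (ind_nonneg E e ω)

lemma YY_ind (x : Ω) (ω : Finset Ω ⊕ Ω → Bool) :
    ind E {x} ω * YY E w θ x ω = YY E w θ x ω := by
  unfold YY
  rw [Finset.mul_sum]
  apply Finset.sum_congr rfl
  intro e he
  have hx := (Finset.mem_filter.1 he).2
  have h : ind E {x} ω * ind E e ω = ind E e ω := by
    rw [ind_mul]
    congr 1
    exact Finset.union_eq_right.2 (Finset.singleton_subset_iff.2 hx)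
  calc ind E {x} ω * (w e / (1 - θ) ^ 2 * ind E e ω)
      = w e / (1 - θ) ^ 2 * (ind E {x} ω * ind E e ω) := by ring
    _ = _ := by rw [h]

lemma ex_YY (x : Ω) : Ex (pr E w θ) (YY E w θ x) =
    ∑ e ∈ E.filter (fun e => x ∈ e), w e / (1 - θ) ^ 2 * PP E w θ e := by
  unfold YY
  rw [ex_sum]
  apply Finset.sum_congr rfl
  intro e _
  exact ex_smul _ _ _

lemma ex_YY_ge (H : Wt Ω E w δ) (h0 : 0 < θ) (h1 : θ ≤ 1 / 10) (x : Ω) :
    (1 - θ) * dg1 E w x ≤ Ex (pr E w θ) (YY E w θ x) := by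
  rw [ex_YY]
  unfold dg1
  rw [Finset.mul_sum]
  apply Finset.sum_le_sum
  intro e he
  have he' := (Finset.mem_filter.1 he).1
  have h := PP_ge H h0 h1 e
  rw [H.card e he'] at h
  have hw := H.nonneg e he'
  have hq : 0 < 1 - θ := by linarith
  have h2 : 0 ≤ w e / (1 - θ) ^ 2 := div_nonneg hw (sq_nonneg _)
  calc (1 - θ) * w e = w e / (1 - θ) ^ 2 * (1 - θ) ^ 3 := by
        field_simp
    _ ≤ _ := mul_le_mul_of_nonneg_left h h2

lemma ex_YY_le (H : Wt Ω E w δ) (h0 : 0 < θ) (h1 : θ ≤ 1 / 10) (hδ : 0 < δ) (hδ1 : δ ≤ 1 / 6)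
    (x : Ω) : Ex (pr E w θ) (YY E w θ x) ≤ (1 + 3 * δ) * dg1 E w x := by
  rw [ex_YY]
  unfold dg1
  rw [Finset.mul_sum]
  apply Finset.sum_le_sum
  intro e he
  have he' := (Finset.mem_filter.1 he).1
  have h := PP_le H h0 h1 hδ hδ1 e (by rw [H.card e he']; norm_num)
  rw [H.card e he'] at h
  have hw := H.nonneg e he'
  have hq : 0 < 1 - θ := by linarith
  have h2 : 0 ≤ w e / (1 - θ) ^ 2 := div_nonneg hw (sq_nonneg _)
  calc w e / (1 - θ) ^ 2 * PP E w θ e ≤ w e / (1 - θ) ^ 2 * ((1 - θ) ^ 3 * (1 + 3 * δ)) :=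
        mul_le_mul_of_nonneg_left h h2
    _ = (1 - θ) * ((1 + 3 * δ) * w e) := by field_simp
    _ ≤ 1 * ((1 + 3 * δ) * w e) := by
        apply mul_le_mul_of_nonneg_right (by linarith)
        exact mul_nonneg (by linarith) hw
    _ = _ := one_mul _

/-- second moment -/
lemma ex_YY_sq (x : Ω) : Ex (pr E w θ) (fun ω => YY E w θ x ω * YY E w θ x ω) =
    ∑ e ∈ E.filter (fun e => x ∈ e), ∑ f ∈ E.filter (fun e => x ∈ e),
      (w e / (1 - θ) ^ 2) * (w f / (1 - θ) ^ 2) * PP E w θ (e ∪ f) := by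
  have h : (fun ω => YY E w θ x ω * YY E w θ x ω) = fun ω =>
      ∑ e ∈ E.filter (fun e => x ∈ e), ∑ f ∈ E.filter (fun e => x ∈ e),
        ((w e / (1 - θ) ^ 2) * (w f / (1 - θ) ^ 2)) * ind E (e ∪ f) ω := by
    funext ω
    unfold YY
    rw [Finset.sum_mul_sum]
    apply Finset.sum_congr rfl
    intro e _
    apply Finset.sum_congr rfl
    intro f _
    rw [← ind_mul]
    ring
  rw [h, ex_sum]
  apply Finset.sum_congr rfl
  intro e _
  rw [ex_sum]
  apply Finset.sum_congr rfl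
  intro f _
  exact ex_smul _ _ _

lemma term_le (H : Wt Ω E w δ) (h0 : 0 < θ) (h1 : θ ≤ 1 / 10) (hδ : 0 < δ) (hδ1 : δ ≤ 1 / 100)
    (x : Ω) (e f : Finset Ω) (he : e ∈ E) (hf : f ∈ E) (hxe : x ∈ e) (hxf : x ∈ f) :
    (w e / (1 - θ) ^ 2) * (w f / (1 - θ) ^ 2) * PP E w θ (e ∪ f) ≤
      (1 - θ) * (1 + 3 * δ) * (w e * w f) +
        3 * ∑ y ∈ e.erase x, (if y ∈ f then w e * w f else 0) := by
  have hwe := H.nonneg e he
  have hwf := H.nonneg f hf
  have hq : 0 < 1 - θ := by linarith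
  have hww : 0 ≤ w e * w f := mul_nonneg hwe hwf
  have h2 : 0 ≤ (w e / (1 - θ) ^ 2) * (w f / (1 - θ) ^ 2) :=
    mul_nonneg (div_nonneg hwe (sq_nonneg _)) (div_nonneg hwf (sq_nonneg _))
  by_cases hc : ∃ y ∈ e.erase x, y ∈ f
  · obtain ⟨y, hy, hyf⟩ := hc
    have hs : w e * w f ≤ ∑ y ∈ e.erase x, (if y ∈ f then w e * w f else 0) := by
      have := Finset.single_le_sum (f := fun y => if y ∈ f then w e * w f else 0)
        (s := e.erase x) (fun z _ => by
          show 0 ≤ (if z ∈ f then w e * w f else 0)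
          split_ifs
          · exact hww
          · exact le_refl _) hy
      simp only [hyf, if_true] at this
      exact this
    have h3 : PP E w θ (e ∪ f) ≤ (1 - θ) ^ 3 * (1 + 3 * δ) := by
      refine le_trans (PP_mono H h0 h1 e f) ?_
      have := PP_le H h0 h1 hδ (by linarith) e (by rw [H.card e he]; norm_num)
      rwa [H.card e he] at this
    have h4 : (w e / (1 - θ) ^ 2) * (w f / (1 - θ) ^ 2) * PP E w θ (e ∪ f) ≤
        (w e * w f) * ((1 + 3 * δ) / (1 - θ)) := by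
      calc _ ≤ (w e / (1 - θ) ^ 2) * (w f / (1 - θ) ^ 2) * ((1 - θ) ^ 3 * (1 + 3 * δ)) :=
            mul_le_mul_of_nonneg_left h3 h2
        _ = _ := by field_simp
    have h5 : (1 + 3 * δ) / (1 - θ) ≤ 3 := by
      rw [div_le_iff₀ hq]
      nlinarith
    have h6 : (w e * w f) * ((1 + 3 * δ) / (1 - θ)) ≤ (w e * w f) * 3 :=
      mul_le_mul_of_nonneg_left h5 hww
    have h7 : 0 ≤ (1 - θ) * (1 + 3 * δ) * (w e * w f) := by positivity
    linarith
  · push Not at hc
    have hcap : e ∩ f = {x} := by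
      ext y
      simp only [Finset.mem_inter, Finset.mem_singleton]
      constructor
      · rintro ⟨hye, hyf⟩
        by_contra hne
        exact hc y (Finset.mem_erase.2 ⟨hne, hye⟩) hyf
      · rintro rfl
        exact ⟨hxe, hxf⟩
    have hcard : (e ∪ f).card = 5 := by
      have := Finset.card_union_add_card_inter e f
      rw [hcap, Finset.card_singleton, H.card e he, H.card f hf] at this
      omega
    have h3 := PP_le H h0 h1 hδ (by linarith) (e ∪ f) (by omega)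
    rw [hcard] at h3
    have hs : 0 ≤ ∑ y ∈ e.erase x, (if y ∈ f then w e * w f else 0) := by
      apply Finset.sum_nonneg
      intro y _
      split_ifs
      · exact hww
      · exact le_refl _
    have h4 : (w e / (1 - θ) ^ 2) * (w f / (1 - θ) ^ 2) * PP E w θ (e ∪ f) ≤
        (1 - θ) * (1 + 3 * δ) * (w e * w f) := by
      calc _ ≤ (w e / (1 - θ) ^ 2) * (w f / (1 - θ) ^ 2) * ((1 - θ) ^ 5 * (1 + 3 * δ)) :=
            mul_le_mul_of_nonneg_left h3 h2
        _ = _ := by field_simp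
    linarith

lemma ex_YY_sq_le (H : Wt Ω E w δ) (h0 : 0 < θ) (h1 : θ ≤ 1 / 10) (hδ : 0 < δ)
    (hδ1 : δ ≤ 1 / 100) (x : Ω) :
    Ex (pr E w θ) (fun ω => YY E w θ x ω * YY E w θ x ω) ≤
      (1 - θ) * (1 + 3 * δ) * (dg1 E w x * dg1 E w x) + 6 * δ * dg1 E w x := by
  rw [ex_YY_sq]
  have s1 : ∑ e ∈ E.filter (fun e => x ∈ e), ∑ f ∈ E.filter (fun e => x ∈ e),
      (w e / (1 - θ) ^ 2) * (w f / (1 - θ) ^ 2) * PP E w θ (e ∪ f) ≤
      ∑ e ∈ E.filter (fun e => x ∈ e), ∑ f ∈ E.filter (fun e => x ∈ e),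
        ((1 - θ) * (1 + 3 * δ) * (w e * w f) +
        3 * ∑ y ∈ e.erase x, (if y ∈ f then w e * w f else 0)) := by
    apply Finset.sum_le_sum
    intro e he
    apply Finset.sum_le_sum
    intro f hf
    rw [Finset.mem_filter] at he hf
    exact term_le H h0 h1 hδ hδ1 x e f he.1 hf.1 he.2 hf.2
  refine le_trans s1 ?_
  simp_rw [Finset.sum_add_distrib]
  have s2 : ∑ e ∈ E.filter (fun e => x ∈ e), ∑ f ∈ E.filter (fun e => x ∈ e),
      (1 - θ) * (1 + 3 * δ) * (w e * w f) =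
      (1 - θ) * (1 + 3 * δ) * (dg1 E w x * dg1 E w x) := by
    unfold dg1
    rw [Finset.sum_mul_sum, Finset.mul_sum]
    apply Finset.sum_congr rfl
    intro e _
    rw [Finset.mul_sum]
  have s3 : ∑ e ∈ E.filter (fun e => x ∈ e), ∑ f ∈ E.filter (fun e => x ∈ e),
      3 * ∑ y ∈ e.erase x, (if y ∈ f then w e * w f else 0) ≤ 6 * δ * dg1 E w x := by
    unfold dg1
    rw [Finset.mul_sum]
    apply Finset.sum_le_sum
    intro e he
    rw [Finset.mem_filter] at he
    rw [← Finset.mul_sum, Finset.sum_comm]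
    have s4 : ∑ y ∈ e.erase x, ∑ f ∈ E.filter (fun e => x ∈ e),
        (if y ∈ f then w e * w f else 0) ≤ ∑ y ∈ e.erase x, w e * δ := by
      apply Finset.sum_le_sum
      intro y hy
      rw [← Finset.sum_filter, ← Finset.mul_sum]
      apply mul_le_mul_of_nonneg_left _ (H.nonneg e he.1)
      rw [Finset.filter_filter]
      exact H.codeg x y (Finset.mem_erase.1 hy).1.symm
    rw [Finset.sum_const, nsmul_eq_mul, Finset.card_erase_of_mem he.2, H.card e he.1] at s4
    norm_num at s4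
    linarith
  rw [s2]
  linarith

lemma ex_dev_le (H : Wt Ω E w δ) (h0 : 0 < θ) (h1 : θ ≤ 1 / 10) (hδ : 0 < δ)
    (hδ1 : δ ≤ 1 / 100) (x : Ω) :
    Ex (pr E w θ) (fun ω => ind E {x} ω * (YY E w θ x ω - dg1 E w x) ^ 2) ≤
      9 * δ * dg1 E w x := by
  have e1 : (fun ω => ind E {x} ω * (YY E w θ x ω - dg1 E w x) ^ 2) = fun ω =>
      (YY E w θ x ω * YY E w θ x ω) + ((-(2 * dg1 E w x)) * YY E w θ x ω +
        (dg1 E w x) ^ 2 * ind E {x} ω) := by
    funext ω
    have h := YY_ind (E := E) (w := w) (θ := θ) x ω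
    calc ind E {x} ω * (YY E w θ x ω - dg1 E w x) ^ 2
        = (ind E {x} ω * YY E w θ x ω) * YY E w θ x ω - 2 * dg1 E w x *
          (ind E {x} ω * YY E w θ x ω) + (dg1 E w x) ^ 2 * ind E {x} ω := by ring
      _ = _ := by
        rw [h]
        ring
  rw [e1, ex_add, ex_add, ex_smul, ex_smul]
  have h2 := ex_YY_sq_le H h0 h1 hδ hδ1 x
  have h3 := ex_YY_ge H h0 h1 x
  have h4 : Ex (pr E w θ) (fun ω => ind E {x} ω) = 1 - θ := PP_single H h0 h1 x
  rw [h4]
  have hd0 : 0 ≤ dg1 E w x := by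
    unfold dg1
    apply Finset.sum_nonneg
    intro e he
    exact H.nonneg e (Finset.mem_filter.1 he).1
  have hd1 : dg1 E w x ≤ 1 := H.deg x
  have h5 : 2 * dg1 E w x * ((1 - θ) * dg1 E w x) ≤
      2 * dg1 E w x * Ex (pr E w θ) (YY E w θ x) :=
    mul_le_mul_of_nonneg_left h3 (by linarith)
  have h6 : dg1 E w x * dg1 E w x ≤ dg1 E w x := by nlinarith
  have h7 : (1 - θ) * (3 * δ) * (dg1 E w x * dg1 E w x) ≤ 3 * δ * dg1 E w x := by
    calc (1 - θ) * (3 * δ) * (dg1 E w x * dg1 E w x)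
        ≤ 1 * (3 * δ) * (dg1 E w x * dg1 E w x) := by
          apply mul_le_mul_of_nonneg_right _ (mul_nonneg hd0 hd0)
          apply mul_le_mul_of_nonneg_right (by linarith) (by linarith)
      _ ≤ 1 * (3 * δ) * dg1 E w x := mul_le_mul_of_nonneg_left h6 (by linarith)
      _ = _ := by ring
  have h8 : Ex (pr E w θ) (YY E w θ x) = Ex (pr E w θ) (fun ω => YY E w θ x ω) := rfl
  rw [h8] at h5
  nlinarith

/-- excess of the new degree -/
noncomputable def UU (E : Finset (Finset Ω)) (w : Finset Ω → ℝ) (δ θ : ℝ) (x : Ω)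
    (ω : Finset Ω ⊕ Ω → Bool) : ℝ :=
  (1 / (2 * Real.sqrt δ)) * (ind E {x} ω * (YY E w θ x ω - dg1 E w x) ^ 2) +
    (Real.sqrt δ / 2) * YY E w θ x ω

lemma excess_le (H : Wt Ω E w δ) (hδ : 0 < δ) (x : Ω) (ω : Finset Ω ⊕ Ω → Bool) :
    max 0 (YY E w θ x ω - 1) ≤ UU E w δ θ x ω := by
  have hs : 0 < Real.sqrt δ := Real.sqrt_pos.2 hδ
  have hY := YY_nonneg (θ := θ) H x ω
  have hI := ind_nonneg E {x} ω
  have hd1 : dg1 E w x ≤ 1 := H.deg x
  unfold UU
  apply max_le
  · positivity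
  · by_cases h : YY E w θ x ω ≤ 1
    · have : 0 ≤ (1 / (2 * Real.sqrt δ)) * (ind E {x} ω * (YY E w θ x ω - dg1 E w x) ^ 2) +
        (Real.sqrt δ / 2) * YY E w θ x ω := by positivity
      linarith
    · push Not at h
      have hI1 : ind E {x} ω = 1 := by
        have h2 := YY_ind (E := E) (w := w) (θ := θ) x ω
        have h3 : (ind E {x} ω - 1) * YY E w θ x ω = 0 := by linarith
        rcases mul_eq_zero.1 h3 with h4 | h4
        · linarith
        · linarith
      rw [hI1, one_mul]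
      set t := YY E w θ x ω - dg1 E w x with ht
      have h5 : YY E w θ x ω - 1 ≤ t := by linarith
      have h6 : t ≤ (1 / (2 * Real.sqrt δ)) * t ^ 2 + Real.sqrt δ / 2 := by
        have h7 : 0 ≤ (t - Real.sqrt δ) ^ 2 := sq_nonneg _
        have h8 : (1 / (2 * Real.sqrt δ)) * t ^ 2 + Real.sqrt δ / 2 - t =
            (t - Real.sqrt δ) ^ 2 / (2 * Real.sqrt δ) := by
          field_simp
          ring
        have h9 : 0 ≤ (t - Real.sqrt δ) ^ 2 / (2 * Real.sqrt δ) := by positivity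
        linarith
      have h10 : Real.sqrt δ / 2 ≤ (Real.sqrt δ / 2) * YY E w θ x ω := by nlinarith
      linarith

lemma ex_UU_le (H : Wt Ω E w δ) (h0 : 0 < θ) (h1 : θ ≤ 1 / 10) (hδ : 0 < δ)
    (hδ1 : δ ≤ 1 / 100) (x : Ω) :
    Ex (pr E w θ) (UU E w δ θ x) ≤ 6 * Real.sqrt δ * dg1 E w x := by
  have hs : 0 < Real.sqrt δ := Real.sqrt_pos.2 hδ
  have hss : Real.sqrt δ * Real.sqrt δ = δ := Real.mul_self_sqrt hδ.le
  unfold UU
  rw [ex_add, ex_smul, ex_smul]
  have h2 := ex_dev_le H h0 h1 hδ hδ1 x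
  have h3 := ex_YY_le H h0 h1 hδ (by linarith) x
  have h4 : (1 / (2 * Real.sqrt δ)) *
      Ex (pr E w θ) (fun ω => ind E {x} ω * (YY E w θ x ω - dg1 E w x) ^ 2) ≤
      (1 / (2 * Real.sqrt δ)) * (9 * δ * dg1 E w x) :=
    mul_le_mul_of_nonneg_left h2 (by positivity)
  have h5 : (1 / (2 * Real.sqrt δ)) * (9 * δ * dg1 E w x) = 9 / 2 * Real.sqrt δ * dg1 E w x := by
    calc (1 / (2 * Real.sqrt δ)) * (9 * δ * dg1 E w x)
        = (1 / (2 * Real.sqrt δ)) * (9 * (Real.sqrt δ * Real.sqrt δ) * dg1 E w x) := by rw [hss]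
      _ = _ := by field_simp
  have h6 : (Real.sqrt δ / 2) * Ex (pr E w θ) (YY E w θ x) ≤
      (Real.sqrt δ / 2) * ((1 + 3 * δ) * dg1 E w x) :=
    mul_le_mul_of_nonneg_left h3 (by positivity)
  have hd0 : 0 ≤ dg1 E w x := by
    unfold dg1
    apply Finset.sum_nonneg
    intro e he
    exact H.nonneg e (Finset.mem_filter.1 he).1
  have h7 : (Real.sqrt δ / 2) * ((1 + 3 * δ) * dg1 E w x) ≤
      (Real.sqrt δ / 2) * (3 * dg1 E w x) := by
    apply mul_le_mul_of_nonneg_left _ (by positivity)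
    apply mul_le_mul_of_nonneg_right (by linarith) hd0
  have h8 : Ex (pr E w θ) (YY E w θ x) = Ex (pr E w θ) (fun ω => YY E w θ x ω) := rfl
  rw [h8] at h6
  nlinarith

/-- edges whose coin is on -/
def AA (E : Finset (Finset Ω)) (ω : Finset Ω ⊕ Ω → Bool) : Finset (Finset Ω) :=
  E.filter (fun e => ω (Sum.inl e) = true)

/-- the matching -/
def MM (E : Finset (Finset Ω)) (ω : Finset Ω ⊕ Ω → Bool) : Finset (Finset Ω) :=
  (AA E ω).filter (fun e => ∀ f ∈ AA E ω, f ≠ e → Disjoint e f)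

/-- surviving edges -/
def EE (E : Finset (Finset Ω)) (ω : Finset Ω ⊕ Ω → Bool) : Finset (Finset Ω) :=
  E.filter (fun e => ∀ i ∈ SS E e, ω i = false)

/-- new weights -/
noncomputable def ww (E : Finset (Finset Ω)) (w : Finset Ω → ℝ) (θ : ℝ)
    (ω : Finset Ω ⊕ Ω → Bool) (e : Finset Ω) : ℝ :=
  w e / (1 - θ) ^ 2 * ∏ x ∈ e, (max 1 (YY E w θ x ω))⁻¹

lemma MM_disj (ω : Finset Ω ⊕ Ω → Bool) : (MM E ω : Set (Finset Ω)).PairwiseDisjoint id := by
  intro e he f hf hne
  have he' := (Finset.mem_filter.1 (Finset.mem_coe.1 he))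
  have hf' := (Finset.mem_filter.1 (Finset.mem_coe.1 hf))
  exact he'.2 f hf'.1 hne.symm

lemma MM_EE (ω : Finset Ω ⊕ Ω → Bool) (e : Finset Ω) (he : e ∈ MM E ω) (f : Finset Ω)
    (hf : f ∈ EE E ω) : Disjoint e f := by
  by_contra hd
  have he' := (Finset.mem_filter.1 he).1
  unfold AA at he'
  rw [Finset.mem_filter] at he'
  unfold EE at hf
  rw [Finset.mem_filter] at hf
  have : Sum.inl e ∈ SS E f := by
    unfold SS
    rw [Finset.inl_mem_disjSum, Finset.mem_filter]
    exact ⟨he'.1, hd⟩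
  have h2 := hf.2 _ this
  rw [he'.2] at h2
  exact Bool.noConfusion h2

lemma sum_EE (ω : Finset Ω ⊕ Ω → Bool) (g : Finset Ω → ℝ) (P : Finset Ω → Prop)
    [DecidablePred P] : ∑ e ∈ (EE E ω).filter P, g e = ∑ e ∈ E.filter P, g e * ind E e ω := by
  unfold EE
  rw [Finset.filter_filter, Finset.sum_filter, Finset.sum_filter]
  apply Finset.sum_congr rfl
  intro e _
  unfold ind
  by_cases h1 : P e
  · by_cases h2 : ∀ i ∈ SS E e, ω i = false
    · rw [if_pos ⟨h2, h1⟩, if_pos h1, if_pos h2, mul_one]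
    · rw [if_neg (fun h => h2 h.1), if_pos h1, if_neg h2, mul_zero]
  · rw [if_neg (fun h => h1 h.2), if_neg h1]

lemma mx_pos (x : Ω) (ω : Finset Ω ⊕ Ω → Bool) : 0 < (max 1 (YY E w θ x ω))⁻¹ :=
  inv_pos.2 (lt_of_lt_of_le zero_lt_one (le_max_left _ _))

lemma mx_le (x : Ω) (ω : Finset Ω ⊕ Ω → Bool) : (max 1 (YY E w θ x ω))⁻¹ ≤ 1 :=
  inv_le_one_of_one_le₀ (le_max_left _ _)

lemma ww_nonneg (H : Wt Ω E w δ) (ω : Finset Ω ⊕ Ω → Bool) (e : Finset Ω) (he : e ∈ E) :
    0 ≤ ww E w θ ω e := by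
  unfold ww
  apply mul_nonneg (div_nonneg (H.nonneg e he) (sq_nonneg _))
  apply Finset.prod_nonneg
  intro x _
  exact (mx_pos x ω).le

lemma ww_le (H : Wt Ω E w δ) (ω : Finset Ω ⊕ Ω → Bool) (e : Finset Ω) (he : e ∈ E) :
    ww E w θ ω e ≤ w e / (1 - θ) ^ 2 := by
  unfold ww
  apply mul_le_of_le_one_right (div_nonneg (H.nonneg e he) (sq_nonneg _))
  apply Finset.prod_le_one
  · intro x _
    exact (mx_pos x ω).le
  · intro x _
    exact mx_le x ω

lemma ww_le' (H : Wt Ω E w δ) (ω : Finset Ω ⊕ Ω → Bool) (e : Finset Ω) (he : e ∈ E)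
    (x : Ω) (hx : x ∈ e) :
    ww E w θ ω e ≤ w e / (1 - θ) ^ 2 * (max 1 (YY E w θ x ω))⁻¹ := by
  unfold ww
  apply mul_le_mul_of_nonneg_left _ (div_nonneg (H.nonneg e he) (sq_nonneg _))
  rw [← Finset.mul_prod_erase e _ hx]
  apply mul_le_of_le_one_right (mx_pos x ω).le
  apply Finset.prod_le_one
  · intro y _
    exact (mx_pos y ω).le
  · intro y _
    exact mx_le y ω

lemma new_wt (H : Wt Ω E w δ) (h0 : 0 < θ) (h1 : θ ≤ 1 / 10) (ω : Finset Ω ⊕ Ω → Bool) :
    Wt Ω (EE E ω) (ww E w θ ω) (δ / (1 - θ) ^ 2) := by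
  have hsub : EE E ω ⊆ E := Finset.filter_subset _ _
  refine ⟨fun e he => H.card e (hsub he), fun e he => ww_nonneg H ω e (hsub he), ?_, ?_⟩
  · intro x
    have s1 : ∑ e ∈ (EE E ω).filter (fun e => x ∈ e), ww E w θ ω e ≤
        ∑ e ∈ (EE E ω).filter (fun e => x ∈ e),
          w e / (1 - θ) ^ 2 * (max 1 (YY E w θ x ω))⁻¹ := by
      apply Finset.sum_le_sum
      intro e he
      rw [Finset.mem_filter] at he
      exact ww_le' H ω e (hsub he.1) x he.2
    refine le_trans s1 ?_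
    rw [← Finset.sum_mul, sum_EE]
    have : ∑ e ∈ E.filter (fun e => x ∈ e), w e / (1 - θ) ^ 2 * ind E e ω = YY E w θ x ω := rfl
    rw [this, ← div_eq_mul_inv]
    rw [div_le_one (lt_of_lt_of_le zero_lt_one (le_max_left _ _))]
    exact le_max_right _ _
  · intro x y hxy
    have s1 : ∑ e ∈ (EE E ω).filter (fun e => x ∈ e ∧ y ∈ e), ww E w θ ω e ≤
        ∑ e ∈ E.filter (fun e => x ∈ e ∧ y ∈ e), w e / (1 - θ) ^ 2 := by
      refine le_trans (Finset.sum_le_sum (g := fun e => w e / (1 - θ) ^ 2) ?_) ?_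
      · intro e he
        rw [Finset.mem_filter] at he
        exact ww_le H ω e (hsub he.1)
      · apply Finset.sum_le_sum_of_subset_of_nonneg
        · intro e he
          rw [Finset.mem_filter] at he ⊢
          exact ⟨hsub he.1, he.2⟩
        · intro e he _
          exact div_nonneg (H.nonneg e (Finset.mem_filter.1 he).1) (sq_nonneg _)
    refine le_trans s1 ?_
    rw [← Finset.sum_div]
    apply div_le_div_of_nonneg_right (H.codeg x y hxy) (sq_nonneg _)

lemma loss (H : Wt Ω E w δ) (h0 : 0 < θ) (ω : Finset Ω ⊕ Ω → Bool) :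
    ∑ e ∈ E, w e / (1 - θ) ^ 2 * ind E e ω - ∑ x, max 0 (YY E w θ x ω - 1) ≤
      ∑ e ∈ EE E ω, ww E w θ ω e := by
  have hsub : EE E ω ⊆ E := Finset.filter_subset _ _
  have e0 : ∑ e ∈ E, w e / (1 - θ) ^ 2 * ind E e ω = ∑ e ∈ EE E ω, w e / (1 - θ) ^ 2 := by
    have := sum_EE (E := E) ω (fun e => w e / (1 - θ) ^ 2) (fun _ => True)
    simp only [Finset.filter_true] at this
    exact this.symm
  rw [e0]
  have s1 : ∑ e ∈ EE E ω, w e / (1 - θ) ^ 2 - ∑ e ∈ EE E ω, ww E w θ ω e ≤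
      ∑ e ∈ EE E ω, ∑ x, (if x ∈ e then w e / (1 - θ) ^ 2 *
        (1 - (max 1 (YY E w θ x ω))⁻¹) else 0) := by
    rw [← Finset.sum_sub_distrib]
    apply Finset.sum_le_sum
    intro e he
    have hw : 0 ≤ w e / (1 - θ) ^ 2 := div_nonneg (H.nonneg e (hsub he)) (sq_nonneg _)
    have h := one_sub_sum_le_prod e (fun x => 1 - (max 1 (YY E w θ x ω))⁻¹)
      (fun x _ => by linarith [mx_le (E := E) (w := w) (θ := θ) x ω])
      (fun x _ => by linarith [mx_pos (E := E) (w := w) (θ := θ) x ω])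
    simp only [sub_sub_cancel] at h
    have h2 := mul_le_mul_of_nonneg_left h hw
    have e1 : ∑ x, (if x ∈ e then w e / (1 - θ) ^ 2 *
        (1 - (max 1 (YY E w θ x ω))⁻¹) else 0) =
        w e / (1 - θ) ^ 2 * ∑ x ∈ e, (1 - (max 1 (YY E w θ x ω))⁻¹) := by
      rw [Finset.sum_ite_mem, Finset.univ_inter, Finset.mul_sum]
    rw [e1]
    unfold ww
    linarith
  have s2 : ∑ e ∈ EE E ω, ∑ x, (if x ∈ e then w e / (1 - θ) ^ 2 *
        (1 - (max 1 (YY E w θ x ω))⁻¹) else 0) ≤ ∑ x, max 0 (YY E w θ x ω - 1) := by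
    rw [Finset.sum_comm]
    apply Finset.sum_le_sum
    intro x _
    rw [← Finset.sum_filter, ← Finset.sum_mul, sum_EE]
    have : ∑ e ∈ E.filter (fun e => x ∈ e), w e / (1 - θ) ^ 2 * ind E e ω = YY E w θ x ω := rfl
    rw [this]
    by_cases hY : YY E w θ x ω ≤ 1
    · rw [max_eq_left hY]
      simp
    · push Not at hY
      rw [max_eq_right hY.le]
      have hne : YY E w θ x ω ≠ 0 := by linarith
      refine le_trans (le_of_eq ?_) (le_max_right _ _)
      field_simp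
  linarith

/-- coins which must be off for `e` to be isolated -/
def SM (E : Finset (Finset Ω)) (e : Finset Ω) : Finset (Finset Ω ⊕ Ω) :=
  (E.filter (fun f => f ≠ e ∧ ¬ Disjoint e f)).disjSum ∅

lemma mem_MM (ω : Finset Ω ⊕ Ω → Bool) (e : Finset Ω) : e ∈ MM E ω ↔
    e ∈ E ∧ (ω (Sum.inl e) = true ∧ ∀ i ∈ SM E e, ω i = false) := by
  unfold MM AA
  simp only [Finset.mem_filter]
  constructor
  · rintro ⟨⟨h1, h2⟩, h3⟩
    refine ⟨h1, h2, ?_⟩
    intro i hi
    unfold SM at hi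
    rw [Finset.mem_disjSum] at hi
    rcases hi with ⟨f, hf, rfl⟩ | ⟨x, hx, _⟩
    · rw [Finset.mem_filter] at hf
      by_contra hc
      have hc' : ω (Sum.inl f) = true := by
        cases hb : ω (Sum.inl f)
        · exact absurd hb hc
        · rfl
      exact hf.2.2 (h3 f ⟨hf.1, hc'⟩ hf.2.1)
    · exact absurd hx (Finset.notMem_empty x)
  · rintro ⟨h1, h2, h3⟩
    refine ⟨⟨h1, h2⟩, ?_⟩
    rintro f ⟨hf, hfo⟩ hne
    by_contra hd
    have : Sum.inl f ∈ SM E e := by
      unfold SM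
      rw [Finset.inl_mem_disjSum, Finset.mem_filter]
      exact ⟨hf, hne, hd⟩
    have h4 := h3 _ this
    rw [hfo] at h4
    exact Bool.noConfusion h4

lemma card_MM (ω : Finset Ω ⊕ Ω → Bool) : ((MM E ω).card : ℝ) =
    ∑ e ∈ E, (if ω (Sum.inl e) = true ∧ ∀ i ∈ SM E e, ω i = false then (1 : ℝ) else 0) := by
  have h : MM E ω = E.filter (fun e => ω (Sum.inl e) = true ∧ ∀ i ∈ SM E e, ω i = false) := by
    ext e
    rw [mem_MM, Finset.mem_filter]
  rw [h, Finset.card_filter]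
  push_cast
  rfl

lemma ex_MM (H : Wt Ω E w δ) (h0 : 0 < θ) (h1 : θ ≤ 1 / 10) :
    θ * (1 - 3 * θ) * ∑ e ∈ E, w e ≤ Ex (pr E w θ) (fun ω => ((MM E ω).card : ℝ)) := by
  have e0 : (fun ω => ((MM E ω).card : ℝ)) = fun ω =>
      ∑ e ∈ E, (if ω (Sum.inl e) = true ∧ ∀ i ∈ SM E e, ω i = false then (1 : ℝ) else 0) := by
    funext ω
    exact card_MM ω
  rw [e0, ex_sum, Finset.mul_sum]
  apply Finset.sum_le_sum
  intro e he
  have hne : Sum.inl e ∉ SM E e := by
    unfold SM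
    rw [Finset.inl_mem_disjSum, Finset.mem_filter]
    intro h
    exact h.2.1 rfl
  rw [ex_on_off _ _ _ hne]
  have e1 : pr E w θ (Sum.inl e) = θ * w e := by
    unfold pr
    simp only [Sum.elim_inl, he, if_true]
  have e2 : ∏ i ∈ SM E e, (1 - pr E w θ i) =
      ∏ f ∈ E.filter (fun f => f ≠ e ∧ ¬ Disjoint e f), (1 - θ * w f) := by
    unfold SM
    rw [Finset.prod_disjSum, Finset.prod_empty, mul_one]
    apply Finset.prod_congr rfl
    intro f hf
    unfold pr
    simp only [Sum.elim_inl, (Finset.mem_filter.1 hf).1, if_true]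
  rw [e1, e2]
  have h := one_sub_sum_le_prod (E.filter (fun f => f ≠ e ∧ ¬ Disjoint e f)) (fun f => θ * w f)
    (fun f hf => mul_nonneg h0.le (H.nonneg f (Finset.mem_filter.1 hf).1))
    (fun f hf => by
      have := w_le H f (Finset.mem_filter.1 hf).1
      have := H.nonneg f (Finset.mem_filter.1 hf).1
      nlinarith)
  have h3 : ∑ f ∈ E.filter (fun f => f ≠ e ∧ ¬ Disjoint e f), θ * w f ≤ 3 * θ := by
    rw [← Finset.mul_sum]
    have s1 : ∑ f ∈ E.filter (fun f => f ≠ e ∧ ¬ Disjoint e f), w f ≤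
        ∑ f ∈ E, ∑ x ∈ e, (if x ∈ f then w f else 0) := by
      rw [Finset.sum_filter]
      apply Finset.sum_le_sum
      intro f hf
      have hnn : ∀ x ∈ e, 0 ≤ (if x ∈ f then w f else 0) := by
        intro x _
        split_ifs
        · exact H.nonneg f hf
        · exact le_refl _
      split_ifs with hc
      · obtain ⟨x, hxe, hxf⟩ := Finset.not_disjoint_iff.1 hc.2
        have := Finset.single_le_sum (f := fun x => if x ∈ f then w f else 0) hnn hxe
        simp only [hxf, if_true] at this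
        exact this
      · exact Finset.sum_nonneg hnn
    have s2 : ∑ f ∈ E, ∑ x ∈ e, (if x ∈ f then w f else 0) ≤ 3 := by
      rw [Finset.sum_comm]
      have : ∑ x ∈ e, ∑ f ∈ E, (if x ∈ f then w f else 0) ≤ ∑ x ∈ e, (1 : ℝ) := by
        apply Finset.sum_le_sum
        intro x _
        rw [← Finset.sum_filter]
        exact H.deg x
      rw [Finset.sum_const, H.card e he] at this
      norm_num at this
      exact this
    nlinarith
  have h4 : 1 - 3 * θ ≤ ∏ f ∈ E.filter (fun f => f ≠ e ∧ ¬ Disjoint e f), (1 - θ * w f) := by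
    linarith
  have h5 := mul_le_mul_of_nonneg_left h4 (mul_nonneg h0.le (H.nonneg e he))
  linarith

lemma ex_surv (H : Wt Ω E w δ) (h0 : 0 < θ) (h1 : θ ≤ 1 / 10) :
    (1 - θ) * ∑ e ∈ E, w e ≤
      Ex (pr E w θ) (fun ω => ∑ e ∈ E, w e / (1 - θ) ^ 2 * ind E e ω) := by
  rw [ex_sum, Finset.mul_sum]
  apply Finset.sum_le_sum
  intro e he
  rw [ex_smul]
  have h := PP_ge H h0 h1 e
  rw [H.card e he] at h
  have hw := H.nonneg e he
  have hq : 0 < 1 - θ := by linarith
  have h2 : 0 ≤ w e / (1 - θ) ^ 2 := div_nonneg hw (sq_nonneg _)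
  calc (1 - θ) * w e = w e / (1 - θ) ^ 2 * (1 - θ) ^ 3 := by
        field_simp
    _ ≤ _ := mul_le_mul_of_nonneg_left h h2

lemma sum_dg (H : Wt Ω E w δ) : ∑ x, dg1 E w x = 3 * ∑ e ∈ E, w e := by
  unfold dg1
  simp_rw [Finset.sum_filter]
  rw [Finset.sum_comm, Finset.mul_sum]
  apply Finset.sum_congr rfl
  intro e he
  rw [Finset.sum_ite_mem, Finset.univ_inter, Finset.sum_const, H.card e he]
  simp

lemma main_small (H : Wt Ω E w δ) (h0 : 0 < θ) (h1 : θ ≤ 1 / 10) (hδ : 0 < δ)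
    (hδ1 : δ ≤ 1 / 100) (c : ℝ) (hc0 : 0 ≤ c) (hc1 : c ≤ 1) :
    ∃ ω : Finset Ω ⊕ Ω → Bool,
      (θ * (1 - 3 * θ) + c * (1 - θ) - 100 * Real.sqrt δ) * ∑ e ∈ E, w e
      ≤ ((MM E ω).card : ℝ) + c * ∑ e ∈ EE E ω, ww E w θ ω e := by
  obtain ⟨ω, hω⟩ := ex_exists (pr E w θ) (pr_nonneg H h0 h1) (pr_le_one H h0 h1)
    (fun ω => ((MM E ω).card : ℝ) + c * ((∑ e ∈ E, w e / (1 - θ) ^ 2 * ind E e ω) -
      ∑ x, UU E w δ θ x ω))
  refine ⟨ω, ?_⟩
  have hW : 0 ≤ ∑ e ∈ E, w e := Finset.sum_nonneg H.nonneg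
  have hs : 0 < Real.sqrt δ := Real.sqrt_pos.2 hδ
  have g1 : (fun ω => ((MM E ω).card : ℝ) + c * ((∑ e ∈ E, w e / (1 - θ) ^ 2 * ind E e ω) -
      ∑ x, UU E w δ θ x ω)) ω ≤ ((MM E ω).card : ℝ) + c * ∑ e ∈ EE E ω, ww E w θ ω e := by
    have l1 := loss (θ := θ) H h0 ω
    have l2 : ∑ x, max 0 (YY E w θ x ω - 1) ≤ ∑ x, UU E w δ θ x ω :=
      Finset.sum_le_sum (fun x _ => excess_le H hδ x ω)
    have l3 : (∑ e ∈ E, w e / (1 - θ) ^ 2 * ind E e ω) - ∑ x, UU E w δ θ x ω ≤
        ∑ e ∈ EE E ω, ww E w θ ω e := by linarith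
    have l4 := mul_le_mul_of_nonneg_left l3 hc0
    simp only
    linarith
  have g2 : (θ * (1 - 3 * θ) + c * (1 - θ) - 100 * Real.sqrt δ) * ∑ e ∈ E, w e ≤
      Ex (pr E w θ) (fun ω => ((MM E ω).card : ℝ) +
        c * ((∑ e ∈ E, w e / (1 - θ) ^ 2 * ind E e ω) - ∑ x, UU E w δ θ x ω)) := by
    rw [ex_add, ex_smul, ex_sub, ex_sum (pr E w θ) Finset.univ]
    have m1 := ex_MM H h0 h1
    have m2 := ex_surv H h0 h1
    have m3 : ∑ x, Ex (pr E w θ) (UU E w δ θ x) ≤ 18 * Real.sqrt δ * ∑ e ∈ E, w e := by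
      have : ∑ x, Ex (pr E w θ) (UU E w δ θ x) ≤ ∑ x, 6 * Real.sqrt δ * dg1 E w x :=
        Finset.sum_le_sum (fun x _ => ex_UU_le H h0 h1 hδ hδ1 x)
      rw [← Finset.mul_sum, sum_dg H] at this
      linarith
    have m4 : (1 - θ) * ∑ e ∈ E, w e - 18 * Real.sqrt δ * ∑ e ∈ E, w e ≤
        Ex (pr E w θ) (fun ω => ∑ e ∈ E, w e / (1 - θ) ^ 2 * ind E e ω) -
          ∑ x, Ex (pr E w θ) (UU E w δ θ x) := by linarith
    have m5 := mul_le_mul_of_nonneg_left m4 hc0
    have m6 : 0 ≤ Real.sqrt δ * ∑ e ∈ E, w e := mul_nonneg hs.le hW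
    have m7 : c * (18 * Real.sqrt δ * ∑ e ∈ E, w e) ≤ 100 * (Real.sqrt δ * ∑ e ∈ E, w e) := by
      nlinarith
    nlinarith
  linarith

end main

end STEP_

open STEP_ in
/-- one step of the nibble -/
theorem p_STEP : T_STEP := by
  refine ⟨100, by norm_num, ?_⟩
  intro θ δ c h0 h1 hδ hδ1 hc0 hc1 Ω _ _ E w H
  have hW : 0 ≤ ∑ e ∈ E, w e := Finset.sum_nonneg H.nonneg
  have hq : 0 < (1 - θ) ^ 2 := by
    have : 0 < 1 - θ := by linarith
    positivity
  by_cases hd : δ ≤ 1 / 100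
  · obtain ⟨ω, hω⟩ := main_small H h0 h1 hδ hd c hc0 hc1
    refine ⟨MM E ω, EE E ω, ww E w θ ω, ?_, Finset.filter_subset _ _, MM_disj ω,
      fun e he f hf => MM_EE ω e he f hf, new_wt H h0 h1 ω, hω⟩
    intro e he
    exact ((mem_MM ω e).1 he).1
  · push Not at hd
    refine ⟨∅, ∅, w, Finset.empty_subset _, Finset.empty_subset _, ?_, ?_, ?_, ?_⟩
    · intro e he
      exact absurd (Finset.mem_coe.1 he) (Finset.notMem_empty e)
    · intro e he
      exact absurd he (Finset.notMem_empty e)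
    · refine ⟨?_, ?_, ?_, ?_⟩
      · intro e he
        exact absurd he (Finset.notMem_empty e)
      · intro e he
        exact absurd he (Finset.notMem_empty e)
      · intro x
        simp
      · intro x y _
        simp only [Finset.filter_empty, Finset.sum_empty]
        exact div_nonneg hδ.le hq.le
    · have hs : 1 / 10 ≤ Real.sqrt δ := by
        apply Real.le_sqrt_of_sq_le
        norm_num
        linarith
      have hcoef : θ * (1 - 3 * θ) + c * (1 - θ) - 100 * Real.sqrt δ ≤ 0 := by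
        nlinarith
      have := mul_nonpos_of_nonpos_of_nonneg hcoef hW
      simpa using this

end SpF
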