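import Pool.Agent.Spider.Trans

/-!
# Configurations and closure certificates

A configuration is built vertex by vertex: a step is free, or the new vertex is the label of an
edge, or the new vertex is joined to an old vertex by an edge with a given label.
Any two of the three members of a triple `(a,b,c)` (`c` is the label of `ab`) determine the third,
so a set of known vertices generates a closure; sizes of generating sets bound numbers of
configurations from above.
-/

namespace SpF
open Spider Finset

/-- `z` is the label of the edge `xy`: the edge has the star colour of `z`. -/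
def Lab {V : Type} (sc : SC V) (x y z : V) : Prop := x ≠ y ∧ sc.col x y = (z, z)

instance {V : Type} [DecidableEq V] (sc : SC V) (x y z : V) : Decidable (Lab sc x y z) := by
  unfold Lab; infer_instance

/-- One step of the construction of a configuration. -/
inductive Step
  | free
  | lab (a b : ℕ)
  | nbr (a c : ℕ)

/-- the vertex number `i` is built by the step -/
def Holds {V : Type} (sc : SC V) (σ : ℕ → V) (i : ℕ) : Step → Prop
  | Step.free => True
  | Step.lab a b => Lab sc (σ a) (σ b) (σ i)
  | Step.nbr a c => Lab sc (σ a) (σ i) (σ c)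

/-- `σ` is a configuration with `e` constants and the steps `st` -/
def Sat {V : Type} (sc : SC V) (e : ℕ) (st : List Step) (σ : ℕ → V) : Prop :=
  ∀ (j : ℕ) (h : j < st.length), Holds sc σ (e + j) (st.get ⟨j, h⟩)

/-- number of free steps -/
def nfree : List Step → ℕ
  | [] => 0
  | Step.free :: l => nfree l + 1
  | Step.lab _ _ :: l => nfree l
  | Step.nbr _ _ :: l => nfree l

/-- the triples `(a,b,c)`, meaning: `c` is the label of `ab`; `i` is the index of the first
new vertex -/
def triples : ℕ → List Step → List (ℕ × ℕ × ℕ)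
  | _, [] => []
  | i, Step.free :: l => triples (i + 1) l
  | i, Step.lab a b :: l => (a, b, i) :: triples (i + 1) l
  | i, Step.nbr a c :: l => (a, i, c) :: triples (i + 1) l

/-- indices used by a step are smaller than the new index, and different -/
def wf : ℕ → List Step → Bool
  | _, [] => true
  | i, Step.free :: l => wf (i + 1) l
  | i, Step.lab a b :: l => Nat.blt a i && (Nat.blt b i && (!(Nat.beq a b) && wf (i + 1) l))
  | i, Step.nbr a c :: l => Nat.blt a i && (Nat.blt c i && (!(Nat.beq a c) && wf (i + 1) l))

/-- one pass through the triples (sets of indices are coded as numbers in base two):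
two known members of a triple determine the third -/
def apl : List (ℕ × ℕ × ℕ) → ℕ → ℕ
  | [], m => m
  | t :: ts, m =>
    let A := 2 ^ t.1
    let B := 2 ^ t.2.1
    let C := 2 ^ t.2.2
    let x := Nat.land m (Nat.lor A (Nat.lor B C))
    apl ts (bif (Nat.beq x (Nat.lor A B) || (Nat.beq x (Nat.lor A C) || Nat.beq x (Nat.lor B C)))
      then Nat.lor m (Nat.lor A (Nat.lor B C)) else m)

/-- the indices `p` and `q` are identified -/
def idt (p q m : ℕ) : ℕ :=
  bif Nat.beq (Nat.land m (Nat.lor (2 ^ p) (2 ^ q))) 0 then m
  else Nat.lor m (Nat.lor (2 ^ p) (2 ^ q))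

/-- `n` passes -/
def clos (p q : ℕ) (ts : List (ℕ × ℕ × ℕ)) : ℕ → ℕ → ℕ
  | 0, m => m
  | n + 1, m => clos p q ts n (apl ts (idt p q m))

/-- code of the set coded by `B` together with the members of the list -/
def maskOf : ℕ → List ℕ → ℕ
  | B, [] => B
  | B, i :: l => maskOf (Nat.lor B (2 ^ i)) l

/-- `B` and `F` generate all indices below `m` in `n` passes, `p` and `q` being identified -/
def gen (p q : ℕ) (ts : List (ℕ × ℕ × ℕ)) (m n B : ℕ) (F : List ℕ) : Bool :=
  Nat.beq (Nat.land (clos p q ts n (maskOf B F)) (2 ^ m - 1)) (2 ^ m - 1)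

/-- check of one step which is not free, with arguments `a`, `b`, after the steps `pre` -/
def chkStep (e : ℕ) (pre : List Step) (a b : ℕ) (c : ℕ × List ℕ) : Bool :=
  gen a a (triples e pre) (e + pre.length) c.1 (Nat.lor (2 ^ e - 1) (Nat.lor (2 ^ a) (2 ^ b))) c.2 &&
  (Nat.ble (c.2.length + (bif (Nat.blt a e || Nat.blt b e) then 1 else 2)) (nfree pre) &&
    !(Nat.blt a e && Nat.blt b e))

/-- check of the construction steps; one certificate for each step -/
def chkDet (e : ℕ) : List Step → List Step → List (ℕ × List ℕ) → Bool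
  | _, [], _ => true
  | pre, Step.free :: l, _ :: cs => chkDet e (pre ++ [Step.free]) l cs
  | pre, Step.lab a b :: l, c :: cs => chkStep e pre a b c && chkDet e (pre ++ [Step.lab a b]) l cs
  | pre, Step.nbr a b :: l, c :: cs => chkStep e pre a b c && chkDet e (pre ++ [Step.nbr a b]) l cs
  | _, _ :: _, [] => false

/-- `i` is a member of the triple -/
def inT (t : ℕ × ℕ × ℕ) (i : ℕ) : Bool := Nat.beq t.1 i || (Nat.beq t.2.1 i || Nat.beq t.2.2 i)

/-- `i` and `j` lie in a common triple -/
def tog : List (ℕ × ℕ × ℕ) → ℕ → ℕ → Bool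
  | [], _, _ => false
  | t :: ts, i, j => (inT t i && inT t j) || tog ts i j

/-- check that `i = j` is impossible or costs a free parameter; `0` passes means: both
are constants, or they lie in a common triple -/
def chkCoin (e m d : ℕ) (ts : List (ℕ × ℕ × ℕ)) (i j : ℕ) : ℕ × List ℕ → Bool
  | (0, _) => (Nat.blt i e && Nat.blt j e) || tog ts i j
  | (n + 1, F) => gen i j ts m (n + 1) (2 ^ e - 1) F && Nat.blt F.length d

/-- row `i`: the pairs `(i,j), (i,j+1), …` -/
def chkRow (e m d : ℕ) (ts : List (ℕ × ℕ × ℕ)) (i : ℕ) : ℕ → List (ℕ × List ℕ) → Bool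
  | _, [] => true
  | j, c :: cs => chkCoin e m d ts i j c && chkRow e m d ts i (j + 1) cs

/-- all coincidences: the row `i` contains the certificates for `j = i+1, …, m-1` -/
def chkRows (e m d : ℕ) (ts : List (ℕ × ℕ × ℕ)) : ℕ → List (List (ℕ × List ℕ)) → Bool
  | i, [] => Nat.beq i m
  | i, R :: Rs => Nat.beq (i + 1 + R.length) m &&
      (chkRow e m d ts i (i + 1) R && chkRows e m d ts (i + 1) Rs)

/-- all fibres: fixing the vertex `i = e, …, m-1` costs a free parameter -/
def chkFibs (e m d : ℕ) (ts : List (ℕ × ℕ × ℕ)) : ℕ → List (ℕ × List ℕ) → Bool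
  | i, [] => Nat.beq i m
  | i, c :: cs => (gen i i ts m c.1 (Nat.lor (2 ^ e - 1) (2 ^ i)) c.2 && Nat.blt c.2.length d) &&
      chkFibs e m d ts (i + 1) cs

/-- the certificate is correct -/
def chk (e : ℕ) (st : List Step) (Ds : List (ℕ × List ℕ)) (Cs : List (List (ℕ × List ℕ)))
    (Fs : List (ℕ × List ℕ)) : Bool :=
  wf e st && (chkDet e [] st Ds && (chkRows e (e + st.length) (nfree st) (triples e st)
    0 Cs && chkFibs e (e + st.length) (nfree st) (triples e st) e Fs))

end SpF
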